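import Pool.Agent.P8H59.JK.AK

/-!
# Project JK, package AG: the abelian realisation of a good group
-/

namespace P8H59.JK

open Module MvPolynomial

namespace AGp

open AKp

section

variable (G : List ℕ) (i0 : Fin G.length)

def nn (b : Fin G.length) : ℕ := if b = i0 then G.get b - 1 else G.get b

abbrev AA : Type := ∀ b : Fin G.length, R (nn G i0 b)

noncomputable def VV : Subalgebra ℂ (AA G i0) where
  carrier := {x | ∀ b, co _ 0 (x b) = co _ 0 (x i0)}
  mul_mem' := by
    intro x y hx hy b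
    simp only [Set.mem_ofPred_eq] at hx hy
    rw [Pi.mul_apply, Pi.mul_apply, co_mul_zero, co_mul_zero, hx b, hy b]
  add_mem' := by
    intro x y hx hy b
    simp only [Set.mem_ofPred_eq] at hx hy
    rw [Pi.add_apply, Pi.add_apply, map_add, map_add, hx b, hy b]
  algebraMap_mem' := by
    intro r b
    exact (co_algebraMap _ r).trans (co_algebraMap _ r).symm

theorem mem_VV (x : AA G i0) : x ∈ VV G i0 ↔ ∀ b, co _ 0 (x b) = co _ 0 (x i0) := Iff.rfl

/-- the eigenvalue functional -/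
noncomputable def zc : Dual ℂ (VV G i0) :=
  co (nn G i0 i0) 0 ∘ₗ (LinearMap.proj (φ := fun b => R (nn G i0 b)) i0) ∘ₗ
    (VV G i0).val.toLinearMap

theorem zc_apply (x : VV G i0) : zc G i0 x = co _ 0 (x.1 i0) := rfl

noncomputable def fc (b : Fin G.length) : VV G i0 →ₗ[ℂ] R (nn G i0 b) :=
  LinearMap.proj b ∘ₗ (VV G i0).val.toLinearMap

theorem fc_apply (b : Fin G.length) (x : VV G i0) : fc G i0 b x = x.1 b := rfl

theorem co_zero_fc (b : Fin G.length) (x : VV G i0) : co _ 0 (x.1 b) = zc G i0 x := x.2 b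

/-- the elements supported at one block -/
noncomputable def us (b : Fin G.length) (x : R (nn G i0 b)) (hx : co _ 0 x = 0) : VV G i0 :=
  ⟨Pi.single b x, by
    have h : ∀ b', co _ 0 ((Pi.single b x : AA G i0) b') = 0 := by
      intro b'
      by_cases h : b' = b
      · subst h
        rw [Pi.single_eq_same, hx]
      · rw [Pi.single_eq_of_ne h, map_zero]
    intro b'
    rw [h, h]⟩

theorem us_same (b : Fin G.length) (x : R (nn G i0 b)) (hx : co _ 0 x = 0) :
    (us G i0 b x hx).1 b = x := Pi.single_eq_same _ _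

theorem us_ne (b b' : Fin G.length) (x : R (nn G i0 b)) (hx : co _ 0 x = 0) (h : b' ≠ b) :
    (us G i0 b x hx).1 b' = 0 := Pi.single_eq_of_ne h _

theorem ext_VV {x y : VV G i0} (h : ∀ b, x.1 b = y.1 b) : x = y :=
  Subtype.ext (funext h)

theorem finrank_VV : finrank ℂ (VV G i0) = (∑ b, nn G i0 b) + 1 := by
  set L : AA G i0 →ₗ[ℂ] ({b : Fin G.length // b ≠ i0} → ℂ) :=
    LinearMap.pi (fun b => co (nn G i0 b.1) 0 ∘ₗ
        (LinearMap.proj (φ := fun b => R (nn G i0 b)) b.1) -
      co (nn G i0 i0) 0 ∘ₗ (LinearMap.proj (φ := fun b => R (nn G i0 b)) i0)) with hL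
  have hker : LinearMap.ker L = Subalgebra.toSubmodule (VV G i0) := by
    ext x
    simp only [LinearMap.mem_ker, Subalgebra.mem_toSubmodule, mem_VV, hL]
    constructor
    · intro h b
      by_cases hb : b = i0
      · rw [hb]
      · have := congrFun h ⟨b, hb⟩
        simpa [sub_eq_zero] using this
    · intro h
      funext b
      simpa [sub_eq_zero] using h b.1
  have hsurj : LinearMap.range L = ⊤ := by
    rw [LinearMap.range_eq_top]
    intro w
    refine ⟨fun b => if hb : b ≠ i0 then algebraMap ℂ _ (w ⟨b, hb⟩) else 0, ?_⟩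
    funext b
    have h1 := co_algebraMap (nn G i0 b.1) (w b)
    have h2 : L (fun b => if hb : b ≠ i0 then algebraMap ℂ _ (w ⟨b, hb⟩) else 0) b =
        co (nn G i0 b.1) 0 (if hb : b.1 ≠ i0 then algebraMap ℂ _ (w ⟨b.1, hb⟩) else 0) -
        co (nn G i0 i0) 0 (if hb : i0 ≠ i0 then algebraMap ℂ _ (w ⟨i0, hb⟩) else 0) := rfl
    rw [h2, dif_pos b.2, dif_neg (by simp), map_zero, sub_zero]
    exact h1
  have h := LinearMap.finrank_range_add_finrank_ker L
  rw [hsurj, hker, finrank_top] at h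
  have h2 : finrank ℂ (AA G i0) = ∑ b, (nn G i0 b + 1) := by
    rw [Module.finrank_pi_fintype ℂ (M := fun b => R (nn G i0 b))]
    simp [finrank_R]
  rw [h2, Finset.sum_add_distrib] at h
  simp only [Module.finrank_pi, Finset.sum_const, Finset.card_univ, smul_eq_mul, mul_one,
    Fintype.card_fin] at h
  have h3 : Fintype.card {b : Fin G.length // b ≠ i0} = G.length - 1 := by
    rw [Fintype.card_subtype_compl, Fintype.card_fin, Fintype.card_subtype_eq]
  have h4 : 0 < G.length := i0.pos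
  have : finrank ℂ (Subalgebra.toSubmodule (VV G i0)) = finrank ℂ (VV G i0) := rfl
  omega

/-- invertibility -/
theorem exists_inv (η : VV G i0) (hη : zc G i0 η ≠ 0) : ∃ ι : VV G i0, η * ι = 1 := by
  have hu : ∀ b, ∃ y : R (nn G i0 b), η.1 b * y = 1 := fun b =>
    (isUnit_of_co _ _ (by rwa [co_zero_fc])).exists_right_inv
  choose y hy using hu
  have h1 : ∀ b, co _ 0 (y b) = (zc G i0 η)⁻¹ := by
    intro b
    have h := co_mul_zero _ (η.1 b) (y b)
    rw [hy, co_zero_one, co_zero_fc] at h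
    exact (inv_eq_of_mul_eq_one_right h.symm).symm
  refine ⟨⟨y, fun b => by rw [h1, h1]⟩, ?_⟩
  apply ext_VV
  intro b
  exact hy b

end

section main

variable {G : List ℕ} {i0 : Fin G.length}

theorem mul_ap (x y : VV G i0) (b : Fin G.length) : (x * y).1 b = x.1 b * y.1 b := rfl

theorem pow_ap (x : VV G i0) (n : ℕ) (b : Fin G.length) : (x ^ n).1 b = x.1 b ^ n := rfl

theorem us_congr {b : Fin G.length} {y y' : R (nn G i0 b)} (h : y = y') (hy : co _ 0 y = 0)
    (hy' : co _ 0 y' = 0) : us G i0 b y hy = us G i0 b y' hy' := by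
  subst h
  rfl

theorem mul_us (x : VV G i0) (b : Fin G.length) (y : R (nn G i0 b)) (hy : co _ 0 y = 0) :
    x * us G i0 b y hy = us G i0 b (x.1 b * y) (by rw [co_mul_zero, hy, mul_zero]) := by
  apply ext_VV
  intro b'
  by_cases h : b' = b
  · subst h
    rw [mul_ap, us_same, us_same]
  · rw [mul_ap, us_ne _ _ _ _ _ _ h, us_ne _ _ _ _ _ _ h, mul_zero]

variable (ξ η ι : VV G i0)

noncomputable def tau : VV G i0 :=
  ξ * ι - algebraMap ℂ (VV G i0) (zc G i0 ξ / zc G i0 η)

variable {ξ η ι}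

theorem zc_mul (x y : VV G i0) : zc G i0 (x * y) = zc G i0 x * zc G i0 y := by
  rw [zc_apply, mul_ap, co_mul_zero, zc_apply, zc_apply]

theorem zc_one : zc G i0 1 = 1 := co_zero_one _

theorem zc_alg (c : ℂ) : zc G i0 (algebraMap ℂ (VV G i0) c) = c := co_algebraMap _ c

theorem zc_iota (hι : η * ι = 1) : zc G i0 η * zc G i0 ι = 1 := by
  rw [← zc_mul, hι, zc_one]

theorem tau_zero (hι : η * ι = 1) : zc G i0 (tau ξ η ι) = 0 := by
  have h := zc_iota hι
  have h0 : zc G i0 η ≠ 0 := left_ne_zero_of_mul_eq_one h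
  rw [tau, map_sub, zc_mul, zc_alg, sub_eq_zero, eq_div_iff h0]
  linear_combination (zc G i0 ξ) * h

theorem tau_one (hι : η * ι = 1) (b : Fin G.length)
    (h : co _ 1 (ξ.1 b) * zc G i0 η - zc G i0 ξ * co _ 1 (η.1 b) ≠ 0) :
    co _ 1 ((tau ξ η ι).1 b) ≠ 0 := by
  have h1 := zc_iota hι
  have h0 : zc G i0 η ≠ 0 := left_ne_zero_of_mul_eq_one h1
  have h2 : co _ 1 ((η * ι).1 b) = 0 := by
    rw [hι]
    exact co_one_one _
  rw [mul_ap, co_mul_one, co_zero_fc, co_zero_fc] at h2
  have h4 : (tau ξ η ι).1 b = ξ.1 b * ι.1 b - algebraMap ℂ _ (zc G i0 ξ / zc G i0 η) := rfl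
  rw [h4, map_sub, co_one_algebraMap, sub_zero, co_mul_one, co_zero_fc, co_zero_fc]
  intro h3
  apply h
  linear_combination (zc G i0 η) ^ 2 * h3 - (zc G i0 ξ * zc G i0 η) * h2 +
    (-co _ 1 (ξ.1 b) * zc G i0 η + zc G i0 ξ * co _ 1 (η.1 b)) * h1

theorem tau_pow_zero (hι : η * ι = 1) (b : Fin G.length) (q : ℕ) :
    co _ 0 ((tau ξ η ι).1 b ^ (q + 1)) = 0 := by
  rw [pow_succ ((tau ξ η ι).1 b) q, co_mul_zero, co_zero_fc, tau_zero hι, mul_zero]

/-- the chains -/
noncomputable def ch (hι : η * ι = 1) (b : Fin G.length) (q : ℕ) : VV G i0 :=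
  if b = i0 then tau ξ η ι ^ q else us G i0 b ((tau ξ η ι).1 b ^ (q + 1)) (tau_pow_zero hι b q)

theorem tau_mul_ch (hι : η * ι = 1) (b : Fin G.length) (q : ℕ) :
    tau ξ η ι * ch (ξ := ξ) hι b q = ch (ξ := ξ) hι b (q + 1) := by
  unfold ch
  by_cases h : b = i0
  · rw [if_pos h, if_pos h, pow_succ']
  · rw [if_neg h, if_neg h, mul_us]
    apply us_congr
    rw [pow_succ' ((tau ξ η ι).1 b) (q + 1)]

theorem ch_end (hι : η * ι = 1) (hpos : ∀ b, 0 < G.get b) (hmax : ∀ b, b ≠ i0 → G.get b < G.get i0)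
    (b : Fin G.length) : ch (ξ := ξ) hι b (G.get b) = 0 := by
  have key : ∀ (b' : Fin G.length) (m : ℕ), nn G i0 b' + 1 ≤ m → (tau ξ η ι).1 b' ^ m = 0 := by
    intro b' m hm
    obtain ⟨r, rfl⟩ := Nat.exists_eq_add_of_le hm
    rw [pow_add ((tau ξ η ι).1 b') (nn G i0 b' + 1) r,
      pow_eq_zero_of_co _ _ (by rw [co_zero_fc, tau_zero hι]), zero_mul]
  unfold ch
  by_cases h : b = i0
  · rw [if_pos h]
    apply ext_VV
    intro b'
    rw [pow_ap]
    apply key
    subst h
    unfold nn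
    have := hpos b
    split_ifs with h'
    · subst h'
      omega
    · have := hmax b' h'
      omega
  · rw [if_neg h]
    apply ext_VV
    intro b'
    by_cases h' : b' = b
    · subst h'
      rw [us_same, key _ _ (by unfold nn; rw [if_neg h])]
      rfl
    · rw [us_ne _ _ _ _ _ _ h']
      rfl

theorem ch_indep (hι : η * ι = 1) (hpos : ∀ b, 0 < G.get b)
    (h1 : ∀ b, 1 ≤ nn G i0 b → co _ 1 (ξ.1 b) * zc G i0 η - zc G i0 ξ * co _ 1 (η.1 b) ≠ 0)
    (g : ∀ b : Fin G.length, Fin (G.get b) → ℂ)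
    (hg : ∑ b, ∑ q : Fin (G.get b), g b q • ch (ξ := ξ) hι b q = 0) : ∀ b q, g b q = 0 := by
  have hni : nn G i0 i0 + 1 = G.get i0 := by
    have := hpos i0
    unfold nn
    rw [if_pos rfl]
    omega
  have hnb : ∀ b, b ≠ i0 → nn G i0 b = G.get b := fun b hb => by
    unfold nn
    rw [if_neg hb]
  have hind0 : ∀ q : Fin (G.get i0), g i0 q = 0 := by
    have h := congrArg (fc G i0 i0) hg
    rw [map_sum, map_zero, Finset.sum_eq_single i0] at h
    · rw [map_sum] at h
      have h2 := indep_pow (nn G i0 i0) ((tau ξ η ι).1 i0) (by rw [co_zero_fc, tau_zero hι]) (by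
        rcases Nat.eq_zero_or_pos (nn G i0 i0) with h0 | h0
        · exact Or.inl h0
        · exact Or.inr (tau_one hι _ (h1 _ h0)))
      have h3 : LinearIndependent ℂ (fun q : Fin (G.get i0) => (tau ξ η ι).1 i0 ^ (q : ℕ)) := by
        have := h2.comp (Fin.cast hni.symm) (Fin.cast_injective _)
        simpa [Function.comp_def] using this
      refine Fintype.linearIndependent_iff.mp h3 (fun q => g i0 q) ?_
      rw [← h]
      refine Finset.sum_congr rfl fun q _ => ?_
      rw [map_smul, fc_apply]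
      unfold ch
      rw [if_pos rfl, pow_ap]
    · intro b _ hb
      rw [map_sum]
      refine Finset.sum_eq_zero fun q _ => ?_
      rw [map_smul, fc_apply]
      unfold ch
      rw [if_neg hb, us_ne _ _ _ _ _ _ (Ne.symm hb), smul_zero]
    · simp
  intro b
  by_cases hb : b = i0
  · subst hb
    exact hind0
  · have h := congrArg (fc G i0 b) hg
    rw [map_sum, map_zero, Finset.sum_eq_single b] at h
    · rw [map_sum] at h
      have h0 : 1 ≤ nn G i0 b := by
        rw [hnb b hb]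
        exact hpos b
      have h2 := indep_pow (nn G i0 b) ((tau ξ η ι).1 b) (by rw [co_zero_fc, tau_zero hι])
        (Or.inr (tau_one hι _ (h1 _ h0)))
      have h3 : LinearIndependent ℂ
          (fun q : Fin (G.get b) => (tau ξ η ι).1 b ^ ((q : ℕ) + 1)) := by
        have := h2.comp (fun q : Fin (G.get b) => Fin.cast (by rw [hnb b hb]) (Fin.succ q))
          (by intro q q' h; simpa [Fin.ext_iff] using h)
        simpa [Function.comp_def] using this
      refine Fintype.linearIndependent_iff.mp h3 (fun q => g b q) ?_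
      rw [← h]
      refine Finset.sum_congr rfl fun q _ => ?_
      rw [map_smul, fc_apply]
      unfold ch
      rw [if_neg hb, us_same]
    · intro b' _ hb'
      by_cases hb0 : b' = i0
      · subst hb0
        rw [Finset.sum_eq_zero fun q _ => ?_, map_zero]
        rw [hind0 q, zero_smul]
      · rw [map_sum]
        refine Finset.sum_eq_zero fun q _ => ?_
        rw [map_smul, fc_apply]
        unfold ch
        rw [if_neg hb0, us_ne _ _ _ _ _ _ (Ne.symm hb'), smul_zero]
    · simp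

/-- the action -/
noncomputable def rho : VV G i0 →ₗ[ℂ] VV G i0 →ₗ[ℂ] VV G i0 := LinearMap.mul ℂ (VV G i0)

theorem rho_apply (p y : VV G i0) : rho p y = p * y := rfl

/-- the family `y` -/
noncomputable def yv (hι : η * ι = 1) (μ : Unit → Option ℂ) :
    (Σ j : Empty ⊕ (Σ _ : Unit, Fin G.length),
      Fin (blocksOf (fun j : Empty => j.elim) (fun _ : Unit => G) μ j).Q) → VV G i0
  | ⟨Sum.inr b, q⟩ => ch (ξ := ξ) hι b.2 (q : ℕ)

/-- the family `e` -/
noncomputable def ev (hι : η * ι = 1) (μ : Unit → Option ℂ) :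
    (Σ j : Empty ⊕ (Σ _ : Unit, Fin G.length),
      Fin (blocksOf (fun j : Empty => j.elim) (fun _ : Unit => G) μ j).P) → VV G i0
  | ⟨Sum.inr b, q⟩ => ι * ch (ξ := ξ) hι b.2 (q : ℕ)

theorem yv_indep (hι : η * ι = 1) (hpos : ∀ b, 0 < G.get b)
    (h1 : ∀ b, 1 ≤ nn G i0 b → co _ 1 (ξ.1 b) * zc G i0 η - zc G i0 ξ * co _ 1 (η.1 b) ≠ 0)
    (μ : Unit → Option ℂ) : LinearIndependent ℂ (yv (ξ := ξ) hι μ) := by
  rw [Fintype.linearIndependent_iff]
  intro g hg
  rw [Fintype.sum_sigma, Fintype.sum_sum_type, Finset.univ_eq_empty (α := Empty),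
    Finset.sum_empty, zero_add, Fintype.sum_sigma] at hg
  simp only [Finset.univ_unique, Finset.sum_singleton] at hg
  have h := ch_indep (ξ := ξ) hι hpos h1 (fun b q => g ⟨Sum.inr ⟨(), b⟩, q⟩) hg
  rintro ⟨i | ⟨⟨⟩, b⟩, q⟩
  · exact i.elim
  · exact h b q

theorem ev_indep (hι : η * ι = 1) (μ : Unit → Option ℂ)
    (hy : LinearIndependent ℂ (yv (ξ := ξ) hι μ)) :
    LinearIndependent ℂ (ev (ξ := ξ) hι μ) := by
  apply LinearIndependent.of_comp (rho.flip η)
  have hemb : Function.Injective (fun x : (Σ j : Empty ⊕ (Σ _ : Unit, Fin G.length),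
      Fin (blocksOf (fun j : Empty => j.elim) (fun _ : Unit => G) μ j).P) =>
      (match x with
        | ⟨Sum.inr b, q⟩ => ⟨Sum.inr b, q⟩ : (Σ j : Empty ⊕ (Σ _ : Unit, Fin G.length),
      Fin (blocksOf (fun j : Empty => j.elim) (fun _ : Unit => G) μ j).Q))) := by
    rintro ⟨i | b, q⟩ ⟨i' | b', q'⟩ h
    · exact i.elim
    · exact i.elim
    · exact i'.elim
    have h1 : (⟨Sum.inr b, q⟩ : (Σ j : Empty ⊕ (Σ _ : Unit, Fin G.length),
      Fin (blocksOf (fun j : Empty => j.elim) (fun _ : Unit => G) μ j).Q)) = ⟨Sum.inr b', q'⟩ := h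
    obtain ⟨h2, h3⟩ := Sigma.mk.inj h1
    obtain rfl : b = b' := Sum.inr_injective h2
    rw [eq_of_heq h3]
  have h := hy.comp _ hemb
  convert h using 1
  funext x
  rcases x with ⟨i | b, q⟩
  · exact i.elim
  simp only [Function.comp_apply]
  show ι * ch (ξ := ξ) hι b.2 (q : ℕ) * η = ch (ξ := ξ) hι b.2 (q : ℕ)
  linear_combination (ch (ξ := ξ) hι b.2 (q : ℕ)) * hι

theorem rel (hι : η * ι = 1) (hpos : ∀ b, 0 < G.get b)
    (hmax : ∀ b, b ≠ i0 → G.get b < G.get i0)
    (i : Empty ⊕ (Σ _ : Unit, Fin G.length))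
    (p : Fin (blocksOf (fun j : Empty => j.elim) (fun _ : Unit => G)
      (fun _ => some (zc G i0 ξ / zc G i0 η)) i).P) :
    rho.flip ξ (ev (ξ := ξ) hι _ ⟨i, p⟩) =
      ∑ q : Fin (blocksOf (fun j : Empty => j.elim) (fun _ : Unit => G)
        (fun _ => some (zc G i0 ξ / zc G i0 η)) i).Q,
        (blocksOf (fun j : Empty => j.elim) (fun _ : Unit => G)
          (fun _ => some (zc G i0 ξ / zc G i0 η)) i).entA p q •
          yv (ξ := ξ) hι _ ⟨i, q⟩ ∧
    rho.flip η (ev (ξ := ξ) hι _ ⟨i, p⟩) =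
      ∑ q : Fin (blocksOf (fun j : Empty => j.elim) (fun _ : Unit => G)
        (fun _ => some (zc G i0 ξ / zc G i0 η)) i).Q,
        (blocksOf (fun j : Empty => j.elim) (fun _ : Unit => G)
          (fun _ => some (zc G i0 ξ / zc G i0 η)) i).entB p q •
          yv (ξ := ξ) hι _ ⟨i, q⟩ := by
  rcases i with i | b
  · exact i.elim
  have hp : (p : ℕ) < G.get b.2 := p.2
  constructor
  · have h1 := sum_jordA (n := G.get b.2) (p : ℕ) hp (zc G i0 ξ / zc G i0 η)
      (fun q : ℕ => ch (ξ := ξ) hι b.2 q) (ch_end hι hpos hmax b.2)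
    refine Eq.trans ?_ h1.symm
    show ι * ch (ξ := ξ) hι b.2 (p : ℕ) * ξ =
      (zc G i0 ξ / zc G i0 η) • ch (ξ := ξ) hι b.2 (p : ℕ) + ch (ξ := ξ) hι b.2 ((p : ℕ) + 1)
    rw [← tau_mul_ch, Algebra.smul_def]
    have h2 : ξ * ι = tau ξ η ι + algebraMap ℂ (VV G i0) (zc G i0 ξ / zc G i0 η) := by
      rw [tau, sub_add_cancel]
    linear_combination (ch (ξ := ξ) hι b.2 (p : ℕ)) * h2
  · have h1 := sum_kronA (n := G.get b.2) (p : ℕ) hp
      (fun q : Fin (G.get b.2) => ch (ξ := ξ) hι b.2 (q : ℕ))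
    refine Eq.trans ?_ h1.symm
    show ι * ch (ξ := ξ) hι b.2 (p : ℕ) * η = _
    linear_combination (ch (ξ := ξ) hι b.2 (p : ℕ)) * hι

theorem zc_ne : zc G i0 ≠ 0 := by
  intro h
  have := LinearMap.congr_fun h 1
  rw [zc_one] at this
  exact one_ne_zero this

theorem co_indep (b : Fin G.length) (hb : 1 ≤ nn G i0 b) :
    LinearIndependent ℂ ![co _ 1 ∘ₗ fc G i0 b, zc G i0] := by
  rw [LinearIndependent.pair_iff]
  intro a c hac
  obtain ⟨x, hx0, hx1⟩ := exists_co_one (nn G i0 b) hb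
  have hc : c = 0 := by
    have := LinearMap.congr_fun hac 1
    simp only [LinearMap.add_apply, LinearMap.smul_apply, LinearMap.comp_apply, fc_apply,
      LinearMap.zero_apply, smul_eq_mul, zc_one, mul_one] at this
    have h2 : co (nn G i0 b) 1 ((1 : VV G i0).1 b) = 0 := co_one_one _
    rw [h2, mul_zero, zero_add] at this
    exact this
  refine ⟨?_, hc⟩
  have := LinearMap.congr_fun hac (us G i0 b x hx0)
  rw [hc] at this
  simpa only [LinearMap.add_apply, LinearMap.smul_apply, LinearMap.comp_apply, fc_apply, us_same,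
    hx1, LinearMap.zero_apply, smul_eq_mul, mul_one, zero_mul, add_zero] using this

end main

end AGp

open AGp in
theorem piece_good (G : List ℕ) (hG : G ≠ []) (hpos : ∀ n ∈ G, 0 < n) (hgood : ¬ Bad G) :
    Piece (fun j : Empty => j.elim) (fun _ : Unit => G) := by
  classical
  have hlen : 0 < G.length := List.length_pos_iff.mpr hG
  have : Nonempty (Fin G.length) := ⟨⟨0, hlen⟩⟩
  obtain ⟨i0, hi0⟩ := Finite.exists_max (fun b : Fin G.length => G.get b)
  have hpos' : ∀ b : Fin G.length, 0 < G.get b := fun b => hpos _ (List.get_mem _ _)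
  have hmax : ∀ b, b ≠ i0 → G.get b < G.get i0 := by
    intro b hb
    refine lt_of_le_of_ne (hi0 b) fun he => hgood ⟨G.get i0, ?_, ?_⟩
    · rw [← List.duplicate_iff_two_le_count, List.duplicate_iff_exists_distinct_get]
      rcases lt_or_gt_of_ne hb with h | h
      · exact ⟨b, i0, h, he.symm, rfl⟩
      · exact ⟨i0, b, h, rfl, he.symm⟩
    · intro n hn
      obtain ⟨b', rfl⟩ := List.get_of_mem hn
      exact hi0 b'
  refine ⟨VV G i0, VV G i0, inferInstance, inferInstance, inferInstance,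
    inferInstance, rho, fun _ => zc G i0, inferInstance, inferInstance,
    ?_, ?_, ?_⟩
  · intro p p' y
    simp only [AGp.rho_apply]
    ring
  · rw [linearIndependent_unique_iff]
    exact zc_ne
  · have g1 : GenPair (VV G i0) (fun _ η => zc G i0 η ≠ 0) := GenPair.right _ zc_ne
    have g3 : GenPair (VV G i0) (fun ξ η => ∀ b : {b : Fin G.length // 1 ≤ nn G i0 b},
        (co _ 1 ∘ₗ fc G i0 b.1) ξ * zc G i0 η -
          zc G i0 ξ * (co _ 1 ∘ₗ fc G i0 b.1) η ≠ 0) := by
      apply GenPair.all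
      intro b
      exact GenPair.cross _ _ (co_indep b.1 b.2)
    refine GenPair.mono (g1.and g3) ?_
    rintro ξ η ⟨h1, h3⟩
    refine ⟨fun _ => h1, ?_⟩
    obtain ⟨ι, hι⟩ := exists_inv G i0 η h1
    have h3' : ∀ b, 1 ≤ nn G i0 b →
        co _ 1 (ξ.1 b) * zc G i0 η - zc G i0 ξ * co _ 1 (η.1 b) ≠ 0 := fun b hb => h3 ⟨b, hb⟩
    have hy := yv_indep (ξ := ξ) hι hpos' h3' (fun _ => some (zc G i0 ξ / zc G i0 η))
    have hsum : ∑ b, G.get b = (∑ b, nn G i0 b) + 1 := by
      rw [← Finset.add_sum_erase _ (fun b => G.get b) (Finset.mem_univ i0),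
        ← Finset.add_sum_erase _ (fun b => nn G i0 b) (Finset.mem_univ i0)]
      have e1 : ∑ x ∈ Finset.univ.erase i0, G.get x = ∑ x ∈ Finset.univ.erase i0, nn G i0 x := by
        refine Finset.sum_congr rfl fun x hx => ?_
        have : x ≠ i0 := Finset.ne_of_mem_erase hx
        unfold nn
        rw [if_neg this]
      have e2 : nn G i0 i0 + 1 = G.get i0 := by
        have := hpos' i0
        unfold nn
        rw [if_pos rfl]
        omega
      rw [e1]
      omega
    refine AKp.pdec_of_indep (ev (ξ := ξ) hι _) (yv (ξ := ξ) hι _) (ev_indep hι _ hy) hy ?_ ?_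
      (rel hι hpos' hmax)
    · rw [finrank_VV, Fintype.sum_sum_type, Finset.univ_eq_empty (α := Empty),
        Finset.sum_empty, zero_add, Fintype.sum_sigma, ← hsum]
      simp only [Finset.univ_unique, Finset.sum_singleton]
      rfl
    · rw [finrank_VV, Fintype.sum_sum_type, Finset.univ_eq_empty (α := Empty),
        Finset.sum_empty, zero_add, Fintype.sum_sigma, ← hsum]
      simp only [Finset.univ_unique, Finset.sum_singleton]
      rfl

end P8H59.JK
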