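import Pool.Agent.P8H59.JK.Defs

/-!
# Project JK, package GEN: generic pairs
-/

namespace P8H59.JK

open Module MvPolynomial

theorem GenPair.mono {Y : Type} [AddCommGroup Y] [Module ℂ Y] {S S' : Y → Y → Prop}
    (h : GenPair Y S) (h' : ∀ ξ η, S ξ η → S' ξ η) : GenPair Y S' := by
  obtain ⟨F, h1, h2⟩ := h
  exact ⟨F, h1, fun ξ η hF => h' _ _ (h2 ξ η hF)⟩

/-- the restriction of a polynomial to a line -/
noncomputable def lineHom {Y : Type} [AddCommGroup Y] [Module ℂ Y] (ξ η ξ' η' : Y) :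
    MvPolynomial (Dual ℂ Y ⊕ Dual ℂ Y) ℂ →ₐ[ℂ] Polynomial ℂ :=
  MvPolynomial.aeval (Sum.elim
    (fun φ => Polynomial.C (φ ξ) + Polynomial.X * Polynomial.C (φ (ξ' - ξ)))
    (fun φ => Polynomial.C (φ η) + Polynomial.X * Polynomial.C (φ (η' - η))))

theorem eval_lineHom {Y : Type} [AddCommGroup Y] [Module ℂ Y] (ξ η ξ' η' : Y) (t : ℂ)
    (F : MvPolynomial (Dual ℂ Y ⊕ Dual ℂ Y) ℂ) :
    (lineHom ξ η ξ' η' F).eval t =
      eval (Sum.elim (fun φ => φ (ξ + t • (ξ' - ξ))) (fun φ => φ (η + t • (η' - η)))) F := by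
  have h : (Polynomial.aeval t).comp (lineHom ξ η ξ' η') =
      MvPolynomial.aeval (R := ℂ) (Sum.elim (fun φ : Dual ℂ Y => φ (ξ + t • (ξ' - ξ)))
        (fun φ : Dual ℂ Y => φ (η + t • (η' - η)))) := by
    apply MvPolynomial.algHom_ext
    rintro (φ | φ)
    · simp [lineHom]
    · simp [lineHom]
  have h2 := congrArg (fun f => f F) h
  simpa [Polynomial.aeval_def, MvPolynomial.aeval_eq_eval] using h2

theorem GenPair.and {Y : Type} [AddCommGroup Y] [Module ℂ Y] {S S' : Y → Y → Prop}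
    (h : GenPair Y S) (h' : GenPair Y S') : GenPair Y (fun ξ η => S ξ η ∧ S' ξ η) := by
  obtain ⟨F, ⟨ξ, η, h1⟩, h2⟩ := h
  obtain ⟨F', ⟨ξ', η', h1'⟩, h2'⟩ := h'
  have hp : lineHom ξ η ξ' η' F ≠ 0 := by
    intro h0
    apply h1
    have := eval_lineHom ξ η ξ' η' 0 F
    rw [h0] at this
    simpa using this.symm
  have hp' : lineHom ξ η ξ' η' F' ≠ 0 := by
    intro h0
    apply h1'
    have := eval_lineHom ξ η ξ' η' 1 F'
    rw [h0] at this
    simpa using this.symm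
  obtain ⟨t, ht⟩ : ∃ t : ℂ, (lineHom ξ η ξ' η' F * lineHom ξ η ξ' η' F').eval t ≠ 0 := by
    by_contra hcon
    push Not at hcon
    exact mul_ne_zero hp hp' (Polynomial.funext fun r => by rw [hcon r, Polynomial.eval_zero])
  rw [← map_mul, eval_lineHom] at ht
  refine ⟨F * F', ⟨_, _, ht⟩, fun x y hxy => ?_⟩
  rw [map_mul] at hxy
  exact ⟨h2 _ _ (left_ne_zero_of_mul hxy), h2' _ _ (right_ne_zero_of_mul hxy)⟩

theorem GenPair.all {Y : Type} [AddCommGroup Y] [Module ℂ Y] {I : Type} [Finite I]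
    {S : I → Y → Y → Prop} (h : ∀ i, GenPair Y (S i)) : GenPair Y (fun ξ η => ∀ i, S i ξ η) := by
  classical
  have := Fintype.ofFinite I
  have key : ∀ s : Finset I, GenPair Y (fun ξ η => ∀ i ∈ s, S i ξ η) := by
    intro s
    induction s using Finset.induction_on with
    | empty => exact ⟨1, ⟨0, 0, by simp⟩, fun ξ η _ => by simp⟩
    | insert i s _ ih =>
      refine ((h i).and ih).mono fun ξ η hh j hj => ?_
      rcases Finset.mem_insert.mp hj with rfl | hj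
      · exact hh.1
      · exact hh.2 j hj
  exact (key Finset.univ).mono fun ξ η hh i => hh i (Finset.mem_univ i)

theorem GenPair.left {Y : Type} [AddCommGroup Y] [Module ℂ Y] (φ : Dual ℂ Y) (h : φ ≠ 0) :
    GenPair Y (fun ξ _ => φ ξ ≠ 0) := by
  obtain ⟨y, hy⟩ : ∃ y, φ y ≠ 0 := by
    by_contra hcon
    push Not at hcon
    exact h (LinearMap.ext hcon)
  exact ⟨X (Sum.inl φ), ⟨y, 0, by simpa using hy⟩, fun ξ η hF => by simpa using hF⟩

theorem GenPair.right {Y : Type} [AddCommGroup Y] [Module ℂ Y] (φ : Dual ℂ Y) (h : φ ≠ 0) :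
    GenPair Y (fun _ η => φ η ≠ 0) := by
  obtain ⟨y, hy⟩ : ∃ y, φ y ≠ 0 := by
    by_contra hcon
    push Not at hcon
    exact h (LinearMap.ext hcon)
  exact ⟨X (Sum.inr φ), ⟨0, y, by simpa using hy⟩, fun ξ η hF => by simpa using hF⟩

theorem GenPair.cross {Y : Type} [AddCommGroup Y] [Module ℂ Y] (φ ψ : Dual ℂ Y)
    (h : LinearIndependent ℂ ![φ, ψ]) :
    GenPair Y (fun ξ η => φ ξ * ψ η - ψ ξ * φ η ≠ 0) := by
  refine ⟨X (Sum.inl φ) * X (Sum.inr ψ) - X (Sum.inl ψ) * X (Sum.inr φ), ?_, fun ξ η hF => by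
    simpa using hF⟩
  by_contra hcon
  push Not at hcon
  have h1 : ∀ ξ η : Y, φ ξ * ψ η - ψ ξ * φ η = 0 := by
    intro ξ η
    simpa using hcon ξ η
  have h2 : ∀ ξ, φ ξ = 0 := by
    intro ξ
    have h3 := LinearIndependent.pair_iff.mp h (-ψ ξ) (φ ξ) (by
      ext η
      simp only [LinearMap.add_apply, LinearMap.smul_apply, smul_eq_mul, LinearMap.zero_apply]
      linear_combination h1 ξ η)
    exact h3.2
  have h4 : φ = 0 := LinearMap.ext h2
  exact (h.ne_zero 0) h4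

end P8H59.JK
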