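import Pool.Agent.P8H59.JK.TR
import Pool.Agent.P8H59.JK.GEN

/-!
# Project JK, package AK: the abelian realisation of a Kronecker block with bad groups
-/

namespace P8H59.JK

open Module MvPolynomial

namespace AKp

theorem pdec_of_indep {P Y : Type} [AddCommGroup P] [Module ℂ P] [AddCommGroup Y] [Module ℂ Y]
    [FiniteDimensional ℂ P] [FiniteDimensional ℂ Y] {F G : P →ₗ[ℂ] Y} {ι : Type} [Fintype ι]
    {blk : ι → Block} (e : (Σ i, Fin (blk i).P) → P) (y : (Σ i, Fin (blk i).Q) → Y)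
    (he : LinearIndependent ℂ e) (hy : LinearIndependent ℂ y)
    (ce : ∑ i, (blk i).P = finrank ℂ P) (cy : ∑ i, (blk i).Q = finrank ℂ Y)
    (h : ∀ i (p : Fin (blk i).P),
      F (e ⟨i, p⟩) = ∑ q : Fin (blk i).Q, (blk i).entA p q • y ⟨i, q⟩ ∧
      G (e ⟨i, p⟩) = ∑ q : Fin (blk i).Q, (blk i).entB p q • y ⟨i, q⟩) : PDec F G blk := by
  classical
  have he' := he.span_eq_top_of_card_eq_finrank' (by simp [ce])
  have hy' := hy.span_eq_top_of_card_eq_finrank' (by simp [cy])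
  refine ⟨Basis.mk he he'.ge, Basis.mk hy hy'.ge, fun i p => ?_⟩
  simp only [Basis.mk_apply]
  exact h i p

theorem co_one_one (n : ℕ) : co n 1 (1 : R n) = 0 := by
  have h0 : co n 0 (1 : R n) = 1 := by
    have := co_algebraMap n 1
    simpa using this
  have h := co_mul_one n 1 1
  rw [mul_one, h0] at h
  linear_combination -h

theorem co_zero_one (n : ℕ) : co n 0 (1 : R n) = 1 := by
  have := co_algebraMap n 1
  simpa using this

theorem co_one_algebraMap (n : ℕ) (c : ℂ) : co n 1 (algebraMap ℂ (R n) c) = 0 := by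
  rw [Algebra.algebraMap_eq_smul_one, map_smul, co_one_one, smul_zero]

section

variable (k : ℕ) {I : Type} (σ : I → Fin (k + 1)) (s : I → List ℕ)

abbrev Bk : Type := Σ i : I, Fin (s i).length

def nb (b : Bk s) : ℕ := (s b.1).get b.2

abbrev AA : Type := (Fin (k + 1) → ℂ) × (∀ b : Bk s, R (nb s b))

def UU : Subalgebra ℂ (AA k s) where
  carrier := {x | ∀ b : Bk s, co _ 0 (x.2 b) = x.1 (σ b.1)}
  mul_mem' := by
    intro x y hx hy b
    simp only [Set.mem_ofPred_eq] at hx hy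
    simp only [Prod.snd_mul, Pi.mul_apply, co_mul_zero, hx b, hy b, Prod.fst_mul]
  add_mem' := by
    intro x y hx hy b
    simp only [Set.mem_ofPred_eq] at hx hy
    simp only [Prod.snd_add, Pi.add_apply, map_add, hx b, hy b, Prod.fst_add]
  algebraMap_mem' := by
    intro r b
    exact co_algebraMap _ r

theorem mem_UU (x : AA k s) : x ∈ UU k σ s ↔ ∀ b : Bk s, co _ 0 (x.2 b) = x.1 (σ b.1) := Iff.rfl

/-- the `e`-coordinates -/
noncomputable def ec (t : Fin (k + 1)) : Dual ℂ (UU k σ s) :=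
  LinearMap.proj t ∘ₗ LinearMap.fst ℂ _ _ ∘ₗ (UU k σ s).val.toLinearMap

@[simp] theorem ec_apply (t : Fin (k + 1)) (x : UU k σ s) : ec k σ s t x = x.1.1 t := rfl

/-- the coordinates in the rings -/
noncomputable def fc (b : Bk s) : UU k σ s →ₗ[ℂ] R (nb s b) :=
  LinearMap.proj b ∘ₗ LinearMap.snd ℂ _ _ ∘ₗ (UU k σ s).val.toLinearMap

@[simp] theorem fc_apply (b : Bk s) (x : UU k σ s) : fc k σ s b x = x.1.2 b := rfl

theorem co_zero_fc (b : Bk s) (x : UU k σ s) : co _ 0 (x.1.2 b) = x.1.1 (σ b.1) := x.2 b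

/-- the constant elements -/
noncomputable def uc (v : Fin (k + 1) → ℂ) : UU k σ s :=
  ⟨(v, fun b => algebraMap ℂ (R (nb s b)) (v (σ b.1))), fun b => co_algebraMap _ _⟩

open Classical in
/-- the elements supported at one block -/
noncomputable def us (b : Bk s) (x : R (nb s b)) (hx : co _ 0 x = 0) : UU k σ s :=
  ⟨(0, Pi.single b x), fun b' => by
    by_cases h : b' = b
    · subst h
      simpa using hx
    · simp [Pi.single_eq_of_ne h]⟩

theorem ext_UU {x y : UU k σ s} (h1 : ∀ t, x.1.1 t = y.1.1 t) (h2 : ∀ b, x.1.2 b = y.1.2 b) :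
    x = y :=
  Subtype.ext (Prod.ext (funext h1) (funext h2))

/-- the functional whose kernel is `U₀` -/
noncomputable def sm : Dual ℂ (UU k σ s) := ∑ t, ec k σ s t

theorem sm_apply (x : UU k σ s) : sm k σ s x = ∑ t, x.1.1 t := by
  simp [sm]

variable [Fintype I]

theorem finrank_UU : finrank ℂ (UU k σ s) = (k + 1) + ∑ b : Bk s, nb s b := by
  classical
  set L : AA k s →ₗ[ℂ] (Bk s → ℂ) :=
    LinearMap.pi (fun b => co (nb s b) 0 ∘ₗ
        (LinearMap.proj (φ := fun b : Bk s => R (nb s b)) b) ∘ₗ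
          LinearMap.snd ℂ (Fin (k + 1) → ℂ) (∀ b : Bk s, R (nb s b)) -
      LinearMap.proj (σ b.1) ∘ₗ
        LinearMap.fst ℂ (Fin (k + 1) → ℂ) (∀ b : Bk s, R (nb s b))) with hL
  have hker : LinearMap.ker L = Subalgebra.toSubmodule (UU k σ s) := by
    ext x
    simp only [LinearMap.mem_ker, Subalgebra.mem_toSubmodule, mem_UU, hL]
    constructor
    · intro h b
      have := congrFun h b
      simpa [sub_eq_zero] using this
    · intro h
      funext b
      simpa [sub_eq_zero] using h b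
  have hsurj : LinearMap.range L = ⊤ := by
    rw [LinearMap.range_eq_top]
    intro w
    refine ⟨(0, fun b => algebraMap ℂ _ (w b)), ?_⟩
    funext b
    have := co_algebraMap (nb s b) (w b)
    simpa [hL, -AdjoinRoot.algebraMap_eq] using this
  have h := LinearMap.finrank_range_add_finrank_ker L
  rw [hsurj, hker, finrank_top] at h
  have h2 : finrank ℂ (AA k s) = (k + 1) + ∑ b : Bk s, (nb s b + 1) := by
    rw [Module.finrank_prod, Module.finrank_pi_fintype ℂ (M := fun b : Bk s => R (nb s b))]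
    simp [finrank_R]
  rw [h2, Finset.sum_add_distrib] at h
  simp only [Module.finrank_pi, Finset.sum_const, Finset.card_univ, smul_eq_mul, mul_one] at h
  have : finrank ℂ (Subalgebra.toSubmodule (UU k σ s)) = finrank ℂ (UU k σ s) := rfl
  omega

theorem finrank_ker_sm :
    finrank ℂ (LinearMap.ker (sm k σ s)) = k + ∑ b : Bk s, nb s b := by
  have hsurj : LinearMap.range (sm k σ s) = ⊤ := by
    rw [LinearMap.range_eq_top]
    intro w
    refine ⟨uc k σ s (Pi.single 0 w), ?_⟩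
    simp [sm_apply, uc]
  have h := LinearMap.finrank_range_add_finrank_ker (sm k σ s)
  rw [hsurj, finrank_top, finrank_UU] at h
  simp only [Module.finrank_self] at h
  omega


omit [Fintype I]

theorem co_zero_fc_ne {x : UU k σ s} (hx : ∀ t, x.1.1 t ≠ 0) (b : Bk s) :
    co _ 0 (x.1.2 b) ≠ 0 := by
  rw [co_zero_fc]
  exact hx _

/-- elements with nonzero `e`-coordinates are invertible -/
theorem exists_inv (η : UU k σ s) (hη : ∀ t, η.1.1 t ≠ 0) : ∃ ι : UU k σ s, η * ι = 1 := by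
  have hu : ∀ b, ∃ y : R (nb s b), η.1.2 b * y = 1 := fun b =>
    (isUnit_of_co _ _ (co_zero_fc_ne k σ s hη b)).exists_right_inv
  choose y hy using hu
  refine ⟨⟨(fun t => (η.1.1 t)⁻¹, y), fun b => ?_⟩, ?_⟩
  · have h := co_mul_zero _ (η.1.2 b) (y b)
    rw [hy, co_zero_one, co_zero_fc] at h
    exact (inv_eq_of_mul_eq_one_right h.symm).symm
  · apply ext_UU
    · intro t
      exact mul_inv_cancel₀ (hη t)
    · intro b
      exact hy b

/-- existence of the weights for the Kronecker block -/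
theorem exists_weights (l : Fin (k + 1) → ℂ) (hl : Function.Injective l) :
    ∃ w : Fin (k + 1) → ℂ, (∀ t, w t ≠ 0) ∧ ∀ j < k, ∑ t, l t ^ j * w t = 0 := by
  classical
  refine ⟨fun t => (Lagrange.basis Finset.univ l t).coeff k, fun t => ?_, fun j hj => ?_⟩
  · have hd := Lagrange.degree_basis (s := Finset.univ) (v := l) hl.injOn (Finset.mem_univ t)
    have hne : Lagrange.basis Finset.univ l t ≠ 0 :=
      Lagrange.basis_ne_zero hl.injOn (Finset.mem_univ t)
    have hn : (Lagrange.basis Finset.univ l t).natDegree = k := by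
      apply Polynomial.natDegree_eq_of_degree_eq_some
      rw [hd]
      simp
    have := Polynomial.leadingCoeff_ne_zero.mpr hne
    rwa [Polynomial.leadingCoeff, hn] at this
  · have h := Lagrange.eq_interpolate (s := Finset.univ) (v := l)
      (f := (Polynomial.X : Polynomial ℂ) ^ j) hl.injOn (by
        rw [Polynomial.degree_X_pow]
        simp only [Finset.card_univ, Fintype.card_fin]
        exact_mod_cast (by omega : j < k + 1))
    have h2 := congrArg (fun p => Polynomial.coeff p k) h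
    simp only [Lagrange.interpolate_apply, Polynomial.finsetSum_coeff, Polynomial.coeff_C_mul,
      Polynomial.eval_pow, Polynomial.eval_X, Polynomial.coeff_X_pow] at h2
    rw [← h2, if_neg (by omega)]


end

theorem vand (k : ℕ) (l : Fin (k + 1) → ℂ) (hl : Function.Injective l) (a : Fin (k + 1) → ℂ)
    (h : ∀ t, ∑ q : Fin (k + 1), a q * l t ^ (k - (q : ℕ)) = 0) : ∀ q, a q = 0 := by
  have hdet : (Matrix.vandermonde l).det ≠ 0 := Matrix.det_vandermonde_ne_zero_iff.mpr hl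
  have h0 : (fun q => a (Fin.rev q)) = 0 := by
    apply Matrix.eq_zero_of_mulVec_eq_zero hdet
    funext t
    simp only [Matrix.mulVec, dotProduct, Matrix.vandermonde_apply, Pi.zero_apply]
    rw [← h t]
    refine Fintype.sum_equiv Fin.revPerm _ _ fun q => ?_
    simp only [Fin.revPerm_apply, Fin.val_rev]
    rw [mul_comm]
    congr 2
    omega
  intro q
  have := congrFun h0 (Fin.rev q)
  simpa using this

theorem sum_kronA {V : Type} [AddCommGroup V] [Module ℂ V] {n : ℕ} (p : ℕ) (hp : p < n)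
    (v : Fin n → V) :
    ∑ q : Fin n, (if p = (q : ℕ) then (1 : ℂ) else 0) • v q = v ⟨p, hp⟩ := by
  rw [Finset.sum_eq_single (⟨p, hp⟩ : Fin n)]
  · simp
  · intro q _ hq
    rw [if_neg, zero_smul]
    intro h
    exact hq (Fin.ext h.symm)
  · simp

theorem sum_jordA {V : Type} [AddCommGroup V] [Module ℂ V] {n : ℕ} (p : ℕ) (hp : p < n) (μ : ℂ)
    (v : ℕ → V) (hv : v n = 0) :
    ∑ q : Fin n, (if p = (q : ℕ) then μ else if p + 1 = (q : ℕ) then (1 : ℂ) else 0) • v q =
      μ • v p + v (p + 1) := by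
  have h1 : ∀ q : Fin n, (if p = (q : ℕ) then μ else if p + 1 = (q : ℕ) then (1 : ℂ) else 0) • v q =
      μ • ((if p = (q : ℕ) then (1 : ℂ) else 0) • v q) +
        (if p + 1 = (q : ℕ) then (1 : ℂ) else 0) • v q := by
    intro q
    by_cases h : p = (q : ℕ)
    · rw [if_pos h, if_pos h, if_neg (by omega)]
      simp
    · rw [if_neg h, if_neg h]
      simp
  rw [Finset.sum_congr rfl fun q _ => h1 q, Finset.sum_add_distrib, ← Finset.smul_sum,
    sum_kronA p hp (fun q => v q)]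
  congr 1
  by_cases hpn : p + 1 < n
  · rw [sum_kronA (p + 1) hpn (fun q => v q)]
  · have : p + 1 = n := by omega
    rw [this, hv]
    refine Finset.sum_eq_zero fun q _ => ?_
    rw [if_neg (by omega), zero_smul]

section main

variable {k : ℕ} {I : Type} {σ : I → Fin (k + 1)} {s : I → List ℕ}

@[simp] theorem us_fst (b : Bk s) (x : R (nb s b)) (hx : co _ 0 x = 0) (t : Fin (k + 1)) :
    (us k σ s b x hx).1.1 t = 0 := rfl

theorem us_same (b : Bk s) (x : R (nb s b)) (hx : co _ 0 x = 0) :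
    (us k σ s b x hx).1.2 b = x := by
  classical
  simp [us]

theorem us_ne (b b' : Bk s) (x : R (nb s b)) (hx : co _ 0 x = 0) (h : b' ≠ b) :
    (us k σ s b x hx).1.2 b' = 0 := by
  classical
  exact Pi.single_eq_of_ne h _

variable (ξ η ι : UU k σ s) (w : Fin (k + 1) → ℂ)

noncomputable def lam (b : Bk s) : ℂ := ξ.1.1 (σ b.1) / η.1.1 (σ b.1)

noncomputable def cb (b : Bk s) : R (nb s b) :=
  (ξ * ι).1.2 b - algebraMap ℂ _ (lam ξ η b)

variable {ξ η ι w}

theorem mul_fst (x y : UU k σ s) (t : Fin (k + 1)) : (x * y).1.1 t = x.1.1 t * y.1.1 t := rfl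

theorem mul_snd (x y : UU k σ s) (b : Bk s) : (x * y).1.2 b = x.1.2 b * y.1.2 b := rfl

theorem pow_fst (x : UU k σ s) (n : ℕ) (t : Fin (k + 1)) : (x ^ n).1.1 t = x.1.1 t ^ n := rfl

theorem iota_fst (hι : η * ι = 1) (t : Fin (k + 1)) : η.1.1 t * ι.1.1 t = 1 := by
  rw [← mul_fst, hι]
  rfl

theorem c_fst (hι : η * ι = 1) (t : Fin (k + 1)) : (ξ * ι).1.1 t = ξ.1.1 t / η.1.1 t := by
  have h := iota_fst hι t
  have h0 : η.1.1 t ≠ 0 := left_ne_zero_of_mul_eq_one h
  rw [mul_fst, eq_div_iff h0]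
  linear_combination (ξ.1.1 t) * h

theorem co_cb_zero (hι : η * ι = 1) (b : Bk s) : co _ 0 (cb ξ η ι b) = 0 := by
  rw [cb, map_sub, co_algebraMap, co_zero_fc, c_fst hι, lam, sub_self]

theorem co_cb_one (hι : η * ι = 1) (b : Bk s)
    (h : co _ 1 (ξ.1.2 b) * η.1.1 (σ b.1) - ξ.1.1 (σ b.1) * co _ 1 (η.1.2 b) ≠ 0) :
    co _ 1 (cb ξ η ι b) ≠ 0 := by
  have h1 := iota_fst hι (σ b.1)
  have h0 : η.1.1 (σ b.1) ≠ 0 := left_ne_zero_of_mul_eq_one h1
  have h2 : co _ 1 ((η * ι).1.2 b) = 0 := by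
    rw [hι]
    exact co_one_one _
  rw [mul_snd, co_mul_one, co_zero_fc, co_zero_fc] at h2
  rw [cb, map_sub, co_one_algebraMap, sub_zero, mul_snd, co_mul_one, co_zero_fc, co_zero_fc]
  intro h3
  apply h
  linear_combination (η.1.1 (σ b.1)) ^ 2 * h3 - (ξ.1.1 (σ b.1) * η.1.1 (σ b.1)) * h2 +
    (-co _ 1 (ξ.1.2 b) * η.1.1 (σ b.1) + ξ.1.1 (σ b.1) * co _ 1 (η.1.2 b)) * h1

theorem co_cb_pow (hι : η * ι = 1) (b : Bk s) (q : ℕ) : co _ 0 (cb ξ η ι b ^ (q + 1)) = 0 := by
  rw [pow_succ (cb ξ η ι b) q, co_mul_zero, co_cb_zero hι, mul_zero]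

theorem indep_cb (hι : η * ι = 1) (b : Bk s)
    (h : co _ 1 (ξ.1.2 b) * η.1.1 (σ b.1) - ξ.1.1 (σ b.1) * co _ 1 (η.1.2 b) ≠ 0) :
    LinearIndependent ℂ (fun q : Fin (nb s b) => cb ξ η ι b ^ ((q : ℕ) + 1)) := by
  have h1 := indep_pow (nb s b) (cb ξ η ι b) (co_cb_zero hι b) (Or.inr (co_cb_one hι b h))
  have h2 := h1.comp (Fin.succ : Fin (nb s b) → Fin (nb s b + 1)) (Fin.succ_injective _)
  simpa [Function.comp_def] using h2

theorem cb_pow_zero (hι : η * ι = 1) (b : Bk s) : cb ξ η ι b ^ (nb s b + 1) = 0 :=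
  pow_eq_zero_of_co _ _ (co_cb_zero hι b)

/-- the family `y` -/
noncomputable def yv (hι : η * ι = 1) (w : Fin (k + 1) → ℂ) (μ : I → Option ℂ) :
    (Σ j : Unit ⊕ (Σ i, Fin (s i).length), Fin (blocksOf (fun _ : Unit => k) s μ j).Q) → UU k σ s
  | ⟨Sum.inl _, q⟩ => η * (ξ * ι) ^ (k - (q : ℕ)) * uc k σ s w
  | ⟨Sum.inr b, q⟩ => us k σ s b (cb ξ η ι b ^ ((q : ℕ) + 1)) (co_cb_pow hι b q)

theorem yv_indep [Fintype I] (hι : η * ι = 1) (hw : ∀ t, w t ≠ 0)
    (hinj : Function.Injective fun t => ξ.1.1 t / η.1.1 t)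
    (h1 : ∀ b : Bk s,
      co _ 1 (ξ.1.2 b) * η.1.1 (σ b.1) - ξ.1.1 (σ b.1) * co _ 1 (η.1.2 b) ≠ 0)
    (μ : I → Option ℂ) : LinearIndependent ℂ (yv (ξ := ξ) hι w μ) := by
  classical
  rw [Fintype.linearIndependent_iff]
  intro g hg
  rw [Fintype.sum_sigma, Fintype.sum_sum_type] at hg
  simp only [Finset.univ_unique, Finset.sum_singleton] at hg
  have hη : ∀ t, η.1.1 t ≠ 0 := fun t => left_ne_zero_of_mul_eq_one (iota_fst hι t)
  have hK : ∀ q : Fin (k + 1), g ⟨Sum.inl (), q⟩ = 0 := by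
    apply vand k (fun t => ξ.1.1 t / η.1.1 t) hinj
    intro t
    have h := congrArg (ec k σ s t) hg
    rw [map_add, map_sum, map_sum, map_zero] at h
    have hz : ∀ b : Bk s, ec k σ s t (∑ q : Fin (blocksOf (fun _ : Unit => k) s μ (Sum.inr b)).Q,
        g ⟨Sum.inr b, q⟩ • yv (ξ := ξ) hι w μ ⟨Sum.inr b, q⟩) = 0 := by
      intro b
      rw [map_sum]
      refine Finset.sum_eq_zero fun q _ => ?_
      rw [map_smul]
      have : ec k σ s t (yv (ξ := ξ) hι w μ ⟨Sum.inr b, q⟩) = 0 := rfl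
      rw [this, smul_zero]
    rw [Finset.sum_eq_zero (fun b _ => hz b), add_zero] at h
    have hq : ∀ q : Fin (k + 1), ec k σ s t (g ⟨Sum.inl (), q⟩ •
        yv (ξ := ξ) hι w μ ⟨Sum.inl (), q⟩) = (η.1.1 t * w t) *
          (g ⟨Sum.inl (), q⟩ * (ξ.1.1 t / η.1.1 t) ^ (k - (q : ℕ))) := by
      intro q
      rw [map_smul]
      have : ec k σ s t (yv (ξ := ξ) hι w μ ⟨Sum.inl (), q⟩) =
          η.1.1 t * ((ξ * ι).1.1 t) ^ (k - (q : ℕ)) * w t := rfl
      rw [this, c_fst hι, smul_eq_mul]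
      ring
    have h2 : ∑ q : Fin (k + 1), ec k σ s t (g ⟨Sum.inl (), q⟩ •
        yv (ξ := ξ) hι w μ ⟨Sum.inl (), q⟩) = 0 := h
    rw [Finset.sum_congr rfl fun q _ => hq q, ← Finset.mul_sum] at h2
    exact (mul_eq_zero.mp h2).resolve_left (mul_ne_zero (hη t) (hw t))
  have hg2 : ∑ b : Bk s, ∑ q : Fin (nb s b), g ⟨Sum.inr b, q⟩ •
      us k σ s b (cb ξ η ι b ^ ((q : ℕ) + 1)) (co_cb_pow hι b q) = 0 := by
    have h0 : ∑ q : Fin (k + 1), g ⟨Sum.inl (), q⟩ • yv (ξ := ξ) hι w μ ⟨Sum.inl (), q⟩ = 0 :=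
      Finset.sum_eq_zero fun q _ => by rw [hK q, zero_smul]
    have h1 := hg
    have h2 : ∑ q : Fin (k + 1), g ⟨Sum.inl (), q⟩ • yv (ξ := ξ) hι w μ ⟨Sum.inl (), q⟩ +
      ∑ b : Bk s, ∑ q : Fin (nb s b), g ⟨Sum.inr b, q⟩ •
        us k σ s b (cb ξ η ι b ^ ((q : ℕ) + 1)) (co_cb_pow hι b q) = 0 := h1
    rwa [h0, zero_add] at h2
  have hJ : ∀ (b : Bk s) (q : Fin (nb s b)), g ⟨Sum.inr b, q⟩ = 0 := by
    intro b
    have h := congrArg (fc k σ s b) hg2
    rw [map_sum, map_zero, Finset.sum_eq_single b] at h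
    · rw [map_sum] at h
      have h3 := Fintype.linearIndependent_iff.mp (indep_cb (ξ := ξ) hι b (h1 b))
        (fun q => g ⟨Sum.inr b, q⟩) (by
          rw [← h]
          refine Finset.sum_congr rfl fun q _ => ?_
          rw [map_smul, fc_apply, us_same])
      exact h3
    · intro b' _ hne
      rw [map_sum]
      refine Finset.sum_eq_zero fun q _ => ?_
      rw [map_smul, fc_apply, us_ne _ _ _ _ (Ne.symm hne), smul_zero]
    · simp
  rintro ⟨j | b, q⟩
  · exact hK q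
  · exact hJ b q

theorem mem_ker_kron (hι : η * ι = 1)
    (hw : ∀ j < k, ∑ t, (ξ.1.1 t / η.1.1 t) ^ j * w t = 0) (q : Fin k) :
    (ξ * ι) ^ (k - 1 - (q : ℕ)) * uc k σ s w ∈ LinearMap.ker (sm k σ s) := by
  rw [LinearMap.mem_ker, sm_apply, ← hw (k - 1 - (q : ℕ)) (by omega)]
  refine Finset.sum_congr rfl fun t _ => ?_
  have : ((ξ * ι) ^ (k - 1 - (q : ℕ)) * uc k σ s w).1.1 t =
    ((ξ * ι).1.1 t) ^ (k - 1 - (q : ℕ)) * w t := rfl
  rw [this, c_fst hι]

theorem mem_ker_us (b : Bk s) (x : R (nb s b)) (hx : co _ 0 x = 0) :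
    ι * us k σ s b x hx ∈ LinearMap.ker (sm k σ s) := by
  rw [LinearMap.mem_ker, sm_apply]
  refine Finset.sum_eq_zero fun t _ => ?_
  rw [mul_fst, us_fst, mul_zero]

/-- the family `e` -/
noncomputable def ev (hι : η * ι = 1) (hw : ∀ j < k, ∑ t, (ξ.1.1 t / η.1.1 t) ^ j * w t = 0)
    (μ : I → Option ℂ) :
    (Σ j : Unit ⊕ (Σ i, Fin (s i).length), Fin (blocksOf (fun _ : Unit => k) s μ j).P) →
      LinearMap.ker (sm k σ s)
  | ⟨Sum.inl _, q⟩ => ⟨(ξ * ι) ^ (k - 1 - (q : ℕ)) * uc k σ s w, mem_ker_kron hι hw q⟩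
  | ⟨Sum.inr b, q⟩ => ⟨ι * us k σ s b (cb ξ η ι b ^ ((q : ℕ) + 1)) (co_cb_pow hι b q),
      mem_ker_us b _ _⟩

theorem mul_us (x : UU k σ s) (b : Bk s) (y : R (nb s b)) (hy : co _ 0 y = 0) :
    x * us k σ s b y hy = us k σ s b (x.1.2 b * y) (by rw [co_mul_zero, hy, mul_zero]) := by
  apply ext_UU
  · intro t
    rw [mul_fst, us_fst, us_fst, mul_zero]
  · intro b'
    by_cases h : b' = b
    · subst h
      rw [mul_snd, us_same, us_same]
    · rw [mul_snd, us_ne _ _ _ _ h, us_ne _ _ _ _ h, mul_zero]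

theorem us_congr {b : Bk s} {y y' : R (nb s b)} (h : y = y') (hy : co _ 0 y = 0)
    (hy' : co _ 0 y' = 0) : us k σ s b y hy = us k σ s b y' hy' := by
  subst h
  rfl

theorem us_add (b : Bk s) (y y' : R (nb s b)) (hy : co _ 0 y = 0)
    (hy' : co _ 0 y' = 0) : us k σ s b (y + y') (by rw [map_add, hy, hy', add_zero]) =
      us k σ s b y hy + us k σ s b y' hy' := by
  apply ext_UU
  · intro t
    show (0 : ℂ) = 0 + 0
    rw [add_zero]
  · intro b'
    have h0 : (us k σ s b y hy + us k σ s b y' hy').1.2 b' =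
      (us k σ s b y hy).1.2 b' + (us k σ s b y' hy').1.2 b' := rfl
    rw [h0]
    by_cases h : b' = b
    · subst h
      rw [us_same, us_same, us_same]
    · rw [us_ne _ _ _ _ h, us_ne _ _ _ _ h, us_ne _ _ _ _ h, add_zero]

theorem us_smul (b : Bk s) (c : ℂ) (y : R (nb s b)) (hy : co _ 0 y = 0) :
    us k σ s b (c • y) (by rw [map_smul, hy, smul_zero]) = c • us k σ s b y hy := by
  apply ext_UU
  · intro t
    show (0 : ℂ) = c • 0
    rw [smul_zero]
  · intro b'
    have h0 : (c • us k σ s b y hy).1.2 b' = c • (us k σ s b y hy).1.2 b' := rfl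
    rw [h0]
    by_cases h : b' = b
    · subst h
      rw [us_same, us_same]
    · rw [us_ne _ _ _ _ h, us_ne _ _ _ _ h, smul_zero]

theorem us_zero (b : Bk s) (h : co (nb s b) 0 0 = 0) : us k σ s b 0 h = 0 := by
  apply ext_UU
  · intro t
    rfl
  · intro b'
    show (us k σ s b 0 h).1.2 b' = 0
    by_cases h : b' = b
    · subst h
      rw [us_same]
    · rw [us_ne _ _ _ _ h]

/-- the action -/
noncomputable def rho : LinearMap.ker (sm k σ s) →ₗ[ℂ] UU k σ s →ₗ[ℂ] UU k σ s :=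
  (LinearMap.mul ℂ (UU k σ s)) ∘ₗ (LinearMap.ker (sm k σ s)).subtype

theorem rho_apply (p : LinearMap.ker (sm k σ s)) (y : UU k σ s) : rho p y = p.1 * y := rfl

theorem rel (hι : η * ι = 1) (hw : ∀ j < k, ∑ t, (ξ.1.1 t / η.1.1 t) ^ j * w t = 0)
    (i : Unit ⊕ (Σ i, Fin (s i).length))
    (p : Fin (blocksOf (fun _ : Unit => k) s
      (fun i => some (ec k σ s (σ i) ξ / ec k σ s (σ i) η)) i).P) :
    rho.flip ξ (ev (ξ := ξ) hι hw _ ⟨i, p⟩) =
      ∑ q : Fin (blocksOf (fun _ : Unit => k) s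
        (fun i => some (ec k σ s (σ i) ξ / ec k σ s (σ i) η)) i).Q,
        (blocksOf (fun _ : Unit => k) s
          (fun i => some (ec k σ s (σ i) ξ / ec k σ s (σ i) η)) i).entA p q •
          yv (ξ := ξ) hι w _ ⟨i, q⟩ ∧
    rho.flip η (ev (ξ := ξ) hι hw _ ⟨i, p⟩) =
      ∑ q : Fin (blocksOf (fun _ : Unit => k) s
        (fun i => some (ec k σ s (σ i) ξ / ec k σ s (σ i) η)) i).Q,
        (blocksOf (fun _ : Unit => k) s
          (fun i => some (ec k σ s (σ i) ξ / ec k σ s (σ i) η)) i).entB p q •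
          yv (ξ := ξ) hι w _ ⟨i, q⟩ := by
  rcases i with u | b
  · have hp : (p : ℕ) < k := p.2
    constructor
    · have h1 := sum_kronA (n := k + 1) (p : ℕ) (by omega)
        (fun q : Fin (k + 1) => η * (ξ * ι) ^ (k - (q : ℕ)) * uc k σ s w)
      refine Eq.trans ?_ h1.symm
      show (ξ * ι) ^ (k - 1 - (p : ℕ)) * uc k σ s w * ξ =
        η * (ξ * ι) ^ (k - (p : ℕ)) * uc k σ s w
      rw [show k - (p : ℕ) = (k - 1 - (p : ℕ)) + 1 by omega, pow_succ]
      linear_combination (-(ξ * ι) ^ (k - 1 - (p : ℕ)) * uc k σ s w * ξ) * hι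
    · have h1 := sum_kronA (n := k + 1) ((p : ℕ) + 1) (by omega)
        (fun q : Fin (k + 1) => η * (ξ * ι) ^ (k - (q : ℕ)) * uc k σ s w)
      refine Eq.trans ?_ h1.symm
      show (ξ * ι) ^ (k - 1 - (p : ℕ)) * uc k σ s w * η =
        η * (ξ * ι) ^ (k - ((p : ℕ) + 1)) * uc k σ s w
      rw [show k - ((p : ℕ) + 1) = k - 1 - (p : ℕ) by omega]
      ring
  · have hp : (p : ℕ) < nb s b := p.2
    have hv0 : us k σ s b (cb ξ η ι b ^ ((nb s b) + 1)) (co_cb_pow hι b _) = 0 := by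
      rw [us_congr (cb_pow_zero hι b) _ (map_zero _), us_zero]
    constructor
    · have h1 := sum_jordA (n := nb s b) (p : ℕ) hp (lam ξ η b)
        (fun q : ℕ => us k σ s b (cb ξ η ι b ^ (q + 1)) (co_cb_pow hι b q)) hv0
      refine Eq.trans ?_ h1.symm
      show ι * us k σ s b (cb ξ η ι b ^ ((p : ℕ) + 1)) (co_cb_pow hι b p) * ξ = _
      rw [← us_smul, ← us_add, show ι * us k σ s b (cb ξ η ι b ^ ((p : ℕ) + 1))
        (co_cb_pow hι b p) * ξ = (ξ * ι) * us k σ s b (cb ξ η ι b ^ ((p : ℕ) + 1))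
        (co_cb_pow hι b p) by ring, mul_us]
      apply us_congr
      rw [Algebra.smul_def]
      have : (ξ * ι).1.2 b = cb ξ η ι b + algebraMap ℂ _ (lam ξ η b) := by
        rw [cb, sub_add_cancel]
      rw [this]
      ring
    · have h1 := sum_kronA (n := nb s b) (p : ℕ) hp
        (fun q : Fin (nb s b) => us k σ s b (cb ξ η ι b ^ ((q : ℕ) + 1)) (co_cb_pow hι b q))
      refine Eq.trans ?_ h1.symm
      show ι * us k σ s b (cb ξ η ι b ^ ((p : ℕ) + 1)) (co_cb_pow hι b p) * η = _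
      linear_combination (us k σ s b (cb ξ η ι b ^ ((p : ℕ) + 1)) (co_cb_pow hι b p)) * hι

theorem uc_fst (v : Fin (k + 1) → ℂ) (t : Fin (k + 1)) : (uc k σ s v).1.1 t = v t := rfl

theorem uc_snd (v : Fin (k + 1) → ℂ) (b : Bk s) :
    (uc k σ s v).1.2 b = algebraMap ℂ _ (v (σ b.1)) := rfl

theorem ec_indep (t t' : Fin (k + 1)) (h : t ≠ t') :
    LinearIndependent ℂ ![ec k σ s t, ec k σ s t'] := by
  rw [LinearIndependent.pair_iff]
  intro a b hab
  constructor
  · have := LinearMap.congr_fun hab (uc k σ s (Pi.single t 1))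
    simpa [uc_fst, Pi.single_eq_of_ne (Ne.symm h)] using this
  · have := LinearMap.congr_fun hab (uc k σ s (Pi.single t' 1))
    simpa [uc_fst, Pi.single_eq_of_ne h] using this

theorem co_indep (b : Bk s) (hb : 0 < nb s b) :
    LinearIndependent ℂ ![co _ 1 ∘ₗ fc k σ s b, ec k σ s (σ b.1)] := by
  rw [LinearIndependent.pair_iff]
  intro a c hac
  obtain ⟨x, hx0, hx1⟩ := exists_co_one (nb s b) hb
  constructor
  · have := LinearMap.congr_fun hac (us k σ s b x hx0)
    simp only [LinearMap.add_apply, LinearMap.smul_apply, LinearMap.comp_apply, fc_apply, us_same,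
      hx1, ec_apply, us_fst, LinearMap.zero_apply, smul_eq_mul, mul_one, mul_zero, add_zero] at this
    exact this
  · have := LinearMap.congr_fun hac (uc k σ s (Pi.single (σ b.1) 1))
    simp only [LinearMap.add_apply, LinearMap.smul_apply, LinearMap.comp_apply, fc_apply, uc_snd,
      co_one_algebraMap, ec_apply, uc_fst, Pi.single_eq_same, LinearMap.zero_apply, smul_eq_mul,
      mul_one, mul_zero, zero_add] at this
    exact this

theorem z_indep (hσ : Function.Injective σ) :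
    LinearIndependent ℂ (fun i => ec k σ s (σ i)) := by
  have h : LinearIndependent ℂ (fun t => ec k σ s t) := by
    rw [Fintype.linearIndependent_iff]
    intro g hg t
    have := LinearMap.congr_fun hg (uc k σ s (Pi.single t 1))
    simp only [LinearMap.sum_apply, LinearMap.smul_apply, ec_apply, uc_fst, smul_eq_mul,
      LinearMap.zero_apply] at this
    rw [Finset.sum_eq_single t] at this
    · simpa using this
    · intro t' _ ht'
      rw [Pi.single_eq_of_ne ht', mul_zero]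
    · simp
  exact h.comp σ hσ

/-- the index map of `G` -/
def emb (μ : I → Option ℂ) :
    (Σ j : Unit ⊕ (Σ i, Fin (s i).length), Fin (blocksOf (fun _ : Unit => k) s μ j).P) →
      (Σ j : Unit ⊕ (Σ i, Fin (s i).length), Fin (blocksOf (fun _ : Unit => k) s μ j).Q)
  | ⟨Sum.inl u, q⟩ => ⟨Sum.inl u, Fin.succ q⟩
  | ⟨Sum.inr b, q⟩ => ⟨Sum.inr b, q⟩

theorem emb_inj (μ : I → Option ℂ) : Function.Injective (emb (k := k) (s := s) μ) := by
  rintro ⟨u | b, q⟩ ⟨u' | b', q'⟩ h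
  · obtain rfl : u = u' := Subsingleton.elim _ _
    have h1 : (⟨Sum.inl u, Fin.succ q⟩ : (Σ j : Unit ⊕ (Σ i, Fin (s i).length),
        Fin (blocksOf (fun _ : Unit => k) s μ j).Q)) = ⟨Sum.inl u, Fin.succ q'⟩ := h
    have h2 := eq_of_heq (Sigma.mk.inj h1).2
    have h3 := Fin.succ_injective _ h2
    rw [h3]
  · exact absurd (congrArg Sigma.fst h) Sum.inl_ne_inr
  · exact absurd (congrArg Sigma.fst h) Sum.inr_ne_inl
  · have h1 : (⟨Sum.inr b, q⟩ : (Σ j : Unit ⊕ (Σ i, Fin (s i).length),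
        Fin (blocksOf (fun _ : Unit => k) s μ j).Q)) = ⟨Sum.inr b', q'⟩ := h
    obtain ⟨h2, h3⟩ := Sigma.mk.inj h1
    obtain rfl : b = b' := Sum.inr_injective h2
    rw [eq_of_heq h3]

theorem ev_indep (hι : η * ι = 1) (hw : ∀ j < k, ∑ t, (ξ.1.1 t / η.1.1 t) ^ j * w t = 0)
    (hy : LinearIndependent ℂ (yv (ξ := ξ) hι w
      (fun i => some (ec k σ s (σ i) ξ / ec k σ s (σ i) η)))) :
    LinearIndependent ℂ (ev (ξ := ξ) hι hw
      (fun i => some (ec k σ s (σ i) ξ / ec k σ s (σ i) η))) := by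
  apply LinearIndependent.of_comp (rho.flip η)
  have h := hy.comp _ (emb_inj _)
  convert h using 1
  funext x
  rcases x with ⟨u | b, q⟩
  · simp only [Function.comp_apply]
    show (ξ * ι) ^ (k - 1 - (q : ℕ)) * uc k σ s w * η =
        η * (ξ * ι) ^ (k - ((q : ℕ) + 1)) * uc k σ s w
    rw [show k - ((q : ℕ) + 1) = k - 1 - (q : ℕ) by omega]
    ring
  · simp only [Function.comp_apply]
    show ι * us k σ s b (cb ξ η ι b ^ ((q : ℕ) + 1)) (co_cb_pow hι b q) * η =
      us k σ s b (cb ξ η ι b ^ ((q : ℕ) + 1)) (co_cb_pow hι b q)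
    linear_combination (us k σ s b (cb ξ η ι b ^ ((q : ℕ) + 1)) (co_cb_pow hι b q)) * hι

end main

end AKp

open AKp in
theorem piece_kron (k : ℕ) {I : Type} [Fintype I] (σ : I → Fin (k + 1))
    (hσ : Function.Injective σ) (s : I → List ℕ) (hs : ∀ i, ∀ n ∈ s i, 0 < n) :
    Piece (fun _ : Unit => k) s := by
  classical
  have hnb : ∀ b : Bk s, 0 < nb s b := fun b => hs b.1 _ (List.get_mem _ _)
  refine ⟨LinearMap.ker (sm k σ s), UU k σ s, inferInstance, inferInstance, inferInstance,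
    inferInstance, rho, fun i => ec k σ s (σ i), inferInstance, inferInstance, ?_, z_indep hσ, ?_⟩
  · intro p p' y
    simp only [rho_apply]
    ring
  · have g1 : GenPair (UU k σ s) (fun _ η => ∀ t, ec k σ s t η ≠ 0) := by
      apply GenPair.all
      intro t
      apply GenPair.right
      intro h
      have := LinearMap.congr_fun h (uc k σ s (Pi.single t 1))
      simp [uc_fst] at this
    have g2 : GenPair (UU k σ s) (fun ξ η => ∀ x : {x : Fin (k + 1) × Fin (k + 1) // x.1 ≠ x.2},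
        ec k σ s x.1.1 ξ * ec k σ s x.1.2 η - ec k σ s x.1.2 ξ * ec k σ s x.1.1 η ≠ 0) := by
      apply GenPair.all
      intro x
      exact GenPair.cross _ _ (ec_indep _ _ x.2)
    have g3 : GenPair (UU k σ s) (fun ξ η => ∀ b : Bk s,
        (co _ 1 ∘ₗ fc k σ s b) ξ * ec k σ s (σ b.1) η -
          ec k σ s (σ b.1) ξ * (co _ 1 ∘ₗ fc k σ s b) η ≠ 0) := by
      apply GenPair.all
      intro b
      exact GenPair.cross _ _ (co_indep b (hnb b))
    refine GenPair.mono ((g1.and g2).and g3) ?_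
    rintro ξ η ⟨⟨h1, h2⟩, h3⟩
    refine ⟨fun i => h1 _, ?_⟩
    obtain ⟨ι, hι⟩ := exists_inv k σ s η h1
    have hinj : Function.Injective fun t => ξ.1.1 t / η.1.1 t := by
      intro t t' htt
      by_contra hne
      apply h2 ⟨(t, t'), hne⟩
      have ha : η.1.1 t ≠ 0 := h1 t
      have hb : η.1.1 t' ≠ 0 := h1 t'
      simp only [ec_apply]
      simp only at htt
      rw [div_eq_div_iff ha hb] at htt
      linear_combination htt
    obtain ⟨w, hw0, hw⟩ := exists_weights k _ hinj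
    have hy := yv_indep (ξ := ξ) hι hw0 hinj h3
      (fun i => some (ec k σ s (σ i) ξ / ec k σ s (σ i) η))
    refine pdec_of_indep (ev (ξ := ξ) hι hw _) (yv (ξ := ξ) hι w _) (ev_indep hι hw hy) hy ?_ ?_
      (rel hι hw)
    · rw [finrank_ker_sm, Fintype.sum_sum_type]
      simp only [Finset.univ_unique, Finset.sum_singleton]
      rfl
    · rw [finrank_UU, Fintype.sum_sum_type]
      simp only [Finset.univ_unique, Finset.sum_singleton]
      rfl

end P8H59.JK
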