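import Pool.Agent.P8H59.JK.Defs

/-!
# Package CL of project JK (helper43)
-/

set_option autoImplicit false

namespace P8H59.JK

open Module

namespace CLaux

/-- the triples with sum `n` -/
def Tr (n : ℕ) : Finset (ℕ × ℕ × ℕ) :=
  (Finset.range (n + 1) ×ˢ Finset.range (n + 1) ×ˢ Finset.range (n + 1)).filter
    (fun p => p.1 + p.2.1 + p.2.2 = n)

lemma mem_Tr (n : ℕ) (p : ℕ × ℕ × ℕ) : p ∈ Tr n ↔ p.1 + p.2.1 + p.2.2 = n := by
  unfold Tr
  simp only [Finset.mem_filter, Finset.mem_product, Finset.mem_range]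
  constructor
  · exact fun h => h.2
  · intro h
    exact ⟨⟨by omega, by omega, by omega⟩, h⟩

lemma cyc (n : ℕ) (g : ℕ × ℕ × ℕ → ℂ) : ∑ p ∈ Tr n, g (p.2.1, p.2.2, p.1) = ∑ p ∈ Tr n, g p := by
  refine Finset.sum_bij' (fun p _ => (p.2.1, p.2.2, p.1)) (fun p _ => (p.2.2, p.1, p.2.1)) ?_ ?_ ?_ ?_ ?_
  · intro p hp
    rw [mem_Tr] at hp ⊢
    simp only
    omega
  · intro p hp
    rw [mem_Tr] at hp ⊢
    simp only
    omega
  · intro p _
    rfl
  · intro p _
    rfl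
  · intro p _
    rfl

lemma split (n : ℕ) (g : ℕ × ℕ × ℕ → ℂ) : ∑ p ∈ Tr (n + 1), g p =
    ∑ i ∈ Finset.range (n + 2), g (0, i, n + 1 - i) + ∑ p ∈ Tr n, g (p.1 + 1, p.2.1, p.2.2) := by
  rw [← Finset.sum_filter_add_sum_filter_not (Tr (n + 1)) (fun p => p.1 = 0)]
  congr 1
  · refine Finset.sum_bij' (fun p _ => p.2.1) (fun i _ => (0, i, n + 1 - i)) ?_ ?_ ?_ ?_ ?_
    · intro p hp
      rw [Finset.mem_filter, mem_Tr] at hp
      rw [Finset.mem_range]
      omega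
    · intro i hi
      rw [Finset.mem_range] at hi
      rw [Finset.mem_filter, mem_Tr]
      refine ⟨?_, rfl⟩
      simp only
      omega
    · intro p hp
      rw [Finset.mem_filter, mem_Tr] at hp
      refine Prod.ext hp.2.symm (Prod.ext rfl ?_)
      simp only
      omega
    · intro i _
      rfl
    · intro p hp
      rw [Finset.mem_filter, mem_Tr] at hp
      congr 1
      refine Prod.ext hp.2 (Prod.ext rfl ?_)
      simp only
      omega
  · refine Finset.sum_bij' (fun p _ => (p.1 - 1, p.2.1, p.2.2)) (fun p _ => (p.1 + 1, p.2.1, p.2.2)) ?_ ?_ ?_ ?_ ?_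
    · intro p hp
      rw [Finset.mem_filter, mem_Tr] at hp
      rw [mem_Tr]
      simp only
      omega
    · intro p hp
      rw [mem_Tr] at hp
      rw [Finset.mem_filter, mem_Tr]
      constructor
      · simp only
        omega
      · simp
    · intro p hp
      rw [Finset.mem_filter, mem_Tr] at hp
      refine Prod.ext ?_ rfl
      simp only
      omega
    · intro p _
      rfl
    · intro p hp
      rw [Finset.mem_filter, mem_Tr] at hp
      congr 1
      refine Prod.ext ?_ rfl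
      simp only
      omega

end CLaux

open CLaux in
/-- Closedness (additive form of the Jacobi identities). -/
theorem closed_identity {M : Type} (t : M → M → M → ℂ) (R : M → M)
    (hJ0 : ∀ ξ η ζ, t ξ η ζ + t η ζ ξ + t ζ ξ η = 0)
    (hJ1 : ∀ ξ η ζ, t (R ξ) η ζ + t (R η) ζ ξ + t (R ζ) ξ η = 0) (j : ℕ) (ξ η ζ : M) :
    ∑ i ∈ Finset.range j, (t ξ (R^[i] η) (R^[j - 1 - i] ζ) + t η (R^[i] ζ) (R^[j - 1 - i] ξ)
      + t ζ (R^[i] ξ) (R^[j - 1 - i] η)) = 0 := by
  rcases j with _ | j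
  · simp
  rcases j with _ | n
  · simp only [zero_add, Finset.sum_range_one, Function.iterate_zero, id_eq]
    simpa using hJ0 ξ η ζ
  -- the function of a triple
  let g : M → M → M → ℕ × ℕ × ℕ → ℂ := fun x y z p => t (R^[p.1] x) (R^[p.2.1] y) (R^[p.2.2] z)
  have h0 : ∑ p ∈ Tr (n + 1), g ξ η ζ p + ∑ p ∈ Tr (n + 1), g η ζ ξ p + ∑ p ∈ Tr (n + 1), g ζ ξ η p = 0 := by
    rw [← cyc (n + 1) (g η ζ ξ), ← cyc (n + 1) (g ζ ξ η), ← cyc (n + 1) (fun p => g ζ ξ η (p.2.1, p.2.2, p.1)),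
      ← Finset.sum_add_distrib, ← Finset.sum_add_distrib]
    apply Finset.sum_eq_zero
    intro p _
    exact hJ0 _ _ _
  have h1 : ∑ p ∈ Tr n, g ξ η ζ (p.1 + 1, p.2.1, p.2.2) + ∑ p ∈ Tr n, g η ζ ξ (p.1 + 1, p.2.1, p.2.2) +
      ∑ p ∈ Tr n, g ζ ξ η (p.1 + 1, p.2.1, p.2.2) = 0 := by
    rw [← cyc n (fun p => g η ζ ξ (p.1 + 1, p.2.1, p.2.2)), ← cyc n (fun p => g ζ ξ η (p.1 + 1, p.2.1, p.2.2)),
      ← cyc n (fun p => g ζ ξ η (p.2.1 + 1, p.2.2, p.1)), ← Finset.sum_add_distrib, ← Finset.sum_add_distrib]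
    apply Finset.sum_eq_zero
    intro p _
    have := hJ1 (R^[p.1] ξ) (R^[p.2.1] η) (R^[p.2.2] ζ)
    simp only [g, Function.iterate_succ_apply']
    exact this
  rw [split, split, split] at h0
  have h2 : ∑ i ∈ Finset.range (n + 2), g ξ η ζ (0, i, n + 1 - i) + ∑ i ∈ Finset.range (n + 2), g η ζ ξ (0, i, n + 1 - i) +
      ∑ i ∈ Finset.range (n + 2), g ζ ξ η (0, i, n + 1 - i) = 0 := by
    linear_combination h0 - h1
  rw [← Finset.sum_add_distrib, ← Finset.sum_add_distrib] at h2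
  exact h2

end P8H59.JK
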