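import Pool.Agent.P8H59.JK.Defs

/-!
# Chains of a pair of forms: definitions (project JK, part 2)
-/

namespace P8H59.JK

open Module

variable {V : Type} [AddCommGroup V] [Module ℂ V]

/-- The map whose kernel consists of the chains `ξ_0, …, ξ_{r-1}` with `C ξ_0 = 0` and
`C ξ_j = B ξ_{j-1}`. -/
def chainMap (r : ℕ) (C B : V →ₗ[ℂ] V →ₗ[ℂ] ℂ) : (Fin r → V) →ₗ[ℂ] (Fin r → (V →ₗ[ℂ] ℂ)) where
  toFun ξ j := C (ξ j) - (if h : (j : ℕ) = 0 then 0 else B (ξ ⟨j - 1, by omega⟩))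
  map_add' ξ η := by
    funext j
    by_cases h : (j : ℕ) = 0
    · simp [h]
    · simp only [Pi.add_apply, map_add, h, dite_false]
      abel
  map_smul' c ξ := by
    funext j
    by_cases h : (j : ℕ) = 0
    · simp [h]
    · simp only [Pi.smul_apply, map_smul, h, dite_false, RingHom.id_apply, smul_sub]

/-- `ξ 0, …, ξ (n-1)` is a chain. -/
def IsChain (C B : V →ₗ[ℂ] V →ₗ[ℂ] ℂ) (n : ℕ) (ξ : ℕ → V) : Prop :=
  ∀ j < n, C (ξ j) = if j = 0 then 0 else B (ξ (j - 1))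

end P8H59.JK
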