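import Mathlib

/-!
# Jordan–Kronecker invariants: definitions (project JK, MP_0fcc55_al)
-/

namespace P8H59.JK

open Module

/-- A block of the Jordan–Kronecker normal form of a pair of skew forms: a Kronecker block of size
`(2k+1) × (2k+1)`, or a Jordan block of size `2n × 2n` with an eigenvalue in `ℂ ∪ {∞}`
(`none` is the eigenvalue `∞`). -/
inductive Block where
  | kron (k : ℕ) : Block
  | jord (n : ℕ) (μ : Option ℂ) : Block

/-- Number of basis vectors `p_0, p_1, …` of the block. -/
def Block.P : Block → ℕ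
  | .kron k => k
  | .jord n _ => n

/-- Number of basis vectors `q_0, q_1, …` of the block. -/
def Block.Q : Block → ℕ
  | .kron k => k + 1
  | .jord n _ => n

/-- The value `A(p_i, q_j)` of the first form of the block: `(I_k 0)` for a Kronecker block,
`J_n(μ)` for a Jordan block with finite eigenvalue `μ`, and `I_n` for the eigenvalue `∞`. -/
def Block.entA : Block → ℕ → ℕ → ℂ
  | .kron _, i, j => if i = j then 1 else 0
  | .jord _ (some μ), i, j => if i = j then μ else if i + 1 = j then 1 else 0
  | .jord _ none, i, j => if i = j then 1 else 0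

/-- The value `B(p_i, q_j)` of the second form of the block: `(0 I_k)` for a Kronecker block,
`I_n` for a Jordan block with finite eigenvalue, and `J_n(0)` for the eigenvalue `∞`. -/
def Block.entB : Block → ℕ → ℕ → ℂ
  | .kron _, i, j => if i + 1 = j then 1 else 0
  | .jord _ (some _), i, j => if i = j then 1 else 0
  | .jord _ none, i, j => if i + 1 = j then 1 else 0

/-- The matrix, in the basis `p_0, …, q_0, …` of all blocks of the family `blk`, of the
block-diagonal skew form with the blocks `ent`: the basis vectors of different blocks are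
orthogonal, and inside a block the matrix is `(0 M ; -Mᵀ 0)`. -/
def skewEnt (ent : Block → ℕ → ℕ → ℂ) {ι : Type} [DecidableEq ι] (blk : ι → Block) :
    (Σ i, Fin (blk i).P ⊕ Fin (blk i).Q) → (Σ i, Fin (blk i).P ⊕ Fin (blk i).Q) → ℂ
  | ⟨i, Sum.inl p⟩, ⟨j, Sum.inr q⟩ => if i = j then ent (blk i) p q else 0
  | ⟨i, Sum.inr q⟩, ⟨j, Sum.inl p⟩ => if i = j then -ent (blk i) p q else 0
  | ⟨_, Sum.inl _⟩, ⟨_, Sum.inl _⟩ => 0
  | ⟨_, Sum.inr _⟩, ⟨_, Sum.inr _⟩ => 0

/-- The pair of bilinear forms `A, B` on `V` is, in a suitable basis of `V`, simultaneously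
block-diagonal with the blocks of the finite family `blk`. -/
def IsDecomp {V : Type} [AddCommGroup V] [Module ℂ V] (A B : V →ₗ[ℂ] V →ₗ[ℂ] ℂ)
    {ι : Type} [DecidableEq ι] (blk : ι → Block) : Prop :=
  ∃ v : Basis (Σ i, Fin (blk i).P ⊕ Fin (blk i).Q) ℂ V,
    ∀ s t, A (v s) (v t) = skewEnt Block.entA blk s t ∧ B (v s) (v t) = skewEnt Block.entB blk s t

/-- An algebraic type: the list of the Kronecker blocks (`k` stands for the size `2k+1`), and the
list of the groups of Jordan blocks sharing an eigenvalue, a group being the list of the `n` for its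
blocks of size `2n × 2n`. -/
structure AlgType where
  kron : List ℕ
  jordan : List (List ℕ)

/-- Groups are nonempty and Jordan blocks have positive size. -/
def AlgType.Valid (T : AlgType) : Prop := ∀ G ∈ T.jordan, G ≠ [] ∧ ∀ n ∈ G, 0 < n

/-- The index set of the blocks of the type `T`. -/
abbrev AlgType.Idx (T : AlgType) : Type :=
  Fin T.kron.length ⊕ (Σ g : Fin T.jordan.length, Fin (T.jordan.get g).length)

/-- The blocks of the type `T` with eigenvalue `μ g` for the group `g`. -/
def AlgType.blocks (T : AlgType) (μ : Fin T.jordan.length → Option ℂ) : T.Idx → Block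
  | Sum.inl i => .kron (T.kron.get i)
  | Sum.inr s => .jord ((T.jordan.get s.1).get s.2) (μ s.1)

/-- The pencil spanned by `A` and `B` has algebraic type `T`: it is a direct sum of the blocks of
`T`, where different groups of Jordan blocks have different eigenvalues. -/
def HasType {V : Type} [AddCommGroup V] [Module ℂ V] (A B : V →ₗ[ℂ] V →ₗ[ℂ] ℂ)
    (T : AlgType) : Prop :=
  ∃ μ : Fin T.jordan.length → Option ℂ, Function.Injective μ ∧ IsDecomp A B (T.blocks μ)

/-- The skew form `A_x(ξ, η) = x([ξ, η])` on a Lie algebra. -/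
def lieForm {g : Type} [LieRing g] [LieAlgebra ℂ g] (x : Dual ℂ g) : g →ₗ[ℂ] g →ₗ[ℂ] ℂ :=
  LinearMap.mk₂ ℂ (fun ξ η => x ⁅ξ, η⁆) (by intros; simp) (by intros; simp) (by intros; simp)
    (by intros; simp)

/-- `T` is the Jordan–Kronecker invariant of `g`: the pencil spanned by `A_x` and `A_a` has type `T`
for all `(x, a)` outside the zero set of a polynomial `F` on `g* × g*` that is not identically
zero. (The variables of `F` are the elements of `g`, in two copies: linear functions of `x` and
of `a`.) -/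
def IsJK (g : Type) [LieRing g] [LieAlgebra ℂ g] (T : AlgType) : Prop :=
  ∃ F : MvPolynomial (g ⊕ g) ℂ,
    (∃ x a : Dual ℂ g, MvPolynomial.eval (Sum.elim x a) F ≠ 0) ∧
    ∀ x a : Dual ℂ g, MvPolynomial.eval (Sum.elim x a) F ≠ 0 → HasType (lieForm x) (lieForm a) T

/-- `T` is realisable: it is the Jordan–Kronecker invariant of a finite-dimensional complex Lie
algebra. -/
def Realisable (T : AlgType) : Prop :=
  ∃ (g : Type) (_ : LieRing g) (_ : LieAlgebra ℂ g), FiniteDimensional ℂ g ∧ IsJK g T

/-- A group of Jordan blocks is bad if its largest size occurs at least twice. -/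
def Bad (G : List ℕ) : Prop := ∃ m, 2 ≤ G.count m ∧ ∀ n ∈ G, n ≤ m

open Classical in
/-- The number of bad groups of `T`. -/
noncomputable def AlgType.numBad (T : AlgType) : ℕ := T.jordan.countP (fun G => decide (Bad G))

/-! ### Internal notions -/

/-- The pair of linear maps `F, G : P → Y` is a direct sum of the blocks of `blk`. -/
def PDec {P Y : Type} [AddCommGroup P] [Module ℂ P] [AddCommGroup Y] [Module ℂ Y]
    (F G : P →ₗ[ℂ] Y) {ι : Type} (blk : ι → Block) : Prop :=
  ∃ (e : Basis (Σ i, Fin (blk i).P) ℂ P) (y : Basis (Σ i, Fin (blk i).Q) ℂ Y),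
    ∀ i (p : Fin (blk i).P),
      F (e ⟨i, p⟩) = ∑ q : Fin (blk i).Q, (blk i).entA p q • y ⟨i, q⟩ ∧
      G (e ⟨i, p⟩) = ∑ q : Fin (blk i).Q, (blk i).entB p q • y ⟨i, q⟩

/-- `S ξ η` holds for all `(ξ, η)` in a nonempty (principal) Zariski-open subset of `Y × Y`. -/
def GenPair (Y : Type) [AddCommGroup Y] [Module ℂ Y] (S : Y → Y → Prop) : Prop :=
  ∃ F : MvPolynomial (Dual ℂ Y ⊕ Dual ℂ Y) ℂ,
    (∃ ξ η : Y, MvPolynomial.eval (Sum.elim (fun φ => φ ξ) (fun φ => φ η)) F ≠ 0) ∧
    ∀ ξ η : Y, MvPolynomial.eval (Sum.elim (fun φ => φ ξ) (fun φ => φ η)) F ≠ 0 → S ξ η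

/-- The blocks: Kronecker blocks `k j`, `j : J`, and for every `i : I` the group of Jordan blocks of
sizes `s i` with eigenvalue `μ i`. -/
def blocksOf {J I : Type} (k : J → ℕ) (s : I → List ℕ) (μ : I → Option ℂ) :
    J ⊕ (Σ i, Fin (s i).length) → Block
  | Sum.inl j => .kron (k j)
  | Sum.inr t => .jord ((s t.1).get t.2) (μ t.1)

/-- An abelian realisation of the Kronecker blocks `k j` and the groups `s i`, with independent
linear functions as eigenvalue functions. -/
def Piece {J I : Type} (k : J → ℕ) (s : I → List ℕ) : Prop :=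
  ∃ (P Y : Type) (_ : AddCommGroup P) (_ : Module ℂ P) (_ : AddCommGroup Y) (_ : Module ℂ Y)
    (ρ : P →ₗ[ℂ] Y →ₗ[ℂ] Y) (z : I → Dual ℂ Y),
    FiniteDimensional ℂ P ∧ FiniteDimensional ℂ Y ∧
    (∀ p p' y, ρ p (ρ p' y) = ρ p' (ρ p y)) ∧ LinearIndependent ℂ z ∧
    GenPair Y (fun ξ η => (∀ i, z i η ≠ 0) ∧
      PDec (ρ.flip ξ) (ρ.flip η) (blocksOf k s (fun i => some (z i ξ / z i η))))

end P8H59.JK
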