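import Pool.Agent.P8H59.JK.GEN

/-!
# Package PI of project JK (helper43)
-/

set_option autoImplicit false

namespace P8H59.JK

open Module

namespace PIaux

theorem reindex {P Y : Type} [AddCommGroup P] [Module ℂ P] [AddCommGroup Y] [Module ℂ Y]
    {F G : P →ₗ[ℂ] Y} {ι ι' : Type} {blk : ι → Block} {blk' : ι' → Block}
    (h : PDec F G blk) (e : ι ≃ ι') (he : ∀ i, blk' (e i) = blk i) : PDec F G blk' := by
  have h1 : blk' = fun i' => blk (e.symm i') := by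
    funext i'
    rw [← he, Equiv.apply_symm_apply]
  subst h1
  obtain ⟨b, y, hby⟩ := h
  refine ⟨b.reindex (Equiv.sigmaCongrLeft (β := fun i => Fin (blk i).P) e.symm).symm,
    y.reindex (Equiv.sigmaCongrLeft (β := fun i => Fin (blk i).Q) e.symm).symm, ?_⟩
  intro i p
  have hb : (b.reindex (Equiv.sigmaCongrLeft (β := fun i => Fin (blk i).P) e.symm).symm) ⟨i, p⟩ =
      b ⟨e.symm i, p⟩ := by
    rw [Basis.reindex_apply, Equiv.symm_symm]
    rfl
  have hy : ∀ q, (y.reindex (Equiv.sigmaCongrLeft (β := fun i => Fin (blk i).Q) e.symm).symm) ⟨i, q⟩ =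
      y ⟨e.symm i, q⟩ := by
    intro q
    rw [Basis.reindex_apply, Equiv.symm_symm]
    rfl
  rw [hb]
  simp only [hy]
  exact hby (e.symm i) p

theorem congr {P Y P' Y' : Type} [AddCommGroup P] [Module ℂ P] [AddCommGroup Y] [Module ℂ Y]
    [AddCommGroup P'] [Module ℂ P'] [AddCommGroup Y'] [Module ℂ Y']
    {F G : P →ₗ[ℂ] Y} {F' G' : P' →ₗ[ℂ] Y'} {ι : Type} {blk : ι → Block}
    (h : PDec F G blk) (u : P ≃ₗ[ℂ] P') (v : Y ≃ₗ[ℂ] Y')
    (hF : ∀ p, F' (u p) = v (F p)) (hG : ∀ p, G' (u p) = v (G p)) : PDec F' G' blk := by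
  obtain ⟨b, y, hby⟩ := h
  refine ⟨b.map u, y.map v, ?_⟩
  intro i p
  constructor
  · rw [Basis.map_apply, hF, (hby i p).1, map_sum]
    apply Finset.sum_congr rfl
    intro q _
    rw [map_smul, Basis.map_apply]
  · rw [Basis.map_apply, hG, (hby i p).2, map_sum]
    apply Finset.sum_congr rfl
    intro q _
    rw [map_smul, Basis.map_apply]

theorem prod {P Y P' Y' : Type} [AddCommGroup P] [Module ℂ P] [AddCommGroup Y] [Module ℂ Y]
    [AddCommGroup P'] [Module ℂ P'] [AddCommGroup Y'] [Module ℂ Y']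
    {F G : P →ₗ[ℂ] Y} {F' G' : P' →ₗ[ℂ] Y'} {ι ι' : Type} {blk : ι → Block} {blk' : ι' → Block}
    (h : PDec F G blk) (h' : PDec F' G' blk') :
    PDec (F.prodMap F') (G.prodMap G') (Sum.elim blk blk') := by
  obtain ⟨b, y, hby⟩ := h
  obtain ⟨b', y', hby'⟩ := h'
  let eP : (Σ i : ι ⊕ ι', Fin (Sum.elim blk blk' i).P) ≃ (Σ i, Fin (blk i).P) ⊕ (Σ i, Fin (blk' i).P) :=
    Equiv.sumSigmaDistrib (fun i => Fin (Sum.elim blk blk' i).P)
  let eQ : (Σ i : ι ⊕ ι', Fin (Sum.elim blk blk' i).Q) ≃ (Σ i, Fin (blk i).Q) ⊕ (Σ i, Fin (blk' i).Q) :=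
    Equiv.sumSigmaDistrib (fun i => Fin (Sum.elim blk blk' i).Q)
  refine ⟨(b.prod b').reindex eP.symm, (y.prod y').reindex eQ.symm, ?_⟩
  rintro (i | i) p
  · have hb : ((b.prod b').reindex eP.symm) ⟨Sum.inl i, p⟩ = (b ⟨i, p⟩, 0) := by
      rw [Basis.reindex_apply, Equiv.symm_symm]
      exact Prod.ext (Basis.prod_apply_inl_fst b b' _) (Basis.prod_apply_inl_snd b b' _)
    have hy : ∀ q, ((y.prod y').reindex eQ.symm) ⟨Sum.inl i, q⟩ = LinearMap.inl ℂ Y Y' (y ⟨i, q⟩) := by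
      intro q
      rw [Basis.reindex_apply, Equiv.symm_symm]
      exact Prod.ext (Basis.prod_apply_inl_fst y y' _) (Basis.prod_apply_inl_snd y y' _)
    rw [hb]
    simp only [hy, LinearMap.prodMap_apply, map_zero, ← map_smul, ← map_sum]
    constructor
    · exact Prod.ext (hby i p).1 rfl
    · exact Prod.ext (hby i p).2 rfl
  · have hb : ((b.prod b').reindex eP.symm) ⟨Sum.inr i, p⟩ = (0, b' ⟨i, p⟩) := by
      rw [Basis.reindex_apply, Equiv.symm_symm]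
      exact Prod.ext (Basis.prod_apply_inr_fst b b' _) (Basis.prod_apply_inr_snd b b' _)
    have hy : ∀ q, ((y.prod y').reindex eQ.symm) ⟨Sum.inr i, q⟩ = LinearMap.inr ℂ Y Y' (y' ⟨i, q⟩) := by
      intro q
      rw [Basis.reindex_apply, Equiv.symm_symm]
      exact Prod.ext (Basis.prod_apply_inr_fst y y' _) (Basis.prod_apply_inr_snd y y' _)
    rw [hb]
    simp only [hy, LinearMap.prodMap_apply, map_zero, ← map_smul, ← map_sum]
    constructor
    · exact Prod.ext rfl (hby' i p).1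
    · exact Prod.ext rfl (hby' i p).2

theorem pi {A : Type} [Fintype A] {P Y : A → Type}
    [∀ a, AddCommGroup (P a)] [∀ a, Module ℂ (P a)] [∀ a, AddCommGroup (Y a)]
    [∀ a, Module ℂ (Y a)] {F G : ∀ a, P a →ₗ[ℂ] Y a} {ι : A → Type} {blk : ∀ a, ι a → Block}
    (h : ∀ a, PDec (F a) (G a) (blk a)) :
    PDec (LinearMap.pi (fun a => F a ∘ₗ LinearMap.proj a))
      (LinearMap.pi (fun a => G a ∘ₗ LinearMap.proj a)) (fun i : Σ a, ι a => blk i.1 i.2) := by
  classical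
  choose b y hby using h
  refine ⟨(Pi.basis b).reindex (Equiv.sigmaAssoc (fun a i => Fin (blk a i).P)).symm,
    (Pi.basis y).reindex (Equiv.sigmaAssoc (fun a i => Fin (blk a i).Q)).symm, ?_⟩
  rintro ⟨a, i⟩ p
  have hb : ((Pi.basis b).reindex (Equiv.sigmaAssoc (fun a i => Fin (blk a i).P)).symm) ⟨⟨a, i⟩, p⟩ =
      Pi.single a (b a ⟨i, p⟩) := by
    rw [Basis.reindex_apply, Equiv.symm_symm]
    exact Pi.basis_apply b ⟨a, ⟨i, p⟩⟩
  have hy : ∀ q, ((Pi.basis y).reindex (Equiv.sigmaAssoc (fun a i => Fin (blk a i).Q)).symm) ⟨⟨a, i⟩, q⟩ =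
      LinearMap.single ℂ Y a (y a ⟨i, q⟩) := by
    intro q
    rw [Basis.reindex_apply, Equiv.symm_symm]
    exact Pi.basis_apply y ⟨a, ⟨i, q⟩⟩
  have hs : ∀ (K : ∀ a, P a →ₗ[ℂ] Y a) (x : P a), LinearMap.pi (fun a => K a ∘ₗ LinearMap.proj a) (Pi.single a x) =
      LinearMap.single ℂ Y a (K a x) := by
    intro K x
    funext a'
    by_cases hab : a' = a
    · subst hab
      simp
    · simp [hab]
  rw [hb, hs, hs]
  simp only [hy, ← map_smul, ← map_sum]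
  exact ⟨congrArg _ (hby a i p).1, congrArg _ (hby a i p).2⟩

/-- pull back along a surjective map -/
theorem genPair_comap {Y Y' : Type} [AddCommGroup Y] [Module ℂ Y] [AddCommGroup Y'] [Module ℂ Y']
    (f : Y →ₗ[ℂ] Y') (hf : Function.Surjective f) {S : Y' → Y' → Prop} (h : GenPair Y' S) :
    GenPair Y (fun ξ η => S (f ξ) (f η)) := by
  obtain ⟨F, ⟨ξ, η, h1⟩, h2⟩ := h
  have key : ∀ a b : Y, MvPolynomial.eval (Sum.elim (fun φ : Dual ℂ Y => φ a) (fun φ => φ b))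
      (MvPolynomial.rename (Sum.map (fun φ : Dual ℂ Y' => φ ∘ₗ f) (fun φ => φ ∘ₗ f)) F) =
      MvPolynomial.eval (Sum.elim (fun φ : Dual ℂ Y' => φ (f a)) (fun φ => φ (f b))) F := by
    intro a b
    rw [MvPolynomial.eval_rename]
    congr 2
    funext s
    rcases s with s | s <;> rfl
  refine ⟨MvPolynomial.rename (Sum.map (fun φ : Dual ℂ Y' => φ ∘ₗ f) (fun φ => φ ∘ₗ f)) F, ?_, ?_⟩
  · obtain ⟨a, rfl⟩ := hf ξ
    obtain ⟨b, rfl⟩ := hf η
    exact ⟨a, b, by rw [key]; exact h1⟩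
  · intro a b hab
    rw [key] at hab
    exact h2 _ _ hab

theorem indep_aux {A : Type} [Fintype A] [DecidableEq A] {Y : A → Type} [∀ a, AddCommGroup (Y a)]
    [∀ a, Module ℂ (Y a)] {I : A → Type} (z : ∀ a, I a → Dual ℂ (Y a)) (a : A) (i : I a) :
    (z a i ∘ₗ LinearMap.proj a : Dual ℂ (∀ a, Y a)) = LinearMap.lsum ℂ Y ℂ (M := ℂ) (Pi.single a (z a i)) := by
  apply LinearMap.ext
  intro v
  rw [LinearMap.lsum_apply, LinearMap.sum_apply]
  rw [Finset.sum_eq_single a]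
  · simp
  · intro b _ hb
    rw [Pi.single_eq_of_ne hb]
    rfl
  · intro h
    exact absurd (Finset.mem_univ a) h

theorem indep {A : Type} [Fintype A] [DecidableEq A] {Y : A → Type} [∀ a, AddCommGroup (Y a)]
    [∀ a, Module ℂ (Y a)] {I : A → Type} (z : ∀ a, I a → Dual ℂ (Y a)) (hz : ∀ a, LinearIndependent ℂ (z a)) :
    LinearIndependent ℂ (fun i : Σ a, I a => (z i.1 i.2 ∘ₗ LinearMap.proj i.1 : Dual ℂ (∀ a, Y a))) := by
  have h1 := Pi.linearIndependent_single z hz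
  have h2 := h1.map' (LinearMap.lsum ℂ Y ℂ (M := ℂ)).toLinearMap (LinearEquiv.ker _)
  have h3 : (fun i : Σ a, I a => (z i.1 i.2 ∘ₗ LinearMap.proj i.1 : Dual ℂ (∀ a, Y a))) =
      ((LinearMap.lsum ℂ Y ℂ (M := ℂ)).toLinearMap ∘ fun ji : Σ a, I a => Pi.single ji.1 (z ji.1 ji.2)) := by
    funext i
    exact indep_aux z i.1 i.2
  rw [h3]
  exact h2
theorem ppi {A : Type} [Fintype A] {J I : A → Type} (k : ∀ a, J a → ℕ)
    (s : ∀ a, I a → List ℕ) (h : ∀ a, Piece (k a) (s a)) :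
    Piece (fun j : Σ a, J a => k j.1 j.2) (fun i : Σ a, I a => s i.1 i.2) := by
  classical
  choose P Y i1 i2 i3 i4 ρ z f1 f2 comm hz hgen using h
  let R : (∀ a, P a) →ₗ[ℂ] (∀ a, Y a) →ₗ[ℂ] (∀ a, Y a) :=
    LinearMap.mk₂ ℂ (fun p y a => ρ a (p a) (y a))
      (by intro p p' y; funext a; simp)
      (by intro c p y; funext a; simp)
      (by intro p y y'; funext a; simp)
      (by intro c p y; funext a; simp)
  have hR : ∀ p y a, R p y a = ρ a (p a) (y a) := fun p y a => rfl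
  refine ⟨∀ a, P a, ∀ a, Y a, inferInstance, inferInstance, inferInstance, inferInstance, R,
    fun i => z i.1 i.2 ∘ₗ LinearMap.proj i.1, inferInstance, inferInstance, ?_, indep z hz, ?_⟩
  · intro p p' y
    funext a
    rw [hR, hR, hR, hR]
    exact comm a _ _ _
  · have h1 := GenPair.all (fun a => genPair_comap (LinearMap.proj a : (∀ a, Y a) →ₗ[ℂ] Y a)
      (LinearMap.proj_surjective a) (hgen a))
    refine GenPair.mono h1 ?_
    intro ξ η hξ
    refine ⟨fun i => (hξ i.1).1 i.2, ?_⟩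
    have h2 := pi (fun a => (hξ a).2)
    have h3 := reindex h2 ((Equiv.sigmaSumDistrib (fun a => J a) (fun a => Σ i : I a, Fin (s a i).length)).trans
      (Equiv.sumCongr (Equiv.refl _) (Equiv.sigmaAssoc (fun a i => Fin (s a i).length)).symm))
      (blk' := blocksOf (fun j : Σ a, J a => k j.1 j.2) (fun i : Σ a, I a => s i.1 i.2)
        (fun i => some ((z i.1 i.2 ∘ₗ LinearMap.proj i.1 : Dual ℂ (∀ a, Y a)) ξ /
          (z i.1 i.2 ∘ₗ LinearMap.proj i.1 : Dual ℂ (∀ a, Y a)) η))) (by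
        rintro ⟨a, (j | i)⟩
        · rfl
        · rfl)
    exact h3

end PIaux

theorem PDec.reindex {P Y : Type} [AddCommGroup P] [Module ℂ P] [AddCommGroup Y] [Module ℂ Y]
    {F G : P →ₗ[ℂ] Y} {ι ι' : Type} {blk : ι → Block} {blk' : ι' → Block}
    (h : PDec F G blk) (e : ι ≃ ι') (he : ∀ i, blk' (e i) = blk i) : PDec F G blk' :=
  PIaux.reindex h e he

/-- transport along linear equivalences -/
theorem PDec.congr {P Y P' Y' : Type} [AddCommGroup P] [Module ℂ P] [AddCommGroup Y] [Module ℂ Y]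
    [AddCommGroup P'] [Module ℂ P'] [AddCommGroup Y'] [Module ℂ Y']
    {F G : P →ₗ[ℂ] Y} {F' G' : P' →ₗ[ℂ] Y'} {ι : Type} {blk : ι → Block}
    (h : PDec F G blk) (u : P ≃ₗ[ℂ] P') (v : Y ≃ₗ[ℂ] Y')
    (hF : ∀ p, F' (u p) = v (F p)) (hG : ∀ p, G' (u p) = v (G p)) : PDec F' G' blk :=
  PIaux.congr h u v hF hG

theorem PDec.prod {P Y P' Y' : Type} [AddCommGroup P] [Module ℂ P] [AddCommGroup Y] [Module ℂ Y]
    [AddCommGroup P'] [Module ℂ P'] [AddCommGroup Y'] [Module ℂ Y']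
    {F G : P →ₗ[ℂ] Y} {F' G' : P' →ₗ[ℂ] Y'} {ι ι' : Type} {blk : ι → Block} {blk' : ι' → Block}
    (h : PDec F G blk) (h' : PDec F' G' blk') :
    PDec (F.prodMap F') (G.prodMap G') (Sum.elim blk blk') :=
  PIaux.prod h h'

theorem PDec.pi {A : Type} [Fintype A] {P Y : A → Type}
    [∀ a, AddCommGroup (P a)] [∀ a, Module ℂ (P a)] [∀ a, AddCommGroup (Y a)]
    [∀ a, Module ℂ (Y a)] {F G : ∀ a, P a →ₗ[ℂ] Y a} {ι : A → Type} {blk : ∀ a, ι a → Block}
    (h : ∀ a, PDec (F a) (G a) (blk a)) :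
    PDec (LinearMap.pi (fun a => F a ∘ₗ LinearMap.proj a))
      (LinearMap.pi (fun a => G a ∘ₗ LinearMap.proj a)) (fun i : Σ a, ι a => blk i.1 i.2) :=
  PIaux.pi h

theorem piece_pi {A : Type} [Fintype A] {J I : A → Type} (k : ∀ a, J a → ℕ)
    (s : ∀ a, I a → List ℕ) (h : ∀ a, Piece (k a) (s a)) :
    Piece (fun j : Σ a, J a => k j.1 j.2) (fun i : Σ a, I a => s i.1 i.2) :=
  PIaux.ppi k s h

end P8H59.JK
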