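import Pool.Agent.P8H59.JK.Defs

/-!
# Project JK, package REAL: abelian realisations give Lie algebras
-/

namespace P8H59.JK

open Module MvPolynomial

namespace RL

variable {P Y : Type} [AddCommGroup P] [Module ℂ P] [AddCommGroup Y] [Module ℂ Y]

/-- The space `P × Y*`. -/
def SD (_ρ : P →ₗ[ℂ] Y →ₗ[ℂ] Y) : Type := P × Dual ℂ Y

variable (ρ : P →ₗ[ℂ] Y →ₗ[ℂ] Y)

instance : AddCommGroup (SD ρ) := inferInstanceAs (AddCommGroup (P × Dual ℂ Y))

instance : Module ℂ (SD ρ) := inferInstanceAs (Module ℂ (P × Dual ℂ Y))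

instance [FiniteDimensional ℂ P] [FiniteDimensional ℂ Y] : FiniteDimensional ℂ (SD ρ) :=
  inferInstanceAs (FiniteDimensional ℂ (P × Dual ℂ Y))

/-- the bracket -/
def br (x y : SD ρ) : SD ρ := ((0 : P), y.2 ∘ₗ ρ x.1 - x.2 ∘ₗ ρ y.1)

theorem br_fst (x y : SD ρ) : (br ρ x y).1 = 0 := rfl

theorem br_snd (x y : SD ρ) : (br ρ x y).2 = y.2 ∘ₗ ρ x.1 - x.2 ∘ₗ ρ y.1 := rfl

theorem add_fst (x y : SD ρ) : (x + y).1 = x.1 + y.1 := rfl

theorem add_snd (x y : SD ρ) : (x + y).2 = x.2 + y.2 := rfl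

theorem smul_fst (c : ℂ) (y : SD ρ) : (c • y).1 = c • y.1 := rfl

theorem smul_snd (c : ℂ) (y : SD ρ) : (c • y).2 = c • y.2 := rfl

theorem ext_SD {x y : SD ρ} (h1 : x.1 = y.1) (h2 : ∀ v, x.2 v = y.2 v) : x = y :=
  Prod.ext h1 (LinearMap.ext h2)

/-- the Lie ring structure -/
@[reducible] def lieRing (comm : ∀ p p' y, ρ p (ρ p' y) = ρ p' (ρ p y)) : LieRing (SD ρ) where
  bracket := br ρ
  add_lie x y z := by
    apply ext_SD
    · show (br ρ (x + y) z).1 = (br ρ x z + br ρ y z).1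
      rw [add_fst, br_fst, br_fst, br_fst, add_zero]
    · intro v
      show (br ρ (x + y) z).2 v = (br ρ x z + br ρ y z).2 v
      simp only [add_snd, br_snd, add_fst, LinearMap.sub_apply, LinearMap.add_apply,
        LinearMap.comp_apply, map_add]
      ring
  lie_add x y z := by
    apply ext_SD
    · show (br ρ x (y + z)).1 = (br ρ x y + br ρ x z).1
      rw [add_fst, br_fst, br_fst, br_fst, add_zero]
    · intro v
      show (br ρ x (y + z)).2 v = (br ρ x y + br ρ x z).2 v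
      simp only [add_snd, br_snd, add_fst, LinearMap.sub_apply, LinearMap.add_apply,
        LinearMap.comp_apply, map_add]
      ring
  lie_self x := by
    apply ext_SD
    · rfl
    · intro v
      show (br ρ x x).2 v = 0
      rw [br_snd, sub_self, LinearMap.zero_apply]
  leibniz_lie x y z := by
    apply ext_SD
    · show (br ρ x (br ρ y z)).1 = (br ρ (br ρ x y) z + br ρ y (br ρ x z)).1
      rw [add_fst, br_fst, br_fst, br_fst, add_zero]
    · intro v
      show (br ρ x (br ρ y z)).2 v = (br ρ (br ρ x y) z + br ρ y (br ρ x z)).2 v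
      simp only [add_snd, br_snd, br_fst, LinearMap.sub_apply, LinearMap.add_apply,
        LinearMap.comp_apply, map_zero, LinearMap.zero_apply]
      rw [comm y.1 x.1 v, comm z.1 x.1 v, comm z.1 y.1 v]
      ring

/-- the Lie algebra structure -/
@[reducible] def lieAlg (comm : ∀ p p' y, ρ p (ρ p' y) = ρ p' (ρ p y)) :
    @LieAlgebra ℂ (SD ρ) _ (lieRing ρ comm) :=
  letI := lieRing ρ comm
  { (inferInstance : Module ℂ (SD ρ)) with
    lie_smul := by
      intro c x y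
      apply ext_SD
      · show (br ρ x (c • y)).1 = (c • br ρ x y).1
        rw [smul_fst, br_fst, br_fst, smul_zero]
      · intro v
        show (br ρ x (c • y)).2 v = (c • br ρ x y).2 v
        simp only [smul_snd, br_snd, smul_fst, LinearMap.sub_apply, LinearMap.smul_apply,
          LinearMap.comp_apply, map_smul, smul_eq_mul]
        ring }

variable {ρ}

theorem form_eq (X : SD ρ →ₗ[ℂ] ℂ) (ξ : Y)
    (hX : ∀ f : Dual ℂ Y, X ((0 : P), f) = f ξ) (x y : SD ρ) :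
    X (br ρ x y) = y.2 (ρ x.1 ξ) - x.2 (ρ y.1 ξ) := by
  have h : br ρ x y = ((0 : P), y.2 ∘ₗ ρ x.1 - x.2 ∘ₗ ρ y.1) := rfl
  rw [h, hX]
  rfl

variable {ι : Type} [Finite ι] [DecidableEq ι] {blk : ι → Block}

/-- the basis of `P × Y*` -/
noncomputable def bas (e : Basis (Σ i, Fin (blk i).P) ℂ P) (y : Basis (Σ i, Fin (blk i).Q) ℂ Y) :
    Basis (Σ i, Fin (blk i).P ⊕ Fin (blk i).Q) ℂ (P × Dual ℂ Y) :=
  (e.prod y.dualBasis).reindex (Equiv.sigmaSumDistrib _ _).symm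

theorem bas_inl (e : Basis (Σ i, Fin (blk i).P) ℂ P) (y : Basis (Σ i, Fin (blk i).Q) ℂ Y)
    (i : ι) (p : Fin (blk i).P) : bas e y ⟨i, Sum.inl p⟩ = (e ⟨i, p⟩, 0) := by
  simp [bas]

theorem bas_inr (e : Basis (Σ i, Fin (blk i).P) ℂ P) (y : Basis (Σ i, Fin (blk i).Q) ℂ Y)
    (i : ι) (q : Fin (blk i).Q) : bas e y ⟨i, Sum.inr q⟩ = (0, y.dualBasis ⟨i, q⟩) := by
  simp [bas]

theorem coord_sum (y : Basis (Σ i, Fin (blk i).Q) ℂ Y) (i j : ι) (c : ℕ → ℂ) (q : Fin (blk j).Q) :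
    y.dualBasis ⟨j, q⟩ (∑ q' : Fin (blk i).Q, c q' • y ⟨i, q'⟩) = if i = j then c q else 0 := by
  rw [map_sum]
  by_cases h : i = j
  · subst h
    rw [if_pos rfl, Finset.sum_eq_single q]
    · rw [map_smul, Basis.dualBasis_apply_self, if_pos rfl, smul_eq_mul, mul_one]
    · intro q' _ hq'
      rw [map_smul, Basis.dualBasis_apply_self, if_neg, smul_zero]
      intro h
      exact hq' (eq_of_heq (Sigma.mk.inj h).2)
    · simp
  · rw [if_neg h]
    refine Finset.sum_eq_zero fun q' _ => ?_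
    rw [map_smul, Basis.dualBasis_apply_self, if_neg, smul_zero]
    intro h'
    exact h (Sigma.mk.inj h').1

theorem form_bas (e : Basis (Σ i, Fin (blk i).P) ℂ P) (y : Basis (Σ i, Fin (blk i).Q) ℂ Y)
    (ξ : Y) (ent : Block → ℕ → ℕ → ℂ)
    (h : ∀ i (p : Fin (blk i).P), ρ (e ⟨i, p⟩) ξ = ∑ q : Fin (blk i).Q, ent (blk i) p q • y ⟨i, q⟩)
    (s t : Σ i, Fin (blk i).P ⊕ Fin (blk i).Q) :
    (bas e y t).2 (ρ (bas e y s).1 ξ) - (bas e y s).2 (ρ (bas e y t).1 ξ) =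
      skewEnt ent blk s t := by
  obtain ⟨i, p | q⟩ := s
  · obtain ⟨j, p' | q'⟩ := t
    · rw [bas_inl, bas_inl]
      simp [skewEnt]
    · rw [bas_inl, bas_inr]
      simp only [map_zero, LinearMap.zero_apply, sub_zero]
      rw [h, coord_sum y i j (fun q => ent (blk i) p q) q']
      rfl
  · obtain ⟨j, p' | q'⟩ := t
    · rw [bas_inr, bas_inl]
      simp only [map_zero, LinearMap.zero_apply, zero_sub]
      rw [h, coord_sum y j i (fun q => ent (blk j) p' q) q]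
      simp only [skewEnt]
      by_cases hij : i = j
      · subst hij
        simp
      · rw [if_neg hij, if_neg (Ne.symm hij), neg_zero]
    · rw [bas_inr, bas_inr]
      simp [skewEnt]

end RL

open RL in
/-- An abelian realisation gives a Lie algebra (`P ⋉ Y*`). -/
theorem realisable_of_abelian {P Y : Type} [AddCommGroup P] [Module ℂ P] [AddCommGroup Y]
    [Module ℂ Y] [FiniteDimensional ℂ P] [FiniteDimensional ℂ Y] (ρ : P →ₗ[ℂ] Y →ₗ[ℂ] Y)
    (comm : ∀ p p' y, ρ p (ρ p' y) = ρ p' (ρ p y)) (T : AlgType)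
    (h : GenPair Y (fun ξ η => ∃ μ : Fin T.jordan.length → Option ℂ, Function.Injective μ ∧
      PDec (ρ.flip ξ) (ρ.flip η) (T.blocks μ))) : Realisable T := by
  classical
  let i1 : LieRing (SD ρ) := lieRing ρ comm
  let i2 : LieAlgebra ℂ (SD ρ) := lieAlg ρ comm
  refine ⟨SD ρ, i1, i2, inferInstanceAs (FiniteDimensional ℂ (P × Dual ℂ Y)), ?_⟩
  obtain ⟨F, ⟨ξ0, η0, h0⟩, hF⟩ := h
  set em : Dual ℂ Y → SD ρ := fun φ => ((0 : P), φ) with hem
  refine ⟨rename (Sum.map em em) F, ?_, ?_⟩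
  · refine ⟨(Dual.eval ℂ Y ξ0) ∘ₗ (LinearMap.snd ℂ P (Dual ℂ Y)),
      (Dual.eval ℂ Y η0) ∘ₗ (LinearMap.snd ℂ P (Dual ℂ Y)), ?_⟩
    rw [eval_rename]
    convert h0 using 3
    funext z
    rcases z with z | z <;> rfl
  · intro x a hxa
    obtain ⟨ξ, hξ⟩ : ∃ ξ : Y, ∀ f : Dual ℂ Y, x ((0 : P), f) = f ξ := by
      refine ⟨(Module.evalEquiv ℂ Y).symm (x ∘ₗ LinearMap.inr ℂ P (Dual ℂ Y)), fun f => ?_⟩
      have h1 := (Module.evalEquiv ℂ Y).apply_symm_apply (x ∘ₗ LinearMap.inr ℂ P (Dual ℂ Y))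
      have h2 := LinearMap.congr_fun h1 f
      exact h2.symm
    obtain ⟨η, hη⟩ : ∃ η : Y, ∀ f : Dual ℂ Y, a ((0 : P), f) = f η := by
      refine ⟨(Module.evalEquiv ℂ Y).symm (a ∘ₗ LinearMap.inr ℂ P (Dual ℂ Y)), fun f => ?_⟩
      have h1 := (Module.evalEquiv ℂ Y).apply_symm_apply (a ∘ₗ LinearMap.inr ℂ P (Dual ℂ Y))
      have h2 := LinearMap.congr_fun h1 f
      exact h2.symm
    rw [eval_rename] at hxa
    obtain ⟨μ, hμ, e, y, hey⟩ := hF ξ η (by
      convert hxa using 3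
      funext z
      rcases z with z | z
      · exact (hξ z).symm
      · exact (hη z).symm)
    refine ⟨μ, hμ, ?_⟩
    have hx : ∀ u v : SD ρ, lieForm x u v = v.2 (ρ u.1 ξ) - u.2 (ρ v.1 ξ) :=
      fun u v => form_eq x ξ hξ u v
    have ha : ∀ u v : SD ρ, lieForm a u v = v.2 (ρ u.1 η) - u.2 (ρ v.1 η) :=
      fun u v => form_eq a η hη u v
    refine ⟨bas e y, fun s t => ⟨?_, ?_⟩⟩
    · exact (hx _ _).trans (form_bas e y ξ Block.entA (fun i p => (hey i p).1) s t)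
    · exact (ha _ _).trans (form_bas e y η Block.entB (fun i p => (hey i p).2) s t)

end P8H59.JK
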