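import Pool.Agent.P8H59.JK.AG
import Pool.Agent.P8H59.JK.REAL
import Pool.Agent.P8H59.JK.PI

/-!
# Project JK, package FIN: types with at most `∑ (k_j + 1)` bad groups are realisable
-/

namespace P8H59.JK

open Module MvPolynomial

theorem realisable_of_piece {J I : Type} (k : J → ℕ) (s : I → List ℕ) (hp : Piece k s)
    (T : AlgType) (eJ : J ≃ Fin T.kron.length) (hJ : ∀ j, T.kron.get (eJ j) = k j)
    (eI : I ≃ Fin T.jordan.length) (hI : ∀ i, T.jordan.get (eI i) = s i) : Realisable T := by
  classical
  obtain ⟨P, Y, i1, i2, i3, i4, ρ, z, f1, f2, comm, hz, hgen⟩ := hp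
  apply realisable_of_abelian ρ comm T
  have : Finite I := Finite.of_equiv _ eI.symm
  have g2 : GenPair Y (fun ξ η => ∀ x : {x : I × I // x.1 ≠ x.2},
      z x.1.1 ξ * z x.1.2 η - z x.1.2 ξ * z x.1.1 η ≠ 0) := by
    apply GenPair.all
    rintro ⟨⟨i, i'⟩, hi⟩
    apply GenPair.cross
    have h := hz.comp ![i, i'] (by
      intro a b hab
      fin_cases a <;> fin_cases b
      · rfl
      · exact absurd hab hi
      · exact absurd hab.symm hi
      · rfl)
    convert h using 1
    funext a
    fin_cases a <;> rfl
  refine (hgen.and g2).mono ?_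
  rintro ξ η ⟨⟨h1, h2⟩, h3⟩
  refine ⟨fun g => some (z (eI.symm g) ξ / z (eI.symm g) η), ?_, ?_⟩
  · intro g g' hgg
    by_contra hne
    have hne' : eI.symm g ≠ eI.symm g' := fun h => hne (eI.symm.injective h)
    apply h3 ⟨(eI.symm g, eI.symm g'), hne'⟩
    have h4 := Option.some_injective _ hgg
    rw [div_eq_div_iff (h1 _) (h1 _)] at h4
    simp only
    linear_combination h4
  · refine h2.reindex (Equiv.sumCongr eJ (Equiv.sigmaCongr eI
      (fun i => finCongr (by rw [hI])))) ?_
    rintro (j | ⟨i, q⟩)
    · simp only [Equiv.sumCongr_apply, Sum.map_inl, AlgType.blocks, blocksOf, hJ]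
    · simp only [Equiv.sumCongr_apply, Sum.map_inr, AlgType.blocks, blocksOf]
      congr 1
      · have : ∀ (l l' : List ℕ) (h : l = l') (h2 : l'.length = l.length) (q : Fin l'.length),
            l.get (finCongr h2 q) = l'.get q := by
          intro l l' h h2 q
          subst h
          rfl
        exact this _ _ (hI i) _ q
      · simp [Equiv.sigmaCongr]

theorem numBad_eq (T : AlgType) :
    T.numBad = Nat.card {g : Fin T.jordan.length // Bad (T.jordan.get g)} := by
  classical
  rw [Nat.card_eq_fintype_card, Fintype.card_subtype, AlgType.numBad]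
  have h1 : (List.finRange T.jordan.length).map T.jordan.get = T.jordan := by
    rw [← List.ofFn_eq_map, List.ofFn_get]
  conv_lhs => rw [← h1, List.countP_map]
  rw [Finset.card_def, Finset.filter_val, ← Multiset.countP_eq_card_filter]
  have h2 : (Finset.univ : Finset (Fin T.jordan.length)).val =
      Multiset.ofList (List.finRange T.jordan.length) := rfl
  rw [h2, Multiset.coe_countP]
  congr 1

theorem theoremB (T : AlgType) (hT : T.Valid) (h : T.numBad ≤ (T.kron.map (· + 1)).sum) :
    Realisable T := by
  classical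
  set N := T.jordan.length with hN
  let BG : Type := {g : Fin T.jordan.length // Bad (T.jordan.get g)}
  let GG : Type := {g : Fin T.jordan.length // ¬ Bad (T.jordan.get g)}
  obtain ⟨f⟩ : Nonempty (BG ↪ (Σ j : Fin T.kron.length, Fin (T.kron.get j + 1))) := by
    apply Function.Embedding.nonempty_of_card_le
    rw [← Nat.card_eq_fintype_card, ← numBad_eq]
    refine h.trans (le_of_eq ?_)
    simp only [Fintype.card_sigma, Fintype.card_fin]
    exact (Fin.sum_univ_fun_getElem T.kron (fun n => n + 1)).symm
  let J : Fin T.kron.length ⊕ GG → Type := Sum.elim (fun _ => Unit) (fun _ => Empty)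
  let I : Fin T.kron.length ⊕ GG → Type := Sum.elim (fun j => {g : BG // (f g).1 = j})
    (fun _ => Unit)
  let k : ∀ a, J a → ℕ := fun a => match a with
    | Sum.inl j => fun _ => T.kron.get j
    | Sum.inr _ => fun e => Empty.elim e
  let s : ∀ a, I a → List ℕ := fun a => match a with
    | Sum.inl j => fun g => T.jordan.get g.1.1
    | Sum.inr g => fun _ => T.jordan.get g.1
  have hpc : ∀ a, Piece (k a) (s a) := by
    rintro (j | g)
    · refine piece_kron (T.kron.get j) (I := {g : BG // (f g).1 = j})
        (fun g => Fin.cast (by rw [g.2]) (f g.1).2) ?_ (fun g => T.jordan.get g.1.1) ?_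
      · rintro ⟨g, hg⟩ ⟨g', hg'⟩ hgg
        apply Subtype.ext
        apply f.injective
        subst hg
        refine Sigma.ext hg'.symm ((Fin.heq_ext_iff (by rw [hg'])).mpr ?_)
        exact congrArg Fin.val hgg
      · intro g n hn
        exact (hT _ (List.get_mem _ _)).2 n hn
    · exact piece_good (T.jordan.get g.1) (hT _ (List.get_mem _ _)).1
        (hT _ (List.get_mem _ _)).2 g.2
  have hp := piece_pi k s hpc
  let eJ : (Σ a, J a) ≃ Fin T.kron.length :=
    { toFun := fun x => match x with
        | ⟨Sum.inl j, _⟩ => j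
        | ⟨Sum.inr _, e⟩ => Empty.elim e
      invFun := fun j => ⟨Sum.inl j, ()⟩
      left_inv := by
        rintro ⟨j | g, e⟩
        · rfl
        · exact Empty.elim e
      right_inv := fun j => rfl }
  let eI : (Σ a, I a) ≃ Fin T.jordan.length :=
    { toFun := fun x => match x with
        | ⟨Sum.inl _, g⟩ => g.1.1
        | ⟨Sum.inr g, _⟩ => g.1
      invFun := fun g => if hg : Bad (T.jordan.get g) then
          ⟨Sum.inl (f ⟨g, hg⟩).1, ⟨⟨g, hg⟩, rfl⟩⟩
        else ⟨Sum.inr ⟨g, hg⟩, ()⟩
      left_inv := by
        rintro ⟨j | g, e⟩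
        · obtain ⟨⟨g, hg⟩, he⟩ := e
          subst he
          simp only
          rw [dif_pos hg]
        · simp only
          rw [dif_neg g.2]
          rfl
      right_inv := by
        intro g
        by_cases hg : Bad (T.jordan.get g)
        · simp only [dif_pos hg]
        · simp only [dif_neg hg] }
  refine realisable_of_piece _ _ hp T eJ ?_ eI ?_
  · rintro ⟨j | g, e⟩
    · rfl
    · exact Empty.elim e
  · rintro ⟨j | g, e⟩
    · rfl
    · rfl

end P8H59.JK
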