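import Pool.Agent.P8H59.JK.Defs

/-!
# Package FO of project JK (helper43)
-/

set_option autoImplicit false

namespace P8H59.JK

open Module

namespace FOaux

/-- weakly continuous functions -/
def WC {M : Type} [AddCommGroup M] [Module ℂ M] (f : ℂ → M) : Prop :=
  ∀ l : M →ₗ[ℂ] ℂ, Continuous (fun s => l (f s))

section
variable {M : Type} [AddCommGroup M] [Module ℂ M]

lemma WC.const (m : M) : WC (fun _ : ℂ => m) := fun _ => continuous_const

lemma WC.add {f g : ℂ → M} (hf : WC f) (hg : WC g) : WC (fun s => f s + g s) := by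
  intro l
  simp only [map_add]
  exact (hf l).add (hg l)

lemma WC.sub {f g : ℂ → M} (hf : WC f) (hg : WC g) : WC (fun s => f s - g s) := by
  intro l
  simp only [map_sub]
  exact (hf l).sub (hg l)

lemma WC.idsmul {f : ℂ → M} (hf : WC f) : WC (fun s => s • f s) := by
  intro l
  simp only [map_smul, smul_eq_mul]
  exact continuous_id.mul (hf l)

lemma WC.csmul {f : ℂ → M} (hf : WC f) (c : ℂ) : WC (fun s => c • f s) := by
  intro l
  simp only [map_smul, smul_eq_mul]
  exact continuous_const.mul (hf l)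

lemma WC.sum {ι : Type} (t : Finset ι) {f : ι → ℂ → M} (hf : ∀ i ∈ t, WC (f i)) : WC (fun s => ∑ i ∈ t, f i s) := by
  intro l
  simp only [map_sum]
  exact continuous_finsetSum t (fun i hi => hf i hi l)

lemma WC.map {M' : Type} [AddCommGroup M'] [Module ℂ M'] (T : M →ₗ[ℂ] M') {f : ℂ → M} (hf : WC f) :
    WC (fun s => T (f s)) := fun l => hf (l ∘ₗ T)

end

lemma WC.mul {M : Type} [Ring M] [Algebra ℂ M] [FiniteDimensional ℂ M] {f g : ℂ → M} (hf : WC f) (hg : WC g) :
    WC (fun s => f s * g s) := by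
  intro l
  let b := Module.finBasis ℂ M
  have h1 : ∀ s, l (f s * g s) = ∑ i, ∑ j, b.coord i (f s) * (b.coord j (g s) * l (b i * b j)) := by
    intro s
    have hf' : f s = ∑ i, b.coord i (f s) • b i := (b.sum_repr (f s)).symm
    have hg' : g s = ∑ i, b.coord i (g s) • b i := (b.sum_repr (g s)).symm
    conv_lhs => rw [hf', hg', Finset.sum_mul_sum, map_sum]
    apply Finset.sum_congr rfl
    intro i _
    rw [map_sum]
    apply Finset.sum_congr rfl
    intro j _
    rw [smul_mul_smul_comm, map_smul, smul_eq_mul]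
    ring
  simp only [h1]
  apply continuous_finsetSum
  intro i _
  apply continuous_finsetSum
  intro j _
  exact (hf (b.coord i)).mul ((hg (b.coord j)).mul continuous_const)

lemma WC.pow {M : Type} [Ring M] [Algebra ℂ M] [FiniteDimensional ℂ M] {f : ℂ → M} (hf : WC f) (n : ℕ) :
    WC (fun s => f s ^ n) := by
  induction n with
  | zero => simp only [pow_zero]; exact WC.const 1
  | succ n ih => simp only [pow_succ]; exact ih.mul hf

/-- dual functionals of an independent family -/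
lemma dual_fam {M : Type} [AddCommGroup M] [Module ℂ M] {m : ℕ} (v : Fin m → M) (hv : LinearIndependent ℂ v) :
    ∃ l : Fin m → M →ₗ[ℂ] ℂ, ∀ i j, l i (v j) = if i = j then 1 else 0 := by
  obtain ⟨g, hg⟩ := (Finsupp.linearCombination ℂ v).exists_leftInverse_of_injective (LinearMap.ker_eq_bot.2 hv)
  refine ⟨fun i => (Finsupp.lapply i) ∘ₗ g, ?_⟩
  intro i j
  have h1 := LinearMap.congr_fun hg (Finsupp.single j 1)
  simp only [LinearMap.comp_apply, Finsupp.linearCombination_single, one_smul, LinearMap.id_apply] at h1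
  rw [LinearMap.comp_apply, h1, Finsupp.lapply_apply, Finsupp.single_apply]
  by_cases h : j = i
  · subst h; simp
  · rw [if_neg h, if_neg (fun h' => h h'.symm)]

/-- dependence is a closed condition -/
lemma closed_dep {M : Type} [AddCommGroup M] [Module ℂ M] {m : ℕ} (w : Fin m → ℂ → M) (hw : ∀ j, WC (w j))
    (h : ∃ᶠ s in nhds (0 : ℂ), ¬ LinearIndependent ℂ (fun j => w j s)) :
    ¬ LinearIndependent ℂ (fun j => w j 0) := by
  intro hind
  obtain ⟨l, hl⟩ := dual_fam _ hind
  have hcont : Continuous (fun s => (Matrix.of (fun i j => l i (w j s))).det) := by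
    apply Continuous.matrix_det
    apply continuous_matrix
    intro i j
    exact hw j (l i)
  have h0 : (Matrix.of (fun i j => l i (w j 0))).det ≠ 0 := by
    have : Matrix.of (fun i j => l i (w j 0)) = (1 : Matrix (Fin m) (Fin m) ℂ) := by
      ext i j
      rw [Matrix.of_apply, hl, Matrix.one_apply]
    rw [this, Matrix.det_one]
    exact one_ne_zero
  have h1 : ∀ᶠ s in nhds (0 : ℂ), (Matrix.of (fun i j => l i (w j s))).det ≠ 0 :=
    hcont.continuousAt.eventually_ne h0
  obtain ⟨s, hs1, hs2⟩ := (h.and_eventually h1).exists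
  apply hs1
  rw [Fintype.linearIndependent_iff]
  intro g hg
  by_contra hcon
  rw [not_forall] at hcon
  apply hs2
  rw [← Matrix.exists_mulVec_eq_zero_iff]
  refine ⟨g, ?_, ?_⟩
  · intro h3
    obtain ⟨i, hi⟩ := hcon
    exact hi (congrFun h3 i)
  · funext i
    have h4 := congrArg (l i) hg
    rw [map_sum, map_zero] at h4
    simp only [map_smul, smul_eq_mul] at h4
    rw [Matrix.mulVec, dotProduct]
    simp only [Matrix.of_apply, Pi.zero_apply]
    rw [← h4]
    exact Finset.sum_congr rfl fun j _ => mul_comm _ _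

lemma sum_neg' {W : Type} [AddCommGroup W] [Module ℂ W] {d : ℕ} (a : Fin d → ℂ) (z : Fin d → W) :
    ∑ j, (-a j) • z j = -∑ j, a j • z j := by
  rw [← Finset.sum_neg_distrib]
  exact Finset.sum_congr rfl fun x _ => neg_smul _ _

end FOaux

open FOaux in
/-- First order identity. -/
theorem first_order {E V : Type} [AddCommGroup E] [Module ℂ E] [FiniteDimensional ℂ E]
    [AddCommGroup V] [Module ℂ V] [FiniteDimensional ℂ V]
    (B : V →ₗ[ℂ] V →ₗ[ℂ] ℂ) (S : E →ₗ[ℂ] Module.End ℂ V) (x₀ : E) (d : ℕ)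
    (hind : LinearIndependent ℂ (fun j : Fin d => B ∘ₗ (S x₀ ^ (j : ℕ))))
    (H : MvPolynomial (Dual ℂ E) ℂ) (hH : ∃ x : E, MvPolynomial.eval (fun φ => φ x) H ≠ 0)
    (hdep : ∀ x : E, MvPolynomial.eval (fun φ => φ x) H ≠ 0 →
      ¬ LinearIndependent ℂ (fun j : Fin (d + 1) => B ∘ₗ (S x ^ (j : ℕ)))) :
    ∃ (c : ℕ → ℂ) (δ : ℕ → Dual ℂ E), c d ≠ 0 ∧
      ∑ j ∈ Finset.range (d + 1), c j • (B ∘ₗ (S x₀ ^ j)) = 0 ∧
      ∀ X : E, ∑ j ∈ Finset.range (d + 1), δ j X • (B ∘ₗ (S x₀ ^ j)) +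
        ∑ j ∈ Finset.range (d + 1), c j • ∑ i ∈ Finset.range j,
          (B ∘ₗ (S x₀ ^ i * S X * S x₀ ^ (j - 1 - i))) = 0 := by
  -- composition with `B` is linear
  let LB : Module.End ℂ V →ₗ[ℂ] (V →ₗ[ℂ] V →ₗ[ℂ] ℂ) :=
    { toFun := fun T => B ∘ₗ T
      map_add' := fun T T' => LinearMap.comp_add _ _ _
      map_smul' := fun c T => LinearMap.comp_smul _ _ _ }
  have hLB : ∀ T, LB T = B ∘ₗ T := fun T => rfl
  -- dependence everywhere
  have hall : ∀ x : E, ¬ LinearIndependent ℂ (fun j : Fin (d + 1) => B ∘ₗ (S x ^ (j : ℕ))) := by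
    intro x
    obtain ⟨y, hy⟩ := hH
    let w : Fin (d + 1) → ℂ → (V →ₗ[ℂ] V →ₗ[ℂ] ℂ) := fun j s => LB ((S x + s • S (y - x)) ^ (j : ℕ))
    have hw : ∀ j, WC (w j) := by
      intro j
      apply WC.map LB
      apply WC.pow
      exact (WC.const _).add (WC.idsmul (WC.const _))
    -- the polynomial along the line
    let q : Polynomial ℂ := MvPolynomial.aeval (fun φ : Dual ℂ E => Polynomial.C (φ x) + Polynomial.X * Polynomial.C (φ (y - x))) H
    have hq : ∀ s : ℂ, q.eval s = MvPolynomial.eval (fun φ : Dual ℂ E => φ (x + s • (y - x))) H := by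
      intro s
      have h1 : q.eval s = (Polynomial.evalRingHom s) (MvPolynomial.aeval (fun φ : Dual ℂ E =>
          Polynomial.C (φ x) + Polynomial.X * Polynomial.C (φ (y - x))) H) := rfl
      rw [h1, MvPolynomial.aeval_def, MvPolynomial.hom_eval₂, MvPolynomial.eval, MvPolynomial.coe_eval₂Hom]
      congr 1
      · ext a
        simp
      · funext φ
        simp
    have hq0 : q ≠ 0 := by
      intro h
      have := hq 1
      rw [h, Polynomial.eval_zero, one_smul, add_sub_cancel] at this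
      exact hy this.symm
    have hfin : Set.Finite {s : ℂ | q.eval s = 0} := by
      have := Polynomial.rootSet_finite q ℂ
      refine this.subset ?_
      intro s hs
      rw [Polynomial.mem_rootSet]
      exact ⟨hq0, by simpa using hs⟩
    have hfreq : ∃ᶠ s in nhds (0 : ℂ), ¬ LinearIndependent ℂ (fun j => w j s) := by
      have h1 : ∀ᶠ s in nhdsWithin (0 : ℂ) {0}ᶜ, q.eval s ≠ 0 := by
        have h2 : ∀ᶠ s in nhdsWithin (0 : ℂ) {0}ᶜ, s ∈ ({s : ℂ | q.eval s = 0} \ {0})ᶜ := by
          apply mem_nhdsWithin_of_mem_nhds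
          exact (hfin.subset Set.sdiff_subset).isClosed.isOpen_compl.mem_nhds (by simp)
        filter_upwards [h2, self_mem_nhdsWithin] with s hs1 hs2 hs3
        exact hs1 ⟨hs3, hs2⟩
      have h3 : ∃ᶠ s in nhdsWithin (0 : ℂ) {0}ᶜ, ¬ LinearIndependent ℂ (fun j => w j s) := by
        apply Filter.Eventually.frequently
        filter_upwards [h1] with s hs
        have h4 := hdep (x + s • (y - x)) (by rw [← hq]; exact hs)
        have h5 : (fun j : Fin (d + 1) => B ∘ₗ (S (x + s • (y - x)) ^ (j : ℕ))) = fun j => w j s := by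
          funext j
          simp only [w, hLB, map_add, map_smul]
        rw [h5] at h4
        exact h4
      exact h3.filter_mono nhdsWithin_le_nhds
    have h6 := closed_dep w hw hfreq
    have h7 : (fun j : Fin (d + 1) => B ∘ₗ (S x ^ (j : ℕ))) = fun j => w j 0 := by
      funext j
      simp only [w, hLB, zero_smul, add_zero]
    rw [h7]
    exact h6
  -- the relation at `x₀`
  have hsnoc : ∀ z : V →ₗ[ℂ] V →ₗ[ℂ] ℂ, ¬ LinearIndependent ℂ
      (Fin.snoc (fun j : Fin d => B ∘ₗ (S x₀ ^ (j : ℕ))) z : Fin (d + 1) → (V →ₗ[ℂ] V →ₗ[ℂ] ℂ)) →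
      ∃ a : Fin d → ℂ, z = ∑ j, a j • (B ∘ₗ (S x₀ ^ (j : ℕ))) := by
    intro z hz
    rw [linearIndependent_finSnoc, not_and, not_not] at hz
    have := hz hind
    rw [Submodule.mem_span_range_iff_exists_fun] at this
    obtain ⟨a, ha⟩ := this
    exact ⟨a, ha.symm⟩
  obtain ⟨a, ha⟩ : ∃ a : Fin d → ℂ, B ∘ₗ (S x₀ ^ d) = ∑ j, a j • (B ∘ₗ (S x₀ ^ (j : ℕ))) := by
    apply hsnoc
    have h1 := hall x₀
    have h2 : (fun j : Fin (d + 1) => B ∘ₗ (S x₀ ^ (j : ℕ))) =
        (Fin.snoc (fun j : Fin d => B ∘ₗ (S x₀ ^ (j : ℕ))) (B ∘ₗ (S x₀ ^ d)) : Fin (d + 1) → (V →ₗ[ℂ] V →ₗ[ℂ] ℂ)) := by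
      funext j
      refine Fin.lastCases ?_ (fun j => ?_) j
      · rw [Fin.snoc_last, Fin.val_last]
      · rw [Fin.snoc_castSucc, Fin.val_castSucc]
    rw [h2] at h1
    exact h1
  -- the difference quotients
  let Q : ℕ → E → ℂ → Module.End ℂ V := fun j X s =>
    ∑ i ∈ Finset.range j, (S x₀ ^ i * S X * (S x₀ + s • S X) ^ (j - 1 - i))
  have hQ : ∀ j X s, (S x₀ + s • S X) ^ j = S x₀ ^ j + s • Q j X s := by
    intro j X s
    induction j with
    | zero => simp [Q]
    | succ j ih =>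
      have h1 : Q (j + 1) X s = Q j X s * (S x₀ + s • S X) + S x₀ ^ j * S X := by
        simp only [Q]
        rw [Finset.sum_range_succ, Finset.sum_mul]
        congr 1
        · apply Finset.sum_congr rfl
          intro i hi
          rw [Finset.mem_range] at hi
          have : j + 1 - 1 - i = (j - 1 - i) + 1 := by omega
          rw [this, pow_succ, ← mul_assoc]
        · have : j + 1 - 1 - j = 0 := by omega
          rw [this, pow_zero, mul_one]
      rw [pow_succ, ih, h1, add_mul, smul_add, smul_mul_assoc, mul_add, ← pow_succ, mul_smul_comm]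
      abel
  have hQ0 : ∀ j X, Q j X 0 = ∑ i ∈ Finset.range j, (S x₀ ^ i * S X * S x₀ ^ (j - 1 - i)) := by
    intro j X
    simp only [Q, zero_smul, add_zero]
  have hQw : ∀ j X, WC (Q j X) := by
    intro j X
    apply WC.sum
    intro i _
    exact (WC.const _).mul (((WC.const _).add (WC.idsmul (WC.const _))).pow _)
  -- the derivative
  let D : E → (V →ₗ[ℂ] V →ₗ[ℂ] ℂ) := fun X => LB (Q d X 0) - ∑ j : Fin d, a j • LB (Q j X 0)
  have hD : ∀ X, ∃ b : Fin d → ℂ, D X = ∑ j, b j • (B ∘ₗ (S x₀ ^ (j : ℕ))) := by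
    intro X
    apply hsnoc
    let w : Fin (d + 1) → ℂ → (V →ₗ[ℂ] V →ₗ[ℂ] ℂ) := fun j s =>
      (Fin.snoc (fun j : Fin d => LB ((S x₀ + s • S X) ^ (j : ℕ)))
        (LB (Q d X s) - ∑ j : Fin d, a j • LB (Q j X s)) : Fin (d + 1) → (V →ₗ[ℂ] V →ₗ[ℂ] ℂ)) j
    have hw : ∀ j, WC (w j) := by
      intro j
      refine Fin.lastCases ?_ (fun j => ?_) j
      · simp only [w, Fin.snoc_last]
        exact ((hQw d X).map LB).sub (WC.sum _ (fun j _ => ((hQw j X).map LB).csmul _))
      · simp only [w, Fin.snoc_castSucc]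
        exact ((((WC.const _).add (WC.idsmul (WC.const _))).pow _).map LB)
    have hfreq : ∃ᶠ s in nhds (0 : ℂ), ¬ LinearIndependent ℂ (fun j => w j s) := by
      have h3 : ∃ᶠ s in nhdsWithin (0 : ℂ) {0}ᶜ, ¬ LinearIndependent ℂ (fun j => w j s) := by
        apply Filter.Eventually.frequently
        filter_upwards [self_mem_nhdsWithin] with s hs
        have hs0 : s ≠ 0 := hs
        have h4 := hall (x₀ + s • X)
        rw [Fintype.not_linearIndependent_iff] at h4 ⊢
        obtain ⟨g, hg, i, hi⟩ := h4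
        refine ⟨Fin.snoc (fun j : Fin d => g j.castSucc + g (Fin.last d) * a j) (g (Fin.last d) * s), ?_, ?_⟩
        · rw [Fin.sum_univ_castSucc] at hg ⊢
          simp only [Fin.snoc_castSucc, Fin.snoc_last, w]
          simp only [map_add, map_smul, Fin.val_castSucc, Fin.val_last] at hg
          have h5 : B ∘ₗ ((S x₀ + s • S X) ^ d) = ∑ j : Fin d, a j • LB ((S x₀ + s • S X) ^ (j : ℕ)) +
              s • (LB (Q d X s) - ∑ j : Fin d, a j • LB (Q j X s)) := by
            rw [← hLB, hQ d X s, map_add, map_smul, hLB, ha]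
            have h6 : ∀ j : Fin d, a j • LB ((S x₀ + s • S X) ^ (j : ℕ)) =
                a j • (B ∘ₗ (S x₀ ^ (j : ℕ))) + s • (a j • LB (Q j X s)) := by
              intro j
              rw [hQ j X s, map_add, map_smul, smul_add, hLB, smul_comm]
            simp only [h6]
            rw [Finset.sum_add_distrib, ← Finset.smul_sum, smul_sub]
            abel
          rw [h5] at hg
          rw [← hg]
          simp only [add_smul, Finset.sum_add_distrib, smul_add, mul_smul, Finset.smul_sum, hLB]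
          abel
        · by_cases hl : g (Fin.last d) = 0
          · refine Fin.lastCases ?_ (fun i hi => ?_) i hi
            · intro h
              exact absurd hl h
            · refine ⟨i.castSucc, ?_⟩
              rw [Fin.snoc_castSucc, hl, zero_mul, add_zero]
              exact hi
          · refine ⟨Fin.last d, ?_⟩
            rw [Fin.snoc_last]
            exact mul_ne_zero hl hs0
      exact h3.filter_mono nhdsWithin_le_nhds
    have h6 := closed_dep w hw hfreq
    have h7 : (Fin.snoc (fun j : Fin d => B ∘ₗ (S x₀ ^ (j : ℕ))) (D X) : Fin (d + 1) → (V →ₗ[ℂ] V →ₗ[ℂ] ℂ)) =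
        fun j => w j 0 := by
      funext j
      refine Fin.lastCases ?_ (fun j => ?_) j
      · simp only [w, Fin.snoc_last, D]
      · simp only [w, Fin.snoc_castSucc, hLB, zero_smul, add_zero]
    rw [h7]
    exact h6
  -- linearity of the coefficients
  obtain ⟨l, hl⟩ := dual_fam _ hind
  let QL : ℕ → E →ₗ[ℂ] Module.End ℂ V := fun j =>
    ∑ i ∈ Finset.range j, (LinearMap.mulLeft ℂ (S x₀ ^ i) ∘ₗ LinearMap.mulRight ℂ (S x₀ ^ (j - 1 - i)) ∘ₗ S)
  have hQL : ∀ j X, QL j X = Q j X 0 := by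
    intro j X
    rw [hQ0]
    simp only [QL, LinearMap.sum_apply, LinearMap.comp_apply, LinearMap.mulLeft_apply, LinearMap.mulRight_apply,
      mul_assoc]
  let DL : E →ₗ[ℂ] (V →ₗ[ℂ] V →ₗ[ℂ] ℂ) := LB ∘ₗ QL d - ∑ j : Fin d, a j • (LB ∘ₗ QL j)
  have hDL : ∀ X, DL X = D X := by
    intro X
    simp only [DL, D, LinearMap.sub_apply, LinearMap.sum_apply, LinearMap.smul_apply, LinearMap.comp_apply, hQL]
  have hDl : ∀ X, D X = ∑ j, l j (D X) • (B ∘ₗ (S x₀ ^ (j : ℕ))) := by
    intro X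
    obtain ⟨b, hb⟩ := hD X
    have h1 : ∀ i, l i (D X) = b i := by
      intro i
      rw [hb, map_sum]
      simp only [map_smul, hl, smul_eq_mul, mul_ite, mul_one, mul_zero]
      simp
    simp only [h1]
    exact hb
  let c : ℕ → ℂ := fun j => if h : j < d then -a ⟨j, h⟩ else 1
  have hc1 : c d = 1 := dif_neg (lt_irrefl d)
  have hc2 : ∀ j : Fin d, c j = -a j := fun j => dif_pos j.2
  let δ : ℕ → Dual ℂ E := fun j => if h : j < d then -(l ⟨j, h⟩ ∘ₗ DL) else 0
  have hδ1 : δ d = 0 := dif_neg (lt_irrefl d)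
  have hδ2 : ∀ j : Fin d, δ j = -(l j ∘ₗ DL) := fun j => dif_pos j.2
  refine ⟨c, δ, ?_, ?_, ?_⟩
  · rw [hc1]
    exact one_ne_zero
  · rw [Finset.sum_range_succ, hc1, one_smul, Finset.sum_range]
    simp only [hc2]
    have e1 : ∑ x : Fin d, (-a x) • (B ∘ₗ S x₀ ^ (x:ℕ)) = -∑ x, a x • (B ∘ₗ S x₀ ^ (x:ℕ)) := sum_neg' a _
    rw [e1, ← ha]
    exact neg_add_cancel _
  · intro X
    have h2 : ∀ j : ℕ, ∑ i ∈ Finset.range j, (B ∘ₗ (S x₀ ^ i * S X * S x₀ ^ (j - 1 - i))) = LB (Q j X 0) := by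
      intro j
      rw [hQ0, map_sum]
      rfl
    simp only [h2]
    rw [Finset.sum_range_succ, hδ1, Finset.sum_range, Finset.sum_range_succ, hc1, Finset.sum_range]
    simp only [hc2, hδ2, LinearMap.neg_apply, LinearMap.comp_apply,
      LinearMap.zero_apply, zero_smul, add_zero, one_smul, hDL]
    have e1 : ∑ x : Fin d, (-a x) • LB (Q x X 0) = -∑ x : Fin d, a x • LB (Q x X 0) := sum_neg' a _
    have e2 : ∑ x : Fin d, (-(l x (D X))) • (B ∘ₗ S x₀ ^ (x:ℕ)) = -∑ x, (l x (D X)) • (B ∘ₗ S x₀ ^ (x:ℕ)) :=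
      sum_neg' (fun x => l x (D X)) _
    rw [e1, e2, ← hDl]
    simp only [D]
    abel

end P8H59.JK
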