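import Pool.Agent.P8H59.JK.Chain
import Pool.Agent.P8H59.JK.CL

/-! # Package FR of project JK (part 2): first order perturbations -/

set_option autoImplicit false

namespace P8H59.JK

open Module

namespace FRaux

theorem indep_of_det {W : Type} [AddCommGroup W] [Module ℂ W] {n : ℕ} (L : W →ₗ[ℂ] (Fin n → ℂ))
    (w : Fin n → W) (h : (Matrix.of fun i => L (w i)).det ≠ 0) : LinearIndependent ℂ w := by
  have h1 : LinearIndependent ℂ (Matrix.of fun i => L (w i)).row :=
    Matrix.linearIndependent_rows_iff_isUnit.mpr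
      ((Matrix.isUnit_iff_isUnit_det _).mpr (isUnit_iff_ne_zero.mpr h))
  exact LinearIndependent.of_comp L h1

theorem card_le_range {V W : Type} [AddCommGroup V] [Module ℂ V] [FiniteDimensional ℂ V]
    [AddCommGroup W] [Module ℂ W] [FiniteDimensional ℂ W] (M : V →ₗ[ℂ] W) {n : ℕ}
    (w : Fin n → W) (h : LinearIndependent ℂ w) (hw : ∀ i, w i ∈ LinearMap.range M) :
    n ≤ finrank ℂ (LinearMap.range M) := by
  have h1 : Submodule.span ℂ (Set.range w) ≤ LinearMap.range M := by
    rw [Submodule.span_le]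
    rintro _ ⟨i, rfl⟩
    exact hw i
  have h2 := Submodule.finrank_mono h1
  rw [finrank_span_eq_card h, Fintype.card_fin] at h2
  exact h2

end FRaux

open FRaux in
/-- First order perturbation of a matrix of maximal rank. -/
theorem first_order_rank {V W : Type} [AddCommGroup V] [Module ℂ V] [FiniteDimensional ℂ V]
    [AddCommGroup W] [Module ℂ W] [FiniteDimensional ℂ W] (M₀ M₁ : V →ₗ[ℂ] W)
    (h : ∀ s : ℂ, finrank ℂ (LinearMap.range (M₀ + s • M₁)) ≤ finrank ℂ (LinearMap.range M₀))
    (u : V) (hu : M₀ u = 0) (φ : Dual ℂ W) (hφ : ∀ v, φ (M₀ v) = 0) : φ (M₁ u) = 0 := by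
  by_contra hne
  set r := finrank ℂ (LinearMap.range M₀) with hr
  let b := Module.finBasis ℂ (LinearMap.range M₀)
  have hb : ∀ i, ∃ v : V, M₀ v = (b i : W) := fun i => (b i).2
  choose v hv using hb
  -- the independent family at s = 0
  let w0 : Fin (r + 1) → W := Fin.cons (M₁ u) (fun i => M₀ (v i))
  have hw0 : LinearIndependent ℂ w0 := by
    rw [linearIndependent_finCons]
    constructor
    · have h1 : (fun i => M₀ (v i)) = fun i => ((b i : LinearMap.range M₀) : W) := funext hv
      rw [h1]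
      exact b.linearIndependent.map' (LinearMap.range M₀).subtype (Submodule.ker_subtype _)
    · intro hmem
      apply hne
      have h2 : Submodule.span ℂ (Set.range fun i => M₀ (v i)) ≤ LinearMap.ker φ := by
        rw [Submodule.span_le]
        rintro _ ⟨i, rfl⟩
        exact hφ _
      exact h2 hmem
  obtain ⟨L, hL⟩ : ∃ L : W →ₗ[ℂ] (Fin (r + 1) → ℂ), ∀ i, L (w0 i) = Pi.single i 1 := by
    have hinj : Function.Injective (Fintype.linearCombination ℂ w0) :=
      linearIndependent_iff_injective_fintypeLinearCombination.mp hw0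
    obtain ⟨L, hL⟩ := LinearMap.exists_leftInverse_of_injective (Fintype.linearCombination ℂ w0)
      (LinearMap.ker_eq_bot.mpr hinj)
    refine ⟨L, fun i => ?_⟩
    have h1 := LinearMap.congr_fun hL (Pi.single i 1)
    rw [LinearMap.comp_apply, Fintype.linearCombination_apply_single, one_smul] at h1
    exact h1
  have hcont : Continuous fun s : ℂ =>
      (Matrix.of fun i : Fin (r + 1) => L (w0 i) +
        s • L ((Fin.cons 0 (fun i => M₁ (v i)) : Fin (r + 1) → W) i)).det := by
    apply Continuous.matrix_det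
    apply continuous_matrix
    intro i j
    simp only [Matrix.of_apply, Pi.add_apply, Pi.smul_apply]
    fun_prop
  have h0 : (Matrix.of fun i : Fin (r + 1) => L (w0 i) +
        (0 : ℂ) • L ((Fin.cons 0 (fun i => M₁ (v i)) : Fin (r + 1) → W) i)).det ≠ 0 := by
    have : (Matrix.of fun i : Fin (r + 1) => L (w0 i) +
        (0 : ℂ) • L ((Fin.cons 0 (fun i => M₁ (v i)) : Fin (r + 1) → W) i)) = 1 := by
      ext i j
      simp [hL, Matrix.one_apply, Pi.single_apply, eq_comm]
    rw [this, Matrix.det_one]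
    exact one_ne_zero
  have hopen := hcont.continuousAt.eventually_ne h0
  obtain ⟨s, hs, hs0⟩ : ∃ s : ℂ, (Matrix.of fun i : Fin (r + 1) => L (w0 i) +
        s • L ((Fin.cons 0 (fun i => M₁ (v i)) : Fin (r + 1) → W) i)).det ≠ 0 ∧ s ≠ 0 := by
    have h1 : ∀ᶠ s in nhdsWithin (0 : ℂ) {0}ᶜ, (Matrix.of fun i : Fin (r + 1) => L (w0 i) +
        s • L ((Fin.cons 0 (fun i => M₁ (v i)) : Fin (r + 1) → W) i)).det ≠ 0 ∧ s ≠ 0 :=
      (hopen.filter_mono nhdsWithin_le_nhds).and
        (eventually_nhdsWithin_of_forall (fun s hs => hs))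
    exact h1.exists
  have hind : LinearIndependent ℂ (fun i : Fin (r + 1) => w0 i +
        s • (Fin.cons 0 (fun i => M₁ (v i)) : Fin (r + 1) → W) i) := by
    apply indep_of_det L
    simpa only [map_add, map_smul] using hs
  have hle := card_le_range (M₀ + s • M₁) _ hind (by
    intro i
    refine Fin.cases ?_ (fun i => ?_) i
    · refine ⟨s⁻¹ • u, ?_⟩
      simp only [map_smul, LinearMap.add_apply, LinearMap.smul_apply, hu, w0, Fin.cons_zero,
        smul_zero, add_zero, zero_add]
      rw [smul_smul, inv_mul_cancel₀ hs0, one_smul]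
    · refine ⟨v i, ?_⟩
      simp only [LinearMap.add_apply, LinearMap.smul_apply, w0, Fin.cons_succ])
  have := h s
  omega

namespace FRaux

variable {g : Type} [LieRing g] [LieAlgebra ℂ g]

theorem lieForm_apply (x : Dual ℂ g) (ξ η : g) : lieForm x ξ η = x ⁅ξ, η⁆ := rfl

theorem lieForm_add_smul (y w : Dual ℂ g) (s : ℂ) :
    lieForm (y + s • w) = lieForm y + s • lieForm w := by
  apply LinearMap.ext; intro ξ
  apply LinearMap.ext; intro η
  rfl

theorem chainMap_add_smul (y w a : Dual ℂ g) (n : ℕ) (s : ℂ) :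
    chainMap n (lieForm (y + s • w)) (lieForm a) =
      chainMap n (lieForm y) (lieForm a) + s • chainMap n (lieForm w) 0 := by
  apply LinearMap.ext; intro ξ
  funext j
  rw [lieForm_add_smul]
  simp only [chainMap, LinearMap.coe_mk, AddHom.coe_mk, LinearMap.add_apply, LinearMap.smul_apply,
    Pi.add_apply, Pi.smul_apply, LinearMap.zero_apply, dite_eq_ite, ite_self, sub_zero]
  abel

theorem chain_sum (y a : Dual ℂ g) (n : ℕ) (η : ℕ → g) (hη : IsChain (lieForm y) (lieForm a) n η)
    (v : Fin n → g) :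
    ∑ j : Fin n, chainMap n (lieForm y) (lieForm a) v j (η (n - 1 - j)) = 0 := by
  let v' : ℕ → g := fun j => if h : j < n then v ⟨j, h⟩ else 0
  have h1 : ∑ j : Fin n, chainMap n (lieForm y) (lieForm a) v j (η (n - 1 - j)) =
      ∑ j ∈ Finset.range n, (y ⁅v' j, η (n - 1 - j)⁆ -
        if j = 0 then 0 else a ⁅v' (j - 1), η (n - 1 - j)⁆) := by
    rw [Finset.sum_range]
    apply Finset.sum_congr rfl
    intro j _
    obtain ⟨j, hjn⟩ := j
    have hj : j - 1 < n := by omega
    by_cases h : j = 0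
    · subst h
      simp [chainMap, v', hjn, lieForm_apply]
    · simp [chainMap, v', h, hj, hjn, lieForm_apply]
  rw [h1, Finset.sum_sub_distrib, sub_eq_zero]
  rcases n with _ | m
  · simp
  rw [Finset.sum_range_succ, Finset.sum_range_succ']
  have e0 : y ⁅v' m, η (m + 1 - 1 - m)⁆ = 0 := by
    have := LinearMap.congr_fun (hη 0 (by omega)) (v' m)
    simp only [if_true, LinearMap.zero_apply, lieForm_apply] at this
    rw [show m + 1 - 1 - m = 0 by omega, ← lie_skew, map_neg, this, neg_zero]
  rw [e0, if_pos rfl, add_zero, add_zero]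
  apply Finset.sum_congr rfl
  intro j hj
  rw [Finset.mem_range] at hj
  have := LinearMap.congr_fun (hη (m + 1 - 1 - j) (by omega)) (v' j)
  rw [if_neg (by omega)] at this
  simp only [lieForm_apply] at this
  rw [if_neg (by omega), ← lie_skew, map_neg, this, ← lie_skew (v' (j + 1 - 1)), map_neg]
  simp only [Nat.add_sub_cancel]
  rw [show m - (j + 1) = m - j - 1 by omega]

end FRaux

open FRaux in
theorem foc {g : Type} [LieRing g] [LieAlgebra ℂ g] [FiniteDimensional ℂ g] (y a : Dual ℂ g)
    (z : g) (n : ℕ) (hyz : y z = 0) (haz : a z = 1)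
    (hmax : ∀ w : Dual ℂ g, w z = 0 →
      finrank ℂ (LinearMap.range (chainMap n (lieForm (y + w)) (lieForm a))) ≤
        finrank ℂ (LinearMap.range (chainMap n (lieForm y) (lieForm a))))
    (ξ η : ℕ → g) (hξ : IsChain (lieForm y) (lieForm a) n ξ)
    (hη : IsChain (lieForm y) (lieForm a) n η) :
    ∑ j ∈ Finset.range n, ⁅ξ j, η (n - 1 - j)⁆ =
      (∑ j ∈ Finset.range n, lieForm a (ξ j) (η (n - 1 - j))) • z := by
  have key : ∀ w : Dual ℂ g, w z = 0 → w (∑ j ∈ Finset.range n, ⁅ξ j, η (n - 1 - j)⁆) = 0 := by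
    intro w hw
    let φ : Dual ℂ (Fin n → (g →ₗ[ℂ] ℂ)) :=
      ∑ j : Fin n, (LinearMap.applyₗ (η (n - 1 - j))).comp (LinearMap.proj j)
    have hφ : ∀ Ψ, φ Ψ = ∑ j : Fin n, Ψ j (η (n - 1 - j)) := by
      intro Ψ
      simp [φ]
    have h1 := first_order_rank (chainMap n (lieForm y) (lieForm a)) (chainMap n (lieForm w) 0)
      (fun s => by
        rw [← chainMap_add_smul]
        exact hmax (s • w) (by simp [hw]))
      (fun j => ξ j) (by
        funext j
        simp only [chainMap, LinearMap.coe_mk, AddHom.coe_mk, Pi.zero_apply]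
        rw [hξ j j.2]
        by_cases h : (j : ℕ) = 0
        · simp [h]
        · simp [h]) φ (by
        intro v
        rw [hφ]
        exact chain_sum y a n η hη v)
    rw [hφ] at h1
    rw [map_sum, Finset.sum_range]
    simpa [chainMap, lieForm_apply] using h1
  set S := ∑ j ∈ Finset.range n, ⁅ξ j, η (n - 1 - j)⁆ with hS
  have hA : (∑ j ∈ Finset.range n, lieForm a (ξ j) (η (n - 1 - j))) = a S := by
    rw [hS, map_sum]
    rfl
  rw [hA]
  refine sub_eq_zero.mp ((Module.forall_dual_apply_eq_zero_iff ℂ _).mp ?_)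
  intro w0
  have h2 := key (w0 - w0 z • a) (by simp [haz])
  simp only [LinearMap.sub_apply, LinearMap.smul_apply, smul_eq_mul] at h2
  rw [map_sub, map_smul, smul_eq_mul]
  linear_combination h2

open FRaux in
theorem chi_zero {g : Type} [LieRing g] [LieAlgebra ℂ g] [FiniteDimensional ℂ g] (y a : Dual ℂ g)
    (z : g) (n : ℕ) (hn : 0 < n) (hyz : y z = 0) (haz : a z = 1)
    (hmax : ∀ w : Dual ℂ g, w z = 0 →
      finrank ℂ (LinearMap.range (chainMap n (lieForm (y + w)) (lieForm a))) ≤
        finrank ℂ (LinearMap.range (chainMap n (lieForm y) (lieForm a))))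
    (χ : g → ℂ) (hχ : ∀ ξ : g, ⁅ξ, z⁆ = χ ξ • z)
    (p q f : ℕ → g)
    (hp : ∀ i, lieForm y (p i) = lieForm a (p (i + 1))) (hp0 : ∀ i, n ≤ i → p i = 0)
    (hq : IsChain (lieForm y) (lieForm a) n q)
    (hpq : ∀ i < n, lieForm a (p i) (q i) = 1)
    (hf : ∀ i, lieForm y (f i) = lieForm a (f (i + 1))) (hf0 : ∀ i, n ≤ i → f i = 0)
    (hfp : ∀ i j, lieForm a (f i) (p j) = 0) (hfq : ∀ i j, j < n → lieForm a (f i) (q j) = 0) :
    χ (f 0) = 0 := by
  -- reversed sequences are chains
  have rev : ∀ u : ℕ → g, (∀ i, lieForm y (u i) = lieForm a (u (i + 1))) →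
      (∀ i, n ≤ i → u i = 0) → IsChain (lieForm y) (lieForm a) n (fun j => u (n - 1 - j)) := by
    intro u hu hu0 j hj
    by_cases h : j = 0
    · subst h
      simp only [if_true]
      rw [hu, show n - 1 - 0 + 1 = n by omega, hu0 n le_rfl, map_zero]
    · simp only [h, if_false]
      rw [hu, show n - 1 - j + 1 = n - 1 - (j - 1) by omega]
  -- the reversed q
  let q' : ℕ → g := fun i => if i < n then q (n - 1 - i) else 0
  have hq' : ∀ i, lieForm y (q' i) = lieForm a (q' (i + 1)) := by
    intro i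
    by_cases h : i < n
    · by_cases h' : i + 1 < n
      · simp only [q', h, h', if_true]
        rw [hq (n - 1 - i) (by omega), if_neg (by omega), show n - 1 - i - 1 = n - 1 - (i + 1) by omega]
      · simp only [q', h, h', if_true, if_false]
        rw [hq (n - 1 - i) (by omega), if_pos (by omega), map_zero]
    · have h' : ¬ i + 1 < n := by omega
      simp only [q', h, h', if_false, map_zero]
  let M := {u : ℕ → g // ∀ i, lieForm y (u i) = lieForm a (u (i + 1))}
  let R : M → M := fun u => ⟨fun i => u.1 (i + 1), fun i => u.2 (i + 1)⟩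
  have hR : ∀ (i : ℕ) (u : M) (j : ℕ), (R^[i] u).1 j = u.1 (j + i) := by
    intro i
    induction i with
    | zero => intro u j; rfl
    | succ i ih =>
      intro u j
      rw [Function.iterate_succ_apply', show (R (R^[i] u)).1 j = (R^[i] u).1 (j + 1) from rfl, ih,
        show j + 1 + i = j + (i + 1) by omega]
  have hcl := closed_identity (fun u v w : M => a ⁅u.1 0, ⁅v.1 0, w.1 0⁆⁆) R
    (by
      intro u v w
      rw [← map_add, ← map_add, lie_jacobi, map_zero])
    (by
      intro u v w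
      have e : ∀ (u : M) (x : g), a ⁅(R u).1 0, x⁆ = y ⁅u.1 0, x⁆ := by
        intro u x
        have := LinearMap.congr_fun (u.2 0) x
        exact this.symm
      rw [e, e, e, ← map_add, ← map_add, lie_jacobi, map_zero])
    n ⟨f, hf⟩ ⟨p, hp⟩ ⟨q', hq'⟩
  simp only [hR, zero_add] at hcl
  rw [Finset.sum_add_distrib, Finset.sum_add_distrib] at hcl
  -- the three sums
  have s1 : ∑ i ∈ Finset.range n, a ⁅f 0, ⁅p i, q' (n - 1 - i)⁆⁆ = n * χ (f 0) := by
    have h1 := foc y a z n hyz haz hmax _ q (rev p hp hp0) hq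
    have h2 : ∑ i ∈ Finset.range n, ⁅p i, q' (n - 1 - i)⁆ =
        ∑ j ∈ Finset.range n, ⁅p (n - 1 - j), q (n - 1 - j)⁆ := by
      rw [Finset.sum_range_reflect (fun i => ⁅p i, q i⁆) n]
      apply Finset.sum_congr rfl
      intro i hi
      rw [Finset.mem_range] at hi
      have hlt : n - 1 - i < n := by omega
      simp only [q', hlt, if_true]
      rw [show n - 1 - (n - 1 - i) = i by omega]
    have h3 : ∑ j ∈ Finset.range n, lieForm a (p (n - 1 - j)) (q (n - 1 - j)) = n := by
      rw [Finset.sum_congr rfl (fun j hj => hpq (n - 1 - j) (by rw [Finset.mem_range] at hj; omega))]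
      simp
    rw [← map_sum, ← lie_sum, h2, h1, h3, lie_smul, hχ, map_smul, map_smul, haz]
    simp
  have s2 : ∑ i ∈ Finset.range n, a ⁅p 0, ⁅q' i, f (n - 1 - i)⁆⁆ = 0 := by
    have h1 := foc y a z n hyz haz hmax _ q (rev f hf hf0) hq
    have h2 : ∑ i ∈ Finset.range n, ⁅q' i, f (n - 1 - i)⁆ =
        - ∑ j ∈ Finset.range n, ⁅f (n - 1 - j), q (n - 1 - j)⁆ := by
      rw [← Finset.sum_neg_distrib]
      apply Finset.sum_congr rfl
      intro i hi
      rw [Finset.mem_range] at hi
      simp only [q']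
      rw [if_pos hi, lie_skew]
    have h3 : ∑ j ∈ Finset.range n, lieForm a (f (n - 1 - j)) (q (n - 1 - j)) = 0 := by
      apply Finset.sum_eq_zero
      intro j hj
      rw [Finset.mem_range] at hj
      exact hfq _ _ (by omega)
    rw [← map_sum, ← lie_sum, h2, h1, h3, zero_smul, neg_zero, lie_zero, map_zero]
  have s3 : ∑ i ∈ Finset.range n, a ⁅q' 0, ⁅f i, p (n - 1 - i)⁆⁆ = 0 := by
    have h1 := foc y a z n hyz haz hmax _ _ (rev f hf hf0) (rev p hp hp0)
    have h2 : ∑ i ∈ Finset.range n, ⁅f i, p (n - 1 - i)⁆ =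
        ∑ j ∈ Finset.range n, ⁅f (n - 1 - j), p (n - 1 - (n - 1 - j))⁆ := by
      rw [← Finset.sum_range_reflect]
    have h3 : ∑ j ∈ Finset.range n, lieForm a (f (n - 1 - j)) (p (n - 1 - (n - 1 - j))) = 0 := by
      apply Finset.sum_eq_zero
      intro j hj
      exact hfp _ _
    rw [← map_sum, ← lie_sum, h2, h1, h3, zero_smul, lie_zero, map_zero]
  rw [s1, s2, s3, add_zero, add_zero] at hcl
  have hn' : (n : ℂ) ≠ 0 := by exact_mod_cast hn.ne'
  exact (mul_eq_zero.mp hcl).resolve_left hn'

end P8H59.JK
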