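import Mathlib

/-!
# Generic lines and irreducible hypersurfaces (project JK, part GP)
-/

set_option autoImplicit false

namespace P8H59.JK

namespace GP

open Polynomial

/-! ### Elimination -/

theorem elim {A : Type} [CommRing A] [IsDomain A] {P Q : A[X]} (hP : Prime P) (hQ : ¬ P ∣ Q) :
    ∃ (h : A) (α β : A[X]), h ≠ 0 ∧ α * P + β * Q = C h := by
  have hdom : IsDomain (AdjoinRoot P) := AdjoinRoot.isDomain_of_prime hP
  have halg : ∀ x : AdjoinRoot P, IsAlgebraic A x := by
    intro x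
    have h1 := (Algebra.isAlgebraic_adjoin_singleton_iff (R := A) (s := AdjoinRoot.root P)).2
      (AdjoinRoot.isAlgebraic_root hP.ne_zero)
    apply h1
    rw [AdjoinRoot.adjoinRoot_eq_top]
    exact Algebra.mem_top
  have hs : AdjoinRoot.mk P Q ≠ 0 := by
    rw [Ne, AdjoinRoot.mk_eq_zero]
    exact hQ
  obtain ⟨r, hr, u, hu⟩ := (halg (AdjoinRoot.mk P Q)).exists_nonzero_dvd
    (mem_nonZeroDivisors_of_ne_zero hs)
  obtain ⟨β, rfl⟩ := AdjoinRoot.mk_surjective u
  have h2 : AdjoinRoot.mk P (C r - Q * β) = 0 := by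
    rw [map_sub, map_mul, ← hu]
    rw [sub_eq_zero]
    rfl
  rw [AdjoinRoot.mk_eq_zero] at h2
  obtain ⟨α, hα⟩ := h2
  refine ⟨r, α, β, hr, ?_⟩
  have : C r = P * α + Q * β := by rw [← hα]; ring
  rw [this]
  ring

/-! ### The ring of the pairs `(x, a)` and the substitution `x - t a` -/

/-- the polynomials in `x` and `a` -/
abbrev RA (σ : Type) := MvPolynomial (σ ⊕ σ) ℂ

variable {σ : Type}

/-- the substitution `x ↦ x - c t a`, `a ↦ a` -/
noncomputable def sh (c : ℂ) : RA σ →+* Polynomial (RA σ) :=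
  MvPolynomial.eval₂Hom ((Polynomial.C).comp MvPolynomial.C)
    (Sum.elim (fun i => C (MvPolynomial.X (Sum.inl i)) -
        X * C (MvPolynomial.C c * MvPolynomial.X (Sum.inr i)))
      (fun i => C (MvPolynomial.X (Sum.inr i))))

/-- the same on `RA[t]` -/
noncomputable def au (c : ℂ) : Polynomial (RA σ) →+* Polynomial (RA σ) :=
  Polynomial.eval₂RingHom (sh c) X

theorem au_comp (c d : ℂ) (h : c + d = 0) :
    (au c).comp (au d) = RingHom.id (Polynomial (RA σ)) := by
  apply Polynomial.ringHom_ext'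
  · apply MvPolynomial.ringHom_ext
    · intro r
      simp [au, sh]
    · intro i
      rcases i with i | i
      · simp only [au, sh, RingHom.comp_apply, RingHom.id_apply, coe_eval₂RingHom, eval₂_C,
          MvPolynomial.coe_eval₂Hom, MvPolynomial.eval₂_X, Sum.elim_inl, eval₂_sub, eval₂_mul,
          eval₂_X, map_mul, MvPolynomial.eval₂_C, Sum.elim_inr]
        have : (C (MvPolynomial.C c) : Polynomial (RA σ)) + C (MvPolynomial.C d) = 0 := by
          rw [← map_add, ← map_add, h]
          simp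
        linear_combination (-X * C (MvPolynomial.X (Sum.inr i))) * this
      · simp [au, sh]
  · simp [au]

/-- the automorphism -/
noncomputable def aue : Polynomial (RA σ) ≃+* Polynomial (RA σ) :=
  RingEquiv.ofRingHom (au 1) (au (-1)) (au_comp _ _ (by norm_num)) (au_comp _ _ (by norm_num))

theorem prime_rename {p : MvPolynomial σ ℂ} (hp : Prime p) :
    Prime (MvPolynomial.rename Sum.inl p : RA σ) := by
  let eqv := (MvPolynomial.sumAlgEquiv ℂ σ σ).symm.trans
    (MvPolynomial.renameEquiv ℂ (Equiv.sumComm σ σ))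
  have key : MvPolynomial.rename Sum.inl = eqv.toAlgHom.comp
      (Algebra.algHom ℂ (MvPolynomial σ ℂ) (MvPolynomial σ (MvPolynomial σ ℂ))) := by
    apply MvPolynomial.algHom_ext
    simp [eqv, MvPolynomial.rename, MvPolynomial.X, MvPolynomial.monomial, Algebra.algHom,
      MvPolynomial.renameEquiv, Finsupp.mapDomain.addMonoidHom, MvPolynomial.sumAlgEquiv,
      MvPolynomial.C]
  have h1 : Prime (MvPolynomial.C p : MvPolynomial σ (MvPolynomial σ ℂ)) :=
    (MvPolynomial.prime_C_iff σ).2 hp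
  have h2 := (MulEquiv.prime_iff eqv.toMulEquiv).2 h1
  have h3 : eqv.toMulEquiv (MvPolynomial.C p) = (MvPolynomial.rename Sum.inl p : RA σ) := by
    rw [key]
    rfl
  rw [← h3]
  exact h2

/-- evaluation at `(x, a, t)` -/
noncomputable def evA (x a : σ → ℂ) (t : ℂ) : Polynomial (RA σ) →+* ℂ :=
  (Polynomial.evalRingHom t).comp (Polynomial.mapRingHom (MvPolynomial.eval (Sum.elim x a)))

theorem evA_C (x a : σ → ℂ) (t : ℂ) (q : RA σ) :
    evA x a t (C q) = MvPolynomial.eval (Sum.elim x a) q := by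
  simp [evA]

theorem evA_sh (x a : σ → ℂ) (t c : ℂ) (q : RA σ) :
    evA x a t (sh c q) = MvPolynomial.eval (Sum.elim (x - (c * t) • a) a) q := by
  have key : (evA x a t).comp (sh c) = MvPolynomial.eval (Sum.elim (x - (c * t) • a) a) := by
    apply MvPolynomial.ringHom_ext
    · intro r
      simp [evA, sh]
    · intro i
      rcases i with i | i
      · simp [evA, sh]
        ring
      · simp [evA, sh]
  rw [← key]
  rfl

/-- `p (x - t a)` as a polynomial in `t` -/
noncomputable def hat (p : MvPolynomial σ ℂ) : Polynomial (RA σ) :=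
  sh 1 (MvPolynomial.rename Sum.inl p)

theorem au_C (c : ℂ) (q : RA σ) : au c (C q) = sh c q := by
  simp [au]

theorem prime_hat {p : MvPolynomial σ ℂ} (hp : Prime p) : Prime (hat p) := by
  have h1 : Prime (C (MvPolynomial.rename Sum.inl p : RA σ)) :=
    Polynomial.prime_C_iff.2 (prime_rename hp)
  have h2 := (MulEquiv.prime_iff (aue (σ := σ)).toMulEquiv).2 h1
  have h3 : (aue (σ := σ)).toMulEquiv (C (MvPolynomial.rename Sum.inl p : RA σ)) = hat p :=
    au_C 1 _
  rw [← h3]
  exact h2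

theorem not_dvd_hat {p : MvPolynomial σ ℂ} {q : RA σ} {y a : σ → ℂ}
    (hy : MvPolynomial.eval y p = 0) (hq : MvPolynomial.eval (Sum.elim y a) q ≠ 0) :
    ¬ hat p ∣ sh 1 q := by
  intro h
  apply hq
  have h1 := map_dvd (evA y a 0) h
  unfold hat at h1
  rw [evA_sh, evA_sh, MvPolynomial.eval_rename] at h1
  simp only [mul_zero, zero_smul, sub_zero, Sum.elim_comp_inl] at h1
  rw [hy] at h1
  exact zero_dvd_iff.1 h1

/-- Main elimination statement. -/
theorem avoid {p : MvPolynomial σ ℂ} (hp : Prime p) {q : RA σ} {y a : σ → ℂ}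
    (hy : MvPolynomial.eval y p = 0) (hq : MvPolynomial.eval (Sum.elim y a) q ≠ 0) :
    ∃ h : RA σ, h ≠ 0 ∧ ∀ x a : σ → ℂ, MvPolynomial.eval (Sum.elim x a) h ≠ 0 → ∀ t : ℂ,
      MvPolynomial.eval (x - t • a) p = 0 →
        MvPolynomial.eval (Sum.elim (x - t • a) a) q ≠ 0 := by
  obtain ⟨h, α, β, hh, hab⟩ := elim (prime_hat hp) (not_dvd_hat hy hq)
  refine ⟨h, hh, fun x a hxa t ht hqt => hxa ?_⟩
  have h1 := congrArg (evA x a t) hab
  rw [map_add, map_mul, map_mul, evA_C] at h1
  unfold hat at h1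
  rw [evA_sh, evA_sh, MvPolynomial.eval_rename, one_mul, Sum.elim_comp_inl, ht, hqt] at h1
  rw [← h1]
  ring

/-! ### Minors -/

theorem exists_cols {k n : ℕ} (N : Matrix (Fin k) (Fin n) ℂ) {r : ℕ} (hr : N.rank = r) :
    ∃ c : Fin r → Fin n, LinearIndependent ℂ (N.submatrix id c).col := by
  have h0 : Module.finrank ℂ (Submodule.span ℂ (Set.range N.col)) = r := by
    rw [← Matrix.rank_eq_finrank_span_cols, hr]
  obtain ⟨f, hf, -, hli⟩ := Submodule.exists_fun_fin_finrank_span_eq ℂ (Set.range N.col)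
  choose J hJ using fun i : Fin r => hf (Fin.cast h0.symm i)
  refine ⟨J, ?_⟩
  have h4 : (N.submatrix id J).col = f ∘ Fin.cast h0.symm := by
    funext i
    exact hJ i
  rw [h4]
  exact hli.comp _ (Fin.cast_injective _)

theorem exists_minor {k n : ℕ} (N : Matrix (Fin k) (Fin n) ℂ) {r : ℕ} (hr : N.rank = r) :
    ∃ (u : Fin r → Fin k) (c : Fin r → Fin n), (N.submatrix u c).det ≠ 0 := by
  obtain ⟨c, hc⟩ := exists_cols N hr
  have h1 : (N.submatrix id c).transpose.rank = r := by
    rw [Matrix.rank_transpose, Matrix.rank_eq_finrank_span_cols, finrank_span_eq_card hc,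
      Fintype.card_fin]
  obtain ⟨u, hu⟩ := exists_cols _ h1
  refine ⟨u, c, ?_⟩
  have h5 := Matrix.linearIndependent_cols_iff_isUnit.1 hu
  rw [Matrix.isUnit_iff_isUnit_det] at h5
  have h6 : ((N.submatrix id c).transpose.submatrix id u) = (N.submatrix u c).transpose := rfl
  rw [h6, Matrix.det_transpose] at h5
  exact h5.ne_zero

theorem le_rank_of_minor {k n r : ℕ} (N : Matrix (Fin k) (Fin n) ℂ) (u : Fin r → Fin k)
    (c : Fin r → Fin n) (h : (N.submatrix u c).det ≠ 0) : r ≤ N.rank := by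
  have h1 : (N.submatrix u c).rank = r := by
    rw [Matrix.rank_of_isUnit _ ((Matrix.isUnit_iff_isUnit_det _).2 h.isUnit), Fintype.card_fin]
  rw [← h1]
  exact Matrix.rank_submatrix_le N u c

end GP

/-! ### The theorems -/

open GP in
/-- Generic lines meet an irreducible hypersurface in points where the rank of a polynomial matrix
is maximal. -/
theorem generic_line {σ : Type} [Fintype σ] (p : MvPolynomial σ ℂ) (hp : Irreducible p) {m n : ℕ}
    (M : Matrix (Fin m) (Fin n) (MvPolynomial (σ ⊕ σ) ℂ)) :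
    ∃ h : MvPolynomial (σ ⊕ σ) ℂ, h ≠ 0 ∧ ∀ x a : σ → ℂ,
      MvPolynomial.eval (Sum.elim x a) h ≠ 0 → ∀ t : ℂ, MvPolynomial.eval (x - t • a) p = 0 →
      ∀ y' a' : σ → ℂ, MvPolynomial.eval y' p = 0 →
        (M.map (MvPolynomial.eval (Sum.elim y' a'))).rank ≤
          (M.map (MvPolynomial.eval (Sum.elim (x - t • a) a))).rank := by
  by_cases hz : ∃ y : σ → ℂ, MvPolynomial.eval y p = 0
  · obtain ⟨y₁, hy₁⟩ := hz
    let S : Set ℕ := {k | ∃ y' a' : σ → ℂ, MvPolynomial.eval y' p = 0 ∧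
      (M.map (MvPolynomial.eval (Sum.elim y' a'))).rank = k}
    have hne : S.Nonempty := ⟨_, y₁, 0, hy₁, rfl⟩
    have hbd : BddAbove S := by
      refine ⟨m, ?_⟩
      rintro k ⟨y', a', -, rfl⟩
      exact Matrix.rank_le_height _
    obtain ⟨y₀, a₀, hy₀, hr⟩ := Nat.sSup_mem hne hbd
    obtain ⟨u, c, huc⟩ := exists_minor _ hr
    have hq : MvPolynomial.eval (Sum.elim y₀ a₀) (M.submatrix u c).det ≠ 0 := by
      rw [RingHom.map_det]
      exact huc
    obtain ⟨h, hh, hav⟩ := avoid hp.prime hy₀ hq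
    refine ⟨h, hh, fun x a hxa t ht y' a' hy' => ?_⟩
    have h1 : (M.map (MvPolynomial.eval (Sum.elim y' a'))).rank ≤ sSup S :=
      le_csSup hbd ⟨y', a', hy', rfl⟩
    refine h1.trans ?_
    have h2 := hav x a hxa t ht
    rw [RingHom.map_det] at h2
    exact le_rank_of_minor _ u c h2
  · exact ⟨1, one_ne_zero, fun x a _ t ht => absurd ⟨_, ht⟩ hz⟩

namespace GP

open Polynomial

variable {σ : Type}

theorem evA_hat (p : MvPolynomial σ ℂ) (x a : σ → ℂ) (t : ℂ) :
    evA x a t (hat p) = MvPolynomial.eval (x - t • a) p := by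
  unfold hat
  rw [evA_sh, MvPolynomial.eval_rename, one_mul, Sum.elim_comp_inl]

theorem evA_eq_eval_map (x a : σ → ℂ) (t : ℂ) (P : Polynomial (RA σ)) :
    evA x a t P = (P.map (MvPolynomial.eval (Sum.elim x a))).eval t := rfl

theorem two_roots {p : MvPolynomial σ ℂ} (hp : Prime p) (hd : 2 ≤ (hat p).natDegree) :
    ∃ h : RA σ, h ≠ 0 ∧ ∀ x a : σ → ℂ, MvPolynomial.eval (Sum.elim x a) h ≠ 0 →
      ∃ t t' : ℂ, MvPolynomial.eval (x - t • a) p = 0 ∧ MvPolynomial.eval (x - t' • a) p = 0 ∧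
        t ≠ t' := by
  have hP := prime_hat hp
  set P := hat p with hPdef
  have hder : derivative P ≠ 0 := by
    intro h0
    have := derivative_eq_zero.1 h0
    omega
  have hnd : ¬ P ∣ derivative P :=
    not_dvd_of_natDegree_lt hder (natDegree_derivative_lt (by omega))
  obtain ⟨h, α, β, hh, hab⟩ := elim hP hnd
  refine ⟨h * P.leadingCoeff, mul_ne_zero hh (leadingCoeff_ne_zero.2 hP.ne_zero), ?_⟩
  intro x a hxa
  rw [map_mul] at hxa
  have hh' := left_ne_zero_of_mul hxa
  have hl' := right_ne_zero_of_mul hxa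
  set e := MvPolynomial.eval (Sum.elim x a) with he
  set f := P.map e with hf
  have hdeg : f.natDegree = P.natDegree := natDegree_map_of_leadingCoeff_ne_zero _ hl'
  have hroot : ∀ t, f.IsRoot t → MvPolynomial.eval (x - t • a) p = 0 := by
    intro t ht
    rw [← evA_hat, evA_eq_eval_map]
    exact ht
  obtain ⟨t, ht⟩ := IsAlgClosed.exists_root f (by
    intro h0
    have := natDegree_eq_zero_iff_degree_le_zero.2 h0.le
    omega)
  obtain ⟨g, hg⟩ := dvd_iff_isRoot.2 ht
  have hg0 : g ≠ 0 := by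
    rintro rfl
    rw [mul_zero] at hg
    rw [hg, natDegree_zero] at hdeg
    omega
  have hgdeg : g.natDegree + 1 = P.natDegree := by
    rw [← hdeg, hg, natDegree_mul (X_sub_C_ne_zero t) hg0, natDegree_X_sub_C]
    omega
  obtain ⟨t', ht'⟩ := IsAlgClosed.exists_root g (by
    intro h0
    have := natDegree_eq_zero_iff_degree_le_zero.2 h0.le
    omega)
  have ht'' : f.IsRoot t' := by
    rw [IsRoot, hg, eval_mul, ht'.eq_zero, mul_zero]
  refine ⟨t, t', hroot t ht, hroot t' ht'', ?_⟩
  rintro rfl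
  have h1 := congrArg (evA x a t) hab
  rw [map_add, map_mul, map_mul, evA_C, evA_eq_eval_map x a t P, evA_eq_eval_map x a t (derivative P)]
    at h1
  rw [← derivative_map] at h1
  change _ * eval t f + _ * eval t (derivative f) = _ at h1
  have h2 : eval t (derivative f) = 0 := by
    rw [hg, derivative_mul, eval_add, eval_mul, eval_mul, ht'.eq_zero]
    simp
  rw [ht.eq_zero, h2, mul_zero, mul_zero, add_zero] at h1
  exact hh' h1.symm

theorem affine_of_natDegree_le_one [Fintype σ] [DecidableEq σ] {p : MvPolynomial σ ℂ}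
    (hd : (hat p).natDegree ≤ 1) :
    ∃ (c₀ : ℂ) (c : σ → ℂ), p = MvPolynomial.C c₀ +
        ∑ i, MvPolynomial.C (c i) * MvPolynomial.X i := by
  set f : (σ → ℂ) → ℂ := fun v => MvPolynomial.eval v p with hf
  have h1 : ∀ (x b : σ → ℂ) (t : ℂ), f (x + t • b) = f x + t * (f (x + b) - f x) := by
    intro x b t
    have key : ∀ s : ℂ, f (x + s • b) =
        MvPolynomial.eval (Sum.elim x (-b)) ((hat p).coeff 1) * s +
          MvPolynomial.eval (Sum.elim x (-b)) ((hat p).coeff 0) := by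
      intro s
      have h2 := evA_hat p x (-b) s
      have h3 := eq_X_add_C_of_natDegree_le_one hd
      rw [h3] at h2
      simp only [evA_eq_eval_map, Polynomial.map_add, Polynomial.map_mul, Polynomial.map_C,
        Polynomial.map_X, eval_add, eval_mul, eval_C, eval_X] at h2
      rw [h2, hf]
      congr 1
      rw [smul_neg, sub_neg_eq_add]
    have k0 := key 0
    have k1 := key 1
    have kt := key t
    rw [zero_smul, add_zero] at k0
    rw [one_smul] at k1
    rw [kt, k1, k0]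
    ring
  have hsmul : ∀ (t : ℂ) (v : σ → ℂ), f (t • v) - f 0 = t * (f v - f 0) := by
    intro t v
    have := h1 0 v t
    rw [zero_add, zero_add] at this
    rw [this]
    ring
  have hadd : ∀ u v : σ → ℂ, f (u + v) - f 0 = (f u - f 0) + (f v - f 0) := by
    intro u v
    have e1 := h1 ((2:ℂ) • u) ((2:ℂ) • v - (2:ℂ) • u) (1 / 2)
    have e2 : (2:ℂ) • u + ((1:ℂ) / 2) • ((2:ℂ) • v - (2:ℂ) • u) = u + v := by
      funext i
      simp only [Pi.add_apply, Pi.smul_apply, Pi.sub_apply, smul_eq_mul]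
      ring
    have e3 : (2:ℂ) • u + ((2:ℂ) • v - (2:ℂ) • u) = (2:ℂ) • v := by
      rw [add_sub_cancel]
    rw [e2, e3] at e1
    have e4 := hsmul 2 u
    have e5 := hsmul 2 v
    linear_combination e1 + (1 / 2) * e4 + (1 / 2) * e5
  let L : (σ → ℂ) →ₗ[ℂ] ℂ :=
    { toFun := fun v => f v - f 0
      map_add' := hadd
      map_smul' := fun t v => by
        rw [hsmul]
        rfl }
  refine ⟨f 0, fun i => L (fun j => if i = j then 1 else 0), ?_⟩
  apply MvPolynomial.funext
  intro v
  have h5 := LinearMap.pi_apply_eq_sum_univ L v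
  have h6 : L v = f v - f 0 := rfl
  rw [map_add, MvPolynomial.eval_C, map_sum]
  have h7 : ∀ i, MvPolynomial.eval v (MvPolynomial.C (L (fun j => if i = j then 1 else 0)) *
      MvPolynomial.X i) = v i • L (fun j => if i = j then 1 else 0) := by
    intro i
    rw [map_mul, MvPolynomial.eval_C, MvPolynomial.eval_X, smul_eq_mul, mul_comm]
  rw [Finset.sum_congr rfl (fun i _ => h7 i), ← h5, h6]
  change f v = f 0 + (f v - f 0)
  ring

end GP

open GP in
/-- If generic lines meet an irreducible hypersurface in at most one point, it is a hyperplane. -/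
theorem generic_line_roots {σ : Type} [Fintype σ] (p : MvPolynomial σ ℂ) (hp : Irreducible p) :
    ∃ h : MvPolynomial (σ ⊕ σ) ℂ, h ≠ 0 ∧ ∀ x a : σ → ℂ,
      MvPolynomial.eval (Sum.elim x a) h ≠ 0 →
      (∀ t t' : ℂ, MvPolynomial.eval (x - t • a) p = 0 → MvPolynomial.eval (x - t' • a) p = 0 →
        t = t') →
      ∃ (c₀ : ℂ) (c : σ → ℂ), p = MvPolynomial.C c₀ +
        ∑ i, MvPolynomial.C (c i) * MvPolynomial.X i := by
  classical
  rcases Nat.lt_or_ge (hat p).natDegree 2 with h | h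
  · exact ⟨1, one_ne_zero, fun _ _ _ _ => affine_of_natDegree_le_one (by omega)⟩
  · obtain ⟨g, hg, hgr⟩ := two_roots hp.prime h
    refine ⟨g, hg, fun x a hxa hroots => ?_⟩
    obtain ⟨t, t', h1, h2, h3⟩ := hgr x a hxa
    exact absurd (hroots t t' h1 h2) h3

end P8H59.JK
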