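import Pool.Agent.P8H59.JK.Nec2
import Pool.Agent.P8H59.JK.Chain

/-!
# Necessity for general Kronecker part, pointwise analysis (project JK, part 2)
-/

namespace P8H59.JK

open Module

variable {V : Type} [AddCommGroup V] [Module ℂ V]

section gen

variable {ι : Type} [DecidableEq ι] {blk : ι → Block}
  {v : Basis (Σ i, Fin (blk i).P ⊕ Fin (blk i).Q) ℂ V}
  {M : V →ₗ[ℂ] V →ₗ[ℂ] ℂ} {ent : Block → ℕ → ℕ → ℂ}

theorem form_eq_pcoord (hM : ∀ s t, M (v s) (v t) = skewEnt ent blk s t) (i : ι) (l c : ℕ)
    (hl : l < (blk i).Q) (hc : c < (blk i).P)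
    (hent : ∀ a, a < (blk i).P → ent (blk i) a l = if a = c then 1 else 0) (w : V) :
    M w (qv v i l) = v.repr w ⟨i, Sum.inl ⟨c, hc⟩⟩ := by
  have h2 : v.coord ⟨i, Sum.inl ⟨c, hc⟩⟩ = M.flip (qv v i l) := by
    refine v.ext fun s => ?_
    rw [LinearMap.flip_apply, Basis.coord_apply, Basis.repr_self, Finsupp.single_apply, qv,
      dif_pos hl, hM]
    obtain ⟨j, s⟩ := s
    by_cases hij : j = i
    · subst hij
      cases s with
      | inl p => simp [skewEnt, hent _ p.2, Fin.ext_iff]
      | inr q => simp [skewEnt]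
    · have hne : ¬ ((⟨j, s⟩ : Σ i, Fin (blk i).P ⊕ Fin (blk i).Q) = ⟨i, Sum.inl ⟨c, hc⟩⟩) :=
        fun h => hij (congrArg Sigma.fst h)
      rw [if_neg hne]
      cases s <;> simp [skewEnt, hij]
  rw [← Basis.coord_apply, h2, LinearMap.flip_apply]

theorem form_eq_zero (hM : ∀ s t, M (v s) (v t) = skewEnt ent blk s t) (i : ι) (l : ℕ)
    (hent : ∀ a, a < (blk i).P → ent (blk i) a l = 0) (w : V) :
    M w (qv v i l) = 0 := by
  have h2 : M.flip (qv v i l) = 0 := by
    refine ext_pq (v := v) (fun j a ha => ?_) (fun j a ha => ?_)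
    · rw [LinearMap.flip_apply, form_pq hM]
      by_cases hij : j = i
      · subst hij
        simp [hent _ ha]
      · simp [hij]
    · rw [LinearMap.flip_apply, form_qq hM, LinearMap.zero_apply]
  rw [← LinearMap.flip_apply, h2, LinearMap.zero_apply]

theorem form_eq_qcoord (hM : ∀ s t, M (v s) (v t) = skewEnt ent blk s t) (i : ι) (l c : ℕ)
    (hl : l < (blk i).P) (hc : c < (blk i).Q)
    (hent : ∀ b, b < (blk i).Q → ent (blk i) l b = if b = c then 1 else 0) (w : V) :
    M w (pv v i l) = - v.repr w ⟨i, Sum.inr ⟨c, hc⟩⟩ := by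
  have h2 : v.coord ⟨i, Sum.inr ⟨c, hc⟩⟩ = - M.flip (pv v i l) := by
    refine v.ext fun s => ?_
    rw [LinearMap.neg_apply, LinearMap.flip_apply, Basis.coord_apply, Basis.repr_self,
      Finsupp.single_apply, pv, dif_pos hl, hM]
    obtain ⟨j, s⟩ := s
    by_cases hij : j = i
    · subst hij
      cases s with
      | inl p => simp [skewEnt]
      | inr q => simp [skewEnt, hent _ q.2, Fin.ext_iff]
    · have hne : ¬ ((⟨j, s⟩ : Σ i, Fin (blk i).P ⊕ Fin (blk i).Q) = ⟨i, Sum.inr ⟨c, hc⟩⟩) :=
        fun h => hij (congrArg Sigma.fst h)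
      rw [if_neg hne]
      cases s <;> simp [skewEnt, hij]
  rw [← Basis.coord_apply, h2, LinearMap.neg_apply, LinearMap.flip_apply, neg_neg]

end gen

section

variable {T : AlgType} {μ : Fin T.jordan.length → Option ℂ}
  {v : Basis (Σ i, Fin (T.blocks μ i).P ⊕ Fin (T.blocks μ i).Q) ℂ V}
  {A B : V →ₗ[ℂ] V →ₗ[ℂ] ℂ}

theorem kron_block_eq (j : Fin T.kron.length) :
    T.blocks μ (Sum.inl j) = .kron (T.kron.get j) := rfl

theorem kron_q0_ker (hB : ∀ s t, B (v s) (v t) = skewEnt Block.entB (T.blocks μ) s t)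
    (j : Fin T.kron.length) (η : V) : B (qv v (Sum.inl j) 0) η = 0 := by
  have : B (qv v (Sum.inl j) 0) = 0 := by
    refine ext_pq (v := v) (fun i a ha => ?_) (fun i a ha => ?_)
    · rw [form_qp hB]
      by_cases hij : (Sum.inl j : T.Idx) = i
      · subst hij
        simp [kron_block_eq, Block.entB]
      · simp [hij]
    · rw [form_qq hB, LinearMap.zero_apply]
  rw [this, LinearMap.zero_apply]

/-- If the second form has the generic rank then all eigenvalues are finite. -/
theorem finite_eigenvalue' [FiniteDimensional ℂ V]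
    (hB : ∀ s t, B (v s) (v t) = skewEnt Block.entB (T.blocks μ) s t)
    (hdim : finrank ℂ (LinearMap.ker B) ≤ T.kron.length)
    (i : T.Idx) (n : ℕ) (hn : 0 < n) (hi : T.blocks μ i = .jord n none) : False := by
  have hQ : 0 < (T.blocks μ i).Q := by rw [hi]; exact hn
  have hQ' : ∀ j : Fin T.kron.length, 0 < (T.blocks μ (Sum.inl j)).Q := by
    intro j
    rw [kron_block_eq j]
    exact Nat.succ_pos _
  let f : Option (Fin T.kron.length) → (Σ i, Fin (T.blocks μ i).P ⊕ Fin (T.blocks μ i).Q) :=
    fun o => match o with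
      | none => ⟨i, Sum.inr ⟨0, hQ⟩⟩
      | some j => ⟨Sum.inl j, Sum.inr ⟨0, hQ' j⟩⟩
  have hi' : ∀ j : Fin T.kron.length, i ≠ Sum.inl j := by
    rintro j rfl
    rw [kron_block_eq j] at hi
    cases hi
  have hf : Function.Injective f := by
    intro a b hab
    cases a with
    | none =>
      cases b with
      | none => rfl
      | some j => exact absurd (congrArg Sigma.fst hab) (hi' j)
    | some j =>
      cases b with
      | none => exact absurd (congrArg Sigma.fst hab).symm (hi' j)
      | some j' =>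
        have := congrArg Sigma.fst hab
        simp only [f] at this
        rw [Sum.inl.inj this]
  have hind : LinearIndependent ℂ (v ∘ f) := v.linearIndependent.comp f hf
  have hmem : ∀ o, (v ∘ f) o ∈ LinearMap.ker B := by
    intro o
    rw [LinearMap.mem_ker]
    refine LinearMap.ext fun η => ?_
    cases o with
    | none =>
      have := inf_q_ker hB i n hi η
      rw [qv, dif_pos hQ] at this
      exact this
    | some j =>
      have := kron_q0_ker hB j η
      rw [qv, dif_pos (hQ' j)] at this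
      exact this
  have hind' : LinearIndependent ℂ (fun o => (⟨(v ∘ f) o, hmem o⟩ : LinearMap.ker B)) :=
    LinearIndependent.of_comp (LinearMap.ker B).subtype (by exact hind)
  have := hind'.fintype_card_le_finrank
  simp at this
  omega

/-- The span of the `q`-vectors of the Kronecker blocks. -/
noncomputable def coreL {T : AlgType} {μ : Fin T.jordan.length → Option ℂ}
    (v : Basis (Σ i, Fin (T.blocks μ i).P ⊕ Fin (T.blocks μ i).Q) ℂ V) : Submodule ℂ V :=
  Submodule.span ℂ (Set.range
    (fun s : (Σ j : Fin T.kron.length, Fin (T.kron.get j + 1)) => qv v (Sum.inl s.1) s.2))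

theorem finrank_coreL_le : finrank ℂ (coreL v) ≤ (T.kron.map (· + 1)).sum := by
  refine (finrank_range_le_card _).trans ?_
  rw [Fintype.card_sigma]
  simp only [Fintype.card_fin]
  rw [← List.sum_ofFn]
  apply le_of_eq
  congr 1
  apply List.ext_get
  · simp
  · intro n h1 h2
    simp

/-- Coordinates of a vector killed by `C = A - lam B`. -/
theorem mem_coreL (hA : ∀ s t, A (v s) (v t) = skewEnt Block.entA (T.blocks μ) s t)
    (hB : ∀ s t, B (v s) (v t) = skewEnt Block.entB (T.blocks μ) s t)
    (lam : Fin T.jordan.length → ℂ) (hμ : ∀ g, μ g = some (lam g)) (hinj : Function.Injective lam)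
    (g : Fin T.jordan.length) (z : V) (hz : ∀ η, A z η - lam g * B z η = 0)
    (hzp : ∀ (b : Fin (T.jordan.get g).length) (l : ℕ), l < (T.jordan.get g).get b →
      B z (pv v (Sum.inr ⟨g, b⟩) l) = 0)
    (hzq : ∀ (b : Fin (T.jordan.get g).length) (l : ℕ), l < (T.jordan.get g).get b →
      B z (qv v (Sum.inr ⟨g, b⟩) l) = 0) : z ∈ coreL v := by
  classical
  -- Jordan coordinates vanish
  have hjord : ∀ (g' : Fin T.jordan.length) (b : Fin (T.jordan.get g').length)
      (s : Fin (T.blocks μ (Sum.inr ⟨g', b⟩)).P ⊕ Fin (T.blocks μ (Sum.inr ⟨g', b⟩)).Q),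
      v.repr z ⟨Sum.inr ⟨g', b⟩, s⟩ = 0 := by
    intro g' b s
    have hb := jord_block (μ := μ) lam hμ g' b
    have hP : (T.blocks μ (Sum.inr ⟨g', b⟩)).P = (T.jordan.get g').get b := by rw [hb]; rfl
    have hQ : (T.blocks μ (Sum.inr ⟨g', b⟩)).Q = (T.jordan.get g').get b := by rw [hb]; rfl
    have hent : ∀ a c, a < (T.jordan.get g').get b → c < (T.jordan.get g').get b →
        Block.entB (T.blocks μ (Sum.inr ⟨g', b⟩)) a c = if a = c then 1 else 0 := by
      intro a c _ _
      rw [hb]
      rfl
    have hq0 : ∀ l < (T.jordan.get g').get b, B z (qv v (Sum.inr ⟨g', b⟩) l) = 0 := by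
      by_cases hg : g' = g
      · subst hg
        exact hzq b
      · refine (chain_q hA hB _ _ _ hb).kill (-(lam g)) 1 ?_ z ?_
        · intro h0
          apply hg
          apply hinj
          linear_combination h0
        · intro l _
          have := hz (qv v (Sum.inr ⟨g', b⟩) l)
          linear_combination this
    have hp0 : ∀ l < (T.jordan.get g').get b, B z (pv v (Sum.inr ⟨g', b⟩) l) = 0 := by
      by_cases hg : g' = g
      · subst hg
        exact hzp b
      · have h1 := (chain_p hA hB _ _ _ hb).kill (-(lam g)) 1 (by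
          intro h0
          apply hg
          apply hinj
          linear_combination h0) z (by
          intro l _
          have := hz (pv v (Sum.inr ⟨g', b⟩) ((T.jordan.get g').get b - 1 - l))
          linear_combination this)
        intro l hl
        have h2 := h1 ((T.jordan.get g').get b - 1 - l) (by omega)
        have h0 : (T.jordan.get g').get b - 1 - ((T.jordan.get g').get b - 1 - l) = l := by omega
        simp only [h0] at h2
        exact h2
    cases s with
    | inl p =>
      rw [coord_p hB _ hQ hent hP]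
      exact hq0 _ (lt_of_lt_of_eq p.2 hP)
    | inr q =>
      rw [coord_q hB _ hQ hent hP, hp0 _ (lt_of_lt_of_eq q.2 hQ), neg_zero]
  -- the p-coordinates of the Kronecker blocks vanish
  have hkron : ∀ (j : Fin T.kron.length) (l : ℕ) (hl : l < (T.blocks μ (Sum.inl j)).P),
      v.repr z ⟨Sum.inl j, Sum.inl ⟨l, hl⟩⟩ = 0 := by
    intro j l
    induction l with
    | zero =>
      intro hl
      have hQ : 0 < (T.blocks μ (Sum.inl j)).Q := Nat.succ_pos _
      have h1 := hz (qv v (Sum.inl j) 0)
      rw [form_eq_pcoord hA (Sum.inl j) 0 0 hQ hl (fun a _ => rfl),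
        form_eq_zero hB (Sum.inl j) 0 (fun a _ => by simp [kron_block_eq, Block.entB])] at h1
      simpa using h1
    | succ l ih =>
      intro hl
      have hl0 : l < (T.blocks μ (Sum.inl j)).P := by omega
      have hQ : l + 1 < (T.blocks μ (Sum.inl j)).Q := Nat.succ_lt_succ hl0
      have h0 := ih hl0
      have h1 := hz (qv v (Sum.inl j) (l + 1))
      rw [form_eq_pcoord hA (Sum.inl j) (l + 1) (l + 1) hQ hl (fun a _ => rfl),
        form_eq_pcoord hB (Sum.inl j) (l + 1) l hQ hl0
          (fun a _ => by simp [kron_block_eq, Block.entB]), h0] at h1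
      simpa using h1
  rw [← v.linearCombination_repr z, Finsupp.linearCombination_apply, Finsupp.sum]
  refine Submodule.sum_mem _ fun t ht => ?_
  rw [Finsupp.mem_support_iff] at ht
  obtain ⟨i, t⟩ := t
  rcases i with j | ⟨g', b⟩
  · cases t with
    | inl p => exact absurd (hkron j p p.2) ht
    | inr q =>
      refine Submodule.smul_mem _ _ (Submodule.subset_span ⟨⟨j, ⟨q, q.2⟩⟩, ?_⟩)
      simp [qv]
  · exact absurd (hjord g' b t) ht

/-- Vectors of the core have only `q`-coordinates of Kronecker blocks. -/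
theorem repr_core {w : V} (hw : w ∈ coreL v)
    (t : Σ i, Fin (T.blocks μ i).P ⊕ Fin (T.blocks μ i).Q)
    (ht : ∀ (j : Fin T.kron.length) (q), t ≠ ⟨Sum.inl j, Sum.inr q⟩) : v.repr w t = 0 := by
  have h1 : coreL v ≤ LinearMap.ker (v.coord t) := by
    rw [coreL, Submodule.span_le]
    rintro _ ⟨⟨j, l⟩, rfl⟩
    rw [SetLike.mem_coe, LinearMap.mem_ker, Basis.coord_apply]
    have hl : (l : ℕ) < (T.blocks μ (Sum.inl j)).Q := l.2
    simp only [qv, dif_pos hl]
    rw [Basis.repr_self, Finsupp.single_apply, if_neg]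
    exact fun h => ht j _ h.symm
  exact h1 hw

/-- A linear kernel polynomial spanning a plane forces two trivial Kronecker blocks or one of size
three. -/
theorem plane_kernel (h0 : T.kron.count 0 ≤ 1) (h1 : 1 ∉ T.kron)
    (hA : ∀ s t, A (v s) (v t) = skewEnt Block.entA (T.blocks μ) s t)
    (hB : ∀ s t, B (v s) (v t) = skewEnt Block.entB (T.blocks μ) s t)
    (w₀ w₁ : V) (hw₀ : w₀ ∈ coreL v) (hw₁ : w₁ ∈ coreL v) (e₀ : ∀ η, A w₀ η = 0)
    (e₁ : ∀ η, B w₁ η = 0) (e₂ : ∀ η, A w₁ η + B w₀ η = 0) :
    ∃ c₀ c₁ : ℂ, (c₀ ≠ 0 ∨ c₁ ≠ 0) ∧ c₀ • w₀ + c₁ • w₁ = 0 := by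
  classical
  -- the coordinates in a Kronecker block
  have hc : ∀ (j : Fin T.kron.length) (_ : 2 ≤ T.kron.get j)
      (l : Fin (T.blocks μ (Sum.inl j)).Q),
      v.repr w₀ ⟨Sum.inl j, Sum.inr l⟩ = 0 ∧ v.repr w₁ ⟨Sum.inl j, Sum.inr l⟩ = 0 := by
    intro j hk
    obtain ⟨k, hkdef⟩ : ∃ k, T.kron.get j = k := ⟨_, rfl⟩
    have hP : (T.blocks μ (Sum.inl j)).P = k := hkdef
    have hQ : (T.blocks μ (Sum.inl j)).Q = k + 1 := by
      rw [← hkdef]
      rfl
    let α : V → ℕ → ℂ := fun w l =>
      if h : l < (T.blocks μ (Sum.inl j)).Q then v.repr w ⟨Sum.inl j, Sum.inr ⟨l, h⟩⟩ else 0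
    have hα : ∀ (w : V) (l : Fin (T.blocks μ (Sum.inl j)).Q),
        v.repr w ⟨Sum.inl j, Sum.inr l⟩ = α w l := by
      intro w l
      simp only [α]
      rw [dif_pos l.2]
    have hsumA : ∀ (w : V) (i : ℕ), i < k → A w (pv v (Sum.inl j) i) = - α w i := by
      intro w i hi
      have hi1 : i < (T.blocks μ (Sum.inl j)).P := by omega
      have hi2 : i < (T.blocks μ (Sum.inl j)).Q := by omega
      rw [form_eq_qcoord hA (Sum.inl j) i i hi1 hi2 (fun b _ => by
        simp [kron_block_eq, Block.entA, eq_comm])]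
      simp only [α]
      rw [dif_pos hi2]
    have hsumB : ∀ (w : V) (i : ℕ), i < k → B w (pv v (Sum.inl j) i) = - α w (i + 1) := by
      intro w i hi
      have hi1 : i < (T.blocks μ (Sum.inl j)).P := by omega
      have hi2 : i + 1 < (T.blocks μ (Sum.inl j)).Q := by omega
      rw [form_eq_qcoord hB (Sum.inl j) i (i + 1) hi1 hi2 (fun b _ => by
        simp [kron_block_eq, Block.entB, eq_comm])]
      simp only [α]
      rw [dif_pos hi2]
    have ha : ∀ i, i < k → α w₀ i = 0 := by
      intro i hi
      have := hsumA w₀ i hi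
      rw [e₀] at this
      simpa using this.symm
    have hb : ∀ i, i < k → α w₁ (i + 1) = 0 := by
      intro i hi
      have := hsumB w₁ i hi
      rw [e₁] at this
      simpa using this.symm
    have hab : ∀ i, i < k → α w₁ i + α w₀ (i + 1) = 0 := by
      intro i hi
      have h2 := e₂ (pv v (Sum.inl j) i)
      rw [hsumA w₁ i hi, hsumB w₀ i hi] at h2
      linear_combination -h2
    have hk2 : 2 ≤ k := by omega
    intro l
    rw [hα, hα]
    have hlk : (l : ℕ) < k + 1 := lt_of_lt_of_eq l.2 hQ
    constructor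
    · by_cases hl : (l : ℕ) < k
      · exact ha l hl
      · obtain ⟨m, hm⟩ : ∃ m, k = m + 2 := ⟨k - 2, by omega⟩
        have h2 := hab (m + 1) (by omega)
        have h3 := hb m (by omega)
        rw [h3, zero_add] at h2
        have h5 : (l : ℕ) = m + 1 + 1 := by omega
        rw [h5]
        exact h2
    · by_cases hl : (l : ℕ) = 0
      · have h2 := hab 0 (by omega)
        have h3 := ha (0 + 1) (by omega)
        rw [h3, add_zero] at h2
        rw [hl]
        exact h2
      · obtain ⟨m, hm⟩ : ∃ m, (l : ℕ) = m + 1 := ⟨l - 1, by omega⟩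
        have h3 := hb m (by omega)
        rw [hm]
        exact h3
  -- all coordinates vanish except in trivial Kronecker blocks
  have hall : ∀ t, (∀ j : Fin T.kron.length, T.kron.get j = 0 → t.1 ≠ Sum.inl j) →
      v.repr w₀ t = 0 ∧ v.repr w₁ t = 0 := by
    intro t ht
    by_cases hq : ∃ (j : Fin T.kron.length) (q : Fin (T.blocks μ (Sum.inl j)).Q),
        t = ⟨Sum.inl j, Sum.inr q⟩
    · obtain ⟨j, q, rfl⟩ := hq
      have hk0 : T.kron.get j ≠ 0 := fun h => ht j h rfl
      have hk1 : T.kron.get j ≠ 1 := fun h => h1 (h ▸ List.get_mem _ _)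
      exact hc j (by omega) q
    · push Not at hq
      exact ⟨repr_core hw₀ t hq, repr_core hw₁ t hq⟩
  by_cases hex : ∃ j : Fin T.kron.length, T.kron.get j = 0
  · obtain ⟨j, hj⟩ := hex
    have hQ : 0 < (T.blocks μ (Sum.inl j)).Q := Nat.succ_pos _
    have huniq : ∀ j' : Fin T.kron.length, T.kron.get j' = 0 → j' = j := by
      intro j' hj'
      by_contra hne
      have h2 : 2 ≤ T.kron.count 0 := by
        rw [← List.duplicate_iff_two_le_count, List.duplicate_iff_exists_distinct_get]
        rcases lt_or_gt_of_ne hne with h | h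
        · exact ⟨j', j, h, hj'.symm, hj.symm⟩
        · exact ⟨j, j', h, hj.symm, hj'.symm⟩
      omega
    set t₀ : Σ i, Fin (T.blocks μ i).P ⊕ Fin (T.blocks μ i).Q :=
      ⟨Sum.inl j, Sum.inr ⟨0, hQ⟩⟩ with ht₀
    have hone : ∀ t, t ≠ t₀ → v.repr w₀ t = 0 ∧ v.repr w₁ t = 0 := by
      intro t ht
      apply hall
      intro j' hj' heq
      have := huniq j' hj'
      subst this
      apply ht
      obtain ⟨i, s⟩ := t
      simp only at heq
      subst heq
      cases s with
      | inl p =>
        have := p.2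
        have h3 : (T.blocks μ (Sum.inl j')).P = T.kron.get j' := rfl
        omega
      | inr q =>
        have h3 : (T.blocks μ (Sum.inl j')).Q = T.kron.get j' + 1 := rfl
        have hq : q = ⟨0, hQ⟩ := Fin.ext (by
          have := q.2
          show (q : ℕ) = 0
          omega)
        rw [ht₀, hq]
    have hw : ∀ w : V, (∀ t, t ≠ t₀ → v.repr w t = 0) → w = v.repr w t₀ • v t₀ := by
      intro w hw
      apply v.repr.injective
      ext t
      rw [map_smul, Basis.repr_self, Finsupp.smul_single, smul_eq_mul, mul_one,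
        Finsupp.single_apply]
      by_cases ht : t₀ = t
      · rw [if_pos ht, ht]
      · rw [if_neg ht, hw t (fun h => ht h.symm)]
    have h2 := hw w₀ (fun t ht => (hone t ht).1)
    have h3 := hw w₁ (fun t ht => (hone t ht).2)
    by_cases hz : v.repr w₀ t₀ = 0
    · refine ⟨1, 0, Or.inl one_ne_zero, ?_⟩
      rw [h2, hz]
      simp
    · refine ⟨v.repr w₁ t₀, -(v.repr w₀ t₀), Or.inr (neg_ne_zero.2 hz), ?_⟩
      rw [h2, h3]
      simp only [map_smul, Finsupp.smul_apply, Basis.repr_self, Finsupp.single_eq_same,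
        smul_eq_mul, mul_one, smul_smul]
      rw [← add_smul]
      ring_nf
      simp
  · push Not at hex
    refine ⟨1, 0, Or.inl one_ne_zero, ?_⟩
    have : w₀ = 0 := by
      apply v.repr.injective
      ext t
      rw [(hall t (fun j hj => absurd hj (hex j))).1, map_zero, Finsupp.zero_apply]
    rw [this]
    simp

end

end P8H59.JK
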