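import Pool.Agent.P8H59.JK.Nec2
import Pool.Agent.P8H59.JK.CL
import Pool.Agent.P8H59.JK.FO

/-!
# Necessity, part 3: the theorem
-/

namespace P8H59.JK

open Module Polynomial

variable {g : Type} [LieRing g] [LieAlgebra ℂ g]

theorem lieForm_apply (x : Dual ℂ g) (ξ η : g) : lieForm x ξ η = x ⁅ξ, η⁆ := rfl

theorem lieForm_skew (x : Dual ℂ g) (ξ η : g) : lieForm x ξ η = - lieForm x η ξ := by
  rw [lieForm_apply, lieForm_apply, ← lie_skew, map_neg]

/-- `x ↦ A_x` as a linear map. -/
def lieFormL : Dual ℂ g →ₗ[ℂ] g →ₗ[ℂ] g →ₗ[ℂ] ℂ where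
  toFun := lieForm
  map_add' x y := by
    ext ξ η
    simp [lieForm_apply]
  map_smul' c x := by
    ext ξ η
    simp [lieForm_apply]

theorem lieFormL_apply (x : Dual ℂ g) : lieFormL x = lieForm x := rfl

/-- For a skew form, a functional that vanishes on the kernel is in the range. -/
theorem mem_range_of_skew {V : Type} [AddCommGroup V] [Module ℂ V] [FiniteDimensional ℂ V]
    (B : V →ₗ[ℂ] V →ₗ[ℂ] ℂ) (hBs : ∀ ξ η, B ξ η = - B η ξ) (φ : Dual ℂ V)
    (h : ∀ z, B z = 0 → φ z = 0) : ∃ w, B w = φ := by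
  have h1 : φ ∈ (LinearMap.ker B).dualAnnihilator := by
    rw [Submodule.mem_dualAnnihilator]
    intro z hz
    exact h z hz
  rw [← LinearMap.range_dualMap_eq_dualAnnihilator_ker] at h1
  obtain ⟨Ψ, hΨ⟩ := h1
  obtain ⟨w, hw⟩ := (Module.evalEquiv ℂ V).surjective Ψ
  refine ⟨-w, LinearMap.ext fun ξ => ?_⟩
  rw [← hΨ, ← hw]
  simp only [LinearMap.dualMap_apply, Module.evalEquiv_apply, map_neg, LinearMap.neg_apply]
  rw [hBs w ξ, neg_neg]
  rfl

/-- Linear section of a skew form. -/
theorem exists_section {V : Type} [AddCommGroup V] [Module ℂ V] [FiniteDimensional ℂ V]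
    (B : V →ₗ[ℂ] V →ₗ[ℂ] ℂ) : ∃ G : Dual ℂ V →ₗ[ℂ] V, ∀ φ, (∃ w, B w = φ) → B (G φ) = φ := by
  obtain ⟨G', hG'⟩ := B.rangeRestrict.exists_rightInverse_of_surjective
    (LinearMap.range_rangeRestrict B)
  obtain ⟨G, hG⟩ := LinearMap.exists_extend G'
  refine ⟨G, ?_⟩
  rintro φ ⟨w, rfl⟩
  have h1 : G (B w) = G' ⟨B w, LinearMap.mem_range_self B w⟩ := by
    rw [← hG]
    rfl
  rw [h1]
  have h2 := LinearMap.congr_fun hG' ⟨B w, LinearMap.mem_range_self B w⟩
  have h3 := congrArg Subtype.val h2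
  simpa using h3

section core

variable [FiniteDimensional ℂ g] {T : AlgType}

theorem kernel_central (hκ : ∀ k ∈ T.kron, k = 0) (a x₀ : Dual ℂ g)
    (hdim : finrank ℂ (LinearMap.ker (lieForm a)) ≤ T.kron.length)
    (H : MvPolynomial (Dual ℂ (Dual ℂ g)) ℂ)
    (hH : MvPolynomial.eval (fun φ => φ x₀) H ≠ 0)
    (hgen : ∀ x : Dual ℂ g, MvPolynomial.eval (fun φ => φ x) H ≠ 0 →
      HasType (lieForm x) (lieForm a) T) (z : g) (hz : lieForm a z = 0) (x : Dual ℂ g) :
    lieForm x z = 0 := by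
  have h0 : ∀ x : Dual ℂ g, MvPolynomial.eval (fun φ => φ x) H ≠ 0 → lieForm x z = 0 := by
    intro x hx
    obtain ⟨μ, -, v, hv⟩ := hgen x hx
    exact ker_eq hκ (fun s t => (hv s t).1) (fun s t => (hv s t).2) hdim z hz
  have hfin := finite_zeros_on_line H (fun φ => φ x₀) (fun φ => φ x) hH
  obtain ⟨s, hs⟩ := (hfin.union (Set.finite_singleton 0)).infinite_compl.nonempty
  simp only [Set.mem_compl_iff, Set.mem_union, Set.mem_setOf_eq, Set.mem_singleton_iff,
    not_or] at hs
  obtain ⟨hs1, hs2⟩ := hs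
  have h1 : ((fun φ : Dual ℂ (Dual ℂ g) => φ x₀) + s • (fun φ : Dual ℂ (Dual ℂ g) => φ x)) =
      (fun φ => φ (x₀ + s • x)) := by
    funext φ
    simp
  rw [h1] at hs1
  have h2 := h0 _ hs1
  have h3 := h0 _ hH
  rw [← lieFormL_apply, map_add, map_smul, LinearMap.add_apply, lieFormL_apply, h3, zero_add,
    LinearMap.smul_apply, lieFormL_apply] at h2
  exact (smul_eq_zero.1 h2).resolve_left hs2

/-- The degree of the minimal polynomial. -/
theorem minPol_natDegree (T : AlgType) (lam : Fin T.jordan.length → ℂ) :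
    (minPol T lam).natDegree = ∑ i : Fin T.jordan.length, gmax (T.jordan.get i) := by
  rw [minPol, Polynomial.natDegree_prod_of_monic]
  · simp
  · intro i _
    exact (monic_X_sub_C _).pow _

theorem minPol_monic (T : AlgType) (lam : Fin T.jordan.length → ℂ) : (minPol T lam).Monic := by
  rw [minPol]
  exact monic_prod_of_monic _ _ fun i _ => (monic_X_sub_C _).pow _

theorem taylor_coeff_mul (lam : ℂ) (m : ℕ) (h : ℂ[X]) :
    (taylor lam ((X - C lam) ^ m * h)).coeff m = h.eval lam := by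
  rw [Polynomial.taylor_mul, Polynomial.taylor_pow]
  have : taylor lam (X - C lam) = X := by simp [Polynomial.taylor_apply]
  rw [this, Polynomial.coeff_X_pow_mul']
  simp

theorem eval_form_sum {V : Type} [AddCommGroup V] [Module ℂ V] (B : V →ₗ[ℂ] V →ₗ[ℂ] ℂ)
    (R : Module.End ℂ V) (e : ℕ → ℂ) (m : ℕ) (ξ η : V) :
    B (aeval R (∑ j ∈ Finset.range m, C (e j) * X ^ j : ℂ[X]) ξ) η =
      ∑ j ∈ Finset.range m, e j * B ((R ^ j) ξ) η := by
  rw [map_sum, LinearMap.sum_apply, map_sum, LinearMap.sum_apply]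
  refine Finset.sum_congr rfl fun j _ => ?_
  rw [map_mul, map_pow, aeval_C, aeval_X, Algebra.algebraMap_eq_smul_one, smul_mul_assoc, one_mul,
    LinearMap.smul_apply, map_smul, LinearMap.smul_apply, smul_eq_mul]

theorem eval_form_poly {V : Type} [AddCommGroup V] [Module ℂ V] (B : V →ₗ[ℂ] V →ₗ[ℂ] ℂ)
    (R : Module.End ℂ V) (f : ℂ[X]) (m : ℕ) (hm : f.natDegree < m) (ξ η : V) :
    B (aeval R f ξ) η = ∑ j ∈ Finset.range m, f.coeff j * B ((R ^ j) ξ) η := by
  conv_lhs => rw [f.as_sum_range' m hm]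
  rw [← eval_form_sum]
  simp only [Polynomial.C_mul_X_pow_eq_monomial]

theorem selfadj {V : Type} [AddCommGroup V] [Module ℂ V] {A B : V →ₗ[ℂ] V →ₗ[ℂ] ℂ}
    {R : Module.End ℂ V} (hR : ∀ ξ η, B (R ξ) η = A ξ η) (hA : ∀ ξ η, A ξ η = - A η ξ)
    (hB : ∀ ξ η, B ξ η = - B η ξ) (n : ℕ) (ξ η : V) : B ((R ^ n) ξ) η = B ξ ((R ^ n) η) := by
  induction n generalizing ξ η with
  | zero => simp
  | succ n ih =>
    rw [pow_succ', Module.End.mul_apply, hR, hA, ← hR, hB, neg_neg, ih]
    rw [← Module.End.mul_apply, ← pow_succ, pow_succ', Module.End.mul_apply]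

/-- Data of the pencil at a good point. -/
theorem core (hT : T.Valid) (hκ : ∀ k ∈ T.kron, k = 0) (a x₀ : Dual ℂ g)
    (hdim : finrank ℂ (LinearMap.ker (lieForm a)) ≤ T.kron.length)
    (H : MvPolynomial (Dual ℂ (Dual ℂ g)) ℂ)
    (hH : MvPolynomial.eval (fun φ => φ x₀) H ≠ 0)
    (hgen : ∀ x : Dual ℂ g, MvPolynomial.eval (fun φ => φ x) H ≠ 0 →
      HasType (lieForm x) (lieForm a) T)
    (α β : ℂ) (hrange : ∃ ξ, lieForm a ξ = α • x₀ + β • a) :
    ∃ lam : Fin T.jordan.length → ℂ, Function.Injective lam ∧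
      ∀ i, Bad (T.jordan.get i) → α * lam i + β = 0 := by
  have hfinite : ∀ x : Dual ℂ g, MvPolynomial.eval (fun φ => φ x) H ≠ 0 →
      ∃ (μ : Fin T.jordan.length → Option ℂ) (lam : Fin T.jordan.length → ℂ)
        (v : Basis (Σ i, Fin (T.blocks μ i).P ⊕ Fin (T.blocks μ i).Q) ℂ g),
        Function.Injective lam ∧ (∀ i, μ i = some (lam i)) ∧
        (∀ s t, lieForm x (v s) (v t) = skewEnt Block.entA (T.blocks μ) s t) ∧
        (∀ s t, lieForm a (v s) (v t) = skewEnt Block.entB (T.blocks μ) s t) := by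
    intro x hx
    obtain ⟨μ, hμinj, v, hv⟩ := hgen x hx
    have hfin : ∀ i, ∃ l, μ i = some l := by
      intro i
      cases hμi : μ i with
      | some l => exact ⟨l, rfl⟩
      | none =>
        exfalso
        have hne := hT _ (List.get_mem T.jordan i)
        have hlen : 0 < (T.jordan.get i).length := List.length_pos_iff.2 hne.1
        refine finite_eigenvalue hκ (fun s t => (hv s t).2) hdim (Sum.inr ⟨i, ⟨0, hlen⟩⟩)
          ((T.jordan.get i).get ⟨0, hlen⟩) (hne.2 _ (List.get_mem _ _)) ?_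
        simp only [AlgType.blocks]
        rw [hμi]
    choose lam hlam using hfin
    refine ⟨μ, lam, v, ?_, hlam, fun s t => (hv s t).1, fun s t => (hv s t).2⟩
    intro i j hij
    apply hμinj
    rw [hlam, hlam, hij]
  obtain ⟨μ, lam, v, hinj, hlam, hA, hB⟩ := hfinite x₀ hH
  refine ⟨lam, hinj, ?_⟩
  have hBs : ∀ ξ η, lieForm a ξ η = - lieForm a η ξ := lieForm_skew a
  obtain ⟨G, hG⟩ := exists_section (lieForm a)
  let S : Dual ℂ g →ₗ[ℂ] Module.End ℂ g :=
    { toFun := fun x => G ∘ₗ lieForm x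
      map_add' := fun x y => by
        rw [← lieFormL_apply, map_add, LinearMap.comp_add]
        rfl
      map_smul' := fun c x => by
        rw [← lieFormL_apply, map_smul, LinearMap.comp_smul]
        rfl }
  have hS : ∀ x ξ η, lieForm a (S x ξ) η = lieForm x ξ η := by
    intro x ξ η
    have h1 : lieForm a (G (lieForm x ξ)) = lieForm x ξ := by
      apply hG
      apply mem_range_of_skew _ hBs
      intro z hz
      rw [lieForm_skew, kernel_central hκ a x₀ hdim H hH hgen z hz x]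
      simp
    have h2 : S x ξ = G (lieForm x ξ) := rfl
    rw [h2, h1]
  set d := (minPol T lam).natDegree with hd
  have hdind : ∀ lam', (minPol T lam').natDegree = d := by
    intro lam'
    rw [hd, minPol_natDegree, minPol_natDegree]
  have hind : LinearIndependent ℂ (fun j : Fin d => lieForm a ∘ₗ (S x₀ ^ (j : ℕ))) := by
    rw [Fintype.linearIndependent_iff]
    intro c hc
    let c' : ℕ → ℂ := fun j => if h : j < d then c ⟨j, h⟩ else 0
    have h1 : ∀ ξ η, lieForm a (aeval (S x₀) (∑ j ∈ Finset.range d, C (c' j) * X ^ j : ℂ[X]) ξ) η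
        = 0 := by
      intro ξ η
      rw [eval_form_sum, ← Fin.sum_univ_eq_sum_range
        (fun j => c' j * lieForm a ((S x₀ ^ j) ξ) η) d]
      have h2 := LinearMap.congr_fun (LinearMap.congr_fun hc ξ) η
      simp only [LinearMap.sum_apply, LinearMap.smul_apply, LinearMap.comp_apply,
        LinearMap.zero_apply, smul_eq_mul] at h2
      rw [← h2]
      refine Finset.sum_congr rfl fun j _ => ?_
      simp [c']
    have h3 := minPol_dvd hT (hS x₀) lam hlam hinj hA hB _ h1
    have h4 : (∑ j ∈ Finset.range d, C (c' j) * X ^ j : ℂ[X]) = 0 := by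
      by_contra hne
      have h5 := Polynomial.degree_le_of_dvd h3 hne
      have h6 : (∑ j ∈ Finset.range d, C (c' j) * X ^ j : ℂ[X]).degree < d := by
        rw [Polynomial.degree_lt_iff_coeff_zero]
        intro m hm
        rw [Polynomial.finsetSum_coeff]
        refine Finset.sum_eq_zero fun j hj => ?_
        rw [Finset.mem_range] at hj
        rw [Polynomial.coeff_C_mul_X_pow, if_neg (by omega)]
      rw [Polynomial.degree_eq_natDegree (minPol_monic T lam).ne_zero, ← hd] at h5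
      exact absurd (lt_of_le_of_lt h5 h6) (lt_irrefl _)
    intro i
    have h7 := congrArg (fun f => Polynomial.coeff f (i : ℕ)) h4
    simp only [Polynomial.finsetSum_coeff, Polynomial.coeff_zero,
      Polynomial.coeff_C_mul_X_pow] at h7
    rw [Finset.sum_ite_eq] at h7
    simpa [c'] using h7
  have hdep : ∀ x : Dual ℂ g, MvPolynomial.eval (fun φ => φ x) H ≠ 0 →
      ¬ LinearIndependent ℂ (fun j : Fin (d + 1) => lieForm a ∘ₗ (S x ^ (j : ℕ))) := by
    intro x hx hli
    obtain ⟨μ', lam', v', hinj', hlam', hA', hB'⟩ := hfinite x hx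
    rw [Fintype.linearIndependent_iff] at hli
    have h1 := hli (fun j => (minPol T lam').coeff j) (by
      refine LinearMap.ext fun ξ => LinearMap.ext fun η => ?_
      have h2 := aeval_zero_of_dvd (hS x) hBs hκ lam' hlam' hA' hB' (minPol T lam') dvd_rfl ξ η
      rw [eval_form_poly _ _ _ (d + 1) (by rw [hdind]; omega), ← Fin.sum_univ_eq_sum_range
        (fun j => (minPol T lam').coeff j * lieForm a ((S x ^ j) ξ) η) (d + 1)] at h2
      simp only [LinearMap.sum_apply, LinearMap.smul_apply, LinearMap.comp_apply,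
        LinearMap.zero_apply, smul_eq_mul]
      exact h2) (Fin.last d)
    simp only [Fin.val_last] at h1
    rw [← hdind lam'] at h1
    exact one_ne_zero ((minPol_monic T lam').coeff_natDegree.symm.trans h1)
  obtain ⟨c, δ, hcd, hc0, hX⟩ := first_order (lieForm a) S x₀ d hind H ⟨x₀, hH⟩ hdep
  set R := S x₀ with hRdef
  have hR : ∀ ξ η, lieForm a (R ξ) η = lieForm x₀ ξ η := hS x₀
  have hsa : ∀ (n : ℕ) (ξ η : g), lieForm a ((R ^ n) ξ) η = lieForm a ξ ((R ^ n) η) :=
    selfadj hR (lieForm_skew x₀) hBs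
  -- the polynomial of the coefficients `c`
  set cp : ℂ[X] := ∑ j ∈ Finset.range (d + 1), C (c j) * X ^ j with hcp
  have hcpc : ∀ m, cp.coeff m = if m < d + 1 then c m else 0 := by
    intro m
    rw [hcp, Polynomial.finsetSum_coeff]
    simp only [Polynomial.coeff_C_mul_X_pow]
    rw [Finset.sum_ite_eq]
    simp
  have hcp0 : ∀ ξ η, lieForm a (aeval R cp ξ) η = 0 := by
    intro ξ η
    rw [hcp, eval_form_sum]
    have h2 := LinearMap.congr_fun (LinearMap.congr_fun hc0 ξ) η
    simpa [LinearMap.sum_apply] using h2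
  obtain ⟨h, hh⟩ := minPol_dvd hT hR lam hlam hinj hA hB cp hcp0
  have hcpne : cp ≠ 0 := by
    intro h0
    have := hcpc d
    rw [h0, Polynomial.coeff_zero, if_pos (by omega)] at this
    exact hcd this.symm
  have hhne : h ≠ 0 := by
    rintro rfl
    rw [mul_zero] at hh
    exact hcpne hh
  have hhdeg : h.natDegree = 0 := by
    have h1 : cp.natDegree ≤ d := by
      rw [Polynomial.natDegree_le_iff_coeff_eq_zero]
      intro m hm
      rw [hcpc, if_neg (by omega)]
    rw [hh, Polynomial.natDegree_mul (minPol_monic T lam).ne_zero hhne, ← hd] at h1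
    omega
  obtain ⟨k, hk⟩ := Polynomial.natDegree_eq_zero.1 hhdeg
  have hk0 : k ≠ 0 := by
    rintro rfl
    rw [C_0] at hk
    exact hhne hk.symm
  -- the first order identity along `B ξ`
  have hstar : ∀ ξ η ζ : g,
      ∑ j ∈ Finset.range (d + 1), δ j (lieForm a ξ) * lieForm a ((R ^ j) η) ζ +
      ∑ j ∈ Finset.range (d + 1), c j * ∑ i ∈ Finset.range j,
        a ⁅ξ, ⁅(R ^ i) η, (R ^ (j - 1 - i)) ζ⁆⁆ = 0 := by
    intro ξ η ζ
    have h1 := LinearMap.congr_fun (LinearMap.congr_fun (hX (lieForm a ξ)) η) ζ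
    simp only [LinearMap.add_apply, LinearMap.sum_apply, LinearMap.smul_apply,
      LinearMap.comp_apply, LinearMap.zero_apply, smul_eq_mul] at h1
    rw [← h1]
    congr 1
    refine Finset.sum_congr rfl fun j _ => ?_
    congr 1
    rw [← Finset.sum_range_reflect]
    refine Finset.sum_congr rfl fun i hi => ?_
    rw [Finset.mem_range] at hi
    have h2 : j - 1 - (j - 1 - i) = i := by omega
    rw [h2, Module.End.mul_apply, Module.End.mul_apply, hsa, hS, lieForm_apply, lieForm_apply]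
  have hJ : ∀ ξ η ζ : g,
      ∑ j ∈ Finset.range (d + 1), δ j (lieForm a ξ) * lieForm a ((R ^ j) η) ζ +
      ∑ j ∈ Finset.range (d + 1), δ j (lieForm a η) * lieForm a ((R ^ j) ζ) ξ +
      ∑ j ∈ Finset.range (d + 1), δ j (lieForm a ζ) * lieForm a ((R ^ j) ξ) η = 0 := by
    intro ξ η ζ
    have h1 := hstar ξ η ζ
    have h2 := hstar η ζ ξ
    have h3 := hstar ζ ξ η
    have h4 : ∑ j ∈ Finset.range (d + 1), c j * ∑ i ∈ Finset.range j,
          a ⁅ξ, ⁅(R ^ i) η, (R ^ (j - 1 - i)) ζ⁆⁆ +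
        ∑ j ∈ Finset.range (d + 1), c j * ∑ i ∈ Finset.range j,
          a ⁅η, ⁅(R ^ i) ζ, (R ^ (j - 1 - i)) ξ⁆⁆ +
        ∑ j ∈ Finset.range (d + 1), c j * ∑ i ∈ Finset.range j,
          a ⁅ζ, ⁅(R ^ i) ξ, (R ^ (j - 1 - i)) η⁆⁆ = 0 := by
      rw [← Finset.sum_add_distrib, ← Finset.sum_add_distrib]
      refine Finset.sum_eq_zero fun j _ => ?_
      rw [← mul_add, ← mul_add, ← Finset.sum_add_distrib, ← Finset.sum_add_distrib]
      have hcl := closed_identity (fun ξ η ζ : g => a ⁅ξ, ⁅η, ζ⁆⁆) R ?_ ?_ j ξ η ζ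
      · simp only [← Module.End.pow_apply] at hcl
        rw [hcl, mul_zero]
      · intro ξ η ζ
        rw [← map_add, ← map_add, lie_jacobi, map_zero]
      · intro ξ η ζ
        have h5 : ∀ u w : g, a ⁅R u, w⁆ = x₀ ⁅u, w⁆ := fun u w => hR u w
        rw [h5, h5, h5, ← map_add, ← map_add, lie_jacobi, map_zero]
    linear_combination h1 + h2 + h3 - h4
  intro i₀ hbad
  obtain ⟨b₁, b₂, hb12, hb1, hb2⟩ := bad_indices hbad
  have hn : 0 < gmax (T.jordan.get i₀) := by
    have := hT _ (List.get_mem T.jordan i₀)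
    exact this.2 _ (gmax_mem this.1)
  set n := gmax (T.jordan.get i₀) with hndef
  -- the Taylor coefficient
  let Λ : Dual ℂ g → ℂ := fun X =>
    (taylor (lam i₀) (∑ j ∈ Finset.range (d + 1), C (δ j X) * Polynomial.X ^ j : ℂ[X])).coeff (n - 1)
  have hΛval : ∀ (b : Fin (T.jordan.get i₀).length), (T.jordan.get i₀).get b = n → ∀ X,
      ∑ j ∈ Finset.range (d + 1), δ j X *
        lieForm a ((R ^ j) (pv v (Sum.inr ⟨i₀, b⟩) 0)) (qv v (Sum.inr ⟨i₀, b⟩) (n - 1)) = Λ X := by
    intro b hb X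
    rw [← eval_form_sum]
    exact aeval_p0_q hR lam hlam hA hB _ i₀ b (n - 1) (by omega)
  have hΛlin : ∀ X Y, Λ (X + Y) = Λ X + Λ Y := by
    intro X Y
    simp only [← hΛval b₁ hb1, map_add, add_mul, Finset.sum_add_distrib]
  have hΛsmul : ∀ (r : ℂ) X, Λ (r • X) = r * Λ X := by
    intro r X
    simp only [← hΛval b₁ hb1, map_smul, smul_eq_mul, Finset.mul_sum, mul_assoc]
  have hΛbasis : ∀ s, Λ (lieForm a (v s)) = 0 := by
    intro s
    have hone : ∀ b : Fin (T.jordan.get i₀).length, (T.jordan.get i₀).get b = n →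
        s.1 ≠ Sum.inr ⟨i₀, b⟩ → Λ (lieForm a (v s)) = 0 := by
      intro b hb hne
      rw [← hΛval b hb]
      have h1 := hJ (v s) (pv v (Sum.inr ⟨i₀, b⟩) 0) (qv v (Sum.inr ⟨i₀, b⟩) (n - 1))
      have h2 : ∀ j, lieForm a ((R ^ j) (v s)) (qv v (Sum.inr ⟨i₀, b⟩) (n - 1)) = 0 ∧
          lieForm a ((R ^ j) (v s)) (pv v (Sum.inr ⟨i₀, b⟩) 0) = 0 := by
        intro j
        have h3 := outside hR lam hlam hA hB i₀ b s hne (Polynomial.X ^ j) (n - 1) (by omega)
        have h4 := outside hR lam hlam hA hB i₀ b s hne (Polynomial.X ^ j) 0 (by omega)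
        simp only [map_pow, aeval_X] at h3 h4
        exact ⟨h3.1, h4.2⟩
      have h5 : ∀ j, lieForm a ((R ^ j) (qv v (Sum.inr ⟨i₀, b⟩) (n - 1))) (v s) = 0 := by
        intro j
        rw [hsa, hBs, (h2 j).1, neg_zero]
      simp only [(h2 _).2, h5, mul_zero, Finset.sum_const_zero, add_zero] at h1
      exact h1
    by_cases hs : s.1 = Sum.inr ⟨i₀, b₁⟩
    · refine hone b₂ hb2 ?_
      rw [hs]
      intro h6
      have h7 := Sum.inr.inj h6
      simp only [Sigma.mk.injEq, heq_eq_eq, true_and] at h7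
      exact hb12 h7
    · exact hone b₁ hb1 hs
  have hΛall : ∀ ξ, Λ (lieForm a ξ) = 0 := by
    let Λ' : g →ₗ[ℂ] ℂ :=
      { toFun := fun ξ => Λ (lieForm a ξ)
        map_add' := fun ξ η => by rw [map_add, hΛlin]
        map_smul' := fun r ξ => by rw [map_smul, hΛsmul]; rfl }
    have h1 : Λ' = 0 := v.ext fun s => hΛbasis s
    intro ξ
    exact LinearMap.congr_fun h1 ξ
  obtain ⟨ξs, hξs⟩ := hrange
  have hΛstar : Λ (α • x₀ + β • a) = 0 := by rw [← hξs]; exact hΛall _
  -- the first order identity along `α x₀ + β a`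
  have hfo : ∀ ξ η : g,
      ∑ j ∈ Finset.range (d + 1), δ j (α • x₀ + β • a) * lieForm a ((R ^ j) ξ) η +
      lieForm a (aeval R ((C α * X + C β) * derivative cp) ξ) η = 0 := by
    intro ξ η
    have h1 := LinearMap.congr_fun (LinearMap.congr_fun (hX (α • x₀ + β • a)) ξ) η
    simp only [LinearMap.add_apply, LinearMap.sum_apply, LinearMap.smul_apply,
      LinearMap.comp_apply, LinearMap.zero_apply, smul_eq_mul] at h1
    rw [← h1]
    congr 1
    have h2 : ∀ j ∈ Finset.range (d + 1), c j * ∑ i ∈ Finset.range j,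
        lieForm a ((R ^ i * S (α • x₀ + β • a) * R ^ (j - 1 - i)) ξ) η =
        lieForm a (aeval R (C (c j) * (C α * X + C β) * derivative (X ^ j : ℂ[X])) ξ) η := by
      intro j _
      have h3 : ∀ i ∈ Finset.range j,
          lieForm a ((R ^ i * S (α • x₀ + β • a) * R ^ (j - 1 - i)) ξ) η =
          lieForm a (aeval R ((C α * X + C β) * (X ^ (j - 1) : ℂ[X])) ξ) η := by
        intro i hi
        rw [Finset.mem_range] at hi
        rw [Module.End.mul_apply, Module.End.mul_apply, hsa, hS]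
        rw [← lieFormL_apply, map_add, map_smul, map_smul, LinearMap.add_apply,
          LinearMap.add_apply, LinearMap.smul_apply, LinearMap.smul_apply, LinearMap.smul_apply,
          LinearMap.smul_apply, lieFormL_apply, lieFormL_apply, ← hR, ← hsa, ← hsa]
        have h4 : aeval R ((C α * X + C β) * (X ^ (j - 1) : ℂ[X])) =
            α • R ^ j + β • R ^ (j - 1) := by
          rw [map_mul, map_add, map_mul, aeval_C, aeval_C, aeval_X, map_pow, aeval_X,
            Algebra.algebraMap_eq_smul_one, Algebra.algebraMap_eq_smul_one, smul_mul_assoc,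
            one_mul, add_mul, smul_mul_assoc, smul_mul_assoc, one_mul, ← pow_succ']
          congr 3
          omega
        rw [h4, LinearMap.add_apply, LinearMap.smul_apply, LinearMap.smul_apply, map_add,
          map_smul, map_smul, LinearMap.add_apply, LinearMap.smul_apply, LinearMap.smul_apply]
        congr 2
        · congr 2
          rw [← Module.End.mul_apply, ← Module.End.mul_apply, ← pow_succ, ← pow_add]
          congr 2
          omega
        · congr 2
          rw [← Module.End.mul_apply, ← pow_add]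
          congr 2
          omega
      rw [Finset.sum_congr rfl h3, Finset.sum_const, Finset.card_range]
      have h5 : (C (c j) * (C α * X + C β) * derivative (X ^ j : ℂ[X])) =
          C (c j * (j : ℂ)) * ((C α * X + C β) * (X ^ (j - 1) : ℂ[X])) := by
        rw [Polynomial.derivative_X_pow, C_mul]
        ring
      have h5' : aeval R (C (c j * (j : ℂ)) * ((C α * X + C β) * (X ^ (j - 1) : ℂ[X]))) =
          (c j * (j : ℂ)) • aeval R ((C α * X + C β) * (X ^ (j - 1) : ℂ[X])) := by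
        rw [map_mul, aeval_C, Algebra.algebraMap_eq_smul_one, smul_mul_assoc, one_mul]
      rw [h5, h5', LinearMap.smul_apply, map_smul, LinearMap.smul_apply, smul_eq_mul,
        nsmul_eq_mul]
      ring
    rw [Finset.sum_congr rfl h2]
    have h6 : (C α * X + C β) * derivative cp =
        ∑ j ∈ Finset.range (d + 1), C (c j) * (C α * X + C β) * derivative (X ^ j : ℂ[X]) := by
      rw [hcp, Polynomial.derivative_sum, Finset.mul_sum]
      refine Finset.sum_congr rfl fun j _ => ?_
      rw [Polynomial.derivative_mul, Polynomial.derivative_C]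
      ring
    rw [h6, map_sum, LinearMap.sum_apply, map_sum, LinearMap.sum_apply]
  have hzero : (taylor (lam i₀) ((C α * X + C β) * derivative cp)).coeff (n - 1) = 0 := by
    have h1 := hfo (pv v (Sum.inr ⟨i₀, b₁⟩) 0) (qv v (Sum.inr ⟨i₀, b₁⟩) (n - 1))
    rw [hΛval b₁ hb1, hΛstar, zero_add,
      aeval_p0_q hR lam hlam hA hB _ i₀ b₁ (n - 1) (by omega)] at h1
    exact h1
  -- factorisation
  set Q : ℂ[X] := ∏ i ∈ Finset.univ.erase i₀, (X - C (lam i)) ^ gmax (T.jordan.get i) with hQ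
  have hfac : cp = C k * ((X - C (lam i₀)) ^ n * Q) := by
    rw [hh, ← hk, minPol, ← Finset.mul_prod_erase _ _ (Finset.mem_univ i₀)]
    ring
  have hQne : Q.eval (lam i₀) ≠ 0 := by
    rw [hQ, Polynomial.eval_prod, Finset.prod_ne_zero_iff]
    intro i hi
    rw [Polynomial.eval_pow]
    apply pow_ne_zero
    simp only [Polynomial.eval_sub, Polynomial.eval_X, Polynomial.eval_C]
    exact sub_ne_zero.2 fun h7 => (Finset.mem_erase.1 hi).1 (hinj h7).symm
  have hder : (C α * X + C β) * derivative cp = (X - C (lam i₀)) ^ (n - 1) *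
      ((C α * X + C β) * (C k * (C (n : ℂ) * Q + (X - C (lam i₀)) * derivative Q))) := by
    rw [hfac, Polynomial.derivative_C_mul, Polynomial.derivative_mul,
      Polynomial.derivative_X_sub_C_pow]
    obtain ⟨m, hm⟩ : ∃ m, n = m + 1 := ⟨n - 1, by omega⟩
    rw [hm]
    simp only [Nat.add_sub_cancel, pow_succ]
    push_cast
    ring
  rw [hder, taylor_coeff_mul] at hzero
  simp only [Polynomial.eval_mul, Polynomial.eval_add, Polynomial.eval_C, Polynomial.eval_X,
    Polynomial.eval_sub, sub_self, zero_mul, add_zero] at hzero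
  have hn0 : (n : ℂ) ≠ 0 := by exact_mod_cast hn.ne'
  rcases mul_eq_zero.1 hzero with h8 | h8
  · exact h8
  · exfalso
    rcases mul_eq_zero.1 h8 with h9 | h9
    · exact hk0 h9
    · rcases mul_eq_zero.1 h9 with h10 | h10
      · exact hn0 h10
      · exact hQne h10

end core

end P8H59.JK
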