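import Pool.Agent.P8H59.JK.Ne1
import Pool.Agent.P8H59.JK.Nec3


/-!
# Necessity for general Kronecker part: lists, ranks, polynomials (project JK, part 2)
-/

namespace P8H59.JK

open Module

/-! ### Lists are determined by the sums of the truncated entries -/

theorem countP_ge_eq (L : List ℕ) (r : ℕ) :
    (L.map (fun n => min n (r + 1))).sum = (L.map (fun n => min n r)).sum +
      L.countP (fun n => decide (r + 1 ≤ n)) := by
  induction L with
  | nil => simp
  | cons a L ih =>
    simp only [List.map_cons, List.sum_cons]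
    by_cases h : r + 1 ≤ a
    · rw [List.countP_cons_of_pos (by simpa using h), ih, min_eq_right h,
        min_eq_right (by omega : r ≤ a)]
      omega
    · rw [List.countP_cons_of_neg (by simpa using h), ih, min_eq_left (by omega : a ≤ r + 1),
        min_eq_left (by omega : a ≤ r)]
      omega

theorem count_eq_countP (L : List ℕ) (m : ℕ) :
    L.countP (fun n => decide (m ≤ n)) =
      L.count m + L.countP (fun n => decide (m + 1 ≤ n)) := by
  induction L with
  | nil => simp
  | cons a L ih =>
    rw [List.countP_cons, List.countP_cons, List.count_cons, ih]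
    rcases lt_trichotomy a m with h | h | h
    · have h1 : ¬ m ≤ a := by omega
      have h2 : ¬ m + 1 ≤ a := by omega
      have h3 : ¬ a = m := by omega
      simp [h1, h2, h3]
    · subst h
      simp
      omega
    · have h1 : m ≤ a := by omega
      have h2 : m + 1 ≤ a := by omega
      have h3 : ¬ a = m := by omega
      simp [h1, h2, h3]
      omega

theorem perm_of_sums {L₁ L₂ : List ℕ} (h₁ : ∀ n ∈ L₁, 0 < n) (h₂ : ∀ n ∈ L₂, 0 < n)
    (h : ∀ r, (L₁.map (fun n => min n r)).sum = (L₂.map (fun n => min n r)).sum) :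
    L₁.Perm L₂ := by
  have hc : ∀ r, L₁.countP (fun n => decide (r + 1 ≤ n)) =
      L₂.countP (fun n => decide (r + 1 ≤ n)) := by
    intro r
    have e1 := countP_ge_eq L₁ r
    have e2 := countP_ge_eq L₂ r
    have e3 := h r
    have e4 := h (r + 1)
    omega
  rw [List.perm_iff_count]
  intro m
  cases m with
  | zero =>
    rw [List.count_eq_zero_of_not_mem, List.count_eq_zero_of_not_mem]
    · intro h0
      exact absurd (h₂ 0 h0) (lt_irrefl 0)
    · intro h0
      exact absurd (h₁ 0 h0) (lt_irrefl 0)
  | succ m =>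
    have e1 := count_eq_countP L₁ (m + 1)
    have e2 := count_eq_countP L₂ (m + 1)
    have e3 := hc m
    have e4 := hc (m + 1)
    omega

/-! ### Independence of eigenvectors for distinct characters -/

theorem eigen_dependent {g : Type} [AddCommGroup g] [Module ℂ g] [FiniteDimensional ℂ g]
    {I : Type} [Fintype I] (ad : g →ₗ[ℂ] Module.End ℂ g) (z : I → g) (hz : ∀ i, z i ≠ 0)
    (χ : I → Dual ℂ g) (hχ : ∀ i ξ, ad ξ (z i) = χ i ξ • z i)
    (hdep : ¬ LinearIndependent ℂ z) : ∃ i j, i ≠ j ∧ χ i = χ j := by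
  classical
  by_contra hno
  push Not at hno
  apply hdep
  -- a vector separating the characters
  obtain ⟨ξ, hξ⟩ : ∃ ξ : g, ∀ i j, i ≠ j → χ i ξ ≠ χ j ξ := by
    let K : {p : I × I // p.1 ≠ p.2} → Submodule ℂ g :=
      fun p => LinearMap.ker (χ p.1.1 - χ p.1.2)
    have h1 : (⋃ p ∈ (Finset.univ.image K : Finset (Subspace ℂ g)), (p : Set g)) ≠
        Set.univ := by
      apply Subspace.biUnion_ne_univ_of_top_notMem
      intro h
      rw [Finset.mem_image] at h
      obtain ⟨p, -, hp⟩ := h
      apply hno p.1.1 p.1.2 p.2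
      ext ξ
      have : ξ ∈ K p := by rw [hp]; trivial
      exact sub_eq_zero.1 (LinearMap.mem_ker.1 this)
    obtain ⟨ξ, hξ⟩ := (Set.ne_univ_iff_exists_notMem _).1 h1
    refine ⟨ξ, fun i j hij h2 => hξ ?_⟩
    rw [Set.mem_iUnion₂]
    refine ⟨K ⟨(i, j), hij⟩, Finset.mem_image_of_mem _ (Finset.mem_univ _), ?_⟩
    rw [SetLike.mem_coe, LinearMap.mem_ker, LinearMap.sub_apply, h2, sub_self]
  exact Module.End.eigenvectors_linearIndependent' (ad ξ) (fun i => χ i ξ)
    (fun i j hij => by
      by_contra hne
      exact hξ i j hne hij) z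
    (fun i => ⟨Module.End.mem_eigenspace_iff.2 (hχ i ξ), hz i⟩)

end P8H59.JK
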