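import Pool.Agent.P8H59.JK.Chain

/-! # Package SI of project JK (part 2): semi-invariants -/

set_option autoImplicit false

namespace P8H59.JK

open Module MvPolynomial

namespace SIaux

theorem sum_updateCol_eq {P : Type} [CommRing P] {n : ℕ} (M N : Matrix (Fin n) (Fin n) P) :
    ∑ k, (M.updateRow k (N k)).det = ∑ k, (M.updateCol k (fun i => N i k)).det := by
  have h1 : ∀ k, (M.updateRow k (N k)).det = ∑ i, M.adjugate i k * N k i := by
    intro k
    rw [← Matrix.cramer_transpose_apply, Matrix.cramer_eq_adjugate_mulVec]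
    simp only [Matrix.mulVec, dotProduct]
    apply Finset.sum_congr rfl
    intro i _
    rw [← Matrix.adjugate_transpose, Matrix.transpose_apply]
  have h2 : ∀ k, (M.updateCol k (fun i => N i k)).det = ∑ i, M.adjugate k i * N i k := by
    intro k
    rw [← Matrix.cramer_apply, Matrix.cramer_eq_adjugate_mulVec]
    rfl
  simp only [h1, h2]
  rw [Finset.sum_comm]

/-- A derivation of a determinant. -/
theorem derivation_det {P : Type} [CommRing P] [Algebra ℂ P] (D : Derivation ℂ P P) {n : ℕ}
    (M : Matrix (Fin n) (Fin n) P) :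
    D M.det = ∑ k, (M.updateCol k (fun i => D (M i k))).det := by
  have hprod : ∀ (s : Finset (Fin n)) (f : Fin n → P),
      D (∏ i ∈ s, f i) = ∑ k ∈ s, ∏ i ∈ s, (if i = k then D (f i) else f i) := by
    intro s f
    induction s using Finset.induction_on with
    | empty => simp
    | insert a s ha ih =>
      have h1 : ∏ i ∈ s, (if i = a then D (f i) else f i) = ∏ i ∈ s, f i := by
        apply Finset.prod_congr rfl
        intro i hi
        rw [if_neg]
        rintro rfl
        exact ha hi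
      rw [Finset.prod_insert ha, D.leibniz, ih, Finset.sum_insert ha, Finset.prod_insert ha, h1,
        if_pos rfl, smul_eq_mul, smul_eq_mul, Finset.mul_sum, add_comm]
      congr 1
      · ring
      · apply Finset.sum_congr rfl
        intro k hk
        rw [Finset.prod_insert ha, if_neg]
        rintro rfl
        exact ha hk
  simp only [Matrix.det_apply]
  rw [map_sum]
  simp only [Units.smul_def, map_zsmul, hprod, Finset.smul_sum]
  rw [Finset.sum_comm]
  apply Finset.sum_congr rfl
  intro k _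
  apply Finset.sum_congr rfl
  intro σ _
  congr 1
  apply Finset.prod_congr rfl
  intro i _
  rw [Matrix.updateCol_apply]
  by_cases h : i = k
  · subst h; simp
  · simp [h]

/-- A polynomial vanishing on `X i₀ = 0` is divisible by `X i₀`. -/
theorem X_dvd_of_vanish {ι : Type} [DecidableEq ι] (i₀ : ι) (F : MvPolynomial ι ℂ)
    (h : ∀ v : ι → ℂ, v i₀ = 0 → eval v F = 0) : (X i₀ : MvPolynomial ι ℂ) ∣ F := by
  let σ : MvPolynomial ι ℂ →ₐ[ℂ] MvPolynomial ι ℂ := aeval (fun i => if i = i₀ then 0 else X i)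
  have h1 : σ F = 0 := by
    apply MvPolynomial.funext
    intro v
    rw [map_zero]
    have h2 : eval v (σ F) = eval (fun i => if i = i₀ then 0 else v i) F := by
      have h3 : (eval v).comp (σ : MvPolynomial ι ℂ →+* MvPolynomial ι ℂ) =
          eval (fun i => if i = i₀ then 0 else v i) := by
        apply MvPolynomial.ringHom_ext
        · intro c
          simp [σ]
        · intro i
          by_cases hi : i = i₀ <;> simp [σ, hi]
      exact congrArg (fun f => f F) h3
    rw [h2]
    exact h _ (by simp)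
  have h2 : (Ideal.Quotient.mkₐ ℂ (Ideal.span {(X i₀ : MvPolynomial ι ℂ)})).comp σ =
      Ideal.Quotient.mkₐ ℂ (Ideal.span {(X i₀ : MvPolynomial ι ℂ)}) := by
    apply MvPolynomial.algHom_ext
    intro i
    by_cases hi : i = i₀
    · subst hi
      simp only [σ, AlgHom.comp_apply, aeval_X, if_true, map_zero]
      symm
      rw [Ideal.Quotient.mkₐ_eq_mk, Ideal.Quotient.eq_zero_iff_mem]
      exact Ideal.mem_span_singleton_self _
    · simp [σ, hi]
  have h3 := congrArg (fun f => f F) h2
  simp only [AlgHom.comp_apply, h1, map_zero] at h3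
  rw [← Ideal.mem_span_singleton, ← Ideal.Quotient.eq_zero_iff_mem]
  exact h3.symm

section

variable {g : Type} [LieRing g] [LieAlgebra ℂ g] {ι : Type} [Fintype ι] [DecidableEq ι]
  (b : Basis ι ℂ g)

/-- The linear form of an element of `g`. -/
noncomputable def lf : g →ₗ[ℂ] MvPolynomial ι ℂ := b.constr ℂ (fun i => (X i : MvPolynomial ι ℂ))

theorem lf_basis (i : ι) : lf b (b i) = X i := by
  simp [lf]

theorem eval_lf (y : Dual ℂ g) (x : g) : eval (fun i => y (b i)) (lf b x) = y x := by
  have h : (MvPolynomial.aeval (R := ℂ) (fun i => y (b i))).toLinearMap ∘ₗ lf b = y := by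
    apply b.ext
    intro i
    simp [lf_basis]
  have h2 := LinearMap.congr_fun h x
  simpa [MvPolynomial.aeval_def, MvPolynomial.eval₂_eq_eval_map] using h2

/-- The derivation `{ξ, ·}`. -/
noncomputable def der (ξ : g) : Derivation ℂ (MvPolynomial ι ℂ) (MvPolynomial ι ℂ) :=
  mkDerivation ℂ (fun i => lf b ⁅ξ, b i⁆)

theorem der_lf (ξ x : g) : der b ξ (lf b x) = lf b ⁅ξ, x⁆ := by
  have h : (der b ξ : MvPolynomial ι ℂ →ₗ[ℂ] MvPolynomial ι ℂ) ∘ₗ lf b =
      lf b ∘ₗ (LieAlgebra.ad ℂ g ξ) := by
    apply b.ext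
    intro i
    simp [lf_basis, der, mkDerivation_X]
  exact LinearMap.congr_fun h x

/-- The minors of the generic matrix. -/
noncomputable def mm {R : ℕ} (u w : Fin R → g) : MvPolynomial ι ℂ :=
  (Matrix.of fun i j => lf b ⁅u i, w j⁆).det

theorem der_mm (ξ : g) {R : ℕ} (u w : Fin R → g) : der b ξ (mm b u w) =
    ∑ k, mm b (Function.update u k ⁅ξ, u k⁆) w + ∑ k, mm b u (Function.update w k ⁅ξ, w k⁆) := by
  have h1 : ∀ k, ((Matrix.of fun i j => lf b ⁅u i, w j⁆).updateCol k
      (fun i => der b ξ ((Matrix.of fun i j => lf b ⁅u i, w j⁆ : Matrix (Fin R) (Fin R) _) i k))).det =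
      ((Matrix.of fun i j => lf b ⁅u i, w j⁆).updateCol k (fun i => lf b ⁅⁅ξ, u i⁆, w k⁆)).det +
      ((Matrix.of fun i j => lf b ⁅u i, w j⁆).updateCol k (fun i => lf b ⁅u i, ⁅ξ, w k⁆⁆)).det := by
    intro k
    rw [← Matrix.det_updateCol_add]
    congr 2
    funext i
    simp only [Matrix.of_apply, Pi.add_apply]
    rw [der_lf, ← map_add]
    congr 1
    exact leibniz_lie ξ (u i) (w k)
  rw [mm, derivation_det, Finset.sum_congr rfl (fun k _ => h1 k), Finset.sum_add_distrib]
  congr 1
  · have := sum_updateCol_eq (Matrix.of fun i j => lf b ⁅u i, w j⁆)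
      (Matrix.of fun i j => lf b ⁅⁅ξ, u i⁆, w j⁆)
    simp only [Matrix.of_apply] at this
    rw [← this]
    apply Finset.sum_congr rfl
    intro k _
    rw [mm]
    congr 1
    ext1 i j
    rw [Matrix.updateRow_apply, Matrix.of_apply]
    by_cases h : i = k
    · subst h; simp
    · simp [h]
  · apply Finset.sum_congr rfl
    intro k _
    rw [mm]
    congr 1
    ext1 i j
    rw [Matrix.updateCol_apply, Matrix.of_apply]
    by_cases h : j = k
    · subst h; simp
    · simp [h]

theorem eval_mm (y : Dual ℂ g) {R : ℕ} (u w : Fin R → g) :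
    eval (fun i => y (b i)) (mm b u w) = (Matrix.of fun i j => lieForm y (u i) (w j)).det := by
  rw [mm, RingHom.map_det]
  congr 1
  ext1 i j
  simp only [RingHom.mapMatrix_apply, Matrix.map_apply, Matrix.of_apply]
  exact eval_lf b y _

end

end SIaux

open SIaux in
/-- A hyperplane on which the rank of `A_y` drops is given by a semi-invariant. -/
theorem semi_invariant {g : Type} [LieRing g] [LieAlgebra ℂ g] [FiniteDimensional ℂ g] (z : g)
    (hz : z ≠ 0) (R : ℕ)
    (h1 : ∀ y : Dual ℂ g, y z = 0 → finrank ℂ (LinearMap.range (lieForm y)) < R)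
    (h2 : ∃ y : Dual ℂ g, R ≤ finrank ℂ (LinearMap.range (lieForm y))) (ξ : g) :
    ∃ c : ℂ, ⁅ξ, z⁆ = c • z := by
  classical
  have hli : LinearIndepOn ℂ id ({z} : Set g) := LinearIndepOn.singleton hz
  obtain ⟨ι, hι, b, i₀, hb⟩ : ∃ (ι : Type) (_ : Fintype ι) (b : Basis ι ℂ g) (i₀ : ι), b i₀ = z := by
    let b := Basis.extend hli
    have hz' : z ∈ hli.extend (Set.subset_univ _) := hli.subset_extend _ rfl
    exact ⟨_, FiniteDimensional.fintypeBasisIndex b, b, ⟨z, hz'⟩, by
      simp [b]⟩
  have hZ : lf b z = X i₀ := by rw [← hb, lf_basis]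
  have hprime : Prime (X i₀ : MvPolynomial ι ℂ) := MvPolynomial.X_prime
  -- the minors vanish on the hyperplane
  have hdvd : ∀ u w : Fin R → g, (X i₀ : MvPolynomial ι ℂ) ∣ mm b u w := by
    intro u w
    apply X_dvd_of_vanish
    intro v hv
    let y : Dual ℂ g := b.constr ℂ v
    have hy : (fun i => y (b i)) = v := by
      funext i
      simp [y]
    have hyz : y z = 0 := by
      rw [← hb]
      rw [← hv]
      simp [y]
    rw [← hy, eval_mm]
    by_contra hne
    have h3 : LinearIndependent ℂ (fun i => lieForm y (u i)) := by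
      have h4 : LinearIndependent ℂ (Matrix.of fun i j => lieForm y (u i) (w j)).row :=
        Matrix.linearIndependent_rows_iff_isUnit.mpr
          ((Matrix.isUnit_iff_isUnit_det _).mpr (isUnit_iff_ne_zero.mpr hne))
      let L : (g →ₗ[ℂ] ℂ) →ₗ[ℂ] (Fin R → ℂ) := LinearMap.pi (fun j => LinearMap.applyₗ (w j))
      exact LinearIndependent.of_comp L h4
    have h5 : Submodule.span ℂ (Set.range fun i => lieForm y (u i)) ≤
        LinearMap.range (lieForm y) := by
      rw [Submodule.span_le]
      rintro _ ⟨i, rfl⟩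
      exact ⟨_, rfl⟩
    have h6 := Submodule.finrank_mono h5
    rw [finrank_span_eq_card h3, Fintype.card_fin] at h6
    have := h1 y hyz
    omega
  -- a nonzero minor
  obtain ⟨u₁, w₁, hne⟩ : ∃ u w : Fin R → g, mm b u w ≠ 0 := by
    obtain ⟨y, hy⟩ := h2
    obtain ⟨u, hu⟩ : ∃ u : Fin R → g, LinearIndependent ℂ (fun i => lieForm y (u i)) := by
      let c := Module.finBasis ℂ (LinearMap.range (lieForm y))
      have hc : ∀ i, ∃ v : g, lieForm y v = (c i : g →ₗ[ℂ] ℂ) := fun i => (c i).2
      choose v hv using hc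
      refine ⟨fun i => v (Fin.castLE hy i), ?_⟩
      have h3 : (fun i : Fin R => lieForm y (v (Fin.castLE hy i))) =
          (fun i => ((c i : LinearMap.range (lieForm y)) : g →ₗ[ℂ] ℂ)) ∘ Fin.castLE hy := by
        funext i
        exact hv _
      rw [h3]
      exact (c.linearIndependent.map' (LinearMap.range (lieForm y)).subtype
        (Submodule.ker_subtype _)).comp _ (Fin.castLE_injective hy)
    obtain ⟨w, hw⟩ : ∃ w : Fin R → g, ∀ i j, lieForm y (u i) (w j) = if i = j then 1 else 0 := by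
      have hinj : Function.Injective (Fintype.linearCombination ℂ (fun i => lieForm y (u i))) :=
        linearIndependent_iff_injective_fintypeLinearCombination.mp hu
      obtain ⟨L, hL⟩ := LinearMap.exists_leftInverse_of_injective
        (Fintype.linearCombination ℂ (fun i => lieForm y (u i))) (LinearMap.ker_eq_bot.mpr hinj)
      refine ⟨fun j => (Module.evalEquiv ℂ g).symm ((LinearMap.proj j) ∘ₗ L), fun i j => ?_⟩
      have h3 := LinearMap.congr_fun hL (Pi.single i 1)
      rw [LinearMap.comp_apply, Fintype.linearCombination_apply_single, one_smul] at h3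
      have h4 := Module.apply_evalEquiv_symm_apply ℂ g (lieForm y (u i)) ((LinearMap.proj j) ∘ₗ L)
      rw [h4, LinearMap.comp_apply, h3]
      simp [Pi.single_apply, eq_comm]
    refine ⟨u, w, ?_⟩
    intro h0
    have h3 := eval_mm b y u w
    rw [h0, map_zero] at h3
    have h4 : (Matrix.of fun i j => lieForm y (u i) (w j)) = 1 := by
      ext1 i j
      rw [Matrix.of_apply, hw, Matrix.one_apply]
    rw [h4, Matrix.det_one] at h3
    exact zero_ne_one h3
  have hex : ∃ n, ∃ u w : Fin R → g, ¬ (X i₀ : MvPolynomial ι ℂ) ^ (n + 1) ∣ mm b u w := by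
    obtain ⟨n, hn⟩ := FiniteMultiplicity.of_prime_left hprime hne
    exact ⟨n, u₁, w₁, hn⟩
  obtain ⟨u, w, huw⟩ := Nat.find_spec hex
  set r := Nat.find hex with hr
  have hall : ∀ u w : Fin R → g, (X i₀ : MvPolynomial ι ℂ) ^ r ∣ mm b u w := by
    intro u w
    rcases hr' : r with _ | r'
    · simp
    · by_contra hcon
      have := Nat.find_min hex (m := r') (by omega)
      exact this ⟨u, w, hcon⟩
  have hr1 : r ≠ 0 := by
    intro h0
    rw [h0] at huw
    exact huw (by simpa using hdvd u w)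
  obtain ⟨m', hm'⟩ := hall u w
  have hm'' : ¬ (X i₀ : MvPolynomial ι ℂ) ∣ m' := by
    rintro ⟨q, rfl⟩
    apply huw
    rw [hm']
    exact ⟨q, by ring⟩
  have hD : (X i₀ : MvPolynomial ι ℂ) ^ r ∣ der b ξ (mm b u w) := by
    rw [der_mm]
    exact dvd_add (Finset.dvd_sum fun k _ => hall _ _) (Finset.dvd_sum fun k _ => hall _ _)
  rw [hm', Derivation.leibniz, Derivation.leibniz_pow, smul_eq_mul, smul_eq_mul] at hD
  have hD2 := (dvd_add_right (dvd_mul_right (X i₀ ^ r) (der b ξ m'))).mp hD
  obtain ⟨s, hs⟩ : ∃ s, r = s + 1 := Nat.exists_eq_succ_of_ne_zero hr1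
  rw [hs] at hD2
  simp only [Nat.add_sub_cancel, nsmul_eq_mul, smul_eq_mul] at hD2
  have hD3 : (X i₀ : MvPolynomial ι ℂ) ^ s * X i₀ ∣ X i₀ ^ s * (m' * (((s + 1 : ℕ) : MvPolynomial ι ℂ) *
      der b ξ (X i₀))) := by
    rw [← pow_succ]
    refine hD2.trans (dvd_of_eq ?_)
    ring
  have hD4 := (mul_dvd_mul_iff_left (pow_ne_zero s hprime.ne_zero)).mp hD3
  have hD5 : (X i₀ : MvPolynomial ι ℂ) ∣ der b ξ (X i₀) := by
    rcases hprime.dvd_or_dvd hD4 with h | h
    · exact absurd h hm''
    · rcases hprime.dvd_or_dvd h with h | h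
      · exfalso
        have hu : IsUnit (((s + 1 : ℕ) : MvPolynomial ι ℂ)) := by
          have : (((s + 1 : ℕ) : MvPolynomial ι ℂ)) = C ((s + 1 : ℕ) : ℂ) := by simp
          rw [this]
          exact (isUnit_iff_ne_zero.mpr (by exact_mod_cast Nat.succ_ne_zero s)).map C
        exact hprime.not_isUnit (isUnit_of_dvd_unit h hu)
      · exact h
  rw [← hZ, der_lf] at hD5
  obtain ⟨q, hq⟩ := hD5
  have hy0 : ∀ y : Dual ℂ g, y z = 0 → y ⁅ξ, z⁆ = 0 := by
    intro y hy
    rw [← eval_lf b y ⁅ξ, z⁆, hq, map_mul, eval_lf, hy, zero_mul]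
  have ha : b.coord i₀ z = 1 := by rw [← hb]; simp
  refine ⟨b.coord i₀ ⁅ξ, z⁆, ?_⟩
  refine sub_eq_zero.mp ((Module.forall_dual_apply_eq_zero_iff ℂ _).mp ?_)
  intro w0
  have h3 := hy0 (w0 - w0 z • b.coord i₀) (by
    rw [LinearMap.sub_apply, LinearMap.smul_apply, ha, smul_eq_mul, mul_one, sub_self])
  simp only [LinearMap.sub_apply, LinearMap.smul_apply, smul_eq_mul] at h3
  rw [map_sub, map_smul, smul_eq_mul]
  linear_combination h3

end P8H59.JK
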