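import Pool.Agent.P8H59.JK.Ne2
import Pool.Agent.P8H59.JK.SI
import Pool.Agent.P8H59.JK.GP

/-!
# Necessity for general Kronecker part: choice of a generic pair (project JK, part 2)
-/

namespace P8H59.JK

open Module SIaux

theorem rank_toMatrix_eq {V W : Type} [AddCommGroup V] [Module ℂ V] [AddCommGroup W] [Module ℂ W]
    {ι κ : Type} [Fintype ι] [DecidableEq ι] [Fintype κ] [DecidableEq κ] (b : Basis ι ℂ V)
    (c : Basis κ ℂ W) (f : V →ₗ[ℂ] W) :
    (LinearMap.toMatrix b c f).rank = finrank ℂ (LinearMap.range f) := by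
  rw [Matrix.rank_eq_finrank_range_toLin _ c b, Matrix.toLin_toMatrix]

section

variable {g : Type} [LieRing g] [LieAlgebra ℂ g] [FiniteDimensional ℂ g] {N : ℕ}
  (b : Basis (Fin N) ℂ g)

/-- The matrix of the chain map with polynomial entries. -/
noncomputable def chM (r : ℕ) : Matrix (Σ _ : Fin r, Fin N) (Σ _ : Fin r, Fin N)
    (MvPolynomial (Fin N ⊕ Fin N) ℂ) :=
  Matrix.of fun s t => if s.1 = t.1 then MvPolynomial.rename Sum.inl (lf b ⁅b t.2, b s.2⁆) else
    if (s.1 : ℕ) = t.1 + 1 then - MvPolynomial.rename Sum.inr (lf b ⁅b t.2, b s.2⁆) else 0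

omit [FiniteDimensional ℂ g] in
theorem chM_eval (r : ℕ) (y a : Dual ℂ g) :
    (chM b r).map (MvPolynomial.eval (Sum.elim (fun i => y (b i)) (fun i => a (b i)))) =
      LinearMap.toMatrix (Pi.basis fun _ : Fin r => b) (Pi.basis fun _ : Fin r => b.dualBasis)
        (chainMap r (lieForm y) (lieForm a)) := by
  ext ⟨j, i⟩ ⟨j', i'⟩
  rw [LinearMap.toMatrix_apply, Pi.basis_repr, Pi.basis_apply, Basis.dualBasis_repr,
    Matrix.map_apply]
  simp only [chM, Matrix.of_apply, chainMap, LinearMap.coe_mk, AddHom.coe_mk]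
  by_cases h : j = j'
  · subst h
    rw [if_pos rfl, MvPolynomial.eval_rename]
    have h1 : (Sum.elim (fun i => y (b i)) (fun i => a (b i)) ∘ Sum.inl : Fin N → ℂ) =
        fun i => y (b i) := rfl
    rw [h1, eval_lf]
    simp only [Pi.single_eq_same, LinearMap.sub_apply]
    by_cases hj : (j : ℕ) = 0
    · simp [hj, lieForm_apply]
    · have h2 : (⟨(j : ℕ) - 1, by omega⟩ : Fin r) ≠ j := by
        intro h3
        have := congrArg Fin.val h3
        simp only at this
        omega
      simp [hj, lieForm_apply, Pi.single_eq_of_ne h2]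
  · rw [if_neg h, Pi.single_eq_of_ne h, map_zero]
    by_cases hj : (j : ℕ) = j' + 1
    · rw [if_pos hj, map_neg, MvPolynomial.eval_rename]
      have h1 : (Sum.elim (fun i => y (b i)) (fun i => a (b i)) ∘ Sum.inr : Fin N → ℂ) =
          fun i => a (b i) := rfl
      have h2 : (⟨(j : ℕ) - 1, by omega⟩ : Fin r) = j' := Fin.ext (by
        show (j : ℕ) - 1 = j'
        omega)
      have h3 : ¬ (j : ℕ) = 0 := by omega
      rw [h1, eval_lf, dif_neg h3, h2, Pi.single_eq_same]
      simp [lieForm_apply]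
    · rw [if_neg hj, map_zero]
      by_cases h0 : (j : ℕ) = 0
      · simp [h0]
      · have h2 : (⟨(j : ℕ) - 1, by omega⟩ : Fin r) ≠ j' := by
          intro h3
          have := congrArg Fin.val h3
          simp only at this
          omega
        simp [h0, Pi.single_eq_of_ne h2]

theorem chM_rank (r : ℕ) (y a : Dual ℂ g) :
    ((chM b r).map (MvPolynomial.eval (Sum.elim (fun i => y (b i)) (fun i => a (b i))))).rank =
      finrank ℂ (LinearMap.range (chainMap r (lieForm y) (lieForm a))) := by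
  rw [chM_eval, rank_toMatrix_eq]

/-- `generic_line` for the chain maps. -/
theorem generic_line_chain (p : MvPolynomial (Fin N) ℂ) (hp : Irreducible p) (r : ℕ) :
    ∃ h : MvPolynomial (Fin N ⊕ Fin N) ℂ, h ≠ 0 ∧ ∀ x a : Dual ℂ g,
      MvPolynomial.eval (Sum.elim (fun i => x (b i)) (fun i => a (b i))) h ≠ 0 → ∀ t : ℂ,
      MvPolynomial.eval (fun i => (x - t • a) (b i)) p = 0 →
      ∀ y' a' : Dual ℂ g, MvPolynomial.eval (fun i => y' (b i)) p = 0 →
        finrank ℂ (LinearMap.range (chainMap r (lieForm y') (lieForm a'))) ≤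
          finrank ℂ (LinearMap.range (chainMap r (lieForm (x - t • a)) (lieForm a))) := by
  classical
  let e := Fintype.equivFin (Σ _ : Fin r, Fin N)
  obtain ⟨h, h0, hh⟩ := generic_line p hp ((chM b r).submatrix e.symm e.symm)
  refine ⟨h, h0, ?_⟩
  intro x a hxa t ht y' a' hy'
  have e1 : ((fun i => x (b i)) - t • (fun i => a (b i)) : Fin N → ℂ) =
      fun i => (x - t • a) (b i) := by
    funext i
    simp
  have h1 := hh (fun i => x (b i)) (fun i => a (b i)) hxa t (by rw [e1]; exact ht)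
    (fun i => y' (b i)) (fun i => a' (b i)) hy'
  rw [e1] at h1
  have h2 : ∀ y a : Dual ℂ g, (((chM b r).submatrix e.symm e.symm).map
      (MvPolynomial.eval (Sum.elim (fun i => y (b i)) (fun i => a (b i))))).rank =
      finrank ℂ (LinearMap.range (chainMap r (lieForm y) (lieForm a))) := by
    intro y a
    rw [← chM_rank b r y a]
    have : ((chM b r).submatrix e.symm e.symm).map
        (MvPolynomial.eval (Sum.elim (fun i => y (b i)) (fun i => a (b i)))) =
        ((chM b r).map (MvPolynomial.eval (Sum.elim (fun i => y (b i))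
          (fun i => a (b i))))).submatrix e.symm e.symm := rfl
    rw [this, Matrix.rank_submatrix]
  rw [h2] at h1
  have h3 := h2 (x - t • a) a
  rw [← h3]
  exact h1

omit [FiniteDimensional ℂ g] in
/-- A generic pair. -/
theorem good_pair (F : MvPolynomial (g ⊕ g) ℂ) (x₁ a₁ : Dual ℂ g)
    (h1 : MvPolynomial.eval (Sum.elim x₁ a₁) F ≠ 0) (H : MvPolynomial (Fin N ⊕ Fin N) ℂ)
    (hH : H ≠ 0) : ∃ x a : Dual ℂ g, MvPolynomial.eval (Sum.elim x a) F ≠ 0 ∧
      MvPolynomial.eval (Sum.elim (fun i => x (b i)) (fun i => a (b i))) H ≠ 0 := by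
  obtain ⟨u, hu⟩ : ∃ u : Fin N ⊕ Fin N → ℂ, MvPolynomial.eval u H ≠ 0 := by
    by_contra hno
    push Not at hno
    exact hH (MvPolynomial.funext fun u => by rw [hno u, map_zero])
  let x₂ : Dual ℂ g := b.constr ℂ (fun i => u (Sum.inl i))
  let a₂ : Dual ℂ g := b.constr ℂ (fun i => u (Sum.inr i))
  have hx₂ : ∀ i, x₂ (b i) = u (Sum.inl i) := fun i => by simp [x₂]
  have ha₂ : ∀ i, a₂ (b i) = u (Sum.inr i) := fun i => by simp [a₂]
  have f1 := finite_zeros_on_line F (Sum.elim x₁ a₁) (Sum.elim (x₂ - x₁ : Dual ℂ g)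
    (a₂ - a₁ : Dual ℂ g)) h1
  have f2 := finite_zeros_on_line H u (Sum.elim (fun i => (x₂ - x₁) (b i))
    (fun i => (a₂ - a₁) (b i))) hu
  have f3 : ((fun s : ℂ => s - 1) ⁻¹' {s : ℂ | MvPolynomial.eval (u + s •
      (Sum.elim (fun i => (x₂ - x₁) (b i)) (fun i => (a₂ - a₁) (b i)))) H = 0}).Finite :=
    f2.preimage (fun s _ t _ h => by simpa using h)
  obtain ⟨s, hs⟩ := (f1.union f3).infinite_compl.nonempty
  simp only [Set.mem_compl_iff, Set.mem_union, not_or] at hs
  obtain ⟨hs1, hs2⟩ := hs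
  refine ⟨x₁ + s • (x₂ - x₁), a₁ + s • (a₂ - a₁), ?_, ?_⟩
  · intro h0
    apply hs1
    show MvPolynomial.eval _ F = 0
    rw [← h0]
    congr 2
    funext i
    cases i <;> simp
  · intro h0
    apply hs2
    show MvPolynomial.eval _ H = 0
    rw [← h0]
    congr 2
    funext i
    cases i with
    | inl i =>
      simp only [Pi.add_apply, Pi.smul_apply, Sum.elim_inl, LinearMap.add_apply,
        LinearMap.smul_apply, LinearMap.sub_apply, smul_eq_mul, hx₂]
      ring
    | inr i =>
      simp only [Pi.add_apply, Pi.smul_apply, Sum.elim_inr, LinearMap.add_apply,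
        LinearMap.smul_apply, LinearMap.sub_apply, smul_eq_mul, ha₂]
      ring

end

end P8H59.JK
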