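import Pool.Agent.P8H59.JK.Ne3
import Pool.Agent.P8H59.JK.FR
import Pool.Agent.P8H56.JK.Rk2

/-!
# Necessity for general Kronecker part: the theorem (project JK, part 2)
-/

namespace P8H59.JK

open Module SIaux

open Classical in
/-- The number of bad groups that occur exactly once. -/
noncomputable def AlgType.uniqBad (T : AlgType) : ℕ :=
  (Finset.univ.filter (fun i : Fin T.jordan.length => Bad (T.jordan.get i) ∧
    ∀ j, (T.jordan.get j).Perm (T.jordan.get i) → j = i)).card

section

variable {g : Type} [LieRing g] [LieAlgebra ℂ g] [FiniteDimensional ℂ g] {T : AlgType}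

/-- The chain map of length one. -/
theorem range_chainMap_one (C B : g →ₗ[ℂ] g →ₗ[ℂ] ℂ) :
    finrank ℂ (LinearMap.range (chainMap 1 C B)) = finrank ℂ (LinearMap.range C) := by
  let e : (Fin 1 → g) ≃ₗ[ℂ] g := LinearEquiv.funUnique (Fin 1) ℂ g
  let e' : (Fin 1 → (g →ₗ[ℂ] ℂ)) ≃ₗ[ℂ] (g →ₗ[ℂ] ℂ) :=
    LinearEquiv.funUnique (Fin 1) ℂ (g →ₗ[ℂ] ℂ)
  have h : chainMap 1 C B = e'.symm.toLinearMap ∘ₗ C ∘ₗ e.toLinearMap := by
    refine LinearMap.ext fun ξ => funext fun j => ?_
    have hj : j = 0 := Fin.eq_zero j
    subst hj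
    simp [chainMap, e, e']
  rw [h, LinearMap.range_comp, LinearEquiv.finrank_map_eq, LinearMap.range_comp,
    LinearEquiv.range, Submodule.map_top]

/-- All the data of a uniquely occurring bad group at a generic pair. -/
theorem bad_in_core (a y : Dual ℂ g) (lam : Fin T.jordan.length → ℂ)
    {μ : Fin T.jordan.length → Option ℂ} (hμ : ∀ i, μ i = some (lam i))
    (hinj : Function.Injective lam)
    {v : Basis (Σ i, Fin (T.blocks μ i).P ⊕ Fin (T.blocks μ i).Q) ℂ g} (x : Dual ℂ g)
    (hA : ∀ s t, lieForm x (v s) (v t) = skewEnt Block.entA (T.blocks μ) s t)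
    (hB : ∀ s t, lieForm a (v s) (v t) = skewEnt Block.entB (T.blocks μ) s t)
    (i : Fin T.jordan.length) (hbad : Bad (T.jordan.get i)) (hpos : ∀ n ∈ T.jordan.get i, 0 < n)
    (hy : y = x - lam i • a) (z : g) (hyz : y z = 0) (haz : a z = 1)
    (hmax : ∀ w : Dual ℂ g, w z = 0 →
      finrank ℂ (LinearMap.range (chainMap (gmax (T.jordan.get i)) (lieForm (y + w))
        (lieForm a))) ≤
        finrank ℂ (LinearMap.range (chainMap (gmax (T.jordan.get i)) (lieForm y) (lieForm a))))
    (χ : g → ℂ) (hχ : ∀ ξ : g, ⁅ξ, z⁆ = χ ξ • z) : z ∈ coreL v := by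
  have hsub : ∀ ξ : g, lieForm y ξ = lieForm x ξ - lam i • lieForm a ξ := by
    intro ξ
    rw [hy]
    ext η
    simp [lieForm_apply]
  have hgne : T.jordan.get i ≠ [] := by
    rintro h0
    obtain ⟨m, hm, -⟩ := hbad
    rw [h0] at hm
    simp at hm
  have hn : 0 < gmax (T.jordan.get i) := hpos _ (gmax_mem hgne)
  obtain ⟨b₁, b₂, hb12, hb1, hb2⟩ := bad_indices hbad
  set n := gmax (T.jordan.get i) with hndef
  have hble : ∀ b : Fin (T.jordan.get i).length, (T.jordan.get i).get b ≤ n :=
    fun b => le_gmax (List.get_mem _ _)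
  -- the action of `A_y` on a block of the group `i`
  have hblk : ∀ b : Fin (T.jordan.get i).length, T.blocks μ (Sum.inr ⟨i, b⟩) =
      .jord ((T.jordan.get i).get b) (some (lam i)) := fun b => jord_block lam hμ i b
  have hCp : ∀ (b : Fin (T.jordan.get i).length) (l : ℕ),
      lieForm y (pv v (Sum.inr ⟨i, b⟩) l) = lieForm a (pv v (Sum.inr ⟨i, b⟩) (l + 1)) := by
    intro b l
    rw [hsub]
    refine ext_pq (v := v) (fun j c hc => ?_) (fun j c hc => ?_)
    · rw [LinearMap.sub_apply, LinearMap.smul_apply, form_pp hA, form_pp hB, form_pp hB]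
      simp
    · rw [LinearMap.sub_apply, LinearMap.smul_apply, form_pq hA, form_pq hB, form_pq hB]
      by_cases hij : (Sum.inr ⟨i, b⟩ : T.Idx) = j
      · subst hij
        have hQ : c < (T.jordan.get i).get b := by
          have := hc
          rw [hblk b] at this
          exact this
        simp only [hblk b, Block.P, Block.Q, hQ, and_true, true_and, Block.entA, Block.entB]
        by_cases h1 : l < (T.jordan.get i).get b
        · by_cases h2 : l = c
          · have h3 : ¬ l + 1 = c := by omega
            simp [h1, h2, hQ]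
          · by_cases h3 : l + 1 = c
            · have h4 : l + 1 < (T.jordan.get i).get b := by omega
              simp only [List.get_eq_getElem] at h1 h4 hQ
              simp [h1, h2, h3, hQ]
            · simp [h2, h3]
        · have h2 : ¬ l + 1 < (T.jordan.get i).get b := by omega
          simp only [List.get_eq_getElem] at h1 h2
          simp [h1, h2]
      · simp [hij]
  have hCq : ∀ (b : Fin (T.jordan.get i).length) (l : ℕ), l < (T.jordan.get i).get b →
      lieForm y (qv v (Sum.inr ⟨i, b⟩) l) =
        if l = 0 then 0 else lieForm a (qv v (Sum.inr ⟨i, b⟩) (l - 1)) := by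
    intro b l hl
    rw [hsub]
    refine ext_pq (v := v) (fun j c hc => ?_) (fun j c hc => ?_)
    · by_cases hij : (Sum.inr ⟨i, b⟩ : T.Idx) = j
      · subst hij
        have hP : c < (T.jordan.get i).get b := by
          have := hc
          rw [hblk b] at this
          exact this
        rw [LinearMap.sub_apply, LinearMap.smul_apply, form_qp hA, form_qp hB]
        by_cases h0 : l = 0
        · subst h0
          simp only [hblk b, Block.P, Block.Q, hP, hl, and_true, true_and, Block.entA,
            Block.entB, if_true, LinearMap.zero_apply]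
          by_cases h2 : c = 0
          · simp [h2]
          · simp [h2]
        · have hl1 : l - 1 < (T.jordan.get i).get b := by omega
          rw [if_neg h0, form_qp hB]
          simp only [hblk b, Block.P, Block.Q, hP, hl, hl1, and_true, true_and, Block.entA,
            Block.entB, if_true]
          by_cases h2 : c = l
          · have h3 : ¬ c = l - 1 := by omega
            simp [h2]
            omega
          · by_cases h3 : c + 1 = l
            · have h4 : c = l - 1 := by omega
              simp [h2, h3, ← h4]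
            · have h4 : ¬ c = l - 1 := by omega
              simp [h2, h3, h4]
      · rw [LinearMap.sub_apply, LinearMap.smul_apply, form_qp hA, form_qp hB]
        by_cases h0 : l = 0
        · simp [h0, hij]
        · rw [if_neg h0, form_qp hB]
          simp [hij]
    · rw [LinearMap.sub_apply, LinearMap.smul_apply, form_qq hA, form_qq hB]
      by_cases h0 : l = 0
      · simp [h0]
      · rw [if_neg h0, form_qq hB]
        simp
  -- `χ` vanishes on all blocks of the group
  have hother : ∀ b : Fin (T.jordan.get i).length, ∃ b' : Fin (T.jordan.get i).length,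
      b' ≠ b ∧ (T.jordan.get i).get b' = n := by
    intro b
    by_cases h : b₁ = b
    · exact ⟨b₂, fun h' => hb12 (h.trans h'.symm), hb2⟩
    · exact ⟨b₁, h, hb1⟩
  have hχzero : ∀ (b : Fin (T.jordan.get i).length) (f : ℕ → g)
      (_ : ∀ l, lieForm y (f l) = lieForm a (f (l + 1))) (_ : ∀ l, n ≤ l → f l = 0)
      (_ : ∀ l, (∃ m, f l = pv v (Sum.inr ⟨i, b⟩) m) ∨ (∃ m, f l = qv v (Sum.inr ⟨i, b⟩) m) ∨
        f l = 0), χ (f 0) = 0 := by
    intro b f hf1 hf2 hf3
    obtain ⟨b', hne, hb'⟩ := hother b
    have hne' : (Sum.inr ⟨i, b⟩ : T.Idx) ≠ Sum.inr ⟨i, b'⟩ := by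
      intro h
      have h1 := Sum.inr.inj h
      simp only [Sigma.mk.injEq, heq_eq_eq, true_and] at h1
      exact hne h1.symm
    refine chi_zero y a z n hn hyz haz hmax χ hχ (pv v (Sum.inr ⟨i, b'⟩))
      (qv v (Sum.inr ⟨i, b'⟩)) f (hCp b') ?_ ?_ ?_ hf1 hf2 ?_ ?_
    · intro l hl
      rw [pv, dif_neg]
      rw [hblk b']
      show ¬ l < (T.jordan.get i).get b'
      omega
    · intro l hl
      exact hCq b' l (by omega)
    · intro l hl
      rw [form_pq hB]
      have h1 : l < (T.jordan.get i).get b' := by omega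
      simp only [hblk b', Block.P, Block.Q, h1, and_self, if_true, Block.entB]
    · intro l m
      rcases hf3 l with ⟨m', h⟩ | ⟨m', h⟩ | h
      · rw [h, form_pp hB]
      · rw [h, form_qp hB]
        simp [hne']
      · rw [h]
        simp
    · intro l m _
      rcases hf3 l with ⟨m', h⟩ | ⟨m', h⟩ | h
      · rw [h, form_pq hB]
        simp [hne']
      · rw [h, form_qq hB]
      · rw [h]
        simp
  have hχp : ∀ (b : Fin (T.jordan.get i).length) (l : ℕ), χ (pv v (Sum.inr ⟨i, b⟩) l) = 0 := by
    intro b l
    have := hχzero b (fun m => pv v (Sum.inr ⟨i, b⟩) (l + m)) (fun m => hCp b (l + m))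
      (fun m hm => by
        have h1 := hble b
        rw [pv, dif_neg]
        rw [hblk b]
        show ¬ l + m < (T.jordan.get i).get b
        omega) (fun m => Or.inl ⟨l + m, rfl⟩)
    simpa using this
  have hχq : ∀ (b : Fin (T.jordan.get i).length) (l : ℕ), l < (T.jordan.get i).get b →
      χ (qv v (Sum.inr ⟨i, b⟩) l) = 0 := by
    intro b l hl
    have := hχzero b (fun m => if m ≤ l then qv v (Sum.inr ⟨i, b⟩) (l - m) else 0)
      (fun m => by
        by_cases h1 : m + 1 ≤ l
        · have h2 : m ≤ l := by omega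
          have h3 : ¬ l - m = 0 := by omega
          simp only [h1, h2, if_true]
          rw [hCq b (l - m) (by omega), if_neg h3]
          congr 2
        · by_cases h2 : m ≤ l
          · have h3 : l - m = 0 := by omega
            simp only [h1, h2, if_true, if_false]
            rw [hCq b (l - m) (by omega), if_pos h3, map_zero]
          · simp only [h1, h2, if_false, map_zero])
      (fun m hm => by
        have h1 := hble b
        have h2 : ¬ m ≤ l := by omega
        simp [h2])
      (fun m => by
        by_cases h2 : m ≤ l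
        · exact Or.inr (Or.inl ⟨l - m, by simp [h2]⟩)
        · exact Or.inr (Or.inr (by simp [h2])))
    simpa using this
  have hBz : ∀ ξ : g, lieForm a z ξ = - χ ξ := by
    intro ξ
    rw [lieForm_apply, ← lie_skew, hχ, map_neg, map_smul, haz]
    simp
  apply mem_coreL hA hB lam hμ hinj i z
  · intro η
    have h1 : lieForm y z η = 0 := by
      rw [lieForm_apply, ← lie_skew, hχ, map_neg, map_smul, hyz]
      simp
    rw [hsub] at h1
    simpa using h1
  · intro b l hl
    rw [hBz, hχp, neg_zero]
  · intro b l hl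
    rw [hBz, hχq b l hl, neg_zero]

theorem sum_group (lam : Fin T.jordan.length → ℂ) (hinj : Function.Injective lam)
    {μ : Fin T.jordan.length → Option ℂ} (hμ : ∀ i, μ i = some (lam i))
    [DecidableEq (Option ℂ)] (i : Fin T.jordan.length) (S : Fin T.jordan.length → ℕ) :
    ∑ j, (if μ j = some (lam i) then S j else 0) = S i := by
  rw [Finset.sum_eq_single i]
  · rw [if_pos (hμ i)]
  · intro j _ hne
    rw [if_neg]
    rw [hμ j]
    intro h
    exact hne (hinj (Option.some.inj h))
  · intro h
    exact absurd (Finset.mem_univ _) h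

theorem necessary_general' (hT : T.Valid) (h0 : T.kron.count 0 ≤ 1) (h1 : 1 ∉ T.kron)
    (h : IsJK g T) : T.uniqBad ≤ (T.kron.map (· + 1)).sum := by
  classical
  obtain ⟨F, ⟨x₁, a₁, hF1⟩, hgen⟩ := h
  let N := finrank ℂ g
  let b : Basis (Fin N) ℂ g := finBasis ℂ g
  -- the generic rank
  obtain ⟨R, ⟨y₁, hy₁⟩, hRmax⟩ : ∃ R, (∃ y : Dual ℂ g,
      finrank ℂ (LinearMap.range (lieForm y)) = R) ∧
      ∀ y : Dual ℂ g, finrank ℂ (LinearMap.range (lieForm y)) ≤ R := by
    have hfin : (Set.range (fun y : Dual ℂ g => finrank ℂ (LinearMap.range (lieForm y)))).Finite := by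
      refine (Set.finite_le_nat N).subset ?_
      rintro _ ⟨y, rfl⟩
      exact LinearMap.finrank_range_le _
    obtain ⟨R, hR, hmax⟩ := hfin.exists_maximal (Set.range_nonempty _)
    obtain ⟨y, hy⟩ := hR
    refine ⟨R, ⟨y, hy⟩, fun y' => ?_⟩
    by_contra hlt
    push Not at hlt
    have : finrank ℂ (LinearMap.range (lieForm y')) ≤ R := hmax ⟨y', rfl⟩ hlt.le
    omega
  -- a minor
  obtain ⟨u, w, hM₁⟩ : ∃ u w : Fin R → g,
      (Matrix.of fun i j => lieForm y₁ (u i) (w j)).det ≠ 0 := by
    have hr : (LinearMap.toMatrix b b.dualBasis (lieForm y₁)).rank = R := by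
      rw [rank_toMatrix_eq, hy₁]
    obtain ⟨c, d, hcd⟩ := GP.exists_minor _ hr
    refine ⟨fun j => b (d j), fun i => b (c i), ?_⟩
    rw [← Matrix.det_transpose]
    convert hcd using 2
    ext i j
    rw [Matrix.submatrix_apply, LinearMap.toMatrix_apply, Basis.dualBasis_repr]
    rfl
  set M : MvPolynomial (Fin N) ℂ := mm b u w with hMdef
  have hMeval : ∀ y : Dual ℂ g, MvPolynomial.eval (fun i => y (b i)) M =
      (Matrix.of fun i j => lieForm y (u i) (w j)).det := fun y => eval_mm b y u w
  have hM0 : M ≠ 0 := by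
    intro h
    apply hM₁
    rw [← hMeval, h, map_zero]
  have hMlow : ∀ y : Dual ℂ g, finrank ℂ (LinearMap.range (lieForm y)) < R →
      MvPolynomial.eval (fun i => y (b i)) M = 0 := by
    intro y hy
    rw [hMeval]
    by_contra hdet
    have hli : LinearIndependent ℂ (Matrix.of fun i j => lieForm y (u i) (w j)).row :=
      Matrix.linearIndependent_rows_iff_isUnit.2
        ((Matrix.isUnit_iff_isUnit_det _).2 (Ne.isUnit hdet))
    have hli2 : LinearIndependent ℂ (fun i => lieForm y (u i)) := by
      let L : (g →ₗ[ℂ] ℂ) →ₗ[ℂ] (Fin R → ℂ) :=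
        LinearMap.pi fun j => LinearMap.applyₗ (w j)
      apply LinearIndependent.of_comp L
      exact hli
    have hle : Submodule.span ℂ (Set.range (fun i => lieForm y (u i))) ≤
        LinearMap.range (lieForm y) := by
      rw [Submodule.span_le]
      rintro _ ⟨i, rfl⟩
      exact LinearMap.mem_range_self _ _
    have h2 := Submodule.finrank_mono hle
    rw [finrank_span_eq_card hli2, Fintype.card_fin] at h2
    omega
  have hMhom : ∀ (y : Dual ℂ g) (s : ℂ), MvPolynomial.eval (fun i => (s • y) (b i)) M =
      s ^ R * MvPolynomial.eval (fun i => y (b i)) M := by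
    intro y s
    rw [hMeval, hMeval]
    have : (Matrix.of fun i j => lieForm (s • y) (u i) (w j)) =
        s • (Matrix.of fun i j => lieForm y (u i) (w j)) := by
      ext i j
      simp [lieForm_apply]
    rw [this, Matrix.det_smul, Fintype.card_fin]
  -- the generic conditions
  let facs : Finset (MvPolynomial (Fin N) ℂ) := (UniqueFactorizationMonoid.factors M).toFinset
  have hfacs : ∀ p ∈ facs, Irreducible p := by
    intro p hp
    exact UniqueFactorizationMonoid.irreducible_of_factor p (Multiset.mem_toFinset.1 hp)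
  let rmax : ℕ := (T.jordan.map gmax).sum + 1
  have hrmax : ∀ i : Fin T.jordan.length, gmax (T.jordan.get i) < rmax := by
    intro i
    have : gmax (T.jordan.get i) ≤ (T.jordan.map gmax).sum :=
      List.le_sum_of_mem (List.mem_map_of_mem (List.get_mem _ _))
    omega
  choose hc hc0 hcl using fun (p : MvPolynomial (Fin N) ℂ) (hp : Irreducible p) (r : ℕ) =>
    generic_line_chain b p hp r
  choose hd hd0 hdl using fun (p : MvPolynomial (Fin N) ℂ) (hp : Irreducible p) =>
    generic_line_roots p hp
  let H : MvPolynomial (Fin N ⊕ Fin N) ℂ :=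
    (MvPolynomial.rename Sum.inl M * MvPolynomial.rename Sum.inr M) *
    ∏ p : facs, (hd p.1 (hfacs p.1 p.2) *
      ∏ r ∈ Finset.range (rmax + 1), hc p.1 (hfacs p.1 p.2) r)
  have hren1 : MvPolynomial.rename Sum.inl M ≠ (0 : MvPolynomial (Fin N ⊕ Fin N) ℂ) := by
    rw [Ne, map_eq_zero_iff _ (MvPolynomial.rename_injective _ Sum.inl_injective)]
    exact hM0
  have hren2 : MvPolynomial.rename Sum.inr M ≠ (0 : MvPolynomial (Fin N ⊕ Fin N) ℂ) := by
    rw [Ne, map_eq_zero_iff _ (MvPolynomial.rename_injective _ Sum.inr_injective)]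
    exact hM0
  have hH0 : H ≠ 0 := by
    refine mul_ne_zero (mul_ne_zero hren1 hren2) ?_
    rw [Finset.prod_ne_zero_iff]
    intro p _
    refine mul_ne_zero (hd0 _ _) ?_
    rw [Finset.prod_ne_zero_iff]
    intro r _
    exact hc0 _ _ _
  obtain ⟨x, a, hxaF, hxaH⟩ := good_pair b F x₁ a₁ hF1 H hH0
  simp only [H, map_mul, map_prod, MvPolynomial.eval_rename, mul_ne_zero_iff,
    Finset.prod_ne_zero_iff] at hxaH
  obtain ⟨⟨hMx, hMa⟩, hfac⟩ := hxaH
  have hMx' : MvPolynomial.eval (fun i => x (b i)) M ≠ 0 := hMx
  have hMa' : MvPolynomial.eval (fun i => a (b i)) M ≠ 0 := hMa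
  obtain ⟨μ, hμinj, v, hv⟩ := hgen x a hxaF
  have hA : ∀ s t, lieForm x (v s) (v t) = skewEnt Block.entA (T.blocks μ) s t :=
    fun s t => (hv s t).1
  have hB : ∀ s t, lieForm a (v s) (v t) = skewEnt Block.entB (T.blocks μ) s t :=
    fun s t => (hv s t).2
  have hlow : ∀ y : Dual ℂ g, MvPolynomial.eval (fun i => y (b i)) M ≠ 0 →
      finrank ℂ (LinearMap.range (lieForm y)) = R := by
    intro y hy
    apply le_antisymm (hRmax y)
    by_contra hlt
    exact hy (hMlow y (by omega))
  -- ranks along the line `x - t a`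
  have hsub : ∀ t : ℂ, lieForm x - t • lieForm a = lieForm (x - t • a) := by
    intro t
    ext ξ η
    simp [lieForm_apply]
  let S : ℂ → ℕ → ℕ := fun t r => ∑ j : Fin T.jordan.length,
    (if μ j = some t then ((T.jordan.get j).map (fun n => min n r)).sum else 0)
  have hrank : ∀ (t : ℂ) (r : ℕ),
      finrank ℂ (LinearMap.range (chainMap r (lieForm (x - t • a)) (lieForm a))) +
        (r * T.kron.length + 2 * S t r) = r * N := by
    intro t r
    have h2 := LinearMap.finrank_range_add_finrank_ker
      (chainMap r (lieForm (x - t • a)) (lieForm a))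
    rw [← hsub, chain_finrank hA hB t r, hsub] at h2
    rw [Module.finrank_pi_fintype, Finset.sum_const, Finset.card_univ, Fintype.card_fin,
      smul_eq_mul] at h2
    exact h2
  have hRN : R + T.kron.length = N := by
    have hfin := finite_zeros_on_line M (fun i => x (b i)) (fun i => -(a (b i))) hMx'
    have hfin2 : {t : ℂ | ∃ j, μ j = some t}.Finite := by
      refine (Set.finite_range (fun j => (μ j).getD 0)).subset ?_
      rintro t ⟨j, hj⟩
      exact ⟨j, by simp [hj]⟩
    obtain ⟨t, ht⟩ := (hfin.union hfin2).infinite_compl.nonempty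
    simp only [Set.mem_compl_iff, Set.mem_union, not_or] at ht
    obtain ⟨ht1, ht2⟩ := ht
    have h2 : MvPolynomial.eval (fun i => (x - t • a) (b i)) M ≠ 0 := by
      intro h3
      apply ht1
      show MvPolynomial.eval _ M = 0
      rw [← h3]
      congr 2
      funext i
      simp only [Pi.add_apply, Pi.smul_apply, smul_eq_mul, LinearMap.sub_apply,
        LinearMap.smul_apply]
      ring
    have h3 := hrank t 1
    rw [range_chainMap_one, hlow _ h2] at h3
    have h4 : S t 1 = 0 := by
      apply Finset.sum_eq_zero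
      intro j _
      rw [if_neg]
      exact fun h5 => ht2 ⟨j, h5⟩
    rw [h4] at h3
    omega
  have hkera : finrank ℂ (LinearMap.ker (lieForm a)) ≤ T.kron.length := by
    have h2 := LinearMap.finrank_range_add_finrank_ker (lieForm a)
    rw [hlow a hMa'] at h2
    have h3 : finrank ℂ g = N := rfl
    omega
  have hfin : ∀ i, ∃ l, μ i = some l := by
    intro i
    cases hμi : μ i with
    | some l => exact ⟨l, rfl⟩
    | none =>
      exfalso
      have hne := hT _ (List.get_mem T.jordan i)
      have hlen : 0 < (T.jordan.get i).length := List.length_pos_iff.2 hne.1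
      refine finite_eigenvalue' hB hkera (Sum.inr ⟨i, ⟨0, hlen⟩⟩)
        ((T.jordan.get i).get ⟨0, hlen⟩) (hne.2 _ (List.get_mem _ _)) ?_
      simp only [AlgType.blocks]
      rw [hμi]
  choose lam hlam using hfin
  have hinj : Function.Injective lam := by
    intro i j hij
    apply hμinj
    rw [hlam, hlam, hij]
  have hS : ∀ i r, S (lam i) r = ((T.jordan.get i).map (fun n => min n r)).sum :=
    fun i r => sum_group lam hinj hlam i _
  have hS1 : ∀ i, 0 < S (lam i) 1 := by
    intro i
    rw [hS]
    have hne := hT _ (List.get_mem T.jordan i)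
    obtain ⟨n, hn⟩ := List.exists_mem_of_ne_nil _ hne.1
    have h2 : min n 1 ∈ (T.jordan.get i).map (fun n => min n 1) :=
      List.mem_map_of_mem hn
    have h3 := List.le_sum_of_mem h2
    have h4 := hne.2 n hn
    omega
  -- the linear form of a uniquely occurring bad group
  have hmain : ∀ i : Fin T.jordan.length, Bad (T.jordan.get i) →
      (∀ j, (T.jordan.get j).Perm (T.jordan.get i) → j = i) →
      ∃ z : g, z ∈ coreL v ∧ a z = 1 ∧ x z = lam i ∧ ∃ χ : Dual ℂ g, ∀ ξ, ⁅ξ, z⁆ = χ ξ • z := by
    intro i hbad huniq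
    have hlt : finrank ℂ (LinearMap.range (lieForm (x - lam i • a))) < R := by
      have h3 := hrank (lam i) 1
      rw [range_chainMap_one] at h3
      have h4 := hS1 i
      omega
    have hM0' := hMlow _ hlt
    obtain ⟨p, hpmem, hp0⟩ : ∃ p ∈ facs,
        MvPolynomial.eval (fun k => (x - lam i • a) (b k)) p = 0 := by
      obtain ⟨un, hun⟩ := UniqueFactorizationMonoid.factors_prod hM0
      rw [← hun, map_mul] at hM0'
      have h5 : MvPolynomial.eval (fun k => (x - lam i • a) (b k))
          (un : MvPolynomial (Fin N) ℂ) ≠ 0 := (un.isUnit.map _).ne_zero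
      have h6 := (mul_eq_zero.1 hM0').resolve_right h5
      rw [map_multiset_prod, Multiset.prod_eq_zero_iff, Multiset.mem_map] at h6
      obtain ⟨p, hp, hp0⟩ := h6
      exact ⟨p, Multiset.mem_toFinset.2 hp, hp0⟩
    have hpirr := hfacs p hpmem
    have hfp := hfac ⟨p, hpmem⟩ (Finset.mem_univ _)
    have hcp : ∀ r, r ≤ rmax → ∀ t : ℂ, MvPolynomial.eval (fun i => (x - t • a) (b i)) p = 0 →
        ∀ y' a' : Dual ℂ g, MvPolynomial.eval (fun i => y' (b i)) p = 0 →
        finrank ℂ (LinearMap.range (chainMap r (lieForm y') (lieForm a'))) ≤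
          finrank ℂ (LinearMap.range (chainMap r (lieForm (x - t • a)) (lieForm a))) := by
      intro r hr
      exact hcl p hpirr r x a (hfp.2 r (Finset.mem_range.2 (by omega)))
    have hroots : ∀ t : ℂ, MvPolynomial.eval (fun i => (x - t • a) (b i)) p = 0 →
        t = lam i := by
      intro t ht
      have hSeq : ∀ r, r ≤ rmax → S t r = S (lam i) r := by
        intro r hr
        have h5 := hcp r hr t ht (x - lam i • a) a hp0
        have h6 := hcp r hr (lam i) hp0 (x - t • a) a ht
        have h7 := hrank t r
        have h8 := hrank (lam i) r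
        omega
      have h9 : 0 < S t 1 := by
        rw [hSeq 1 (by omega)]
        exact hS1 i
      obtain ⟨j, hj⟩ : ∃ j, μ j = some t := by
        by_contra hno
        push Not at hno
        have : S t 1 = 0 := Finset.sum_eq_zero fun j _ => if_neg (hno j)
        omega
      have htj : t = lam j := by
        rw [hlam j] at hj
        exact (Option.some.inj hj).symm
      rw [htj]
      congr 1
      apply huniq
      apply perm_of_sums (hT _ (List.get_mem T.jordan j)).2 (hT _ (List.get_mem T.jordan i)).2
      intro r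
      by_cases hr : r ≤ rmax
      · rw [← hS, ← hS, ← htj]
        exact hSeq r hr
      · have hmin : ∀ k : Fin T.jordan.length,
            (T.jordan.get k).map (fun n => min n r) =
              (T.jordan.get k).map (fun n => min n rmax) := by
          intro k
          apply List.map_congr_left
          intro n hn
          have h10 := le_gmax hn
          have h11 := hrmax k
          omega
        rw [hmin, hmin, ← hS, ← hS, ← htj]
        exact hSeq rmax le_rfl
    obtain ⟨c₀, c, hpc⟩ := hdl p hpirr (fun i => x (b i)) (fun i => a (b i)) hfp.1 (by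
      intro t t' ht ht'
      have e1 : ∀ t : ℂ, ((fun i => x (b i)) - t • (fun i => a (b i)) : Fin N → ℂ) =
          fun i => (x - t • a) (b i) := by
        intro t
        funext i
        simp
      rw [e1] at ht ht'
      rw [hroots t ht, hroots t' ht'])
    set z : g := ∑ k, c k • b k with hz
    have hpev : ∀ y : Dual ℂ g, MvPolynomial.eval (fun i => y (b i)) p = c₀ + y z := by
      intro y
      rw [hpc, hz]
      simp only [map_add, map_sum, map_mul, MvPolynomial.eval_C, MvPolynomial.eval_X, map_smul,
        smul_eq_mul]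
    have hc₀ : c₀ = 0 := by
      by_contra hne
      have hz0 : z ≠ 0 := by
        intro h5
        have h6 := hpev (x - lam i • a)
        rw [hp0, h5, map_zero, add_zero] at h6
        exact hne h6.symm
      have h7 : M * lf b z = 0 := by
        apply MvPolynomial.funext
        intro u'
        let y' : Dual ℂ g := b.constr ℂ u'
        have hy' : (fun i => y' (b i)) = u' := by
          funext i
          simp [y']
        rw [← hy', map_mul, eval_lf, map_zero]
        by_cases hyz : y' z = 0
        · rw [hyz, mul_zero]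
        · have h8 : MvPolynomial.eval (fun i => ((-(c₀ / y' z)) • y') (b i)) p = 0 := by
            rw [hpev, LinearMap.smul_apply, smul_eq_mul]
            field_simp
            ring
          have h9 : MvPolynomial.eval (fun i => ((-(c₀ / y' z)) • y') (b i)) M = 0 := by
            have hdvd : p ∣ M := UniqueFactorizationMonoid.dvd_of_mem_factors
              (Multiset.mem_toFinset.1 hpmem)
            obtain ⟨q, hq⟩ := hdvd
            rw [hq, map_mul, h8, zero_mul]
          rw [hMhom] at h9
          have h10 : (-(c₀ / y' z)) ^ R ≠ 0 :=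
            pow_ne_zero _ (neg_ne_zero.2 (div_ne_zero hne hyz))
          rw [(mul_eq_zero.1 h9).resolve_left h10, zero_mul]
      have h11 : lf b z = 0 := (mul_eq_zero.1 h7).resolve_left hM0
      apply hz0
      rw [← Module.forall_dual_apply_eq_zero_iff ℂ]
      intro y'
      rw [← eval_lf b y' z, h11, map_zero]
    subst hc₀
    simp only [zero_add] at hpev
    have hz0 : z ≠ 0 := by
      intro h5
      apply hpirr.ne_zero
      apply MvPolynomial.funext
      intro u'
      let y' : Dual ℂ g := b.constr ℂ u'
      have hy' : (fun i => y' (b i)) = u' := by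
        funext i
        simp [y']
      rw [← hy', hpev, h5, map_zero, map_zero]
    have hyz : (x - lam i • a) z = 0 := by rw [← hpev]; exact hp0
    have haz : a z ≠ 0 := by
      intro h5
      have h6 : (x - (lam i + 1) • a) z = 0 := by
        simp only [LinearMap.sub_apply, LinearMap.smul_apply, h5, smul_zero, sub_zero] at hyz ⊢
        exact hyz
      have h7 := hroots (lam i + 1) (by rw [hpev]; exact h6)
      simp at h7
    have hsemi : ∀ ξ : g, ∃ c : ℂ, ⁅ξ, z⁆ = c • z := by
      refine semi_invariant z hz0 R ?_ ⟨y₁, hy₁.ge⟩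
      intro y' hy'
      have h5 := hcp 1 (by omega) (lam i) hp0 y' a (by rw [hpev]; exact hy')
      rw [range_chainMap_one, range_chainMap_one] at h5
      omega
    set z' : g := (a z)⁻¹ • z with hz'
    have haz' : a z' = 1 := by
      rw [hz', map_smul, smul_eq_mul, inv_mul_cancel₀ haz]
    have hyz' : (x - lam i • a) z' = 0 := by
      rw [hz', map_smul, hyz, smul_zero]
    have hxz' : x z' = lam i := by
      have := hyz'
      rw [LinearMap.sub_apply, LinearMap.smul_apply, haz', smul_eq_mul, mul_one, sub_eq_zero] at this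
      exact this
    let χ : Dual ℂ g := (lieForm a).flip z'
    have hχ : ∀ ξ : g, ⁅ξ, z'⁆ = χ ξ • z' := by
      intro ξ
      obtain ⟨c', hc'⟩ := hsemi ξ
      have h5 : ⁅ξ, z'⁆ = c' • z' := by
        rw [hz', lie_smul, hc', smul_comm]
      have h6 : χ ξ = c' := by
        show a ⁅ξ, z'⁆ = c'
        rw [h5, map_smul, haz', smul_eq_mul, mul_one]
      rw [h6, h5]
    refine ⟨z', ?_, haz', hxz', χ, hχ⟩
    refine bad_in_core a (x - lam i • a) lam hlam hinj x hA hB i hbad
      (hT _ (List.get_mem T.jordan i)).2 rfl z' hyz' haz' ?_ χ hχ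
    intro w' hw'
    refine hcp _ (hrmax i).le (lam i) hp0 _ a ?_
    rw [hpev, LinearMap.add_apply, hyz, zero_add]
    rw [hz', map_smul, smul_eq_mul] at hw'
    exact (mul_eq_zero.1 hw').resolve_left (inv_ne_zero haz)
  -- counting
  by_contra hlt
  push Not at hlt
  let I₀ := {i : Fin T.jordan.length // Bad (T.jordan.get i) ∧
    ∀ j, (T.jordan.get j).Perm (T.jordan.get i) → j = i}
  choose z hzc hza hzx χ hχ using fun i : I₀ => hmain i.1 i.2.1 i.2.2
  have hz0 : ∀ i, z i ≠ 0 := by
    intro i h5
    have := hza i
    rw [h5, map_zero] at this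
    exact zero_ne_one this
  have hdep : ¬ LinearIndependent ℂ z := by
    intro hli
    have hli' : LinearIndependent ℂ (fun i => (⟨z i, hzc i⟩ : coreL v)) :=
      LinearIndependent.of_comp (coreL v).subtype (by exact hli)
    have h5 := hli'.fintype_card_le_finrank
    have h6 := h5.trans (finrank_coreL_le (v := v))
    have h7 : Fintype.card I₀ = T.uniqBad := by
      rw [AlgType.uniqBad, Fintype.card_subtype]
    omega
  obtain ⟨i, j, hij, hχij⟩ := eigen_dependent
    (LinearMap.mk₂ ℂ (fun ξ η : g => ⁅ξ, η⁆) add_lie smul_lie lie_add (fun c m n => lie_smul c m n))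
    z hz0 χ
    (fun i ξ => hχ i ξ) hdep
  have hlamne : lam i.1 ≠ lam j.1 := fun h5 => hij (Subtype.ext (hinj h5))
  have hform : ∀ (y : Dual ℂ g) (k : I₀) (η : g), lieForm y (z k) η = - (χ k η * y (z k)) := by
    intro y k η
    rw [lieForm_apply, ← lie_skew, hχ, map_neg, map_smul, smul_eq_mul]
  obtain ⟨c₀, c₁, hcne, hcz⟩ := plane_kernel h0 h1 hA hB (lam j.1 • z i - lam i.1 • z j)
    (z i - z j) (Submodule.sub_mem _ (Submodule.smul_mem _ _ (hzc i))
      (Submodule.smul_mem _ _ (hzc j))) (Submodule.sub_mem _ (hzc i) (hzc j))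
    (by
      intro η
      simp only [map_sub, map_smul, LinearMap.sub_apply, LinearMap.smul_apply, hform, hχij, hzx,
        smul_eq_mul]
      ring)
    (by
      intro η
      simp only [map_sub, LinearMap.sub_apply, hform, hχij, hza]
      ring)
    (by
      intro η
      simp only [map_sub, map_smul, LinearMap.sub_apply, LinearMap.smul_apply, hform, hχij, hzx,
        hza, smul_eq_mul]
      ring)
  have ha0 := congrArg a hcz
  simp only [map_add, map_smul, map_sub, hza, smul_eq_mul, map_zero, sub_self, mul_zero, mul_one,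
    add_zero] at ha0
  have hc0 : c₀ = 0 := by
    refine (mul_eq_zero.1 ha0).resolve_right ?_
    exact sub_ne_zero.2 (fun h5 => hlamne h5.symm)
  subst hc0
  have hc1 : c₁ ≠ 0 := hcne.resolve_left (fun h5 => h5 rfl)
  rw [zero_smul, zero_add] at hcz
  have hzz := (smul_eq_zero.1 hcz).resolve_left hc1
  rw [sub_eq_zero] at hzz
  apply hlamne
  rw [← hzx i, ← hzx j, hzz]

end

theorem necessary_general (T : AlgType) (hT : T.Valid) (h0 : T.kron.count 0 ≤ 1)
    (h1 : 1 ∉ T.kron) (h : Realisable T) : T.uniqBad ≤ (T.kron.map (· + 1)).sum := by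
  obtain ⟨g, i1, i2, i3, h⟩ := h
  exact necessary_general' hT h0 h1 h

end P8H59.JK
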