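import Pool.Agent.P8H59.JK.Defs

/-!
# Necessity, part 1: pointwise analysis (project JK, MP_0fcc55_al)
-/

namespace P8H59.JK

open Module Polynomial

/-- The zeros of a polynomial on a line through a point where it does not vanish. -/
theorem finite_zeros_on_line {σ : Type} (F : MvPolynomial σ ℂ) (u w : σ → ℂ)
    (h : MvPolynomial.eval u F ≠ 0) : {s : ℂ | MvPolynomial.eval (u + s • w) F = 0}.Finite := by
  set q : ℂ[X] := MvPolynomial.aeval (fun i => C (u i) + X * C (w i)) F with hq
  have key : ∀ s : ℂ, q.eval s = MvPolynomial.eval (u + s • w) F := by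
    intro s
    have h1 : q.eval s = (Polynomial.evalRingHom s) (MvPolynomial.eval₂Hom (algebraMap ℂ ℂ[X])
        (fun i => C (u i) + X * C (w i)) F) := rfl
    rw [h1, ← RingHom.comp_apply, MvPolynomial.comp_eval₂Hom]
    have h2 : (Polynomial.evalRingHom s).comp (algebraMap ℂ ℂ[X]) = RingHom.id ℂ := by
      apply RingHom.ext
      intro z
      simp
    rw [h2]
    congr 2
    funext i
    simp
    ring
  have hne : q ≠ 0 := by
    intro h0
    have := key 0
    rw [h0] at this
    simp at this
    exact h this.symm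
  refine (q.rootSet_finite ℂ).subset ?_
  intro s hs
  rw [Polynomial.mem_rootSet]
  refine ⟨hne, ?_⟩
  rw [Polynomial.coe_aeval_eq_eval, key s]
  exact hs

variable {V : Type} [AddCommGroup V] [Module ℂ V]

/-- `q 0, …, q (n-1)` is a chain for the eigenvalue `μ`. -/
def Chain (A B : V →ₗ[ℂ] V →ₗ[ℂ] ℂ) (μ : ℂ) (q : ℕ → V) (n : ℕ) : Prop :=
  ∀ l < n, ∀ ξ, A ξ (q l) = μ * B ξ (q l) + (if l = 0 then 0 else B ξ (q (l - 1)))

section

variable {A B : V →ₗ[ℂ] V →ₗ[ℂ] ℂ} {R : Module.End ℂ V}

theorem Chain.pow (hR : ∀ ξ η, B (R ξ) η = A ξ η) {μ : ℂ} {q : ℕ → V} {n : ℕ}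
    (hc : Chain A B μ q n) (r : ℕ) : ∀ l < n, ∀ ξ,
    B (((R - μ • (1 : Module.End ℂ V)) ^ r) ξ) (q l) = if r ≤ l then B ξ (q (l - r)) else 0 := by
  induction r with
  | zero => intro l hl ξ; simp
  | succ r ih =>
    intro l hl ξ
    rw [pow_succ', Module.End.mul_apply]
    set ζ := ((R - μ • (1 : Module.End ℂ V)) ^ r) ξ with hζ
    have h1 : B ((R - μ • (1 : Module.End ℂ V)) ζ) (q l) = if l = 0 then 0 else B ζ (q (l - 1)) := by
      have := hc l hl ζ
      rw [← hR] at this
      simp only [LinearMap.sub_apply, LinearMap.smul_apply, Module.End.one_apply, map_sub, map_smul,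
        smul_eq_mul]
      rw [this]
      ring
    rw [h1]
    by_cases hl0 : l = 0
    · subst hl0
      simp
    · rw [if_neg hl0, ih (l - 1) (by omega) ξ]
      by_cases h : r ≤ l - 1
      · rw [if_pos h, if_pos (by omega)]
        congr 2
        omega
      · rw [if_neg h, if_neg (by omega)]

theorem Chain.aeval_dvd (hR : ∀ ξ η, B (R ξ) η = A ξ η) {μ : ℂ} {q : ℕ → V} {n : ℕ}
    (hc : Chain A B μ q n) (f : ℂ[X]) (hf : (X - C μ) ^ n ∣ f) (l : ℕ) (hl : l < n) (ξ : V) :
    B (aeval R f ξ) (q l) = 0 := by
  obtain ⟨h, rfl⟩ := hf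
  rw [map_mul, map_pow, Module.End.mul_apply]
  have h1 : aeval R (X - C μ) = R - μ • (1 : Module.End ℂ V) := by
    rw [map_sub, aeval_X, aeval_C, Algebra.algebraMap_eq_smul_one]
  rw [h1, hc.pow hR n l hl, if_neg (by omega)]

theorem Chain.aeval_taylor (hR : ∀ ξ η, B (R ξ) η = A ξ η) {μ : ℂ} {q : ℕ → V} {n : ℕ}
    (hc : Chain A B μ q n) (f : ℂ[X]) (l : ℕ) (hl : l < n) (ξ : V) :
    B (aeval R f ξ) (q l) = ∑ r ∈ Finset.range (l + 1), (taylor μ f).coeff r * B ξ (q (l - r)) := by
  have h1 : aeval R (X - C μ) = R - μ • (1 : Module.End ℂ V) := by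
    rw [map_sub, aeval_X, aeval_C, Algebra.algebraMap_eq_smul_one]
  have h2 : aeval R f = (taylor μ f).sum (fun i c => c • (R - μ • (1 : Module.End ℂ V)) ^ i) := by
    conv_lhs => rw [← Polynomial.sum_taylor_eq f μ]
    rw [Polynomial.sum_def, Polynomial.sum_def, map_sum]
    refine Finset.sum_congr rfl fun i _ => ?_
    rw [map_mul, map_pow, h1, aeval_C, Algebra.algebraMap_eq_smul_one, smul_mul_assoc, one_mul]
  rw [h2, Polynomial.sum_def, LinearMap.sum_apply, map_sum, LinearMap.sum_apply]
  have h3 : ∀ i ∈ (taylor μ f).support,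
      B (((taylor μ f).coeff i • (R - μ • (1 : Module.End ℂ V)) ^ i) ξ) (q l) =
        if i ≤ l then (taylor μ f).coeff i * B ξ (q (l - i)) else 0 := by
    intro i _
    rw [LinearMap.smul_apply, map_smul, LinearMap.smul_apply, hc.pow hR i l hl, smul_eq_mul]
    split_ifs <;> simp
  rw [Finset.sum_congr rfl h3, ← Finset.sum_filter]
  refine Finset.sum_subset ?_ ?_
  · intro i hi
    simp only [Finset.mem_filter] at hi
    simp only [Finset.mem_range]
    omega
  · intro i hi hi'
    simp only [Finset.mem_range] at hi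
    simp only [Finset.mem_filter, not_and, not_le, Polynomial.mem_support_iff] at hi'
    have : (taylor μ f).coeff i = 0 := by
      by_contra hne
      have := hi' hne
      omega
    rw [this, zero_mul]

end

/-! ### The basis vectors of a block -/

section blocks

variable {ι : Type} [DecidableEq ι] {blk : ι → Block}

/-- The vector `p_l` of the block `i` (zero when out of range). -/
noncomputable def pv (v : Basis (Σ i, Fin (blk i).P ⊕ Fin (blk i).Q) ℂ V) (i : ι) (l : ℕ) : V :=
  if h : l < (blk i).P then v ⟨i, Sum.inl ⟨l, h⟩⟩ else 0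

/-- The vector `q_l` of the block `i` (zero when out of range). -/
noncomputable def qv (v : Basis (Σ i, Fin (blk i).P ⊕ Fin (blk i).Q) ℂ V) (i : ι) (l : ℕ) : V :=
  if h : l < (blk i).Q then v ⟨i, Sum.inr ⟨l, h⟩⟩ else 0

variable {v : Basis (Σ i, Fin (blk i).P ⊕ Fin (blk i).Q) ℂ V}
  {M A B : V →ₗ[ℂ] V →ₗ[ℂ] ℂ} {ent : Block → ℕ → ℕ → ℂ}

theorem form_pq (hM : ∀ s t, M (v s) (v t) = skewEnt ent blk s t) (i j : ι) (a b : ℕ) :
    M (pv v i a) (qv v j b) =
      if i = j ∧ a < (blk i).P ∧ b < (blk j).Q then ent (blk i) a b else 0 := by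
  unfold pv qv
  by_cases ha : a < (blk i).P
  · by_cases hb : b < (blk j).Q
    · rw [dif_pos ha, dif_pos hb, hM]
      simp [skewEnt, ha, hb]
    · simp [ha, hb]
  · simp [ha]

theorem form_qp (hM : ∀ s t, M (v s) (v t) = skewEnt ent blk s t) (i j : ι) (a b : ℕ) :
    M (qv v i a) (pv v j b) =
      if i = j ∧ a < (blk i).Q ∧ b < (blk j).P then -ent (blk i) b a else 0 := by
  unfold pv qv
  by_cases ha : a < (blk i).Q
  · by_cases hb : b < (blk j).P
    · rw [dif_pos ha, dif_pos hb, hM]
      simp [skewEnt, ha, hb]
    · simp [ha, hb]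
  · simp [ha]

theorem form_pp (hM : ∀ s t, M (v s) (v t) = skewEnt ent blk s t) (i j : ι) (a b : ℕ) :
    M (pv v i a) (pv v j b) = 0 := by
  unfold pv
  by_cases ha : a < (blk i).P
  · by_cases hb : b < (blk j).P
    · rw [dif_pos ha, dif_pos hb, hM]
      simp [skewEnt]
    · simp [ha, hb]
  · simp [ha]

theorem form_qq (hM : ∀ s t, M (v s) (v t) = skewEnt ent blk s t) (i j : ι) (a b : ℕ) :
    M (qv v i a) (qv v j b) = 0 := by
  unfold qv
  by_cases ha : a < (blk i).Q
  · by_cases hb : b < (blk j).Q
    · rw [dif_pos ha, dif_pos hb, hM]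
      simp [skewEnt]
    · simp [ha, hb]
  · simp [ha]

omit [DecidableEq ι] in
theorem ext_pq {W : Type} [AddCommGroup W] [Module ℂ W] {f f' : V →ₗ[ℂ] W}
    (hp : ∀ i l, l < (blk i).P → f (pv v i l) = f' (pv v i l))
    (hq : ∀ i l, l < (blk i).Q → f (qv v i l) = f' (qv v i l)) : f = f' := by
  refine v.ext fun s => ?_
  obtain ⟨i, s⟩ := s
  cases s with
  | inl p =>
    have := hp i p p.2
    simpa [pv] using this
  | inr q =>
    have := hq i q q.2
    simpa [qv] using this

/-- The `q`-vectors of a Jordan block form a chain. -/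
theorem chain_q (hA : ∀ s t, A (v s) (v t) = skewEnt Block.entA blk s t)
    (hB : ∀ s t, B (v s) (v t) = skewEnt Block.entB blk s t)
    (i : ι) (n : ℕ) (lam : ℂ) (hi : blk i = .jord n (some lam)) :
    Chain A B lam (qv v i) n := by
  intro l hl ξ
  have hP : (blk i).P = n := by rw [hi]; rfl
  have hQ : (blk i).Q = n := by rw [hi]; rfl
  have key : (A.flip (qv v i l)) = lam • (B.flip (qv v i l)) +
      (if l = 0 then 0 else B.flip (qv v i (l - 1))) := by
    refine ext_pq (v := v) (fun j a ha => ?_) (fun j a ha => ?_)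
    · by_cases hl0 : l = 0
      · subst hl0
        simp only [if_true, add_zero, LinearMap.smul_apply, LinearMap.flip_apply]
        rw [form_pq hA, form_pq hB]
        by_cases hij : j = i
        · subst hij
          rw [hP] at ha
          simp only [hi, Block.P, Block.Q, ha, hl, and_self, if_true, Block.entA, Block.entB]
          by_cases h0 : a = 0 <;> simp [h0]
        · simp [hij]
      · simp only [if_neg hl0, LinearMap.add_apply, LinearMap.smul_apply, LinearMap.flip_apply]
        rw [form_pq hA, form_pq hB, form_pq hB]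
        by_cases hij : j = i
        · subst hij
          rw [hP] at ha
          have hl' : l - 1 < n := by omega
          simp only [hi, Block.P, Block.Q, ha, hl, hl', and_self, if_true, Block.entA, Block.entB]
          by_cases h1 : a = l
          · have h2 : ¬ a = l - 1 := by omega
            simp [h1]
            omega
          · by_cases h3 : a + 1 = l
            · have h4 : a = l - 1 := by omega
              simp [h1, h3, ← h4]
            · have h4 : ¬ a = l - 1 := by omega
              simp [h1, h3, h4]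
        · simp [hij]
    · by_cases hl0 : l = 0
      · subst hl0
        simp [form_qq hA, form_qq hB]
      · simp [hl0, form_qq hA, form_qq hB]
  have := LinearMap.congr_fun key ξ
  by_cases hl0 : l = 0
  · simp only [hl0, if_true] at this ⊢
    simpa using this
  · simp only [hl0, if_false] at this ⊢
    simpa using this

/-- The reversed `p`-vectors of a Jordan block form a chain. -/
theorem chain_p (hA : ∀ s t, A (v s) (v t) = skewEnt Block.entA blk s t)
    (hB : ∀ s t, B (v s) (v t) = skewEnt Block.entB blk s t)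
    (i : ι) (n : ℕ) (lam : ℂ) (hi : blk i = .jord n (some lam)) :
    Chain A B lam (fun l => pv v i (n - 1 - l)) n := by
  intro l hl ξ
  have hP : (blk i).P = n := by rw [hi]; rfl
  have hQ : (blk i).Q = n := by rw [hi]; rfl
  have key : (A.flip (pv v i (n - 1 - l))) = lam • (B.flip (pv v i (n - 1 - l))) +
      (if l = 0 then 0 else B.flip (pv v i (n - 1 - (l - 1)))) := by
    refine ext_pq (v := v) (fun j a ha => ?_) (fun j a ha => ?_)
    · by_cases hl0 : l = 0
      · subst hl0
        simp [form_pp hA, form_pp hB]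
      · simp [hl0, form_pp hA, form_pp hB]
    · have hl1 : n - 1 - l < n := by omega
      by_cases hl0 : l = 0
      · subst hl0
        simp only [if_true, add_zero, LinearMap.smul_apply, LinearMap.flip_apply]
        rw [form_qp hA, form_qp hB]
        by_cases hij : j = i
        · subst hij
          rw [hQ] at ha
          simp only [hi, Block.P, Block.Q, ha, hl1, and_self, if_true, Block.entA, Block.entB]
          by_cases h0 : n - 1 = a
          · simp [h0]
          · have h1 : ¬ n - 1 + 1 = a := by omega
            simp [h0, h1]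
        · simp [hij]
      · have hl2 : n - 1 - (l - 1) < n := by omega
        simp only [if_neg hl0, LinearMap.add_apply, LinearMap.smul_apply, LinearMap.flip_apply]
        rw [form_qp hA, form_qp hB, form_qp hB]
        by_cases hij : j = i
        · subst hij
          rw [hQ] at ha
          simp only [hi, Block.P, Block.Q, ha, hl1, hl2, and_self, if_true, Block.entA, Block.entB]
          by_cases h1 : n - 1 - l = a
          · have h2 : ¬ n - 1 - (l - 1) = a := by omega
            simp [h1, h2]
          · by_cases h3 : n - 1 - l + 1 = a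
            · have h4 : n - 1 - (l - 1) = a := by omega
              simp [h1, h3, h4]
            · have h4 : ¬ n - 1 - (l - 1) = a := by omega
              simp [h1, h3, h4]
        · simp [hij]
  have := LinearMap.congr_fun key ξ
  by_cases hl0 : l = 0
  · simp only [hl0, if_true] at this ⊢
    simpa using this
  · simp only [hl0, if_false] at this ⊢
    simpa using this

theorem coord_p {n : ℕ} (hM : ∀ s t, M (v s) (v t) = skewEnt ent blk s t) (i : ι)
    (hQ : (blk i).Q = n)
    (hent : ∀ a b, a < n → b < n → ent (blk i) a b = if a = b then 1 else 0)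
    (hP : (blk i).P = n) (l : Fin (blk i).P) (ξ : V) :
    v.repr ξ ⟨i, Sum.inl l⟩ = M ξ (qv v i l) := by
  have hl : (l : ℕ) < (blk i).Q := lt_of_lt_of_eq l.2 (hP.trans hQ.symm)
  have hl' : (l : ℕ) < n := lt_of_lt_of_eq l.2 hP
  have h2 : v.coord ⟨i, Sum.inl l⟩ = M.flip (qv v i l) := by
    refine v.ext fun s => ?_
    rw [LinearMap.flip_apply, Basis.coord_apply, Basis.repr_self, Finsupp.single_apply, qv,
      dif_pos hl, hM]
    obtain ⟨j, s⟩ := s
    by_cases hij : j = i
    · subst hij
      cases s with
      | inl p =>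
        have hp : (p : ℕ) < n := lt_of_lt_of_eq p.2 hP
        simp [skewEnt, hent _ _ hp hl', Fin.ext_iff]
      | inr q => simp [skewEnt]
    · have hne : ¬ ((⟨j, s⟩ : Σ i, Fin (blk i).P ⊕ Fin (blk i).Q) = ⟨i, Sum.inl l⟩) :=
        fun h => hij (congrArg Sigma.fst h)
      rw [if_neg hne]
      cases s <;> simp [skewEnt, hij]
  rw [← Basis.coord_apply, h2, LinearMap.flip_apply]

theorem coord_q {n : ℕ} (hM : ∀ s t, M (v s) (v t) = skewEnt ent blk s t) (i : ι)
    (hQ : (blk i).Q = n)
    (hent : ∀ a b, a < n → b < n → ent (blk i) a b = if a = b then 1 else 0)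
    (hP : (blk i).P = n) (l : Fin (blk i).Q) (ξ : V) :
    v.repr ξ ⟨i, Sum.inr l⟩ = - M ξ (pv v i l) := by
  have hl : (l : ℕ) < (blk i).P := lt_of_lt_of_eq l.2 (hQ.trans hP.symm)
  have hl' : (l : ℕ) < n := lt_of_lt_of_eq l.2 hQ
  have h2 : v.coord ⟨i, Sum.inr l⟩ = - M.flip (pv v i l) := by
    refine v.ext fun s => ?_
    rw [LinearMap.neg_apply, LinearMap.flip_apply, Basis.coord_apply, Basis.repr_self,
      Finsupp.single_apply, pv, dif_pos hl, hM]
    obtain ⟨j, s⟩ := s
    by_cases hij : j = i
    · subst hij
      cases s with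
      | inl p => simp [skewEnt]
      | inr q =>
        have hq : (q : ℕ) < n := lt_of_lt_of_eq q.2 hQ
        by_cases hql : (l : ℕ) = q
        · have : q = l := Fin.ext hql.symm
          simp [skewEnt, hent _ _ hl' hl', this]
        · have : ¬ q = l := fun h => hql (by rw [h])
          simp [skewEnt, hent _ _ hl' hq, this, hql]
    · have hne : ¬ ((⟨j, s⟩ : Σ i, Fin (blk i).P ⊕ Fin (blk i).Q) = ⟨i, Sum.inr l⟩) :=
        fun h => hij (congrArg Sigma.fst h)
      rw [if_neg hne]
      cases s <;> simp [skewEnt, hij]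
  rw [← Basis.coord_apply, h2, LinearMap.neg_apply, LinearMap.flip_apply]

end blocks

/-- If `(u B + s A)(ξ, ·)` vanishes on a chain then so does `B(ξ, ·)`. -/
theorem Chain.kill {A B : V →ₗ[ℂ] V →ₗ[ℂ] ℂ} {lam : ℂ} {q : ℕ → V} {n : ℕ}
    (hc : Chain A B lam q n) (u s : ℂ) (hu : u + s * lam ≠ 0) (ξ : V)
    (h : ∀ l < n, u * B ξ (q l) + s * A ξ (q l) = 0) : ∀ l < n, B ξ (q l) = 0 := by
  intro l
  induction l with
  | zero =>
    intro hl
    have h1 := h 0 hl
    rw [hc 0 hl ξ] at h1
    simp only [if_true, add_zero] at h1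
    have h2 : (u + s * lam) * B ξ (q 0) = 0 := by linear_combination h1
    exact (mul_eq_zero.1 h2).resolve_left hu
  | succ l ih =>
    intro hl
    have h0 := ih (by omega)
    have h1 := h (l + 1) hl
    rw [hc (l + 1) hl ξ] at h1
    simp only [Nat.add_eq_zero_iff, one_ne_zero, and_false, if_false, Nat.add_sub_cancel, h0,
      add_zero] at h1
    have h2 : (u + s * lam) * B ξ (q (l + 1)) = 0 := by linear_combination h1
    exact (mul_eq_zero.1 h2).resolve_left hu

section blocks2

variable {ι : Type} [DecidableEq ι] {blk : ι → Block}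
  {v : Basis (Σ i, Fin (blk i).P ⊕ Fin (blk i).Q) ℂ V} {A B : V →ₗ[ℂ] V →ₗ[ℂ] ℂ}

theorem chain_q_inf (hA : ∀ s t, A (v s) (v t) = skewEnt Block.entA blk s t)
    (hB : ∀ s t, B (v s) (v t) = skewEnt Block.entB blk s t)
    (i : ι) (n : ℕ) (hi : blk i = .jord n none) :
    Chain B A 0 (qv v i) n := by
  intro l hl ξ
  have key : (B.flip (qv v i l)) = (if l = 0 then 0 else A.flip (qv v i (l - 1))) := by
    refine ext_pq (v := v) (fun j a ha => ?_) (fun j a ha => ?_)
    · by_cases hl0 : l = 0
      · subst hl0
        simp only [if_true, LinearMap.flip_apply, LinearMap.zero_apply]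
        rw [form_pq hB]
        by_cases hij : j = i
        · subst hij
          simp [hi, Block.entB]
        · simp [hij]
      · simp only [if_neg hl0, LinearMap.flip_apply]
        rw [form_pq hA, form_pq hB]
        by_cases hij : j = i
        · subst hij
          have hP : (blk j).P = n := by rw [hi]; rfl
          rw [hP] at ha
          have hl' : l - 1 < n := by omega
          simp only [hi, Block.P, Block.Q, ha, hl, hl', and_self, if_true, Block.entA, Block.entB]
          have h1 : (a + 1 = l) ↔ (a = l - 1) := by omega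
          simp [h1]
        · simp [hij]
    · by_cases hl0 : l = 0
      · subst hl0
        simp [form_qq hB]
      · simp [hl0, form_qq hA, form_qq hB]
  have := LinearMap.congr_fun key ξ
  by_cases hl0 : l = 0
  · simp only [hl0, if_true] at this ⊢
    simpa using this
  · simp only [hl0, if_false] at this ⊢
    simpa using this

theorem chain_p_inf (hA : ∀ s t, A (v s) (v t) = skewEnt Block.entA blk s t)
    (hB : ∀ s t, B (v s) (v t) = skewEnt Block.entB blk s t)
    (i : ι) (n : ℕ) (hi : blk i = .jord n none) :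
    Chain B A 0 (fun l => pv v i (n - 1 - l)) n := by
  intro l hl ξ
  have key : (B.flip (pv v i (n - 1 - l))) =
      (if l = 0 then 0 else A.flip (pv v i (n - 1 - (l - 1)))) := by
    refine ext_pq (v := v) (fun j a ha => ?_) (fun j a ha => ?_)
    · by_cases hl0 : l = 0
      · subst hl0
        simp [form_pp hB]
      · simp [hl0, form_pp hA, form_pp hB]
    · have hl1 : n - 1 - l < n := by omega
      by_cases hl0 : l = 0
      · subst hl0
        simp only [if_true, LinearMap.flip_apply, LinearMap.zero_apply]
        rw [form_qp hB]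
        by_cases hij : j = i
        · subst hij
          have hQ : (blk j).Q = n := by rw [hi]; rfl
          rw [hQ] at ha
          have h1 : ¬ n - 1 + 1 = a := by omega
          simp [hi, Block.entB, h1]
        · simp [hij]
      · have hl2 : n - 1 - (l - 1) < n := by omega
        simp only [if_neg hl0, LinearMap.flip_apply]
        rw [form_qp hA, form_qp hB]
        by_cases hij : j = i
        · subst hij
          have hQ : (blk j).Q = n := by rw [hi]; rfl
          rw [hQ] at ha
          simp only [hi, Block.P, Block.Q, ha, hl1, hl2, and_self, if_true, Block.entA,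
            Block.entB]
          have h1 : (n - 1 - l + 1 = a) ↔ (n - 1 - (l - 1) = a) := by omega
          simp [h1]
        · simp [hij]
  have := LinearMap.congr_fun key ξ
  by_cases hl0 : l = 0
  · simp only [hl0, if_true] at this ⊢
    simpa using this
  · simp only [hl0, if_false] at this ⊢
    simpa using this

/-- The kernel of `B + s A` for generic `s`. -/
theorem ker_le_span (hA : ∀ s t, A (v s) (v t) = skewEnt Block.entA blk s t)
    (hB : ∀ s t, B (v s) (v t) = skewEnt Block.entB blk s t)
    (hk : ∀ i k, blk i = .kron k → k = 0) (s : ℂ) (hs : s ≠ 0)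
    (hs' : ∀ i n lam, blk i = .jord n (some lam) → 1 + s * lam ≠ 0) (ξ : V)
    (hξ : ∀ η, B ξ η + s * A ξ η = 0) :
    ξ ∈ Submodule.span ℂ (Set.range (fun i : {i // blk i = .kron 0} => qv v i.1 0)) := by
  classical
  have hfin : ∀ t : (Σ i, Fin (blk i).P ⊕ Fin (blk i).Q), (∀ k, blk t.1 ≠ .kron k) →
      v.repr ξ t = 0 := by
    rintro ⟨i, t⟩ hne
    rcases hbi : blk i with k | ⟨n, μ⟩
    · exact absurd hbi (hne k)
    · have hP : (blk i).P = n := by rw [hbi]; rfl
      have hQ : (blk i).Q = n := by rw [hbi]; rfl
      cases μ with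
      | some lam =>
        have hu : (1 : ℂ) + s * lam ≠ 0 := hs' i n lam hbi
        have hent : ∀ a b, a < n → b < n → Block.entB (blk i) a b = if a = b then 1 else 0 := by
          intro a b _ _
          rw [hbi]
          rfl
        cases t with
        | inl p =>
          have hp : (p : ℕ) < n := lt_of_lt_of_eq p.2 hP
          rw [coord_p hB i hQ hent hP]
          exact (chain_q hA hB i n lam hbi).kill 1 s hu ξ
            (fun l _ => by rw [one_mul]; exact hξ _) p hp
        | inr p =>
          have hp : (p : ℕ) < n := lt_of_lt_of_eq p.2 hQ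
          rw [coord_q hB i hQ hent hP]
          have h1 := (chain_p hA hB i n lam hbi).kill 1 s hu ξ
            (fun l _ => by rw [one_mul]; exact hξ _) (n - 1 - p) (by omega)
          have h0 : n - 1 - (n - 1 - (p : ℕ)) = p := by omega
          simp only [h0] at h1
          rw [h1, neg_zero]
      | none =>
        have hu : (s : ℂ) + 1 * 0 ≠ 0 := by simpa using hs
        have hent : ∀ a b, a < n → b < n → Block.entA (blk i) a b = if a = b then 1 else 0 := by
          intro a b _ _
          rw [hbi]
          rfl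
        cases t with
        | inl p =>
          have hp : (p : ℕ) < n := lt_of_lt_of_eq p.2 hP
          rw [coord_p hA i hQ hent hP]
          exact (chain_q_inf hA hB i n hbi).kill s 1 hu ξ
            (fun l _ => by rw [one_mul, add_comm]; exact hξ _) p hp
        | inr p =>
          have hp : (p : ℕ) < n := lt_of_lt_of_eq p.2 hQ
          rw [coord_q hA i hQ hent hP]
          have h1 := (chain_p_inf hA hB i n hbi).kill s 1 hu ξ
            (fun l _ => by rw [one_mul, add_comm]; exact hξ _) (n - 1 - p) (by omega)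
          have h0 : n - 1 - (n - 1 - (p : ℕ)) = p := by omega
          simp only [h0] at h1
          rw [h1, neg_zero]
  rw [← v.linearCombination_repr ξ, Finsupp.linearCombination_apply, Finsupp.sum]
  refine Submodule.sum_mem _ fun t ht => ?_
  rw [Finsupp.mem_support_iff] at ht
  obtain ⟨i, t⟩ := t
  rcases hbi : blk i with k | ⟨n, μ⟩
  · have hk0 := hk i k hbi
    subst hk0
    refine Submodule.smul_mem _ _ (Submodule.subset_span ⟨⟨i, hbi⟩, ?_⟩)
    have hP : (blk i).P = 0 := by rw [hbi]; rfl
    have hQ : (blk i).Q = 1 := by rw [hbi]; rfl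
    cases t with
    | inl p => exact absurd p.2 (by omega)
    | inr q =>
      have hq : (q : ℕ) = 0 := by have := q.2; omega
      simp only [qv]
      rw [dif_pos (by omega)]
      congr 3
      exact Fin.ext hq.symm
  · exact absurd (hfin ⟨i, t⟩ (fun k h => by rw [hbi] at h; cases h)) ht

end blocks2

end P8H59.JK
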