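import Pool.Agent.P8H59.JK.Nec1

/-!
# Necessity, part 2: pointwise analysis for a type with trivial Kronecker blocks
-/

namespace P8H59.JK

open Module Polynomial

/-- The largest size of a group. -/
def gmax (G : List ℕ) : ℕ := G.foldr max 0

theorem le_gmax {G : List ℕ} {n : ℕ} (h : n ∈ G) : n ≤ gmax G := by
  induction G with
  | nil => simp at h
  | cons a G ih =>
    simp only [List.mem_cons] at h
    rcases h with h | h
    · subst h
      exact le_max_left _ _
    · exact (ih h).trans (le_max_right _ _)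

theorem gmax_mem {G : List ℕ} (h : G ≠ []) : gmax G ∈ G := by
  induction G with
  | nil => simp at h
  | cons a G ih =>
    by_cases hG : G = []
    · subst hG
      simp [gmax]
    · have := ih hG
      simp only [gmax, List.foldr_cons] at this ⊢
      rcases le_total a (List.foldr max 0 G) with h1 | h1
      · rw [max_eq_right h1]
        exact List.mem_cons_of_mem _ this
      · rw [max_eq_left h1]
        exact List.mem_cons_self

theorem bad_indices {G : List ℕ} (h : Bad G) :
    ∃ b₁ b₂ : Fin G.length, b₁ ≠ b₂ ∧ G.get b₁ = gmax G ∧ G.get b₂ = gmax G := by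
  obtain ⟨m, h2, hle⟩ := h
  have hm : gmax G = m := by
    apply le_antisymm
    · have hne : G ≠ [] := by
        rintro rfl
        simp at h2
      exact hle _ (gmax_mem hne)
    · exact le_gmax (List.count_pos_iff.1 (by omega))
  obtain ⟨n, k, hnk, h3, h4⟩ :=
    List.duplicate_iff_exists_distinct_get.1 (List.duplicate_iff_two_le_count.2 h2)
  exact ⟨n, k, ne_of_lt hnk, by rw [← h3, hm], by rw [← h4, hm]⟩

variable {V : Type} [AddCommGroup V] [Module ℂ V]

section

variable {T : AlgType} {μ : Fin T.jordan.length → Option ℂ}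
  {v : Basis (Σ i, Fin (T.blocks μ i).P ⊕ Fin (T.blocks μ i).Q) ℂ V}
  {A B : V →ₗ[ℂ] V →ₗ[ℂ] ℂ}

theorem kron_blocks (hκ : ∀ k ∈ T.kron, k = 0) (j : Fin T.kron.length) :
    T.blocks μ (Sum.inl j) = .kron 0 := by
  have h : T.kron.get j = 0 := hκ _ (List.get_mem _ _)
  simp only [AlgType.blocks]
  rw [h]

theorem kron_qv_ker (hκ : ∀ k ∈ T.kron, k = 0) {ent : Block → ℕ → ℕ → ℂ}
    {M : V →ₗ[ℂ] V →ₗ[ℂ] ℂ} (hM : ∀ s t, M (v s) (v t) = skewEnt ent (T.blocks μ) s t)
    (j : Fin T.kron.length) (η : V) : M (qv v (Sum.inl j) 0) η = 0 := by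
  have : M (qv v (Sum.inl j) 0) = 0 := by
    refine ext_pq (v := v) (fun i a ha => ?_) (fun i a ha => ?_)
    · rw [form_qp hM]
      by_cases hij : (Sum.inl j : T.Idx) = i
      · subst hij
        rw [kron_blocks hκ j] at ha
        simp [Block.P] at ha
      · simp [hij]
    · rw [form_qq hM, LinearMap.zero_apply]
  rw [this, LinearMap.zero_apply]

theorem inf_q_ker (hB : ∀ s t, B (v s) (v t) = skewEnt Block.entB (T.blocks μ) s t)
    (i : T.Idx) (n : ℕ) (hi : T.blocks μ i = .jord n none) (η : V) : B (qv v i 0) η = 0 := by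
  have : B (qv v i 0) = 0 := by
    refine ext_pq (v := v) (fun j a ha => ?_) (fun j a ha => ?_)
    · rw [form_qp hB]
      by_cases hij : i = j
      · subst hij
        simp [hi, Block.entB]
      · simp [hij]
    · rw [form_qq hB, LinearMap.zero_apply]
  rw [this, LinearMap.zero_apply]

theorem finite_eigenvalue [FiniteDimensional ℂ V] (hκ : ∀ k ∈ T.kron, k = 0)
    (hB : ∀ s t, B (v s) (v t) = skewEnt Block.entB (T.blocks μ) s t)
    (hdim : finrank ℂ (LinearMap.ker B) ≤ T.kron.length)
    (i : T.Idx) (n : ℕ) (hn : 0 < n) (hi : T.blocks μ i = .jord n none) : False := by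
  have hQ : 0 < (T.blocks μ i).Q := by rw [hi]; exact hn
  have hQ' : ∀ j : Fin T.kron.length, 0 < (T.blocks μ (Sum.inl j)).Q := by
    intro j
    rw [kron_blocks hκ j]
    exact Nat.one_pos
  let f : Option (Fin T.kron.length) → (Σ i, Fin (T.blocks μ i).P ⊕ Fin (T.blocks μ i).Q) :=
    fun o => match o with
      | none => ⟨i, Sum.inr ⟨0, hQ⟩⟩
      | some j => ⟨Sum.inl j, Sum.inr ⟨0, hQ' j⟩⟩
  have hi' : ∀ j : Fin T.kron.length, i ≠ Sum.inl j := by
    rintro j rfl
    rw [kron_blocks hκ j] at hi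
    cases hi
  have hf : Function.Injective f := by
    intro a b hab
    cases a with
    | none =>
      cases b with
      | none => rfl
      | some j => exact absurd (congrArg Sigma.fst hab) (hi' j)
    | some j =>
      cases b with
      | none => exact absurd (congrArg Sigma.fst hab).symm (hi' j)
      | some j' =>
        have := congrArg Sigma.fst hab
        simp only [f] at this
        rw [Sum.inl.inj this]
  have hind : LinearIndependent ℂ (v ∘ f) := v.linearIndependent.comp f hf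
  have hmem : ∀ o, (v ∘ f) o ∈ LinearMap.ker B := by
    intro o
    rw [LinearMap.mem_ker]
    refine LinearMap.ext fun η => ?_
    cases o with
    | none =>
      have := inf_q_ker hB i n hi η
      rw [qv, dif_pos hQ] at this
      exact this
    | some j =>
      have := kron_qv_ker hκ hB j η
      rw [qv, dif_pos (hQ' j)] at this
      exact this
  have hind' : LinearIndependent ℂ (fun o => (⟨(v ∘ f) o, hmem o⟩ : LinearMap.ker B)) :=
    LinearIndependent.of_comp (LinearMap.ker B).subtype (by exact hind)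
  have := hind'.fintype_card_le_finrank
  simp at this
  omega

theorem ker_eq [FiniteDimensional ℂ V] (hκ : ∀ k ∈ T.kron, k = 0)
    (hA : ∀ s t, A (v s) (v t) = skewEnt Block.entA (T.blocks μ) s t)
    (hB : ∀ s t, B (v s) (v t) = skewEnt Block.entB (T.blocks μ) s t)
    (hdim : finrank ℂ (LinearMap.ker B) ≤ T.kron.length) (z : V) (hz : B z = 0) : A z = 0 := by
  have hQ' : ∀ j : Fin T.kron.length, 0 < (T.blocks μ (Sum.inl j)).Q := by
    intro j
    rw [kron_blocks hκ j]
    exact Nat.one_pos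
  let f : Fin T.kron.length → (Σ i, Fin (T.blocks μ i).P ⊕ Fin (T.blocks μ i).Q) :=
    fun j => ⟨Sum.inl j, Sum.inr ⟨0, hQ' j⟩⟩
  have hf : Function.Injective f := by
    intro a b hab
    exact Sum.inl.inj (congrArg Sigma.fst hab)
  have hind : LinearIndependent ℂ (v ∘ f) := v.linearIndependent.comp f hf
  have hvf : ∀ j, (v ∘ f) j = qv v (Sum.inl j) 0 := by
    intro j
    rw [qv, dif_pos (hQ' j)]
    rfl
  have hle : Submodule.span ℂ (Set.range (v ∘ f)) ≤ LinearMap.ker B := by
    rw [Submodule.span_le]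
    rintro _ ⟨j, rfl⟩
    rw [SetLike.mem_coe, LinearMap.mem_ker, hvf]
    exact LinearMap.ext fun η => kron_qv_ker hκ hB j η
  have heq : Submodule.span ℂ (Set.range (v ∘ f)) = LinearMap.ker B := by
    apply Submodule.eq_of_le_of_finrank_le hle
    rw [finrank_span_eq_card hind, Fintype.card_fin]
    exact hdim
  have hle' : Submodule.span ℂ (Set.range (v ∘ f)) ≤ LinearMap.ker A := by
    rw [Submodule.span_le]
    rintro _ ⟨j, rfl⟩
    rw [SetLike.mem_coe, LinearMap.mem_ker, hvf]
    exact LinearMap.ext fun η => kron_qv_ker hκ hA j η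
  have : z ∈ LinearMap.ker B := hz
  rw [← heq] at this
  exact hle' this

theorem jord_block (lam : Fin T.jordan.length → ℂ) (hμ : ∀ g, μ g = some (lam g))
    (g : Fin T.jordan.length) (b : Fin (T.jordan.get g).length) :
    T.blocks μ (Sum.inr ⟨g, b⟩) = .jord ((T.jordan.get g).get b) (some (lam g)) := by
  simp only [AlgType.blocks]
  rw [hμ g]

/-- `∏ (X - λ_g)^(largest size of g)` -/
noncomputable def minPol (T : AlgType) (lam : Fin T.jordan.length → ℂ) : ℂ[X] :=
  ∏ g : Fin T.jordan.length, (X - C (lam g)) ^ gmax (T.jordan.get g)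

theorem aeval_zero_of_dvd {R : Module.End ℂ V} (hR : ∀ ξ η, B (R ξ) η = A ξ η)
    (hBs : ∀ ξ η, B ξ η = - B η ξ)
    (hκ : ∀ k ∈ T.kron, k = 0) (lam : Fin T.jordan.length → ℂ) (hμ : ∀ g, μ g = some (lam g))
    (hA : ∀ s t, A (v s) (v t) = skewEnt Block.entA (T.blocks μ) s t)
    (hB : ∀ s t, B (v s) (v t) = skewEnt Block.entB (T.blocks μ) s t)
    (f : ℂ[X]) (hf : minPol T lam ∣ f) (ξ η : V) : B (aeval R f ξ) η = 0 := by
  have hdvd : ∀ (g : Fin T.jordan.length) (b : Fin (T.jordan.get g).length),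
      (X - C (lam g)) ^ ((T.jordan.get g).get b) ∣ f := by
    intro g b
    refine dvd_trans ?_ (dvd_trans (Finset.dvd_prod_of_mem _ (Finset.mem_univ g)) hf)
    exact pow_dvd_pow _ (le_gmax (List.get_mem _ _))
  have key : B (aeval R f ξ) = 0 := by
    refine ext_pq (v := v) (fun i l hl => ?_) (fun i l hl => ?_)
    · rcases i with j | ⟨g, b⟩
      · rw [kron_blocks hκ j] at hl
        simp [Block.P] at hl
      · have hb := jord_block (μ := μ) lam hμ g b
        rw [hb] at hl
        have hl' : l < (T.jordan.get g).get b := hl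
        have h1 := (chain_p hA hB _ _ _ hb).aeval_dvd hR f (hdvd g b)
          ((T.jordan.get g).get b - 1 - l) (by omega) ξ
        have h0 : (T.jordan.get g).get b - 1 - ((T.jordan.get g).get b - 1 - l) = l := by omega
        simp only [h0] at h1
        rw [LinearMap.zero_apply]
        exact h1
    · rcases i with j | ⟨g, b⟩
      · rw [kron_blocks hκ j] at hl
        have hl0 : l = 0 := by simp [Block.Q] at hl; exact hl
        subst hl0
        rw [hBs, kron_qv_ker hκ hB j, neg_zero, LinearMap.zero_apply]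
      · have hb := jord_block (μ := μ) lam hμ g b
        rw [hb] at hl
        rw [LinearMap.zero_apply]
        exact (chain_q hA hB _ _ _ hb).aeval_dvd hR f (hdvd g b) l hl ξ
  rw [key, LinearMap.zero_apply]

/-- The value of `B(f(R) p_0, q_l)` in a Jordan block. -/
theorem aeval_p0_q {R : Module.End ℂ V} (hR : ∀ ξ η, B (R ξ) η = A ξ η)
    (lam : Fin T.jordan.length → ℂ) (hμ : ∀ g, μ g = some (lam g))
    (hA : ∀ s t, A (v s) (v t) = skewEnt Block.entA (T.blocks μ) s t)
    (hB : ∀ s t, B (v s) (v t) = skewEnt Block.entB (T.blocks μ) s t)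
    (f : ℂ[X]) (g : Fin T.jordan.length) (b : Fin (T.jordan.get g).length) (l : ℕ)
    (hl : l < (T.jordan.get g).get b) :
    B (aeval R f (pv v (Sum.inr ⟨g, b⟩) 0)) (qv v (Sum.inr ⟨g, b⟩) l) =
      (taylor (lam g) f).coeff l := by
  have hb := jord_block (μ := μ) lam hμ g b
  rw [(chain_q hA hB _ _ _ hb).aeval_taylor hR f l hl]
  rw [Finset.sum_eq_single l]
  · have h1 : (0 : ℕ) < (T.jordan.get g).get b := by omega
    have h2 : (0 : ℕ) < (T.blocks μ (Sum.inr ⟨g, b⟩)).P := by rw [hb]; exact h1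
    have h3 : l - l < (T.blocks μ (Sum.inr ⟨g, b⟩)).Q := by
      rw [hb, Nat.sub_self]
      exact h1
    rw [form_pq hB, if_pos ⟨rfl, h2, h3⟩, hb]
    simp [Block.entB]
  · intro r hr hne
    rw [Finset.mem_range] at hr
    rw [form_pq hB]
    have h1 : ¬ 0 = l - r := by omega
    simp only [hb, Block.P, Block.Q, Block.entB]
    simp [h1]
  · intro h
    simp at h

theorem minPol_dvd (hT : T.Valid) {R : Module.End ℂ V} (hR : ∀ ξ η, B (R ξ) η = A ξ η)
    (lam : Fin T.jordan.length → ℂ) (hμ : ∀ g, μ g = some (lam g)) (hinj : Function.Injective lam)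
    (hA : ∀ s t, A (v s) (v t) = skewEnt Block.entA (T.blocks μ) s t)
    (hB : ∀ s t, B (v s) (v t) = skewEnt Block.entB (T.blocks μ) s t)
    (f : ℂ[X]) (hf : ∀ ξ η, B (aeval R f ξ) η = 0) : minPol T lam ∣ f := by
  refine Finset.prod_dvd_of_coprime ?_ ?_
  · intro g _ g' _ hne
    exact (Polynomial.isCoprime_X_sub_C_of_isUnit_sub
      ((sub_ne_zero.2 (fun h => hne (hinj h))).isUnit)).pow
  · intro g _
    have hne : T.jordan.get g ≠ [] := (hT _ (List.get_mem _ _)).1
    obtain ⟨b, hb⟩ := List.mem_iff_get.1 (gmax_mem hne)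
    rw [← hb]
    have h1 : (X : ℂ[X]) ^ ((T.jordan.get g).get b) ∣ taylor (lam g) f := by
      rw [Polynomial.X_pow_dvd_iff]
      intro d hd
      rw [← aeval_p0_q hR lam hμ hA hB f g b d hd]
      exact hf _ _
    obtain ⟨h, hh⟩ := h1
    refine ⟨taylor (-lam g) h, ?_⟩
    have h2 : f = taylor (-lam g) (taylor (lam g) f) := by
      rw [Polynomial.taylor_taylor]
      simp
    rw [h2, hh, Polynomial.taylor_mul]
    congr 1
    simp [Polynomial.taylor_apply, sub_eq_add_neg]

/-- Vectors outside a Jordan block. -/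
theorem outside {R : Module.End ℂ V} (hR : ∀ ξ η, B (R ξ) η = A ξ η)
    (lam : Fin T.jordan.length → ℂ) (hμ : ∀ g, μ g = some (lam g))
    (hA : ∀ s t, A (v s) (v t) = skewEnt Block.entA (T.blocks μ) s t)
    (hB : ∀ s t, B (v s) (v t) = skewEnt Block.entB (T.blocks μ) s t)
    (g : Fin T.jordan.length) (b : Fin (T.jordan.get g).length)
    (s : Σ i, Fin (T.blocks μ i).P ⊕ Fin (T.blocks μ i).Q) (hs : s.1 ≠ Sum.inr ⟨g, b⟩)
    (f : ℂ[X]) (l : ℕ) (hl : l < (T.jordan.get g).get b) :
    B (aeval R f (v s)) (qv v (Sum.inr ⟨g, b⟩) l) = 0 ∧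
      B (aeval R f (v s)) (pv v (Sum.inr ⟨g, b⟩) l) = 0 := by
  have hb := jord_block (μ := μ) lam hμ g b
  have hvs : (∃ a, v s = pv v s.1 a) ∨ (∃ a, v s = qv v s.1 a) := by
    obtain ⟨i, s⟩ := s
    cases s with
    | inl p => exact Or.inl ⟨p, by simp [pv]⟩
    | inr q => exact Or.inr ⟨q, by simp [qv]⟩
  have h0q : ∀ l, B (v s) (qv v (Sum.inr ⟨g, b⟩) l) = 0 := by
    intro l
    rcases hvs with ⟨a, ha⟩ | ⟨a, ha⟩
    · rw [ha, form_pq hB]
      simp [hs]
    · rw [ha, form_qq hB]
  have h0p : ∀ l, B (v s) (pv v (Sum.inr ⟨g, b⟩) l) = 0 := by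
    intro l
    rcases hvs with ⟨a, ha⟩ | ⟨a, ha⟩
    · rw [ha, form_pp hB]
    · rw [ha, form_qp hB]
      simp [hs]
  constructor
  · rw [(chain_q hA hB _ _ _ hb).aeval_taylor hR f l hl]
    exact Finset.sum_eq_zero fun r _ => by rw [h0q, mul_zero]
  · have h1 := (chain_p hA hB _ _ _ hb).aeval_taylor hR f
      ((T.jordan.get g).get b - 1 - l) (by omega) (v s)
    have h0 : (T.jordan.get g).get b - 1 - ((T.jordan.get g).get b - 1 - l) = l := by omega
    simp only [h0] at h1
    rw [h1]
    exact Finset.sum_eq_zero fun r _ => by rw [h0p, mul_zero]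

end

end P8H59.JK
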