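import Pool.Agent.P8H59.JK.Nec3

/-!
# Necessity, part 4: types with trivial Kronecker blocks
-/

namespace P8H59.JK

open Module Polynomial

theorem countP_le_one {α : Type} (p : α → Bool) (L : List α)
    (h : ∀ i j : Fin L.length, p (L.get i) → p (L.get j) → i = j) : L.countP p ≤ 1 := by
  induction L with
  | nil => simp
  | cons a L ih =>
    by_cases ha : p a
    · have h0 : L.countP p = 0 := by
        rw [List.countP_eq_zero]
        intro b hb hpb
        obtain ⟨j, hj⟩ := List.mem_iff_get.1 hb
        have := h ⟨0, by simp⟩ j.succ (by simpa using ha) (by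
          rw [List.get_cons_succ', hj]
          exact hpb)
        have h1 := congrArg Fin.val this
        simp at h1
      rw [List.countP_cons_of_pos ha, h0]
    · rw [List.countP_cons_of_neg ha]
      apply ih
      intro i j hi hj
      have := h i.succ j.succ (by rw [List.get_cons_succ']; exact hi)
        (by rw [List.get_cons_succ']; exact hj)
      exact Fin.succ_injective _ this

section

variable {g : Type} [LieRing g] [LieAlgebra ℂ g] [FiniteDimensional ℂ g] {T : AlgType}

theorem exists_good_a (hκ : ∀ k ∈ T.kron, k = 0) (F : MvPolynomial (g ⊕ g) ℂ)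
    (x₁ a₁ : Dual ℂ g) (h1 : MvPolynomial.eval (Sum.elim x₁ a₁) F ≠ 0)
    (hT : HasType (lieForm x₁) (lieForm a₁) T) :
    ∃ a : Dual ℂ g, MvPolynomial.eval (Sum.elim x₁ a) F ≠ 0 ∧
      finrank ℂ (LinearMap.ker (lieForm a)) ≤ T.kron.length := by
  classical
  obtain ⟨μ, -, v, hv⟩ := hT
  have hfin := finite_zeros_on_line F (Sum.elim x₁ a₁) (Sum.elim (fun _ => 0) x₁) h1
  have hfin2 : (Set.range (fun i : Fin T.jordan.length =>
      match μ i with
      | some l => -l⁻¹
      | none => 0) : Set ℂ).Finite := Set.finite_range _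
  obtain ⟨s, hs⟩ := ((hfin.union hfin2).union (Set.finite_singleton 0)).infinite_compl.nonempty
  simp only [Set.mem_compl_iff, Set.mem_union, Set.mem_singleton_iff, not_or] at hs
  obtain ⟨⟨hs1, hs2⟩, hs3⟩ := hs
  refine ⟨a₁ + s • x₁, ?_, ?_⟩
  · have : Sum.elim (x₁ : g → ℂ) ((a₁ + s • x₁ : Dual ℂ g) : g → ℂ) =
        (Sum.elim (x₁ : g → ℂ) a₁ + s • Sum.elim (fun _ => (0 : ℂ)) (x₁ : g → ℂ)) := by
      funext i
      cases i <;> simp
    rw [this]
    exact hs1
  · have hle : LinearMap.ker (lieForm (a₁ + s • x₁)) ≤ Submodule.span ℂ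
        (Set.range (fun i : {i // T.blocks μ i = .kron 0} => qv v i.1 0)) := by
      intro ξ hξ
      refine ker_le_span (fun s t => (hv s t).1) (fun s t => (hv s t).2) ?_ s hs3 ?_ ξ ?_
      · intro i k hi
        rcases i with j | ⟨i, b⟩
        · simp only [AlgType.blocks, Block.kron.injEq] at hi
          rw [← hi]
          exact hκ _ (List.get_mem _ _)
        · simp [AlgType.blocks] at hi
      · intro i n lam hi h0
        rcases i with j | ⟨i, b⟩
        · simp [AlgType.blocks] at hi
        · simp only [AlgType.blocks, Block.jord.injEq] at hi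
          apply hs2
          refine ⟨i, ?_⟩
          simp only [hi.2]
          have hl : lam ≠ 0 := by
            rintro rfl
            simp at h0
          field_simp
          linear_combination -h0
      · intro η
        have h2 : lieForm (a₁ + s • x₁) ξ = 0 := hξ
        have h3 := LinearMap.congr_fun h2 η
        rw [lieForm_apply] at h3
        rw [lieForm_apply, lieForm_apply]
        simpa using h3
    have hcard : Fintype.card {i // T.blocks μ i = .kron 0} ≤ T.kron.length := by
      have hinj2 : Function.Injective (fun i : {i // T.blocks μ i = .kron 0} =>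
          (match i with
            | ⟨Sum.inl j, _⟩ => j
            | ⟨Sum.inr t, ht⟩ => absurd ht (by simp [AlgType.blocks]) : Fin T.kron.length)) := by
        rintro ⟨i, hi⟩ ⟨j, hj⟩ hij
        rcases i with i | ⟨i, b⟩
        · rcases j with j | ⟨j, b⟩
          · simp only at hij
            simp [hij]
          · simp [AlgType.blocks] at hj
        · simp [AlgType.blocks] at hi
      have := Fintype.card_le_of_injective _ hinj2
      simpa using this
    refine (Submodule.finrank_mono hle).trans ((finrank_range_le_card _).trans hcard)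

theorem necessary' (hT : T.Valid) (hκ : T.kron = [] ∨ T.kron = [0]) (h : IsJK g T) :
    T.numBad ≤ T.kron.length := by
  classical
  have hκ0 : ∀ k ∈ T.kron, k = 0 := by
    rcases hκ with h0 | h0 <;> rw [h0] <;> simp
  obtain ⟨F, ⟨x₁, a₁, h1⟩, hgen⟩ := h
  obtain ⟨a, ha, hdim⟩ := exists_good_a hκ0 F x₁ a₁ h1 (hgen x₁ a₁ h1)
  -- freeze `a`
  let H : MvPolynomial (Dual ℂ (Dual ℂ g)) ℂ := MvPolynomial.aeval
    (Sum.elim (fun v : g => MvPolynomial.X (Module.Dual.eval ℂ g v))
      (fun v : g => MvPolynomial.C (a v))) F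
  have hHF : ∀ x : Dual ℂ g, MvPolynomial.eval (fun φ => φ x) H =
      MvPolynomial.eval (Sum.elim x a) F := by
    intro x
    have h2 : MvPolynomial.eval (fun φ : Dual ℂ (Dual ℂ g) => φ x) H =
        (MvPolynomial.aeval (fun φ : Dual ℂ (Dual ℂ g) => φ x)) H := rfl
    have h3 : ((MvPolynomial.aeval (fun φ : Dual ℂ (Dual ℂ g) => φ x)).comp
        (MvPolynomial.aeval (Sum.elim (fun v : g => MvPolynomial.X (Module.Dual.eval ℂ g v))
          (fun v : g => MvPolynomial.C (a v)))) : MvPolynomial (g ⊕ g) ℂ →ₐ[ℂ] ℂ) =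
        MvPolynomial.aeval (Sum.elim (x : g → ℂ) a) := by
      apply MvPolynomial.algHom_ext
      intro i
      cases i <;> simp
    have h4 := AlgHom.congr_fun h3 F
    rw [AlgHom.comp_apply] at h4
    rw [h2, h4]
    rfl
  have hgenH : ∀ x : Dual ℂ g, MvPolynomial.eval (fun φ => φ x) H ≠ 0 →
      HasType (lieForm x) (lieForm a) T := by
    intro x hx
    rw [hHF] at hx
    exact hgen x a hx
  have hBs := lieForm_skew a
  -- the case of an injective form
  have hinjcase : LinearMap.ker (lieForm a) = ⊥ → T.numBad = 0 := by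
    intro hker
    obtain ⟨w, hw⟩ := mem_range_of_skew (lieForm a) hBs a (fun z hz => by
      have : z ∈ LinearMap.ker (lieForm a) := hz
      rw [hker, Submodule.mem_bot] at this
      rw [this, map_zero])
    obtain ⟨lam, -, hlam⟩ := core hT hκ0 a x₁ hdim H (by rw [hHF]; exact ha) hgenH 0 1
      ⟨w, by rw [hw]; simp⟩
    rw [AlgType.numBad, List.countP_eq_zero]
    intro G hG hbad
    obtain ⟨i, hi⟩ := List.mem_iff_get.1 hG
    have := hlam i (by rw [hi]; simpa using hbad)
    simp at this
  by_cases hker : LinearMap.ker (lieForm a) = ⊥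
  · rw [hinjcase hker]
    exact Nat.zero_le _
  · have hlen : T.kron.length = 1 := by
      rcases hκ with h0 | h0
      · exfalso
        apply hker
        rw [h0] at hdim
        simp only [List.length_nil, nonpos_iff_eq_zero] at hdim
        exact Submodule.finrank_eq_zero.1 hdim
      · rw [h0]
        rfl
    rw [hlen] at hdim ⊢
    obtain ⟨z, hz, hz0⟩ := Submodule.exists_mem_ne_zero_of_ne_bot hker
    have hspan : ∀ w ∈ LinearMap.ker (lieForm a), ∃ r : ℂ, w = r • z := by
      intro w hw
      obtain ⟨u, hu⟩ := finrank_le_one_iff.1 hdim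
      obtain ⟨r, hr⟩ := hu ⟨z, hz⟩
      obtain ⟨r', hr'⟩ := hu ⟨w, hw⟩
      have hr1 : r • (u : g) = z := congrArg Subtype.val hr
      have hr2 : r' • (u : g) = w := congrArg Subtype.val hr'
      have hr0 : r ≠ 0 := by
        rintro rfl
        rw [zero_smul] at hr1
        exact hz0 hr1.symm
      refine ⟨r' / r, ?_⟩
      rw [← hr1, ← hr2, smul_smul, div_mul_cancel₀ _ hr0]
    -- choose `x₀` with `x₀ z ≠ 0`
    obtain ⟨y, hy⟩ : ∃ y : Dual ℂ g, y z ≠ 0 := by
      by_contra hno
      push Not at hno
      exact hz0 ((Module.forall_dual_apply_eq_zero_iff ℂ z).1 hno)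
    have hx₁ : MvPolynomial.eval (fun φ => φ x₁) H ≠ 0 := by rw [hHF]; exact ha
    have hfin := finite_zeros_on_line H (fun φ => φ x₁) (fun φ => φ y) hx₁
    obtain ⟨s, hs⟩ := (hfin.union
      (Set.finite_singleton (-(x₁ z) / y z))).infinite_compl.nonempty
    simp only [Set.mem_compl_iff, Set.mem_union, Set.mem_singleton_iff, not_or] at hs
    obtain ⟨hs1, hs2⟩ := hs
    set x₀ := x₁ + s • y with hx₀
    have hx₀H : MvPolynomial.eval (fun φ => φ x₀) H ≠ 0 := by
      have h1 : ((fun φ : Dual ℂ (Dual ℂ g) => φ x₁) + s • (fun φ : Dual ℂ (Dual ℂ g) => φ y)) =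
          (fun φ => φ x₀) := by
        funext φ
        simp [hx₀]
      rw [← h1]
      exact hs1
    have hx₀z : x₀ z ≠ 0 := by
      intro h0
      apply hs2
      rw [hx₀, LinearMap.add_apply, LinearMap.smul_apply, smul_eq_mul] at h0
      field_simp
      linear_combination h0
    obtain ⟨w, hw⟩ := mem_range_of_skew (lieForm a) hBs ((a z) • x₀ + (-(x₀ z)) • a)
      (fun z' hz' => by
        obtain ⟨r, rfl⟩ := hspan z' hz'
        simp only [LinearMap.add_apply, LinearMap.smul_apply, map_smul, smul_eq_mul]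
        ring)
    obtain ⟨lam, hinj, hlam⟩ := core hT hκ0 a x₀ (by rw [hlen]; exact hdim) H hx₀H hgenH
      (a z) (-(x₀ z)) ⟨w, hw⟩
    rw [AlgType.numBad]
    apply countP_le_one
    intro i j hi hj
    have h5 := hlam i (by simpa using hi)
    have h6 := hlam j (by simpa using hj)
    apply hinj
    have h7 : a z ≠ 0 := by
      intro h0
      rw [h0, zero_mul, zero_add, neg_eq_zero] at h5
      exact hx₀z h5
    have h8 : a z * (lam i - lam j) = 0 := by linear_combination h5 - h6
    exact sub_eq_zero.1 ((mul_eq_zero.1 h8).resolve_left h7)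

end

theorem necessary (T : AlgType) (hT : T.Valid) (hκ : T.kron = [] ∨ T.kron = [0])
    (h : Realisable T) : T.numBad ≤ T.kron.length := by
  obtain ⟨g, i1, i2, i3, h⟩ := h
  exact necessary' hT hκ h

end P8H59.JK
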