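import Pool.Agent.P8H59.JK.GEN
import Pool.Agent.P8H59.JK.PI
import Pool.Agent.P8H59.JK.REAL

/-!
# Package THA of project JK: types with two `1 × 1` Kronecker blocks or a `3 × 3` block (helper43)

The generic member of the pencil of the model is a linear change of the pencil; a linear change moves the
eigenvalues by a Moebius transformation and keeps the sizes of the blocks: the new bases consist of the
products `(x₁ + x₂ X)^(m - q) (a₁ + a₂ X)^q`.
-/

set_option autoImplicit false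

namespace P8H59.JK

open Module

namespace THAaux

open Polynomial (X C coeff)

/-- the first `m` coefficients -/
noncomputable def cf (m : ℕ) : Polynomial ℂ →ₗ[ℂ] (Fin m → ℂ) :=
  LinearMap.pi (fun i => Polynomial.lcoeff ℂ (i : ℕ))

lemma cf_apply (m : ℕ) (f : Polynomial ℂ) (i : Fin m) : cf m f i = f.coeff i := rfl

/-- the span of the products of `n` factors -/
noncomputable def Sp (L1 L2 : Polynomial ℂ) (n : ℕ) : Submodule ℂ (Polynomial ℂ) :=
  Submodule.span ℂ (Set.range (fun q : Fin (n + 1) => L1 ^ (n - (q : ℕ)) * L2 ^ (q : ℕ)))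

lemma Sp_mul1 (L1 L2 : Polynomial ℂ) (n : ℕ) (f : Polynomial ℂ) (hf : f ∈ Sp L1 L2 n) : L1 * f ∈ Sp L1 L2 (n + 1) := by
  unfold Sp at hf
  induction hf using Submodule.span_induction with
  | mem x hx =>
    obtain ⟨q, rfl⟩ := hx
    apply Submodule.subset_span
    refine ⟨⟨q, by omega⟩, ?_⟩
    have : n + 1 - (q : ℕ) = (n - (q : ℕ)) + 1 := by omega
    simp only [this]
    ring
  | zero => rw [mul_zero]; exact Submodule.zero_mem _
  | add x y _ _ hx hy => rw [mul_add]; exact Submodule.add_mem _ hx hy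
  | smul a x _ hx => rw [mul_smul_comm]; exact Submodule.smul_mem _ _ hx

lemma Sp_mul2 (L1 L2 : Polynomial ℂ) (n : ℕ) (f : Polynomial ℂ) (hf : f ∈ Sp L1 L2 n) : L2 * f ∈ Sp L1 L2 (n + 1) := by
  unfold Sp at hf
  induction hf using Submodule.span_induction with
  | mem x hx =>
    obtain ⟨q, rfl⟩ := hx
    apply Submodule.subset_span
    refine ⟨⟨q + 1, by omega⟩, ?_⟩
    have : n + 1 - ((q : ℕ) + 1) = (n - (q : ℕ)) := by omega
    simp only [this]
    ring
  | zero => rw [mul_zero]; exact Submodule.zero_mem _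
  | add x y _ _ hx hy => rw [mul_add]; exact Submodule.add_mem _ hx hy
  | smul a x _ hx => rw [mul_smul_comm]; exact Submodule.smul_mem _ _ hx

/-- the linear factors -/
noncomputable def lin (a b : ℂ) : Polynomial ℂ := C a + C b * X

lemma X_pow_mem (x1 x2 a1 a2 : ℂ) (hD : x1 * a2 - x2 * a1 ≠ 0) (n : ℕ) :
    ∀ j ≤ n, (X ^ j : Polynomial ℂ) ∈ Sp (lin x1 x2) (lin a1 a2) n := by
  set D := x1 * a2 - x2 * a1 with hDdef
  have h1 : ∀ f : Polynomial ℂ, f = (a2 / D) • (lin x1 x2 * f) + (-x2 / D) • (lin a1 a2 * f) := by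
    intro f
    have : (a2 / D) * x1 + (-x2 / D) * a1 = 1 := by
      field_simp
      rw [hDdef]
      ring
    have h2 : (a2 / D) * x2 + (-x2 / D) * a2 = 0 := by
      field_simp
      ring
    unfold lin
    rw [Polynomial.smul_eq_C_mul, Polynomial.smul_eq_C_mul]
    calc f = (C ((a2 / D) * x1 + (-x2 / D) * a1) + C ((a2 / D) * x2 + (-x2 / D) * a2) * X) * f := by
          rw [this, h2]; simp
      _ = _ := by
          simp only [Polynomial.C_add, Polynomial.C_mul]
          ring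
  have h3 : ∀ f : Polynomial ℂ, X * f = (-a1 / D) • (lin x1 x2 * f) + (x1 / D) • (lin a1 a2 * f) := by
    intro f
    have : (-a1 / D) * x1 + (x1 / D) * a1 = 0 := by
      field_simp
      ring
    have h2 : (-a1 / D) * x2 + (x1 / D) * a2 = 1 := by
      field_simp
      rw [hDdef]
      ring
    unfold lin
    rw [Polynomial.smul_eq_C_mul, Polynomial.smul_eq_C_mul]
    calc X * f = (C ((-a1 / D) * x1 + (x1 / D) * a1) + C ((-a1 / D) * x2 + (x1 / D) * a2) * X) * f := by
          rw [this, h2]; simp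
      _ = _ := by
          simp only [Polynomial.C_add, Polynomial.C_mul]
          ring
  induction n with
  | zero =>
    intro j hj
    have : j = 0 := by omega
    subst this
    apply Submodule.subset_span
    exact ⟨0, by simp⟩
  | succ n ih =>
    intro j hj
    rcases Nat.lt_or_ge n j with h | h
    · have : j = n + 1 := by omega
      subst this
      rw [pow_succ', h3]
      exact Submodule.add_mem _ (Submodule.smul_mem _ _ (Sp_mul1 _ _ _ _ (ih n le_rfl)))
        (Submodule.smul_mem _ _ (Sp_mul2 _ _ _ _ (ih n le_rfl)))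
    · rw [h1 (X ^ j)]
      exact Submodule.add_mem _ (Submodule.smul_mem _ _ (Sp_mul1 _ _ _ _ (ih j h)))
        (Submodule.smul_mem _ _ (Sp_mul2 _ _ _ _ (ih j h)))

/-- the coefficient vectors of the products of `m - 1` linear factors -/
noncomputable def fam (L1 L2 : Polynomial ℂ) (m : ℕ) (q : Fin m) : Fin m → ℂ :=
  cf m (L1 ^ (m - 1 - (q : ℕ)) * L2 ^ (q : ℕ))

lemma fam_span (x1 x2 a1 a2 : ℂ) (hD : x1 * a2 - x2 * a1 ≠ 0) (m : ℕ) :
    ⊤ ≤ Submodule.span ℂ (Set.range (fam (lin x1 x2) (lin a1 a2) m)) := by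
  rcases Nat.eq_zero_or_pos m with h | h
  · subst h
    intro v _
    have : v = 0 := Subsingleton.elim _ _
    rw [this]
    exact Submodule.zero_mem _
  · obtain ⟨n, rfl⟩ : ∃ n, m = n + 1 := ⟨m - 1, by omega⟩
    have h1 : Submodule.map (cf (n + 1)) (Sp (lin x1 x2) (lin a1 a2) n) ≤
        Submodule.span ℂ (Set.range (fam (lin x1 x2) (lin a1 a2) (n + 1))) := by
      unfold Sp
      rw [Submodule.map_span, Submodule.span_le]
      rintro _ ⟨_, ⟨q, rfl⟩, rfl⟩
      apply Submodule.subset_span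
      exact ⟨q, rfl⟩
    intro v _
    have h2 : v = ∑ i, v i • cf (n + 1) (X ^ (i : ℕ)) := by
      funext j
      rw [Finset.sum_apply]
      simp only [Pi.smul_apply, cf_apply, Polynomial.coeff_X_pow, smul_eq_mul, mul_ite, mul_one, mul_zero]
      rw [Finset.sum_eq_single j]
      · simp
      · intro b _ hb
        rw [if_neg]
        intro h
        exact hb (Fin.ext h.symm)
      · intro h
        exact absurd (Finset.mem_univ j) h
    rw [h2]
    apply Submodule.sum_mem
    intro i _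
    apply Submodule.smul_mem
    apply h1
    exact Submodule.mem_map_of_mem (X_pow_mem x1 x2 a1 a2 hD n i (by omega))

/-- the basis -/
noncomputable def bas (x1 x2 a1 a2 : ℂ) (hD : x1 * a2 - x2 * a1 ≠ 0) (m : ℕ) : Basis (Fin m) ℂ (Fin m → ℂ) :=
  basisOfTopLeSpanOfCardEqFinrank (fam (lin x1 x2) (lin a1 a2) m) (fam_span x1 x2 a1 a2 hD m) (by simp)

lemma bas_apply (x1 x2 a1 a2 : ℂ) (hD : x1 * a2 - x2 * a1 ≠ 0) (m : ℕ) (q : Fin m) :
    bas x1 x2 a1 a2 hD m q = cf m (lin x1 x2 ^ (m - 1 - (q : ℕ)) * lin a1 a2 ^ (q : ℕ)) := by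
  unfold bas
  rw [coe_basisOfTopLeSpanOfCardEqFinrank]
  rfl

/-- the inclusion -/
noncomputable def inc (k : ℕ) : (Fin k → ℂ) →ₗ[ℂ] (Fin (k + 1) → ℂ) where
  toFun v q := if h : (q : ℕ) < k then v ⟨q, h⟩ else 0
  map_add' v w := by
    funext q
    simp only [Pi.add_apply]
    split_ifs <;> simp
  map_smul' c v := by
    funext q
    simp only [Pi.smul_apply, RingHom.id_apply]
    split_ifs <;> simp

/-- the shift -/
noncomputable def sft (k m : ℕ) : (Fin k → ℂ) →ₗ[ℂ] (Fin m → ℂ) where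
  toFun v q := if h : 1 ≤ (q : ℕ) ∧ (q : ℕ) - 1 < k then v ⟨q - 1, h.2⟩ else 0
  map_add' v w := by
    funext q
    simp only [Pi.add_apply]
    split_ifs <;> simp
  map_smul' c v := by
    funext q
    simp only [Pi.smul_apply, RingHom.id_apply]
    split_ifs <;> simp

lemma inc_cf (k : ℕ) (f : Polynomial ℂ) (hf : f.coeff k = 0) : inc k (cf k f) = cf (k + 1) f := by
  funext q
  simp only [inc, LinearMap.coe_mk, AddHom.coe_mk, cf_apply]
  split_ifs with h
  · rfl
  · have : (q : ℕ) = k := by omega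
    rw [this, hf]

lemma sft_cf (k m : ℕ) (f : Polynomial ℂ) (hf : m ≤ k + 1) : sft k m (cf k f) = cf m (X * f) := by
  funext q
  simp only [sft, LinearMap.coe_mk, AddHom.coe_mk, cf_apply]
  split_ifs with h
  · obtain ⟨r, hr⟩ : ∃ r, (q : ℕ) = r + 1 := ⟨(q : ℕ) - 1, by omega⟩
    simp only [hr, Nat.add_sub_cancel, Polynomial.coeff_X_mul]
  · have : (q : ℕ) = 0 := by omega
    rw [this, Polynomial.mul_coeff_zero, Polynomial.coeff_X_zero, zero_mul]

lemma lin_natDegree (a b : ℂ) : (lin a b).natDegree ≤ 1 := by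
  unfold lin
  refine (Polynomial.natDegree_add_le _ _).trans ?_
  rw [Polynomial.natDegree_C]
  refine max_le (Nat.zero_le _) ?_
  refine (Polynomial.natDegree_mul_le).trans ?_
  rw [Polynomial.natDegree_C, Polynomial.natDegree_X]

lemma prod_coeff (x1 x2 a1 a2 : ℂ) (k p : ℕ) (hp : p < k) :
    (lin x1 x2 ^ (k - 1 - p) * lin a1 a2 ^ p).coeff k = 0 := by
  apply Polynomial.coeff_eq_zero_of_natDegree_lt
  refine lt_of_le_of_lt Polynomial.natDegree_mul_le ?_
  have h1 := Polynomial.natDegree_pow_le (p := lin x1 x2) (n := k - 1 - p)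
  have h2 := Polynomial.natDegree_pow_le (p := lin a1 a2) (n := p)
  have h3 := Nat.mul_le_mul_left (k - 1 - p) (lin_natDegree x1 x2)
  have h4 := Nat.mul_le_mul_left p (lin_natDegree a1 a2)
  omega

lemma sum_ent {Y : Type} [AddCommGroup Y] [Module ℂ Y] (m p : ℕ) (y : Fin m → Y) (μ ν : ℂ) :
    ∑ q : Fin m, (if p = (q : ℕ) then μ else if p + 1 = (q : ℕ) then ν else 0) • y q =
      (if h : p < m then μ • y ⟨p, h⟩ else 0) + (if h : p + 1 < m then ν • y ⟨p + 1, h⟩ else 0) := by
  have h1 : ∀ q : Fin m, (if p = (q : ℕ) then μ else if p + 1 = (q : ℕ) then ν else 0) • y q =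
      (if p = (q : ℕ) then μ • y q else 0) + (if p + 1 = (q : ℕ) then ν • y q else 0) := by
    intro q
    split_ifs with h2 h3
    · omega
    · simp
    · simp
    · simp
  simp only [h1]
  rw [Finset.sum_add_distrib]
  congr 1
  · split_ifs with h
    · rw [Finset.sum_eq_single ⟨p, h⟩]
      · simp
      · intro b _ hb
        rw [if_neg]
        intro h2
        exact hb (Fin.ext h2.symm)
      · intro h2
        exact absurd (Finset.mem_univ _) h2
    · apply Finset.sum_eq_zero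
      intro q _
      rw [if_neg]
      omega
  · split_ifs with h
    · rw [Finset.sum_eq_single ⟨p + 1, h⟩]
      · simp
      · intro b _ hb
        rw [if_neg]
        intro h2
        exact hb (Fin.ext h2.symm)
      · intro h2
        exact absurd (Finset.mem_univ _) h2
    · apply Finset.sum_eq_zero
      intro q _
      rw [if_neg]
      omega

/-- a single Kronecker block -/
lemma pdec_kron {P Y : Type} [AddCommGroup P] [Module ℂ P] [AddCommGroup Y] [Module ℂ Y] (F G : P →ₗ[ℂ] Y)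
    (k : ℕ) (e : Basis (Fin k) ℂ P) (y : Basis (Fin (k + 1)) ℂ Y)
    (h : ∀ p : Fin k, F (e p) = y p.castSucc ∧ G (e p) = y p.succ) :
    PDec F G (fun _ : Unit => Block.kron k) := by
  refine ⟨e.reindex (Equiv.uniqueSigma (fun _ : Unit => Fin k)).symm,
    y.reindex (Equiv.uniqueSigma (fun _ : Unit => Fin (k + 1))).symm, ?_⟩
  rintro ⟨⟩ (p : Fin k)
  have he : (e.reindex (Equiv.uniqueSigma (fun _ : Unit => Fin k)).symm) ⟨(), p⟩ = e p := by
    rw [Basis.reindex_apply]
    rfl
  have hy : ∀ q, (y.reindex (Equiv.uniqueSigma (fun _ : Unit => Fin (k + 1))).symm) ⟨(), q⟩ = y q := by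
    intro q
    rw [Basis.reindex_apply]
    rfl
  have hp : (p : ℕ) < k := p.2
  have h1 := sum_ent (k + 1) p y 1 0
  have h2 := sum_ent (k + 1) p y 0 1
  rw [dif_pos (by omega)] at h1
  rw [dif_pos (show (p : ℕ) + 1 < k + 1 by omega)] at h2
  have h3 : (if h : (p : ℕ) + 1 < k + 1 then (0 : ℂ) • y ⟨p + 1, h⟩ else 0) = 0 := by
    split_ifs <;> simp
  have h4 : (if h : (p : ℕ) < k + 1 then (0 : ℂ) • y ⟨p, h⟩ else 0) = 0 := by
    split_ifs <;> simp
  rw [h3, add_zero, one_smul] at h1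
  rw [h4, zero_add, one_smul] at h2
  have hA : ∑ q : Fin (k + 1), (if (p : ℕ) = (q : ℕ) then (1 : ℂ) else 0) •
      (y.reindex (Equiv.uniqueSigma (fun _ : Unit => Fin (k + 1))).symm) ⟨(), q⟩ = y ⟨p, by omega⟩ := by
    rw [← h1]
    apply Finset.sum_congr rfl
    intro q _
    rw [hy, ite_self]
  have hB : ∑ q : Fin (k + 1), (if (p : ℕ) + 1 = (q : ℕ) then (1 : ℂ) else 0) •
      (y.reindex (Equiv.uniqueSigma (fun _ : Unit => Fin (k + 1))).symm) ⟨(), q⟩ = y ⟨p + 1, by omega⟩ := by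
    rw [← h2]
    apply Finset.sum_congr rfl
    intro q _
    rw [hy]
    congr 1
    split_ifs <;> first | rfl | omega
  obtain ⟨hF, hG⟩ := h p
  constructor
  · refine (congrArg F he).trans (hF.trans ?_)
    exact hA.symm
  · refine (congrArg G he).trans (hG.trans ?_)
    exact hB.symm

/-- a single Jordan block -/
lemma pdec_jord {P Y : Type} [AddCommGroup P] [Module ℂ P] [AddCommGroup Y] [Module ℂ Y] (F G : P →ₗ[ℂ] Y)
    (n : ℕ) (μ : ℂ) (e : Basis (Fin n) ℂ P) (y : Basis (Fin n) ℂ Y)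
    (h : ∀ p : Fin n, F (e p) = μ • y p + (if h : (p : ℕ) + 1 < n then y ⟨p + 1, h⟩ else 0) ∧ G (e p) = y p) :
    PDec F G (fun _ : Unit => Block.jord n (some μ)) := by
  refine ⟨e.reindex (Equiv.uniqueSigma (fun _ : Unit => Fin n)).symm,
    y.reindex (Equiv.uniqueSigma (fun _ : Unit => Fin n)).symm, ?_⟩
  rintro ⟨⟩ (p : Fin n)
  have he : (e.reindex (Equiv.uniqueSigma (fun _ : Unit => Fin n)).symm) ⟨(), p⟩ = e p := by
    rw [Basis.reindex_apply]
    rfl
  have hy : ∀ q, (y.reindex (Equiv.uniqueSigma (fun _ : Unit => Fin n)).symm) ⟨(), q⟩ = y q := by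
    intro q
    rw [Basis.reindex_apply]
    rfl
  have hp : (p : ℕ) < n := p.2
  have h1 := sum_ent n p y μ 1
  have h2 := sum_ent n p y 1 0
  rw [dif_pos hp] at h1 h2
  have h3 : (if h : (p : ℕ) + 1 < n then (0 : ℂ) • y ⟨p + 1, h⟩ else 0) = 0 := by
    split_ifs <;> simp
  rw [h3, add_zero, one_smul] at h2
  have hA : ∑ q : Fin n, (if (p : ℕ) = (q : ℕ) then μ else if (p : ℕ) + 1 = (q : ℕ) then (1 : ℂ) else 0) •
      (y.reindex (Equiv.uniqueSigma (fun _ : Unit => Fin n)).symm) ⟨(), q⟩ =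
      μ • y p + (if h : (p : ℕ) + 1 < n then y ⟨p + 1, h⟩ else 0) := by
    have h5 : (if h : (p : ℕ) + 1 < n then y ⟨p + 1, h⟩ else 0) =
        (if h : (p : ℕ) + 1 < n then (1 : ℂ) • y ⟨p + 1, h⟩ else 0) := by
      simp only [one_smul]
    rw [h5, ← h1]
    apply Finset.sum_congr rfl
    intro q _
    rw [hy]
  have hB : ∑ q : Fin n, (if (p : ℕ) = (q : ℕ) then (1 : ℂ) else 0) •
      (y.reindex (Equiv.uniqueSigma (fun _ : Unit => Fin n)).symm) ⟨(), q⟩ = y p := by
    rw [← h2]
    apply Finset.sum_congr rfl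
    intro q _
    rw [hy, ite_self]
  obtain ⟨hF, hG⟩ := h p
  constructor
  · refine (congrArg F he).trans (hF.trans ?_)
    exact hA.symm
  · refine (congrArg G he).trans (hG.trans ?_)
    exact hB.symm

lemma kron_block (k : ℕ) (x1 x2 a1 a2 : ℂ) (hD : x1 * a2 - x2 * a1 ≠ 0) :
    PDec (x1 • inc k + x2 • sft k (k + 1)) (a1 • inc k + a2 • sft k (k + 1)) (fun _ : Unit => Block.kron k) := by
  have key : ∀ (c d : ℂ) (f : Polynomial ℂ), f.coeff k = 0 →
      (c • inc k + d • sft k (k + 1)) (cf k f) = cf (k + 1) (lin c d * f) := by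
    intro c d f hf
    rw [LinearMap.add_apply, LinearMap.smul_apply, LinearMap.smul_apply, inc_cf k f hf, sft_cf k (k + 1) f le_rfl,
      ← map_smul, ← map_smul, ← map_add]
    congr 1
    unfold lin
    rw [Polynomial.smul_eq_C_mul, Polynomial.smul_eq_C_mul]
    ring
  apply pdec_kron _ _ k (bas x1 x2 a1 a2 hD k) (bas x1 x2 a1 a2 hD (k + 1))
  intro p
  have hp : (p : ℕ) < k := p.2
  have hc := prod_coeff x1 x2 a1 a2 k p hp
  rw [bas_apply, bas_apply, bas_apply, key _ _ _ hc, key _ _ _ hc, Fin.val_castSucc, Fin.val_succ]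
  constructor
  · congr 1
    have : k + 1 - 1 - (p : ℕ) = (k - 1 - p) + 1 := by omega
    rw [this]
    ring
  · congr 1
    have : k + 1 - 1 - ((p : ℕ) + 1) = (k - 1 - p) := by omega
    rw [this]
    ring

/-- multiplication by `c + d X` in the model of the Jordan block -/
noncomputable def mul1 (n : ℕ) (c d : ℂ) : (Fin n → ℂ) →ₗ[ℂ] (Fin n → ℂ) := c • LinearMap.id + d • sft n n

lemma mul1_cf (n : ℕ) (c d : ℂ) (f : Polynomial ℂ) : mul1 n c d (cf n f) = cf n (lin c d * f) := by
  unfold mul1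
  rw [LinearMap.add_apply, LinearMap.smul_apply, LinearMap.smul_apply, LinearMap.id_apply, sft_cf n n f (by omega),
    ← map_smul, ← map_smul, ← map_add]
  congr 1
  unfold lin
  rw [Polynomial.smul_eq_C_mul, Polynomial.smul_eq_C_mul]
  ring

lemma mul1_inj (n : ℕ) (c d : ℂ) (hc : c ≠ 0) : Function.Injective (mul1 n c d) := by
  rw [← LinearMap.ker_eq_bot, LinearMap.ker_eq_bot']
  intro v hv
  have h1 : ∀ q : Fin n, v q = 0 := by
    intro q
    obtain ⟨q, hq⟩ := q
    induction q using Nat.strong_induction_on with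
    | _ q ih =>
      have h2 := congrFun hv ⟨q, hq⟩
      simp only [mul1, LinearMap.add_apply, LinearMap.smul_apply, LinearMap.id_apply, Pi.add_apply,
        Pi.smul_apply, sft, LinearMap.coe_mk, AddHom.coe_mk, smul_eq_mul, Pi.zero_apply] at h2
      have h3 : (if h : 1 ≤ q ∧ q - 1 < n then v ⟨q - 1, h.2⟩ else 0) = 0 := by
        split_ifs with h
        · exact ih (q - 1) (by omega) _
        · rfl
      rw [h3, mul_zero, add_zero] at h2
      exact (mul_eq_zero.1 h2).resolve_left hc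
  funext q
  exact h1 q

lemma cf_X_pow (n m : ℕ) (hm : n ≤ m) (f : Polynomial ℂ) : cf n (X ^ m * f) = 0 := by
  funext i
  rw [cf_apply, Polynomial.coeff_X_pow_mul', if_neg (by omega)]
  rfl

lemma jord_block (n : ℕ) (lam x1 x2 a1 a2 : ℂ) (hD : x1 * a2 - x2 * a1 ≠ 0) (hb : a1 * lam + a2 ≠ 0) :
    PDec (x1 • mul1 n lam 1 + x2 • LinearMap.id) (a1 • mul1 n lam 1 + a2 • LinearMap.id)
      (fun _ : Unit => Block.jord n (some ((x1 * lam + x2) / (a1 * lam + a2)))) := by
  set β := a1 * lam + a2 with hβ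
  set α := x1 * lam + x2 with hα
  set c := (x1 * a2 - x2 * a1) / β with hc
  have hc0 : c ≠ 0 := div_ne_zero hD hb
  have hD' : β * c - a1 * 0 ≠ 0 := by
    rw [mul_zero, sub_zero]
    exact mul_ne_zero hb hc0
  have hF : x1 • mul1 n lam 1 + x2 • LinearMap.id = mul1 n α x1 := by
    unfold mul1
    rw [hα]
    module
  have hG : a1 • mul1 n lam 1 + a2 • LinearMap.id = mul1 n β a1 := by
    unfold mul1
    rw [hβ]
    module
  rw [hF, hG]
  have hinj := mul1_inj n β a1 hb
  let u : (Fin n → ℂ) ≃ₗ[ℂ] (Fin n → ℂ) := LinearEquiv.ofInjectiveEndo (mul1 n β a1) hinj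
  have hu : ∀ v, u v = mul1 n β a1 v := fun v => rfl
  apply pdec_jord _ _ n (α / β) (bas β a1 0 c hD' n) ((bas β a1 0 c hD' n).map u)
  intro p
  have hp : (p : ℕ) < n := p.2
  constructor
  · rw [Basis.map_apply, hu, bas_apply, mul1_cf, mul1_cf]
    have e1 : lin α x1 = C (α / β) * lin β a1 + C c * X := by
      unfold lin
      have h1 : α = α / β * β := by field_simp
      have h2 : x1 = α / β * a1 + c := by
        rw [hc, div_mul_eq_mul_div, ← add_div, eq_div_iff hb, hα, hβ]
        ring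
      have h3 : C α = C (α / β) * C β := by rw [← Polynomial.C_mul, ← h1]
      have h4 : C x1 = C (α / β) * C a1 + C c := by rw [← Polynomial.C_mul, ← Polynomial.C_add, ← h2]
      rw [h3, h4]
      ring
    have e2 : lin 0 c = C c * X := by
      unfold lin
      simp
    rw [e1, add_mul, map_add, mul_assoc (C (α / β)), ← Polynomial.smul_eq_C_mul, map_smul]
    congr 1
    split_ifs with h
    · rw [Basis.map_apply, hu, bas_apply, mul1_cf]
      congr 1
      rw [e2]
      have : n - 1 - (p : ℕ) = (n - 1 - (p + 1)) + 1 := by omega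
      simp only [this]
      ring
    · have hpn : (p : ℕ) + 1 = n := by omega
      have e3 : C c * X * (lin β a1 ^ (n - 1 - (p : ℕ)) * lin 0 c ^ (p : ℕ)) =
          X ^ n * (C c ^ ((p : ℕ) + 1) * lin β a1 ^ (n - 1 - (p : ℕ))) := by
        rw [e2]
        conv_rhs => rw [show X ^ n = X ^ ((p : ℕ) + 1) from by rw [hpn]]
        ring
      rw [e3]
      exact cf_X_pow n n le_rfl _
  · rw [Basis.map_apply, hu]

/-! ### the model of a family of blocks -/

/-- the first map of the model -/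
noncomputable def FAm : (b : Block) → (Fin b.P → ℂ) →ₗ[ℂ] (Fin b.Q → ℂ)
  | .kron k => inc k
  | .jord n (some lam) => mul1 n lam 1
  | .jord _ none => 0

/-- the second map of the model -/
noncomputable def FBm : (b : Block) → (Fin b.P → ℂ) →ₗ[ℂ] (Fin b.Q → ℂ)
  | .kron k => sft k (k + 1)
  | .jord _ (some _) => LinearMap.id
  | .jord _ none => 0

/-- the change of the eigenvalue -/
noncomputable def mob (x1 x2 a1 a2 : ℂ) : Block → Block
  | .kron k => .kron k
  | .jord n (some lam) => .jord n (some ((x1 * lam + x2) / (a1 * lam + a2)))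
  | .jord n none => .jord n none

/-- the new eigenvalue is finite -/
def fnt (a1 a2 : ℂ) : Block → Prop
  | .kron _ => True
  | .jord _ (some lam) => a1 * lam + a2 ≠ 0
  | .jord _ none => False

lemma model (x1 x2 a1 a2 : ℂ) (hD : x1 * a2 - x2 * a1 ≠ 0) (b : Block) (hb : fnt a1 a2 b) :
    PDec (x1 • FAm b + x2 • FBm b) (a1 • FAm b + a2 • FBm b) (fun _ : Unit => mob x1 x2 a1 a2 b) := by
  match b, hb with
  | .kron k, _ => exact kron_block k x1 x2 a1 a2 hD
  | .jord n (some lam), hb => exact jord_block n lam x1 x2 a1 a2 hD hb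

/-- the first map of the model of a family -/
noncomputable def FF {ι : Type} (blk : ι → Block) : (∀ a, Fin (blk a).P → ℂ) →ₗ[ℂ] (∀ a, Fin (blk a).Q → ℂ) :=
  LinearMap.pi (fun a => FAm (blk a) ∘ₗ LinearMap.proj a)

/-- the second map of the model of a family -/
noncomputable def GG {ι : Type} (blk : ι → Block) : (∀ a, Fin (blk a).P → ℂ) →ₗ[ℂ] (∀ a, Fin (blk a).Q → ℂ) :=
  LinearMap.pi (fun a => FBm (blk a) ∘ₗ LinearMap.proj a)

lemma family {ι : Type} [Fintype ι] (blk : ι → Block) (x1 x2 a1 a2 : ℂ) (hD : x1 * a2 - x2 * a1 ≠ 0)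
    (hb : ∀ i, fnt a1 a2 (blk i)) :
    PDec (x1 • FF blk + x2 • GG blk) (a1 • FF blk + a2 • GG blk) (fun i => mob x1 x2 a1 a2 (blk i)) := by
  have h := PDec.pi (fun a => model x1 x2 a1 a2 hD (blk a) (hb a))
  have h2 := PDec.reindex h (Equiv.sigmaUnique ι (fun _ => Unit)) (blk' := fun i => mob x1 x2 a1 a2 (blk i))
    (fun i => rfl)
  have e1 : x1 • FF blk + x2 • GG blk =
      LinearMap.pi (fun a => (x1 • FAm (blk a) + x2 • FBm (blk a)) ∘ₗ LinearMap.proj a) := rfl
  have e2 : a1 • FF blk + a2 • GG blk =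
      LinearMap.pi (fun a => (a1 • FAm (blk a) + a2 • FBm (blk a)) ∘ₗ LinearMap.proj a) := rfl
  rw [e1, e2]
  exact h2

/-- the standard eigenvalues -/
noncomputable def mu0 (T : AlgType) (g : Fin T.jordan.length) : Option ℂ := some ((g : ℕ) : ℂ)

/-- the new eigenvalues -/
noncomputable def mu1 (T : AlgType) (x1 x2 a1 a2 : ℂ) (g : Fin T.jordan.length) : Option ℂ :=
  some ((x1 * ((g : ℕ) : ℂ) + x2) / (a1 * ((g : ℕ) : ℂ) + a2))

lemma mob_blocks (T : AlgType) (x1 x2 a1 a2 : ℂ) (i : T.Idx) :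
    mob x1 x2 a1 a2 (T.blocks (mu0 T) i) = T.blocks (mu1 T x1 x2 a1 a2) i := by
  rcases i with i | i <;> rfl

lemma fnt_blocks (T : AlgType) (a1 a2 : ℂ) (h : ∀ g : Fin T.jordan.length, a1 * ((g : ℕ) : ℂ) + a2 ≠ 0)
    (i : T.Idx) : fnt a1 a2 (T.blocks (mu0 T) i) := by
  rcases i with i | i
  · trivial
  · exact h i.1

lemma mu1_inj (T : AlgType) (x1 x2 a1 a2 : ℂ) (hD : x1 * a2 - x2 * a1 ≠ 0)
    (h : ∀ g : Fin T.jordan.length, a1 * ((g : ℕ) : ℂ) + a2 ≠ 0) : Function.Injective (mu1 T x1 x2 a1 a2) := by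
  intro g g' hg
  simp only [mu1, Option.some.injEq] at hg
  rw [div_eq_div_iff (h g) (h g')] at hg
  have h1 : (x1 * a2 - x2 * a1) * (((g : ℕ) : ℂ) - ((g' : ℕ) : ℂ)) = 0 := by
    linear_combination hg
  have h2 : ((g : ℕ) : ℂ) = ((g' : ℕ) : ℂ) := by
    have := (mul_eq_zero.1 h1).resolve_left hD
    exact sub_eq_zero.1 this
  exact Fin.ext (by exact_mod_cast h2)

lemma zero_dec (κ : Type) [Fintype κ] [DecidableEq κ] :
    PDec (0 : PUnit →ₗ[ℂ] (κ → ℂ)) 0 (fun _ : κ => Block.kron 0) := by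
  have : IsEmpty (Σ _ : κ, Fin (Block.kron 0).P) := ⟨fun x => (x.2 : Fin 0).elim0⟩
  refine ⟨Basis.empty _, (Pi.basisFun ℂ κ).reindex (Equiv.sigmaUnique κ (fun _ => Fin 1)).symm, ?_⟩
  intro i p
  exact (p : Fin 0).elim0

/-- the conclusion of `realisable_of_abelian` -/
lemma gen_main {Y : Type} [AddCommGroup Y] [Module ℂ Y] (T : AlgType) (φ ψ : Dual ℂ Y)
    (hφ : LinearIndependent ℂ ![φ, ψ]) :
    GenPair Y (fun ξ η => φ ξ * ψ η - ψ ξ * φ η ≠ 0 ∧
      ∀ g : Fin T.jordan.length, φ η * ((g : ℕ) : ℂ) + ψ η ≠ 0) := by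
  apply GenPair.and (GenPair.cross φ ψ hφ)
  apply GenPair.all
  intro g
  have h1 : ((g : ℕ) : ℂ) • φ + ψ ≠ 0 := by
    intro h
    have := (LinearIndependent.pair_iff.1 hφ) ((g : ℕ) : ℂ) 1 (by rw [one_smul]; exact h)
    exact one_ne_zero this.2
  refine GenPair.mono (GenPair.right (((g : ℕ) : ℂ) • φ + ψ) h1) ?_
  intro ξ η h
  simp only [LinearMap.add_apply, LinearMap.smul_apply, smul_eq_mul] at h
  rw [mul_comm]
  exact h

lemma caseI (T : AlgType) (j1 j2 : Fin T.kron.length) (hne : j1 ≠ j2) (h1 : T.kron.get j1 = 0)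
    (h2 : T.kron.get j2 = 0) : Realisable T := by
  classical
  let p : T.Idx → Prop := fun i => i ≠ Sum.inl j1 ∧ i ≠ Sum.inl j2
  let κ : Type := {i : T.Idx // ¬ p i}
  let k1 : κ := ⟨Sum.inl j1, fun h => h.1 rfl⟩
  let k2 : κ := ⟨Sum.inl j2, fun h => h.2 rfl⟩
  have hk : k1 ≠ k2 := by
    intro h
    have := congrArg Subtype.val h
    exact hne (Sum.inl.inj this)
  let blk : {i : T.Idx // p i} → Block := fun i => T.blocks (mu0 T) i.1
  let P : Type := ∀ a, Fin (blk a).P → ℂ
  let Y0 : Type := ∀ a, Fin (blk a).Q → ℂ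
  let ρ : P →ₗ[ℂ] (Y0 × (κ → ℂ)) →ₗ[ℂ] (Y0 × (κ → ℂ)) :=
    LinearMap.mk₂ ℂ (fun p y => (y.2 k1 • FF blk p + y.2 k2 • GG blk p, 0))
      (by
        intro p p' y
        refine Prod.ext ?_ ?_
        · simp only [map_add, Prod.fst_add]
          module
        · simp)
      (by
        intro c p y
        refine Prod.ext ?_ ?_
        · simp only [map_smul, Prod.smul_fst]
          module
        · simp)
      (by
        intro p y y'
        refine Prod.ext ?_ ?_
        · simp only [Prod.snd_add, Pi.add_apply, Prod.fst_add]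
          module
        · simp)
      (by
        intro c p y
        refine Prod.ext ?_ ?_
        · simp only [Prod.smul_snd, Pi.smul_apply, Prod.smul_fst, smul_eq_mul]
          module
        · simp)
  have hρ : ∀ p y, ρ p y = (y.2 k1 • FF blk p + y.2 k2 • GG blk p, 0) := fun p y => rfl
  apply realisable_of_abelian ρ
  · intro p p' y
    rw [hρ, hρ, hρ, hρ]
    simp
  · let φ : Dual ℂ (Y0 × (κ → ℂ)) := LinearMap.proj k1 ∘ₗ LinearMap.snd ℂ Y0 (κ → ℂ)
    let ψ : Dual ℂ (Y0 × (κ → ℂ)) := LinearMap.proj k2 ∘ₗ LinearMap.snd ℂ Y0 (κ → ℂ)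
    have hφ : ∀ y, φ y = y.2 k1 := fun y => rfl
    have hψ : ∀ y, ψ y = y.2 k2 := fun y => rfl
    have hind : LinearIndependent ℂ ![φ, ψ] := by
      rw [LinearIndependent.pair_iff]
      intro s t hst
      have e1 := LinearMap.congr_fun hst (0, Pi.single k1 1)
      have e2 := LinearMap.congr_fun hst (0, Pi.single k2 1)
      simp only [LinearMap.add_apply, LinearMap.smul_apply, hφ, hψ, Pi.single_eq_same, smul_eq_mul,
        LinearMap.zero_apply, Pi.single_eq_of_ne hk, Pi.single_eq_of_ne hk.symm] at e1 e2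
      constructor
      · simpa using e1
      · simpa using e2
    refine GenPair.mono (gen_main T φ ψ hind) ?_
    rintro ξ η ⟨hD, hg⟩
    rw [hφ, hψ, hψ, hφ] at hD
    simp only [hφ, hψ] at hg
    refine ⟨mu1 T (ξ.2 k1) (ξ.2 k2) (η.2 k1) (η.2 k2), mu1_inj T _ _ _ _ hD hg, ?_⟩
    have hfam := family blk (ξ.2 k1) (ξ.2 k2) (η.2 k1) (η.2 k2) hD (fun i => fnt_blocks T _ _ hg i.1)
    have hprod := PDec.prod hfam (zero_dec κ)
    have hcongr : PDec (ρ.flip ξ) (ρ.flip η) _ :=
      PDec.congr hprod (LinearEquiv.prodUnique : (P × PUnit) ≃ₗ[ℂ] P) (LinearEquiv.refl ℂ (Y0 × (κ → ℂ)))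
        (fun p => rfl) (fun p => rfl)
    refine PDec.reindex hcongr (Equiv.sumCompl p) ?_
    rintro (i | i)
    · exact (mob_blocks T _ _ _ _ i.1).symm
    · have hi : i.1 = Sum.inl j1 ∨ i.1 = Sum.inl j2 := by
        by_contra hcon
        rw [not_or] at hcon
        exact i.2 hcon
      change T.blocks (mu1 T (ξ.2 k1) (ξ.2 k2) (η.2 k1) (η.2 k2)) i.1 = Block.kron 0
      rcases hi with hi | hi
      · rw [hi]
        change Block.kron (T.kron.get j1) = _
        rw [h1]
      · rw [hi]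
        change Block.kron (T.kron.get j2) = _
        rw [h2]

lemma one_dec : PDec (LinearMap.inl ℂ ℂ ℂ) (LinearMap.inr ℂ ℂ ℂ) (fun _ : Unit => Block.kron 1) := by
  apply pdec_kron _ _ 1 (Basis.singleton (Fin 1) ℂ) (Basis.finTwoProd ℂ)
  intro p
  have : p = 0 := Subsingleton.elim _ _
  subst this
  constructor
  · rw [Basis.singleton_apply]
    change _ = Basis.finTwoProd ℂ 0
    rw [Basis.finTwoProd_zero]
    rfl
  · rw [Basis.singleton_apply]
    change _ = Basis.finTwoProd ℂ 1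
    rw [Basis.finTwoProd_one]
    rfl

lemma caseII (T : AlgType) (j1 : Fin T.kron.length) (h1 : T.kron.get j1 = 1) : Realisable T := by
  classical
  let p : T.Idx → Prop := fun i => i ≠ Sum.inl j1
  let κ : Type := {i : T.Idx // ¬ p i}
  let e0 : Unit ≃ κ :=
    { toFun := fun _ => ⟨Sum.inl j1, fun h => h rfl⟩
      invFun := fun _ => ()
      left_inv := fun _ => rfl
      right_inv := fun i => Subtype.ext (not_not.1 i.2).symm }
  let blk : {i : T.Idx // p i} → Block := fun i => T.blocks (mu0 T) i.1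
  let P0 : Type := ∀ a, Fin (blk a).P → ℂ
  let Y0 : Type := ∀ a, Fin (blk a).Q → ℂ
  let ρ : (P0 × ℂ) →ₗ[ℂ] (Y0 × (ℂ × ℂ)) →ₗ[ℂ] (Y0 × (ℂ × ℂ)) :=
    LinearMap.mk₂ ℂ (fun p y => (y.2.1 • FF blk p.1 + y.2.2 • GG blk p.1 + p.2 • y.1, p.2 • y.2))
      (by
        intro p p' y
        refine Prod.ext ?_ ?_
        · simp only [map_add, Prod.fst_add, Prod.snd_add]
          module
        · simp only [Prod.snd_add]
          module)
      (by
        intro c p y
        refine Prod.ext ?_ ?_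
        · simp only [map_smul, Prod.smul_fst, Prod.smul_snd, smul_eq_mul]
          module
        · simp only [Prod.smul_snd, smul_eq_mul]
          module)
      (by
        intro p y y'
        refine Prod.ext ?_ ?_
        · simp only [Prod.snd_add, Prod.fst_add]
          module
        · simp only [Prod.snd_add]
          module)
      (by
        intro c p y
        refine Prod.ext ?_ ?_
        · simp only [Prod.smul_snd, Prod.smul_fst, smul_eq_mul]
          module
        · simp only [Prod.smul_snd]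
          module)
  have hρ : ∀ p y, ρ p y = (y.2.1 • FF blk p.1 + y.2.2 • GG blk p.1 + p.2 • y.1, p.2 • y.2) := fun p y => rfl
  apply realisable_of_abelian ρ
  · intro p p' y
    rw [hρ, hρ, hρ, hρ]
    refine Prod.ext ?_ ?_
    · simp only [Prod.smul_fst, Prod.smul_snd, smul_eq_mul]
      module
    · simp only
      module
  · let φ : Dual ℂ (Y0 × (ℂ × ℂ)) := LinearMap.fst ℂ ℂ ℂ ∘ₗ LinearMap.snd ℂ Y0 (ℂ × ℂ)
    let ψ : Dual ℂ (Y0 × (ℂ × ℂ)) := LinearMap.snd ℂ ℂ ℂ ∘ₗ LinearMap.snd ℂ Y0 (ℂ × ℂ)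
    have hφ : ∀ y, φ y = y.2.1 := fun y => rfl
    have hψ : ∀ y, ψ y = y.2.2 := fun y => rfl
    have hind : LinearIndependent ℂ ![φ, ψ] := by
      rw [LinearIndependent.pair_iff]
      intro s t hst
      have e1 := LinearMap.congr_fun hst (0, (1, 0))
      have e2 := LinearMap.congr_fun hst (0, (0, 1))
      simp only [LinearMap.add_apply, LinearMap.smul_apply, hφ, hψ, smul_eq_mul,
        LinearMap.zero_apply] at e1 e2
      constructor
      · simpa using e1
      · simpa using e2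
    refine GenPair.mono (gen_main T φ ψ hind) ?_
    rintro ξ η ⟨hD, hg⟩
    rw [hφ, hψ, hψ, hφ] at hD
    simp only [hφ, hψ] at hg
    refine ⟨mu1 T ξ.2.1 ξ.2.2 η.2.1 η.2.2, mu1_inj T _ _ _ _ hD hg, ?_⟩
    have hfam := family blk ξ.2.1 ξ.2.2 η.2.1 η.2.2 hD (fun i => fnt_blocks T _ _ hg i.1)
    have hprod := PDec.prod hfam one_dec
    let f : (Y0 × (ℂ × ℂ)) →ₗ[ℂ] (Y0 × (ℂ × ℂ)) :=
      { toFun := fun y => (y.1 + y.2.1 • ξ.1 + y.2.2 • η.1, y.2.1 • ξ.2 + y.2.2 • η.2)
        map_add' := by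
          intro y y'
          refine Prod.ext ?_ ?_
          · simp only [Prod.fst_add, Prod.snd_add]
            module
          · simp only [Prod.fst_add, Prod.snd_add]
            module
        map_smul' := by
          intro c y
          refine Prod.ext ?_ ?_
          · simp only [Prod.smul_fst, Prod.smul_snd, smul_eq_mul, RingHom.id_apply]
            module
          · simp only [Prod.smul_fst, Prod.smul_snd, smul_eq_mul, RingHom.id_apply]
            module }
    have hf : ∀ y, f y = (y.1 + y.2.1 • ξ.1 + y.2.2 • η.1, y.2.1 • ξ.2 + y.2.2 • η.2) := fun y => rfl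
    have hinj : Function.Injective f := by
      rw [← LinearMap.ker_eq_bot, LinearMap.ker_eq_bot']
      rintro ⟨y, c, d⟩ hy
      rw [hf] at hy
      have e1 := congrArg (fun z => z.2.1) hy
      have e2 := congrArg (fun z => z.2.2) hy
      have e3 := congrArg (fun z => z.1) hy
      simp only [Prod.smul_fst, Prod.smul_snd, smul_eq_mul, Prod.fst_add, Prod.snd_add, Prod.fst_zero,
        Prod.snd_zero] at e1 e2 e3
      have hc : c = 0 := by
        have : (ξ.2.1 * η.2.2 - ξ.2.2 * η.2.1) * c = 0 := by linear_combination η.2.2 * e1 - η.2.1 * e2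
        exact (mul_eq_zero.1 this).resolve_left hD
      have hd : d = 0 := by
        have : (ξ.2.1 * η.2.2 - ξ.2.2 * η.2.1) * d = 0 := by linear_combination ξ.2.1 * e2 - ξ.2.2 * e1
        exact (mul_eq_zero.1 this).resolve_left hD
      rw [hc, hd, zero_smul, zero_smul, add_zero, add_zero] at e3
      rw [hc, hd, e3]
      rfl
    have hcongr : PDec (ρ.flip ξ) (ρ.flip η) _ :=
      PDec.congr hprod (LinearEquiv.refl ℂ (P0 × ℂ)) (LinearEquiv.ofInjectiveEndo f hinj)
        (fun p => by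
          change (_ : Y0 × (ℂ × ℂ)) = f _
          rw [hf]
          refine Prod.ext ?_ ?_
          · change ξ.2.1 • FF blk p.1 + ξ.2.2 • GG blk p.1 + p.2 • ξ.1 =
              (ξ.2.1 • FF blk p.1 + ξ.2.2 • GG blk p.1) + p.2 • ξ.1 + (0 : ℂ) • η.1
            rw [zero_smul, add_zero]
          · change p.2 • ξ.2 = p.2 • ξ.2 + (0 : ℂ) • η.2
            rw [zero_smul, add_zero])
        (fun p => by
          change (_ : Y0 × (ℂ × ℂ)) = f _
          rw [hf]
          refine Prod.ext ?_ ?_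
          · change η.2.1 • FF blk p.1 + η.2.2 • GG blk p.1 + p.2 • η.1 =
              (η.2.1 • FF blk p.1 + η.2.2 • GG blk p.1) + (0 : ℂ) • ξ.1 + p.2 • η.1
            rw [zero_smul, add_zero]
          · change p.2 • η.2 = (0 : ℂ) • ξ.2 + p.2 • η.2
            rw [zero_smul, zero_add])
    refine PDec.reindex hcongr ((Equiv.sumCongr (Equiv.refl _) e0).trans (Equiv.sumCompl p)) ?_
    rintro (i | i)
    · exact (mob_blocks T _ _ _ _ i.1).symm
    · change Block.kron (T.kron.get j1) = Block.kron 1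
      rw [h1]

end THAaux

open THAaux in
theorem theoremA (T : AlgType) (hT : 2 ≤ T.kron.count 0 ∨ 1 ∈ T.kron) : Realisable T := by
  rcases hT with h | h
  · rw [← List.duplicate_iff_two_le_count, List.duplicate_iff_exists_distinct_get] at h
    obtain ⟨j1, j2, hlt, h1, h2⟩ := h
    exact caseI T j1 j2 hlt.ne h1.symm h2.symm
  · obtain ⟨j1, h1⟩ := List.mem_iff_get.1 h
    exact caseII T j1 h1

end P8H59.JK
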