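import Pool.Agent.P8H59.JK.Defs

/-!
# Project JK, package TR: the truncated polynomial ring `ℂ[t]/(t^(n+1))`
-/

namespace P8H59.JK

open Module

/-- `ℂ[t]/(t^(n+1))` -/
abbrev R (n : ℕ) : Type := AdjoinRoot (Polynomial.X ^ (n + 1) : Polynomial ℂ)

/-- The coefficient of `t^i`. -/
noncomputable def co (n i : ℕ) : R n →ₗ[ℂ] ℂ :=
  Polynomial.lcoeff ℂ i ∘ₗ AdjoinRoot.modByMonicHom (Polynomial.monic_X_pow (n + 1))

instance (n : ℕ) : FiniteDimensional ℂ (R n) :=
  (AdjoinRoot.powerBasis' (Polynomial.monic_X_pow (R := ℂ) (n + 1))).finite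

theorem finrank_R (n : ℕ) : finrank ℂ (R n) = n + 1 := by
  rw [(AdjoinRoot.powerBasis' (Polynomial.monic_X_pow (R := ℂ) (n + 1))).finrank]
  simp

theorem co_mk (n i : ℕ) (hi : i ≤ n) (f : Polynomial ℂ) :
    co n i (AdjoinRoot.mk _ f) = f.coeff i := by
  have h1 : co n i (AdjoinRoot.mk _ f) = (f %ₘ (Polynomial.X ^ (n + 1))).coeff i := by
    rw [co, LinearMap.comp_apply, AdjoinRoot.modByMonicHom_mk, Polynomial.lcoeff_apply]
  have h2 := Polynomial.modByMonic_add_div f (Polynomial.X ^ (n + 1) : Polynomial ℂ)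
  rw [h1]
  conv_rhs => rw [← h2]
  rw [Polynomial.coeff_add, Polynomial.coeff_X_pow_mul', if_neg (by omega), add_zero]

theorem co_gt (n i : ℕ) (hi : n < i) (x : R n) : co n i x = 0 := by
  obtain ⟨f, rfl⟩ := AdjoinRoot.mk_surjective x
  rw [co, LinearMap.comp_apply, AdjoinRoot.modByMonicHom_mk, Polynomial.lcoeff_apply]
  apply Polynomial.coeff_eq_zero_of_degree_lt
  refine lt_of_lt_of_le (Polynomial.degree_modByMonic_lt _ (Polynomial.monic_X_pow (n + 1))) ?_
  rw [Polynomial.degree_X_pow]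
  exact_mod_cast hi

theorem co_algebraMap (n : ℕ) (c : ℂ) : co n 0 (algebraMap ℂ (R n) c) = c := by
  have h : algebraMap ℂ (R n) c = AdjoinRoot.mk _ (Polynomial.C c) := rfl
  rw [h, co_mk n 0 (Nat.zero_le n), Polynomial.coeff_C_zero]

theorem co_mul_zero (n : ℕ) (x y : R n) : co n 0 (x * y) = co n 0 x * co n 0 y := by
  obtain ⟨f, rfl⟩ := AdjoinRoot.mk_surjective x
  obtain ⟨g, rfl⟩ := AdjoinRoot.mk_surjective y
  rw [← map_mul, co_mk n 0 (Nat.zero_le n), co_mk n 0 (Nat.zero_le n), co_mk n 0 (Nat.zero_le n),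
    Polynomial.mul_coeff_zero]

theorem co_mul_one (n : ℕ) (x y : R n) :
    co n 1 (x * y) = co n 0 x * co n 1 y + co n 1 x * co n 0 y := by
  rcases Nat.eq_zero_or_pos n with rfl | hn
  · rw [co_gt 0 1 one_pos, co_gt 0 1 one_pos, co_gt 0 1 one_pos]
    ring
  obtain ⟨f, rfl⟩ := AdjoinRoot.mk_surjective x
  obtain ⟨g, rfl⟩ := AdjoinRoot.mk_surjective y
  rw [← map_mul, co_mk n 1 hn, co_mk n 1 hn, co_mk n 1 hn, co_mk n 0 (Nat.zero_le n),
    co_mk n 0 (Nat.zero_le n), Polynomial.mul_coeff_one]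

theorem pow_eq_zero_of_co (n : ℕ) (x : R n) (h : co n 0 x = 0) : x ^ (n + 1) = 0 := by
  obtain ⟨f, rfl⟩ := AdjoinRoot.mk_surjective x
  rw [co_mk n 0 (Nat.zero_le n)] at h
  rw [← map_pow, AdjoinRoot.mk_eq_zero]
  exact pow_dvd_pow_of_dvd (Polynomial.X_dvd_iff.mpr h) _

theorem isUnit_of_co (n : ℕ) (x : R n) (h : co n 0 x ≠ 0) : IsUnit x := by
  have h0 : co n 0 (x - algebraMap ℂ (R n) (co n 0 x)) = 0 := by
    rw [map_sub, co_algebraMap, sub_self]
  have hnil : IsNilpotent (x - algebraMap ℂ (R n) (co n 0 x)) :=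
    ⟨n + 1, pow_eq_zero_of_co n _ h0⟩
  have hu : IsUnit (algebraMap ℂ (R n) (co n 0 x)) := (IsUnit.mk0 _ h).map _
  have := hnil.isUnit_add_left_of_commute hu (Commute.all _ _)
  rwa [add_sub_cancel] at this

theorem indep_chain {A : Type} [CommRing A] [Algebra ℂ A] (n : ℕ) (x : A) (h1 : x ^ (n + 1) = 0)
    (h0 : x ^ n ≠ 0) : LinearIndependent ℂ (fun q : Fin (n + 1) => x ^ (q : ℕ)) := by
  rw [Fintype.linearIndependent_iff]
  intro g hg
  have key : ∀ m : ℕ, ∀ hm : m < n + 1, g ⟨m, hm⟩ = 0 := by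
    intro m
    induction m using Nat.strong_induction_on with
    | _ m ih =>
      intro hm
      have h2 := congrArg (fun z => x ^ (n - m) * z) hg
      simp only [mul_zero, Finset.mul_sum] at h2
      rw [Finset.sum_eq_single (⟨m, hm⟩ : Fin (n + 1))] at h2
      · rw [mul_smul_comm, ← pow_add, show n - m + m = n by omega] at h2
        exact (smul_eq_zero.mp h2).resolve_right h0
      · intro q _ hq
        rcases lt_or_gt_of_ne (fun h => hq (Fin.ext h) : (q : ℕ) ≠ m) with hlt | hgt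
        · rw [show g q = 0 from ih q hlt q.2, zero_smul, mul_zero]
        · rw [mul_smul_comm, ← pow_add, show n - m + (q : ℕ) = (n + 1) + (q - m - 1) by omega,
            pow_add, h1, zero_mul, smul_zero]
      · simp
  intro q
  exact key q q.2

theorem indep_pow (n : ℕ) (x : R n) (h0 : co n 0 x = 0) (h1 : n = 0 ∨ co n 1 x ≠ 0) :
    LinearIndependent ℂ (fun q : Fin (n + 1) => x ^ (q : ℕ)) := by
  apply indep_chain n x (pow_eq_zero_of_co n x h0)
  rcases Nat.eq_zero_or_pos n with rfl | hn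
  · rw [pow_zero]
    intro h
    have h2 := co_algebraMap 0 1
    rw [map_one, h, map_zero] at h2
    exact zero_ne_one h2
  · have h1' := h1.resolve_left (by omega)
    obtain ⟨f, rfl⟩ := AdjoinRoot.mk_surjective x
    rw [co_mk n 0 (Nat.zero_le n)] at h0
    rw [co_mk n 1 hn] at h1'
    obtain ⟨g, rfl⟩ := Polynomial.X_dvd_iff.mpr h0
    rw [Polynomial.coeff_X_mul] at h1'
    rw [← map_pow]
    intro h
    rw [AdjoinRoot.mk_eq_zero, mul_pow, pow_succ] at h
    have h3 := (mul_dvd_mul_iff_left (pow_ne_zero n Polynomial.X_ne_zero)).mp h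
    rw [Polynomial.X_dvd_iff, Polynomial.coeff_zero_eq_eval_zero, Polynomial.eval_pow,
      ← Polynomial.coeff_zero_eq_eval_zero] at h3
    exact h1' (pow_eq_zero_iff (by omega) |>.mp h3)

theorem exists_co_one (n : ℕ) (hn : 1 ≤ n) : ∃ x : R n, co n 0 x = 0 ∧ co n 1 x = 1 := by
  refine ⟨AdjoinRoot.mk _ Polynomial.X, ?_, ?_⟩
  · rw [co_mk n 0 (Nat.zero_le n), Polynomial.coeff_X_zero]
  · rw [co_mk n 1 hn, Polynomial.coeff_X_one]

end P8H59.JK
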